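import Mathlib
import Pool.Agent.H95R2.TI.Defs

/-!
Project TG (helper95): the theorem of project TI for general linear forms n = (a p + b)/g on the primes
p = p0 mod Q in (x/2, x], with the prime factors = 1 mod 4.
-/

set_option autoImplicit false

open Finset Filter

namespace Pool.Agent.H95R2.TG

open Pool.Agent.H95R2.TI (VM AP DD FS fS cA Lg hk VML ROU II1 II2 LIP TOPN)
open scoped Classical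

/-- data: the linear form n = (a p + b)/g on the primes p = p0 mod Q -/
structure Dat where
  a : ℕ
  b : ℤ
  g : ℕ
  Q : ℕ
  p0 : ℕ

/-- n(p) = (a p + b)/g -/
def nn (D : Dat) (p : ℕ) : ℕ := (((D.a : ℤ) * p + D.b) / (D.g : ℤ)).toNat

/-- admissible data -/
def Good (D : Dat) : Prop :=
  0 < D.a ∧ D.b ≠ 0 ∧ 0 < D.g ∧ 0 < D.Q ∧ 12 ∣ D.Q ∧ Nat.Coprime D.p0 D.Q ∧
  (∀ r : ℕ, r.Prime → (r : ℤ) ∣ (D.a : ℤ) * D.g * D.b → r ∣ D.Q) ∧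
  ∀ p : ℕ, p ≡ D.p0 [MOD D.Q] → D.b.natAbs < p →
    (D.g : ℤ) * (nn D p : ℤ) = (D.a : ℤ) * p + D.b ∧ Nat.Coprime (nn D p) D.Q ∧ nn D p % 4 = 1

/-- primes p = 3 mod 4 with w <= p < u -/
noncomputable def PB (w u : ℝ) : Finset ℕ :=
  (range ⌈u⌉₊).filter (fun p : ℕ => p.Prime ∧ p % 4 = 3 ∧ w ≤ (p : ℝ))

/-- primes p = 1 mod 4 with w <= p < u -/
noncomputable def PG (w u : ℝ) : Finset ℕ :=
  (range ⌈u⌉₊).filter (fun p : ℕ => p.Prime ∧ p % 4 = 1 ∧ w ≤ (p : ℝ))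

/-- primes p < w not dividing Q -/
noncomputable def SQ (Q : ℕ) (w : ℝ) : Finset ℕ :=
  (range ⌈w⌉₊).filter (fun p : ℕ => p.Prime ∧ ¬ p ∣ Q)

/-- product over the primes p < w not dividing Q of (1 - 1/(p-1)) -/
noncomputable def V0 (Q : ℕ) (w : ℝ) : ℝ := ∏ p ∈ SQ Q w, (1 - 1 / ((p : ℝ) - 1))

/-- the singular series, cut at w -/
noncomputable def SG (Q : ℕ) (w : ℝ) : ℝ := ∏ p ∈ SQ Q w, ((p : ℝ) * (p - 2) / (p - 1) ^ 2)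

/-- Q / phi(Q)^2 -/
noncomputable def qf (Q : ℕ) : ℝ := (Q : ℝ) / (Nat.totient Q : ℝ) ^ 2

/-- primes p in (x/2, x], p = p0 mod Q -/
noncomputable def PX (D : Dat) (x : ℝ) : Finset ℕ :=
  (Icc 1 ⌊x⌋₊).filter (fun p : ℕ => p.Prime ∧ x / 2 < (p : ℝ) ∧ p ≡ D.p0 [MOD D.Q])

/-- the members p of PX such that all prime factors of n(p) are >= w -/
noncomputable def AA (D : Dat) (x w : ℝ) : Finset ℕ :=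
  (PX D x).filter (fun p : ℕ => ∀ r : ℕ, r.Prime → r ∣ nn D p → w ≤ (r : ℝ))

/-- the members of AA with d | n(p) and no prime factor = 3 mod 4 of n(p) in [w,u) -/
noncomputable def SS (D : Dat) (x w : ℝ) (d : ℕ) (u : ℝ) : ℝ :=
    (((AA D x w).filter (fun p : ℕ => d ∣ nn D p ∧ ∀ q ∈ PB w u, ¬ q ∣ nn D p)).card : ℝ)

/-- expected number of elements of PX -/
noncomputable def X0 (D : Dat) (x : ℝ) : ℝ :=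
  ((Nat.primeCounting ⌊x⌋₊ : ℝ) - (Nat.primeCounting ⌊x / 2⌋₊ : ℝ)) / (Nat.totient D.Q : ℝ)

/-- squarefree e <= y, all prime factors = 3 mod 4 and in [w,u) -/
noncomputable def QQ (w u y : ℝ) : Finset ℕ :=
  (Icc 1 ⌊y⌋₊).filter
    (fun e : ℕ => Squarefree e ∧ ∀ p : ℕ, p.Prime → p ∣ e → p % 4 = 3 ∧ w ≤ (p : ℝ) ∧ (p : ℝ) < u)

/-- the two functions of the half-dimensional sieve (beta = 1.02): (T^+, T^-), with fuel n -/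
noncomputable def TT (w : ℝ) : ℕ → (ℝ → ℝ → ℝ) × (ℝ → ℝ → ℝ)
  | 0 => (fun _ _ => 1, fun _ _ => 0)
  | n + 1 =>
    (fun y u => 1 - ∑ p ∈ (PB w u).filter (fun p : ℕ => (p : ℝ) ^ (2.02 : ℝ) < y),
        (TT w n).2 (y / p) p / ((p : ℝ) - 1),
     fun y u => 1 - ∑ p ∈ PB w u, (TT w n).1 (y / p) p / ((p : ℝ) - 1))

/-- Selberg's sum -/
noncomputable def JJ (Q k : ℕ) (R : ℝ) : ℝ :=
  ∑ l ∈ (Icc 1 ⌊R⌋₊).filter (fun l : ℕ => Squarefree l ∧ Nat.Coprime l Q), ∏ p ∈ l.primeFactors, hk k p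

/-- number of p in PX such that k | n(p) and n(p)/k is prime -/
noncomputable def PC (D : Dat) (x : ℝ) (k : ℕ) : ℝ :=
  (((PX D x).filter (fun p : ℕ => k ∣ nn D p ∧ (nn D p / k).Prime)).card : ℝ)

/-- the numbers k = q E, q = 3 mod 4 prime, q >= x^0.48, q k <= C x, E composed of primes = 1 mod 4
which are at least w -/
def InK (C x w : ℝ) (k : ℕ) : Prop := ∃ q E : ℕ, k = q * E ∧ q.Prime ∧ q % 4 = 3 ∧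
  x ^ (0.48 : ℝ) ≤ (q : ℝ) ∧ ((q * k : ℕ) : ℝ) ≤ C * x ∧ 0 < E ∧
  ∀ r : ℕ, r.Prime → r ∣ E → r % 4 = 1 ∧ w ≤ (r : ℝ)

noncomputable def KK (C x w : ℝ) : Finset ℕ :=
  (Icc 1 ⌊C * x⌋₊).filter (fun k : ℕ => InK C x w k)

/-- the good primes: all prime factors of n(p) are = 1 mod 4 and at least x^c -/
noncomputable def GP (D : Dat) (x c : ℝ) : Finset ℕ :=
  (PX D x).filter (fun p : ℕ => ∀ r ∈ (nn D p).primeFactors, r % 4 = 1 ∧ x ^ c ≤ (r : ℝ))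

/-! ## The statements -/

/-- A1. Mertens for the two classes mod 4 -/
def MERT : Prop := ∀ M : ℝ, 1 ≤ M → ∀ ε : ℝ, 0 < ε → ∀ᶠ w : ℝ in atTop, ∀ U : ℝ, 1 ≤ U → U ≤ M →
  |∑ p ∈ PB w (w ^ U), 1 / ((p : ℝ) - 1) - Real.log U / 2| ≤ ε ∧
  |∑ p ∈ PG w (w ^ U), 1 / ((p : ℝ) - 1) - Real.log U / 2| ≤ ε

/-- A2. equidistribution on the logarithmic scale (from MERT) -/
def EQD : Prop := ∀ M L ε : ℝ, 1 ≤ M → 0 ≤ L → 0 < ε → ∀ᶠ w : ℝ in atTop,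
  ∀ U : ℝ, 1 ≤ U → U ≤ M → ∀ φ : ℝ → ℝ,
    (∀ s ∈ Set.Icc 1 U, ∀ t ∈ Set.Icc 1 U, |φ s - φ t| ≤ L * |s - t|) →
    (∀ t ∈ Set.Icc 1 U, |φ t| ≤ L) →
    |∑ p ∈ PB w (w ^ U), φ (Real.log p / Real.log w) / ((p : ℝ) - 1) -
      (∫ t in (1 : ℝ)..U, φ t / t) / 2| ≤ ε

/-- A4. PNT in (x/2,x] (lower and crude upper bound) -/
def PNTD : Prop := ∀ ε : ℝ, 0 < ε → ∀ᶠ x : ℝ in atTop,
  (1 - ε) * (x / (2 * Real.log x)) ≤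
    (Nat.primeCounting ⌊x⌋₊ : ℝ) - (Nat.primeCounting ⌊x / 2⌋₊ : ℝ) ∧
  (Nat.primeCounting ⌊x⌋₊ : ℝ) - (Nat.primeCounting ⌊x / 2⌋₊ : ℝ) ≤ x / Real.log x

/-- B1. the fundamental lemma for one d -/
def BASE1 : Prop := ∀ D : Dat, Good D → ∃ C : ℕ, 1 ≤ C ∧ ∃ z0 : ℕ, ∀ b : ℕ, C ≤ b →
  ∀ (x w : ℝ), (z0 : ℝ) ≤ w → w ≤ x →
  ∀ d : ℕ, 0 < d → Nat.Coprime d D.Q → (∀ p : ℕ, p.Prime → p ∣ d → w ≤ (p : ℝ)) →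
    |SS D x w d w - X0 D x * V0 D.Q w / (Nat.totient d : ℝ)| ≤
      (1 / 2 : ℝ) ^ b * (X0 D x * V0 D.Q w / (Nat.totient d : ℝ)) +
      (Real.log x + C) * ∑ e ∈ (Icc 1 ⌊C * w ^ (C * b : ℝ)⌋₊).filter
        (fun e : ℕ => Squarefree e ∧ ∀ p : ℕ, p.Prime → p ∣ e → ¬ p ∣ D.Q ∧ (p : ℝ) < w),
        |(((PX D x).filter (fun p : ℕ => d * e ∣ nn D p)).card : ℝ) -
          X0 D x / (Nat.totient (d * e) : ℝ)|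

/-- B2. the base of the sieve, on average over d (from BASE1 and Bombieri-Vinogradov) -/
def BASE : Prop := ∀ D : Dat, Good D → ∀ ε : ℝ, 0 < ε → ∃ c1 : ℝ, 0 < c1 ∧
  ∀ c : ℝ, 0 < c → c ≤ c1 → ∀ᶠ x : ℝ in atTop,
    ∑ d ∈ DD (x ^ c) (x ^ (0.498 : ℝ)), |SS D x (x ^ c) d (x ^ c) -
      X0 D x * V0 D.Q (x ^ c) / (Nat.totient d : ℝ)| ≤
      ε * c * (x / Real.log x) * V0 D.Q (x ^ c)

/-- B3. Buchstab's identity -/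
def BUCH : Prop := ∀ (D : Dat) (x w : ℝ), 5 < w → ∀ (d : ℕ) (u : ℝ), 0 < d → w ≤ u →
  (∀ p : ℕ, p.Prime → p ∣ d → u ≤ (p : ℝ)) →
  SS D x w d u = SS D x w d w - ∑ p ∈ PB w u, SS D x w (d * p) p

/-- B4. the combinatorial part of the sieve -/
def REC : Prop := ∀ (w : ℝ) (S : ℕ → ℝ → ℝ) (A0 : ℝ), 5 < w → 0 ≤ A0 → (∀ d u, 0 ≤ S d u) →
  (∀ (d : ℕ) (u : ℝ), 0 < d → w ≤ u → (∀ p : ℕ, p.Prime → p ∣ d → u ≤ (p : ℝ)) →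
    S d u = S d w - ∑ p ∈ PB w u, S (d * p) p) →
  ∀ (n d : ℕ) (y u : ℝ), 0 < d → (∀ p : ℕ, p.Prime → p ∣ d → u ≤ (p : ℝ)) → w ≤ u → 1 ≤ y →
    S d u ≤ A0 / (Nat.totient d : ℝ) * (TT w n).1 y u +
      ∑ e ∈ QQ w u y, |S (d * e) w - A0 / (Nat.totient (d * e) : ℝ)| ∧
    (u ^ (1.02 : ℝ) ≤ y →
      A0 / (Nat.totient d : ℝ) * (TT w n).2 y u -
        ∑ e ∈ QQ w u y, |S (d * e) w - A0 / (Nat.totient (d * e) : ℝ)| ≤ S d u)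

/-- C8. the analytic part of the sieve -/
def ANA : Prop := ∀ (M : ℝ) (n : ℕ) (ε : ℝ), 1 ≤ M → 0 < ε → ∀ᶠ w : ℝ in atTop,
  ∀ y u : ℝ, w ≤ u → u ≤ w ^ M → 1 < y → y ≤ w ^ ((n : ℝ) + 1) →
    (TT w n).1 y u ≤
      Real.sqrt (Real.log w / Real.log u) * FS (Real.log y / Real.log u) + ε ∧
    (u ^ (1.02 : ℝ) ≤ y →
      Real.sqrt (Real.log w / Real.log u) * fS (Real.log y / Real.log u) - ε ≤ (TT w n).2 y u)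

/-- D1. the lower bound sieve -/
def LOW : Prop := ∀ D : Dat, Good D → ∀ ε : ℝ, 0 < ε → ∃ c1 : ℝ, 0 < c1 ∧
  ∀ c : ℝ, 0 < c → c ≤ c1 → ∀ᶠ x : ℝ in atTop,
    qf D.Q * SG D.Q (x ^ c) * (x / Real.log x ^ 2) * ((0.0644 - ε) / Real.sqrt c) ≤
      SS D x (x ^ c) 1 (x ^ (0.48 : ℝ))

/-- E2. smooth numbers: Rankin's trick -/
def RNK : Prop := ∀ Q : ℕ, 0 < Q → 12 ∣ Q → ∀ ε : ℝ, 0 < ε → ∃ S : ℝ, 0 < S ∧ ∀ᶠ w : ℝ in atTop,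
  (1 - ε) * ∏ p ∈ SQ Q w, (1 + 2 / ((p : ℝ) - 2)) ≤
    ∑ l ∈ (∏ p ∈ SQ Q w, p).divisors.filter (fun l : ℕ => (l : ℝ) ≤ w ^ S),
      ∏ p ∈ l.primeFactors, (2 / ((p : ℝ) - 2))

/-- E3. lower bound for Selberg's sum -/
def JLOW : Prop := ∀ Q : ℕ, 0 < Q → 12 ∣ Q → ∀ ε : ℝ, 0 < ε → ∃ c1 : ℝ, 0 < c1 ∧
  ∀ c : ℝ, 0 < c → c ≤ c1 → ∀ᶠ x : ℝ in atTop, ∀ (k : ℕ) (R : ℝ), 0 < k → (k : ℝ) ≤ x →
    (∀ p : ℕ, p.Prime → p ∣ k → x ^ c ≤ (p : ℝ)) → x ^ (0.2 : ℝ) ≤ R → R ≤ x →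
    (1 - ε) * (∏ p ∈ SQ Q (x ^ c), (1 + 2 / ((p : ℝ) - 2))) * (Real.log R ^ 2 / 2) *
      VM (x ^ c) ^ 2 ≤ JJ Q k R

/-- E4. Selberg's sieve for the pair p, n(p)/k -/
def SELB : Prop := ∀ D : Dat, Good D → ∀ η : ℝ, 0 < η → ∃ C : ℝ, 0 < C ∧ ∀ (k : ℕ) (x R : ℝ),
  0 < k → Nat.Coprime k D.Q → 1 ≤ R → C ≤ x → (k : ℝ) ≤ x →
  PC D x k ≤ C * R + (x / (2 * D.Q * k) + C) / JJ D.Q k R + C * R ^ (2 + η)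

/-- E5. upper bound for one k -/
def PAIR : Prop := ∀ D : Dat, Good D → ∀ ε : ℝ, 0 < ε → ∃ c1 : ℝ, 0 < c1 ∧
  ∀ c : ℝ, 0 < c → c ≤ c1 → ∀ᶠ x : ℝ in atTop, ∀ k : ℕ, 0 < k → (k : ℝ) ≤ x ^ (0.53 : ℝ) →
    (∀ p : ℕ, p.Prime → p ∣ k → x ^ c ≤ (p : ℝ)) →
    PC D x k ≤ (4 + ε) * qf D.Q * SG D.Q (x ^ c) * (x / k) / Real.log (x / k) ^ 2

/-- F1. integers composed of primes = 1 mod 4 -/
def WBD : Prop := ∀ ε : ℝ, 0 < ε → ∀ c : ℝ, 0 < c → c < 1 → ∀ᶠ x : ℝ in atTop,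
  ∀ t : ℝ, c ≤ t → t ≤ 1 →
    ∏ p ∈ PG (x ^ c) (x ^ t), (1 - 1 / (p : ℝ))⁻¹ ≤ (1 + ε) * Real.sqrt (t / c)

/-- F2. the sum over k -/
def KSUM : Prop := ∀ C : ℝ, 1 ≤ C → ∃ c1 : ℝ, 0 < c1 ∧ ∀ c : ℝ, 0 < c → c ≤ c1 →
  ∀ᶠ x : ℝ in atTop, ∑ k ∈ KK C x (x ^ c), (1 : ℝ) / k ≤ 0.0031 / Real.sqrt c

/-- F3. parity: the exceptional primes come from K -/
def PAR : Prop := ∀ D : Dat, Good D → ∃ C : ℝ, 1 ≤ C ∧ ∀ x w : ℝ, C ≤ x → 5 < w →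
  w ≤ x ^ (0.48 : ℝ) → ∀ p : ℕ, p ∈ AA D x w →
  (∀ q ∈ PB w (x ^ (0.48 : ℝ)), ¬ q ∣ nn D p) →
  (∀ r : ℕ, r.Prime → r ∣ nn D p → r % 4 = 1) ∨
  ∃ k ∈ KK C x w, (∀ r : ℕ, r.Prime → r ∣ k → w ≤ (r : ℝ)) ∧ k ∣ nn D p ∧ (nn D p / k).Prime ∧
    x ^ (0.48 : ℝ) ≤ ((nn D p / k : ℕ) : ℝ)

/-- F4. upper bound for the exceptional primes -/
def BAD : Prop := ∀ D : Dat, Good D → ∀ ε : ℝ, 0 < ε → ∃ c1 : ℝ, 0 < c1 ∧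
  ∀ c : ℝ, 0 < c → c ≤ c1 → ∀ᶠ x : ℝ in atTop,
    SS D x (x ^ c) 1 (x ^ (0.48 : ℝ)) ≤ ((GP D x c).card : ℝ) +
      qf D.Q * SG D.Q (x ^ c) * (x / Real.log x ^ 2) * ((0.0539 + ε) / Real.sqrt c)

/-- G1. Theorem TG -/
def MAIN : Prop := ∀ D : Dat, Good D → ∃ c : ℝ, 0 < c ∧ ∀ᶠ x : ℝ in atTop,
  c * (x / Real.log x ^ 2) ≤ ((GP D x c).card : ℝ)

/-- H1. primes p in [N, 2N], (p+1)/2 -/
def HALF : Prop := ∃ c : ℝ, 0 < c ∧ ∃ N0 : ℕ, ∀ N : ℕ, N0 ≤ N →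
  c * (N / Real.log N ^ 2) ≤
    (((Icc N (2 * N)).filter (fun p : ℕ => p.Prime ∧
      ∀ r ∈ ((p + 1) / 2).primeFactors, r % 4 = 1 ∧ (N : ℝ) ^ c ≤ (r : ℝ))).card : ℝ)

/-- H2. 2p - 1 -/
def DOUB : Prop := ∃ c : ℝ, 0 < c ∧ ∃ N0 : ℕ, ∀ N : ℕ, N0 ≤ N →
  c * (N / Real.log N ^ 2) ≤
    (((Icc N (2 * N)).filter (fun p : ℕ => p.Prime ∧
      ∀ r ∈ (2 * p - 1).primeFactors, r % 4 = 1 ∧ (N : ℝ) ^ c ≤ (r : ℝ))).card : ℝ)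

/-- H3. p + h for every even h >= 2 -/
def SHFT : Prop := ∀ h : ℕ, 0 < h → 2 ∣ h → ∃ c : ℝ, 0 < c ∧ ∃ N0 : ℕ, ∀ N : ℕ, N0 ≤ N →
  c * (N / Real.log N ^ 2) ≤
    (((Icc N (2 * N)).filter (fun p : ℕ => p.Prime ∧
      ∀ r ∈ (p + h).primeFactors, r % 4 = 1 ∧ (N : ℝ) ^ c ≤ (r : ℝ))).card : ℝ)

end Pool.Agent.H95R2.TG
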