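import Mathlib
import Pool.Agent.H95R2.TG.Defs
import Pool.Agent.H442R2.KF.Bv
import Pool.Agent.Helper923.HMertens

/-! Task A1: Mertens' theorem for the two classes mod 4, from Bombieri-Vinogradov (modulus 4 only)
and Mertens' theorem for all primes. -/

set_option autoImplicit false

open Finset Filter

namespace Pool.Agent.H95R2.TG

open scoped Classical

namespace A1_

open Pool.Agent.H442R2.KF (Er piAP piN)

theorem ioc_succ {a b : ℕ} (h : a ≤ b) : insert (b + 1) (Ioc a b) = Ioc a (b + 1) := by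
  ext x; simp only [mem_insert, mem_Ioc]; omega

theorem piAP_succ (k d a : ℕ) :
    piAP (k + 1) d a = piAP k d a + if (k + 1).Prime ∧ (k + 1) ≡ a [MOD d] then 1 else 0 := by
  unfold Pool.Agent.H442R2.KF.piAP
  have h1 : Icc 1 (k + 1) = insert (k + 1) (Icc 1 k) := by
    ext x; simp only [mem_Icc, mem_insert]; omega
  rw [h1, filter_insert]
  split_ifs with h
  · rw [card_insert_of_notMem]
    simp
  · simp

theorem piN_succ (k : ℕ) :
    piN (k + 1) = piN k + if (k + 1).Prime then 1 else 0 := by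
  unfold Pool.Agent.H442R2.KF.piN
  have h1 : Icc 1 (k + 1) = insert (k + 1) (Icc 1 k) := by
    ext x; simp only [mem_Icc, mem_insert]; omega
  rw [h1, filter_insert]
  split_ifs with h
  · rw [card_insert_of_notMem]
    simp
  · simp

theorem step (r n : ℕ) (hn : 1 ≤ n) : Er n 4 r - Er (n - 1) 4 r =
    (if n.Prime ∧ n ≡ r [MOD 4] then (1 : ℝ) else 0) - (if n.Prime then (1 : ℝ) else 0) / 2 := by
  obtain ⟨k, rfl⟩ : ∃ k, n = k + 1 := ⟨n - 1, by omega⟩
  have ht : ((Nat.totient 4 : ℕ) : ℝ) = 2 := by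
    have : Nat.totient 4 = 2 := by decide
    rw [this]; norm_num
  rw [Nat.add_sub_cancel]
  unfold Pool.Agent.H442R2.KF.Er
  rw [piAP_succ, piN_succ, ht]
  push_cast
  split_ifs <;> ring

theorem abel (f : ℕ → ℝ) (a b : ℕ) (hab : a ≤ b) :
    ∑ n ∈ Ioc a b, (f n - f (n - 1)) / (n : ℝ) =
      f b / ((b : ℝ) + 1) - f a / ((a : ℝ) + 1) +
        ∑ n ∈ Ioc a b, f n * (1 / (n : ℝ) - 1 / ((n : ℝ) + 1)) := by
  induction b, hab using Nat.le_induction with
  | base => simp
  | succ b hb ih =>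
    rw [← ioc_succ hb, sum_insert (by simp), sum_insert (by simp), ih]
    rw [Nat.add_sub_cancel]
    have h1 : ((b : ℝ) + 1) ≠ 0 := by positivity
    have h2 : ((b : ℝ) + 1 + 1) ≠ 0 := by positivity
    push_cast
    field_simp
    ring

theorem tel (a b : ℕ) (ha : 2 ≤ a) (hab : a ≤ b) :
    ∑ n ∈ Ioc a b, 1 / (((n : ℝ) + 1) * Real.log n ^ 2) ≤ 1 / Real.log a - 1 / Real.log b := by
  induction b, hab using Nat.le_induction with
  | base => simp
  | succ b hb ih =>
    rw [← ioc_succ hb, sum_insert (by simp)]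
    have hb2 : (2 : ℝ) ≤ (b : ℝ) := by exact_mod_cast ha.trans hb
    have hb0 : (0 : ℝ) < (b : ℝ) := by linarith
    have hL : 0 < Real.log (b : ℝ) := Real.log_pos (by linarith)
    have hLL : Real.log (b : ℝ) ≤ Real.log (((b + 1 : ℕ) : ℝ)) :=
      Real.log_le_log hb0 (by push_cast; linarith)
    have hL' : 0 < Real.log (((b + 1 : ℕ) : ℝ)) := by linarith
    have hd : 1 / ((b : ℝ) + 1) ≤ Real.log (((b + 1 : ℕ) : ℝ)) - Real.log (b : ℝ) := by
      rw [← Real.log_div (by positivity) hb0.ne']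
      have h1 := Real.one_sub_inv_le_log_of_pos (x := (((b + 1 : ℕ) : ℝ)) / (b : ℝ)) (by positivity)
      refine le_trans (le_of_eq ?_) h1
      push_cast
      field_simp
      ring
    set L := Real.log (b : ℝ) with hLd
    set L' := Real.log (((b + 1 : ℕ) : ℝ)) with hLd'
    have key : 1 / ((((b + 1 : ℕ) : ℝ) + 1) * L' ^ 2) ≤ 1 / L - 1 / L' := by
      have e1 : 1 / L - 1 / L' = (L' - L) / (L * L') := by field_simp
      rw [e1, div_le_div_iff₀ (by positivity) (by positivity)]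
      have h2 : L * L' ≤ L' ^ 2 := by nlinarith
      have h3 : 1 ≤ (L' - L) * (((b + 1 : ℕ) : ℝ) + 1) := by
        have h4 : 1 / ((b : ℝ) + 1) * (((b + 1 : ℕ) : ℝ) + 1) ≤ (L' - L) * (((b + 1 : ℕ) : ℝ) + 1) :=
          mul_le_mul_of_nonneg_right hd (by positivity)
        have h5 : 1 ≤ 1 / ((b : ℝ) + 1) * (((b + 1 : ℕ) : ℝ) + 1) := by
          rw [one_div, inv_mul_eq_div, le_div_iff₀ (by positivity)]
          push_cast; linarith
        linarith
      have h6 : 0 ≤ L' ^ 2 := by positivity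
      nlinarith [mul_le_mul_of_nonneg_right h3 h6]
    linarith

theorem er_bound : ∃ C : ℝ, 0 < C ∧ ∀ N : ℕ, 216 ≤ N →
    |Er N 4 3| ≤ C * (N / Real.log N ^ 2) ∧ |Er N 4 1| ≤ C * (N / Real.log N ^ 2) := by
  obtain ⟨C, hC, h⟩ := Pool.Agent.H442R2.KF.bv (1 / 3) (by norm_num) 2
  refine ⟨C, hC, fun N hN => ?_⟩
  have h6 : 4 ∈ Icc 1 ⌊(N : ℝ) ^ (1 / 3 : ℝ)⌋₊ := by
    rw [mem_Icc]
    refine ⟨by norm_num, Nat.le_floor ?_⟩
    have h1 : ((4 : ℕ) : ℝ) ≤ (216 : ℝ) ^ (1 / 3 : ℝ) := by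
      have : (216 : ℝ) = 6 ^ (3 : ℝ) := by norm_num
      rw [this, ← Real.rpow_mul (by norm_num)]
      norm_num
    exact h1.trans (Real.rpow_le_rpow (by norm_num) (by exact_mod_cast hN) (by norm_num))
  constructor
  · have h1 := h N (by omega) (fun d => d - 1) (fun d hd => by
      show Nat.Coprime (d - 1) d
      obtain ⟨k, rfl⟩ : ∃ k, d = k + 1 := ⟨d - 1, by omega⟩
      simp)
    exact (single_le_sum (f := fun d => |Er N d (d - 1)|) (fun i _ => abs_nonneg _) h6).trans h1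
  · have h1 := h N (by omega) (fun _ => 1) (fun d _ => Nat.coprime_one_left d)
    exact (single_le_sum (f := fun d => |Er N d 1|) (fun i _ => abs_nonneg _) h6).trans h1

/-- the class sum -/
theorem class_sum (r : ℕ) (C : ℝ) (hC : 0 < C)
    (h : ∀ N : ℕ, 216 ≤ N → |Er N 4 r| ≤ C * (N / Real.log N ^ 2)) (a b : ℕ) (ha : 216 ≤ a)
    (hab : a ≤ b) :
    |∑ n ∈ (Ioc a b).filter (fun n : ℕ => n.Prime ∧ n ≡ r [MOD 4]), 1 / (n : ℝ) -
      (∑ n ∈ (Ioc a b).filter Nat.Prime, (1 : ℝ) / n) / 2| ≤ 3 * C / Real.log a := by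
  have ha' : (216 : ℝ) ≤ (a : ℝ) := by exact_mod_cast ha
  have hlog1 : ∀ n : ℕ, 216 ≤ n → 1 ≤ Real.log n := by
    intro n hn
    have hn' : (216 : ℝ) ≤ (n : ℝ) := by exact_mod_cast hn
    rw [Real.le_log_iff_exp_le (by linarith)]
    have := Real.exp_one_lt_d9
    linarith
  have e1 : ∑ n ∈ (Ioc a b).filter (fun n : ℕ => n.Prime ∧ n ≡ r [MOD 4]), 1 / (n : ℝ) -
      (∑ n ∈ (Ioc a b).filter Nat.Prime, (1 : ℝ) / n) / 2 =
      ∑ n ∈ Ioc a b, (Er n 4 r - Er (n - 1) 4 r) / (n : ℝ) := by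
    rw [sum_filter, sum_filter, sum_div, ← sum_sub_distrib]
    refine sum_congr rfl (fun n hn => ?_)
    rw [mem_Ioc] at hn
    rw [step r n (by omega)]
    split_ifs <;> ring
  rw [e1, abel _ a b hab]
  have hb' : 216 ≤ b := ha.trans hab
  have hla := hlog1 a ha
  have hlb := hlog1 b hb'
  have hlab : Real.log a ≤ Real.log b := Real.log_le_log (by linarith) (by exact_mod_cast hab)
  -- the boundary terms
  have bd : ∀ n : ℕ, a ≤ n → |Er n 4 r / ((n : ℝ) + 1)| ≤ C / Real.log a := by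
    intro n hn
    have hn0 : (0 : ℝ) ≤ (n : ℝ) := Nat.cast_nonneg n
    have hln : Real.log a ≤ Real.log n := Real.log_le_log (by linarith) (by exact_mod_cast hn)
    rw [abs_div, abs_of_pos (show (0 : ℝ) < (n : ℝ) + 1 by positivity)]
    have h1 := h n (ha.trans hn)
    have hl0 : 0 < Real.log n := by linarith
    calc |Er n 4 r| / ((n : ℝ) + 1) ≤ C * (n / Real.log n ^ 2) / ((n : ℝ) + 1) :=
          div_le_div_of_nonneg_right h1 (by positivity)
      _ = C / Real.log n ^ 2 * ((n : ℝ) / ((n : ℝ) + 1)) := by ring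
      _ ≤ C / Real.log n ^ 2 * 1 := by
          apply mul_le_mul_of_nonneg_left _ (by positivity)
          rw [div_le_one (by positivity)]; linarith
      _ = C / Real.log n ^ 2 := mul_one _
      _ ≤ C / Real.log a := by
          apply div_le_div_of_nonneg_left hC.le (by linarith)
          nlinarith
  have t1 := bd b hab
  have t2 := bd a le_rfl
  have t3 : |∑ n ∈ Ioc a b, Er n 4 r * (1 / (n : ℝ) - 1 / ((n : ℝ) + 1))| ≤ C / Real.log a := by
    calc |∑ n ∈ Ioc a b, Er n 4 r * (1 / (n : ℝ) - 1 / ((n : ℝ) + 1))|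
        ≤ ∑ n ∈ Ioc a b, |Er n 4 r * (1 / (n : ℝ) - 1 / ((n : ℝ) + 1))| := abs_sum_le_sum_abs _ _
      _ ≤ ∑ n ∈ Ioc a b, C * (1 / (((n : ℝ) + 1) * Real.log n ^ 2)) := by
          refine sum_le_sum (fun n hn => ?_)
          rw [mem_Ioc] at hn
          have hn1 : 216 ≤ n := by omega
          have hn0 : (0 : ℝ) < (n : ℝ) := by
            have : 0 < n := by omega
            exact_mod_cast this
          have hl0 : 0 < Real.log n := by linarith [hlog1 n hn1]
          have e2 : 1 / (n : ℝ) - 1 / ((n : ℝ) + 1) = 1 / ((n : ℝ) * ((n : ℝ) + 1)) := by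
            field_simp; ring
          rw [abs_mul, e2, abs_of_pos (show (0 : ℝ) < 1 / ((n : ℝ) * ((n : ℝ) + 1)) by positivity)]
          calc |Er n 4 r| * (1 / ((n : ℝ) * ((n : ℝ) + 1))) ≤
                C * (n / Real.log n ^ 2) * (1 / ((n : ℝ) * ((n : ℝ) + 1))) :=
                mul_le_mul_of_nonneg_right (h n hn1) (by positivity)
            _ = C * (1 / (((n : ℝ) + 1) * Real.log n ^ 2)) := by field_simp
      _ = C * ∑ n ∈ Ioc a b, 1 / (((n : ℝ) + 1) * Real.log n ^ 2) := by rw [mul_sum]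
      _ ≤ C * (1 / Real.log a - 1 / Real.log b) :=
          mul_le_mul_of_nonneg_left (tel a b (by omega) hab) hC.le
      _ ≤ C / Real.log a := by
          have : 0 < 1 / Real.log b := by positivity
          have h2 : C * (1 / Real.log a - 1 / Real.log b) = C / Real.log a - C * (1 / Real.log b) := by
            ring
          rw [h2]
          nlinarith
  have e3 : 3 * C / Real.log a = C / Real.log a + C / Real.log a + C / Real.log a := by ring
  rw [e3]
  have t1' := abs_le.mp t1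
  have t2' := abs_le.mp t2
  have t3' := abs_le.mp t3
  rw [abs_le]
  constructor <;> linarith [t1'.1, t1'.2, t2'.1, t2'.2, t3'.1, t3'.2]

/-- from `1/n` to `1/(n-1)` -/
theorem shift (P : ℕ → Prop) [DecidablePred P] (a b : ℕ) (ha : 1 ≤ a) (hab : a ≤ b) :
    |∑ n ∈ (Ioc a b).filter P, 1 / ((n : ℝ) - 1) - ∑ n ∈ (Ioc a b).filter P, 1 / (n : ℝ)| ≤
      1 / (a : ℝ) := by
  have hnn : ∀ n ∈ Ioc a b, 0 ≤ 1 / ((n : ℝ) - 1) - 1 / (n : ℝ) := by
    intro n hn
    rw [mem_Ioc] at hn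
    have h1 : (1 : ℝ) < (n : ℝ) := by
      have : 1 < n := by omega
      exact_mod_cast this
    have := one_div_le_one_div_of_le (show 0 < (n : ℝ) - 1 by linarith)
      (show (n : ℝ) - 1 ≤ n by linarith)
    linarith
  have htel : ∑ n ∈ Ioc a b, (1 / ((n : ℝ) - 1) - 1 / (n : ℝ)) = 1 / (a : ℝ) - 1 / (b : ℝ) := by
    induction b, hab using Nat.le_induction with
    | base => simp
    | succ b hb ih =>
      rw [← ioc_succ hb, sum_insert (by simp), ih (fun n hn => hnn n (by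
        rw [mem_Ioc] at hn ⊢; omega))]
      push_cast
      rw [add_sub_cancel_right]
      ring
  rw [← sum_sub_distrib]
  have h1 : 0 ≤ ∑ n ∈ (Ioc a b).filter P, (1 / ((n : ℝ) - 1) - 1 / (n : ℝ)) :=
    sum_nonneg (fun n hn => hnn n (mem_filter.mp hn).1)
  have h2 : ∑ n ∈ (Ioc a b).filter P, (1 / ((n : ℝ) - 1) - 1 / (n : ℝ)) ≤
      ∑ n ∈ Ioc a b, (1 / ((n : ℝ) - 1) - 1 / (n : ℝ)) :=
    sum_le_sum_of_subset_of_nonneg (filter_subset _ _) (fun n hn _ => hnn n hn)
  rw [abs_of_nonneg h1]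
  have h3 : (0 : ℝ) ≤ 1 / (b : ℝ) := by positivity
  linarith

/-- the integer parts -/
theorem ceil_facts (w : ℝ) (hw : 2 ≤ w) : ∃ a : ℕ, ⌈w⌉₊ = a + 1 ∧ w - 1 ≤ (a : ℝ) ∧ (a : ℝ) < w ∧
    Real.log w - 1 ≤ Real.log a ∧ Real.log a ≤ Real.log w := by
  have h0 : 0 < ⌈w⌉₊ := Nat.ceil_pos.mpr (by linarith)
  obtain ⟨a, ha⟩ : ∃ a, ⌈w⌉₊ = a + 1 := ⟨⌈w⌉₊ - 1, by omega⟩
  have h1 : w ≤ (a : ℝ) + 1 := by
    have := Nat.le_ceil w
    rw [ha] at this
    exact_mod_cast this
  have h2 : (a : ℝ) < w := by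
    have := Nat.ceil_lt_add_one (show 0 ≤ w by linarith)
    rw [ha] at this
    push_cast at this
    linarith
  have ha0 : (0 : ℝ) < (a : ℝ) := by linarith
  refine ⟨a, ha, by linarith, h2, ?_, Real.log_le_log ha0 h2.le⟩
  have h3 : w / 2 ≤ (a : ℝ) := by linarith
  have h4 : Real.log (w / 2) ≤ Real.log a := Real.log_le_log (by linarith) h3
  rw [Real.log_div (by linarith) (by norm_num)] at h4
  have := Real.log_two_lt_d9
  linarith

/-- the main estimate -/
theorem main (r : ℕ) (C C' : ℝ) (hC : 0 < C) (hC' : 0 ≤ C')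
    (h : ∀ N : ℕ, 216 ≤ N → |Er N 4 r| ≤ C * (N / Real.log N ^ 2))
    (h' : ∀ a b : ℕ, 2 ≤ a → a ≤ b →
      |∑ p ∈ (Finset.Ioc a b).filter Nat.Prime, (1 : ℝ) / p
      - Real.log (Real.log b / Real.log a)| ≤ C' / Real.log a)
    (w U : ℝ) (hw : 300 ≤ w) (hl : 4 ≤ Real.log w) (hU : 1 ≤ U) :
    |∑ p ∈ (range ⌈w ^ U⌉₊).filter (fun p : ℕ => p.Prime ∧ p ≡ r [MOD 4] ∧ w ≤ (p : ℝ)),
      1 / ((p : ℝ) - 1) - Real.log U / 2| ≤ (3 + 6 * C + C') / Real.log w := by
  obtain ⟨a, ha1, ha2, ha3, ha4, ha5⟩ := ceil_facts w (by linarith)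
  have hwU : w ≤ w ^ U := by
    have := Real.rpow_le_rpow_of_exponent_le (show (1 : ℝ) ≤ w by linarith) hU
    rwa [Real.rpow_one] at this
  obtain ⟨b, hb1, hb2, hb3, hb4, hb5⟩ := ceil_facts (w ^ U) (by linarith)
  rw [Real.log_rpow (by linarith)] at hb4 hb5
  have hab : a ≤ b := by
    have h1 : ⌈w⌉₊ ≤ ⌈w ^ U⌉₊ := Nat.ceil_mono hwU
    omega
  have ha216 : 216 ≤ a := by
    have : (216 : ℝ) ≤ (a : ℝ) := by linarith
    exact_mod_cast this
  have hset : (range ⌈w ^ U⌉₊).filter (fun p : ℕ => p.Prime ∧ p ≡ r [MOD 4] ∧ w ≤ (p : ℝ)) =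
      (Ioc a b).filter (fun p : ℕ => p.Prime ∧ p ≡ r [MOD 4]) := by
    ext p
    simp only [mem_filter, mem_range, mem_Ioc]
    have hc : w ≤ (p : ℝ) ↔ a + 1 ≤ p := by rw [← ha1]; exact Nat.ceil_le.symm
    rw [hc, hb1]
    constructor
    · rintro ⟨h1, h2, h3, h4⟩
      exact ⟨⟨by omega, by omega⟩, h2, h3⟩
    · rintro ⟨⟨h1, h2⟩, h3, h4⟩
      exact ⟨by omega, h3, h4, by omega⟩
  rw [hset]
  set l := Real.log w with hldef
  have hl0 : 0 < l := by linarith
  have hla : l / 2 ≤ Real.log a := by linarith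
  have hla0 : 0 < Real.log a := by linarith
  have hlb0 : 0 < Real.log b := by nlinarith
  have s1 := shift (fun p : ℕ => p.Prime ∧ p ≡ r [MOD 4]) a b (by omega) hab
  have s2 := class_sum r C hC h a b ha216 hab
  have s3 := h' a b (by omega) hab
  -- comparison of the logarithms
  have hUl : l ≤ U * l := by nlinarith
  have s4 : |Real.log (Real.log b / Real.log a) - Real.log U| ≤ 2 / l := by
    have hU0 : 0 < U := by linarith
    have e1 : Real.log (Real.log b / Real.log a) - Real.log U =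
        Real.log (Real.log b / (U * Real.log a)) := by
      rw [← Real.log_div (by positivity) hU0.ne']
      congr 1
      field_simp
    rw [e1, abs_le]
    constructor
    · have h1 := Real.one_sub_inv_le_log_of_pos (x := Real.log b / (U * Real.log a)) (by positivity)
      refine le_trans ?_ h1
      rw [inv_div]
      have h2 : U * Real.log a / Real.log b ≤ U * l / (U * l - 1) := by
        apply div_le_div₀ (by positivity) _ (by linarith) hb4
        exact mul_le_mul_of_nonneg_left ha5 hU0.le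
      have h3 : U * l / (U * l - 1) ≤ 1 + 2 / l := by
        rw [div_le_iff₀ (by linarith)]
        have h4 : 2 / l * (U * l - 1) = 2 * U - 2 / l := by field_simp
        have h5 : 2 / l ≤ 1 := by rw [div_le_one hl0]; linarith
        nlinarith
      linarith
    · have h1 := Real.log_le_sub_one_of_pos (x := Real.log b / (U * Real.log a)) (by positivity)
      refine h1.trans ?_
      have h2 : Real.log b / (U * Real.log a) ≤ (U * l) / (U * (l - 1)) := by
        apply div_le_div₀ (by positivity) hb5 (mul_pos hU0 (by linarith))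
        exact mul_le_mul_of_nonneg_left ha4 hU0.le
      have h3 : (U * l) / (U * (l - 1)) = l / (l - 1) := by
        rw [mul_div_mul_left _ _ hU0.ne']
      have h4 : l / (l - 1) ≤ 1 + 2 / l := by
        rw [div_le_iff₀ (by linarith)]
        have h5 : (1 + 2 / l) * (l - 1) = l + 1 - 2 / l := by field_simp; ring
        have h6 : 2 / l ≤ 1 := by rw [div_le_one hl0]; linarith
        linarith
      linarith
  -- assembly
  have q1 : 1 / (a : ℝ) ≤ 2 / l := by
    rw [div_le_div_iff₀ (by linarith) hl0]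
    have : Real.log w ≤ w - 1 := Real.log_le_sub_one_of_pos (by linarith)
    linarith
  have q2 : 3 * C / Real.log a ≤ 6 * C / l := by
    rw [div_le_div_iff₀ hla0 hl0]
    nlinarith
  have q3 : C' / Real.log a ≤ 2 * C' / l := by
    rw [div_le_div_iff₀ hla0 hl0]
    nlinarith
  have e9 : (3 + 6 * C + C') / l = 2 / l + 6 * C / l + (2 * C' / l) / 2 + (2 / l) / 2 := by
    field_simp; ring
  rw [e9]
  have s1' := abs_le.mp s1
  have s2' := abs_le.mp s2
  have s3' := abs_le.mp s3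
  have s4' := abs_le.mp s4
  rw [abs_le]
  constructor <;> linarith [s1'.1, s1'.2, s2'.1, s2'.2, s3'.1, s3'.2, s4'.1, s4'.2]

end A1_

theorem mert : MERT := by
  intro M _ ε hε
  obtain ⟨C, hC, h⟩ := A1_.er_bound
  obtain ⟨C', hC', h'⟩ := Pool.Agent.Helper923.HMertens.mertens_ratio
  set K := 3 + 6 * C + C' with hK
  have hK0 : 0 < K := by positivity
  have hlog := Real.tendsto_log_atTop
  filter_upwards [eventually_ge_atTop (300 : ℝ), hlog.eventually_ge_atTop (max 4 (K / ε))]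
    with w hw hlw U hU _
  have hl4 : 4 ≤ Real.log w := (le_max_left _ _).trans hlw
  have hlK : K / ε ≤ Real.log w := (le_max_right _ _).trans hlw
  have hfin : K / Real.log w ≤ ε := by
    rw [div_le_iff₀ (by linarith)]
    rw [div_le_iff₀ hε] at hlK
    linarith
  have m3 := A1_.main 3 C C' hC hC' (fun N hN => (h N hN).1) h' w U hw hl4 hU
  have m1 := A1_.main 1 C C' hC hC' (fun N hN => (h N hN).2) h' w U hw hl4 hU
  constructor
  · have e : PB w (w ^ U) = (range ⌈w ^ U⌉₊).filter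
        (fun p : ℕ => p.Prime ∧ p ≡ 3 [MOD 4] ∧ w ≤ (p : ℝ)) := rfl
    rw [e]
    exact m3.trans hfin
  · have e : PG w (w ^ U) = (range ⌈w ^ U⌉₊).filter
        (fun p : ℕ => p.Prime ∧ p ≡ 1 [MOD 4] ∧ w ≤ (p : ℝ)) := rfl
    rw [e]
    exact m1.trans hfin

end Pool.Agent.H95R2.TG

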