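import Mathlib
import Pool.Agent.H95R2.TG.Defs

set_option autoImplicit false

open Finset Filter

namespace Pool.Agent.H95R2.TG

open Pool.Agent.H95R2.TI (VM AP DD FS fS cA Lg hk VML ROU II1 II2 LIP TOPN)
open scoped Classical

namespace A2_

lemma mem_PB {w u : ℝ} {p : ℕ} :
    p ∈ PB w u ↔ (p : ℝ) < u ∧ p.Prime ∧ p % 4 = 3 ∧ w ≤ (p : ℝ) := by
  unfold PB
  rw [Finset.mem_filter, Finset.mem_range, Nat.lt_ceil]

lemma PB_mono {w u v : ℝ} (h : u ≤ v) : PB w u ⊆ PB w v := by
  intro p hp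
  rw [mem_PB] at hp ⊢
  exact ⟨lt_of_lt_of_le hp.1 h, hp.2⟩

lemma PB_self (w : ℝ) : PB w w = ∅ := by
  rw [Finset.eq_empty_iff_forall_notMem]
  intro p hp
  rw [mem_PB] at hp
  linarith [hp.1, hp.2.2.2]

/-- location of the quotient of logarithms -/
lemma loc {w a b : ℝ} (hw : 1 < w) {p : ℕ}
    (hp : p ∈ PB w (w ^ b) \ PB w (w ^ a)) :
    a ≤ Real.log p / Real.log w ∧ Real.log p / Real.log w ≤ b ∧ 0 < (p : ℝ) - 1 := by
  rw [Finset.mem_sdiff, mem_PB, mem_PB] at hp
  obtain ⟨⟨h1, h2, h3, h4⟩, h5⟩ := hp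
  have h6 : w ^ a ≤ (p : ℝ) := by
    by_contra hc
    push Not at hc
    exact h5 ⟨hc, h2, h3, h4⟩
  have hw0 : 0 < w := by linarith
  have hlw : 0 < Real.log w := Real.log_pos hw
  have hp2 : (2 : ℝ) ≤ p := by exact_mod_cast h2.two_le
  have hp0 : (0 : ℝ) < p := by linarith
  refine ⟨?_, ?_, by linarith⟩
  · rw [le_div_iff₀ hlw]
    have := Real.log_le_log (Real.rpow_pos_of_pos hw0 a) h6
    rwa [Real.log_rpow hw0] at this
  · rw [div_le_iff₀ hlw]
    have := Real.log_le_log hp0 h1.le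
    rwa [Real.log_rpow hw0] at this

/-- one step -/
lemma step {w L U e a b : ℝ} (hw : 1 < w) (hL : 0 ≤ L) (ha : 1 ≤ a) (hab : a ≤ b) (hb : b ≤ U)
    {φ : ℝ → ℝ} (h1 : ∀ s ∈ Set.Icc 1 U, ∀ t ∈ Set.Icc 1 U, |φ s - φ t| ≤ L * |s - t|)
    (h2 : ∀ t ∈ Set.Icc 1 U, |φ t| ≤ L)
    (hm : |((∑ p ∈ PB w (w ^ b), 1 / ((p : ℝ) - 1)) - ∑ p ∈ PB w (w ^ a), 1 / ((p : ℝ) - 1)) -
      Real.log (b / a) / 2| ≤ e) :
    |((∑ p ∈ PB w (w ^ b), φ (Real.log p / Real.log w) / ((p : ℝ) - 1)) -
      ∑ p ∈ PB w (w ^ a), φ (Real.log p / Real.log w) / ((p : ℝ) - 1)) -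
      (∫ t in a..b, φ t / t) / 2| ≤
      L * (b - a) * ((∑ p ∈ PB w (w ^ b), 1 / ((p : ℝ) - 1)) -
        ∑ p ∈ PB w (w ^ a), 1 / ((p : ℝ) - 1)) + L * (b - a) * (Real.log (b / a) / 2) + L * e := by
  have hsub : PB w (w ^ a) ⊆ PB w (w ^ b) :=
    PB_mono (Real.rpow_le_rpow_of_exponent_le hw.le hab)
  have e1 : (∑ p ∈ PB w (w ^ b), 1 / ((p : ℝ) - 1)) - ∑ p ∈ PB w (w ^ a), 1 / ((p : ℝ) - 1) =
      ∑ p ∈ PB w (w ^ b) \ PB w (w ^ a), 1 / ((p : ℝ) - 1) := by
    rw [← Finset.sum_sdiff hsub]; ring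
  have e2 : (∑ p ∈ PB w (w ^ b), φ (Real.log p / Real.log w) / ((p : ℝ) - 1)) -
      ∑ p ∈ PB w (w ^ a), φ (Real.log p / Real.log w) / ((p : ℝ) - 1) =
      ∑ p ∈ PB w (w ^ b) \ PB w (w ^ a), φ (Real.log p / Real.log w) / ((p : ℝ) - 1) := by
    rw [← Finset.sum_sdiff hsub]; ring
  rw [e1] at hm ⊢
  rw [e2]
  set D := PB w (w ^ b) \ PB w (w ^ a) with hD
  set m := ∑ p ∈ D, 1 / ((p : ℝ) - 1) with hmdef
  have haI : a ∈ Set.Icc 1 U := ⟨ha, hab.trans hb⟩
  -- the sum against phi(a) m
  have s1 : |(∑ p ∈ D, φ (Real.log p / Real.log w) / ((p : ℝ) - 1)) - φ a * m| ≤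
      L * (b - a) * m := by
    rw [hmdef, Finset.mul_sum, Finset.mul_sum, ← Finset.sum_sub_distrib]
    refine (Finset.abs_sum_le_sum_abs _ _).trans (Finset.sum_le_sum fun p hp => ?_)
    obtain ⟨q1, q2, q3⟩ := loc hw hp
    have : φ (Real.log p / Real.log w) / ((p : ℝ) - 1) - φ a * (1 / ((p : ℝ) - 1)) =
        (φ (Real.log p / Real.log w) - φ a) * (1 / ((p : ℝ) - 1)) := by ring
    rw [this, abs_mul, abs_of_pos (show (0 : ℝ) < 1 / ((p : ℝ) - 1) by positivity)]
    refine mul_le_mul_of_nonneg_right ?_ (by positivity)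
    refine (h1 _ ⟨ha.trans q1, q2.trans hb⟩ _ haI).trans ?_
    refine mul_le_mul_of_nonneg_left ?_ hL
    rw [abs_of_nonneg (by linarith)]
    linarith
  -- the integral
  have ha0 : 0 < a := by linarith
  have hcont : ContinuousOn φ (Set.Icc 1 U) := by
    have : LipschitzOnWith (Real.toNNReal L) φ (Set.Icc 1 U) := by
      refine LipschitzOnWith.of_dist_le_mul fun x hx y hy => ?_
      rw [Real.dist_eq, Real.dist_eq, Real.coe_toNNReal L hL]
      exact h1 x hx y hy
    exact this.continuousOn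
  have hsubI : Set.uIcc a b ⊆ Set.Icc 1 U := by
    rw [Set.uIcc_of_le hab]
    exact Set.Icc_subset_Icc ha hb
  have hci : ContinuousOn (fun t : ℝ => φ t / t) (Set.uIcc a b) := by
    refine (hcont.mono hsubI).div continuousOn_id fun t ht => ?_
    have := (hsubI ht).1
    intro h0
    linarith
  have hci2 : ContinuousOn (fun t : ℝ => φ a / t) (Set.uIcc a b) := by
    refine continuousOn_const.div continuousOn_id fun t ht => ?_
    have := (hsubI ht).1
    intro h0
    linarith
  have hci3 : ContinuousOn (fun t : ℝ => L * (b - a) * (1 / t)) (Set.uIcc a b) := by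
    refine continuousOn_const.mul (continuousOn_const.div continuousOn_id fun t ht => ?_)
    have := (hsubI ht).1
    intro h0
    linarith
  have hlog : (∫ t in a..b, 1 / t) = Real.log (b / a) := by
    rw [integral_one_div]
    rw [Set.uIcc_of_le hab]
    intro h0
    linarith [h0.1]
  have s2 : |(∫ t in a..b, φ t / t) - φ a * Real.log (b / a)| ≤ L * (b - a) * Real.log (b / a) := by
    have e3 : φ a * Real.log (b / a) = ∫ t in a..b, φ a / t := by
      rw [← hlog, ← intervalIntegral.integral_const_mul]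
      refine intervalIntegral.integral_congr fun t _ => ?_
      simp only [mul_one_div]
    rw [e3, ← intervalIntegral.integral_sub hci.intervalIntegrable hci2.intervalIntegrable]
    rw [← hlog, ← intervalIntegral.integral_const_mul]
    rw [← Real.norm_eq_abs]
    refine intervalIntegral.norm_integral_le_of_norm_le hab ?_ hci3.intervalIntegrable
    refine MeasureTheory.ae_of_all _ fun t ht => ?_
    have ht1 : t ∈ Set.Icc 1 U := ⟨by linarith [ht.1], ht.2.trans hb⟩
    have ht0 : 0 < t := by linarith [ht1.1]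
    have : φ t / t - φ a / t = (φ t - φ a) * (1 / t) := by ring
    rw [this, Real.norm_eq_abs, abs_mul, abs_of_pos (show (0 : ℝ) < 1 / t by positivity)]
    refine mul_le_mul_of_nonneg_right ?_ (by positivity)
    refine (h1 _ ht1 _ haI).trans ?_
    refine mul_le_mul_of_nonneg_left ?_ hL
    rw [abs_of_nonneg (by linarith [ht.1])]
    linarith [ht.2]
  have s3 : |φ a * (m - Real.log (b / a) / 2)| ≤ L * e := by
    rw [abs_mul]
    exact mul_le_mul (h2 a haI) hm (abs_nonneg _) hL
  have key : (∑ p ∈ D, φ (Real.log p / Real.log w) / ((p : ℝ) - 1)) - (∫ t in a..b, φ t / t) / 2 =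
      ((∑ p ∈ D, φ (Real.log p / Real.log w) / ((p : ℝ) - 1)) - φ a * m) +
      φ a * (m - Real.log (b / a) / 2) -
      ((∫ t in a..b, φ t / t) - φ a * Real.log (b / a)) / 2 := by ring
  rw [key]
  have t1 := abs_le.mp s1
  have t2 := abs_le.mp s2
  have t3 := abs_le.mp s3
  rw [abs_le]
  constructor <;> linarith [t1.1, t1.2, t2.1, t2.2, t3.1, t3.2]

end A2_

open A2_ in
theorem eqd (h : MERT) : EQD := by
  intro M L ε hM hL hε
  have hlM : 0 ≤ Real.log M := Real.log_nonneg hM
  obtain ⟨N, hN⟩ := exists_nat_gt (2 * (L * M * (Real.log M + 1)) / ε)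
  have hN0 : (0 : ℝ) < N := by
    refine lt_of_le_of_lt ?_ hN
    positivity
  have hNpos : 0 < N := by exact_mod_cast hN0
  set e : ℝ := min 1 (ε / (4 * N * L + 4)) with he
  have hden : 0 < 4 * (N : ℝ) * L + 4 := by positivity
  have he0 : 0 < e := lt_min one_pos (by positivity)
  have he1 : e ≤ 1 := min_le_left _ _
  have he2 : e * (4 * N * L + 4) ≤ ε := by
    have := min_le_right 1 (ε / (4 * (N : ℝ) * L + 4))
    rw [le_div_iff₀ hden] at this
    exact this
  filter_upwards [h M hM e he0, eventually_gt_atTop (1 : ℝ)] with w hw hw1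
  intro U hU1 hUM φ h1 h2
  set δ : ℝ := (U - 1) / N with hδ
  have hδ0 : 0 ≤ δ := div_nonneg (by linarith) hN0.le
  have hδN : N * δ = U - 1 := by rw [hδ]; field_simp
  have hδM : δ ≤ M / N := by
    rw [hδ]
    exact div_le_div_of_nonneg_right (by linarith) hN0.le
  have hm : ∀ V : ℝ, 1 ≤ V → V ≤ M →
      |∑ p ∈ PB w (w ^ V), 1 / ((p : ℝ) - 1) - Real.log V / 2| ≤ e :=
    fun V hV1 hV2 => (hw V hV1 hV2).1
  -- induction
  have main : ∀ i : ℕ, i ≤ N →
      |∑ p ∈ PB w (w ^ (1 + i * δ)), φ (Real.log p / Real.log w) / ((p : ℝ) - 1) -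
        (∫ t in (1 : ℝ)..(1 + i * δ), φ t / t) / 2| ≤
      L * δ * (∑ p ∈ PB w (w ^ (1 + i * δ)), 1 / ((p : ℝ) - 1)) +
        L * δ * (Real.log (1 + i * δ) / 2) + L * (2 * e) * i := by
    intro i
    induction i with
    | zero =>
      intro _
      simp [PB_self]
    | succ i ih =>
      intro hi
      have ih' := ih (by omega)
      have hiN : ((i : ℝ) + 1) ≤ N := by exact_mod_cast hi
      have hi0 : (0 : ℝ) ≤ i := Nat.cast_nonneg i
      set a : ℝ := 1 + i * δ with ha
      have hb : (1 + ((i + 1 : ℕ) : ℝ) * δ) = a + δ := by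
        rw [ha]; push_cast; ring
      rw [hb]
      have ha1 : 1 ≤ a := by
        rw [ha]
        have := mul_nonneg hi0 hδ0
        linarith
      have hbU : a + δ ≤ U := by
        rw [← hb]
        push_cast
        have := mul_le_mul_of_nonneg_right hiN hδ0
        linarith
      have ha0 : 0 < a := by linarith
      have hdiff : |((∑ p ∈ PB w (w ^ (a + δ)), 1 / ((p : ℝ) - 1)) -
          ∑ p ∈ PB w (w ^ a), 1 / ((p : ℝ) - 1)) - Real.log ((a + δ) / a) / 2| ≤ 2 * e := by
        have q1 := abs_le.mp (hm a ha1 (by linarith))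
        have q2 := abs_le.mp (hm (a + δ) (by linarith) (by linarith))
        rw [Real.log_div (by linarith) (by linarith), abs_le]
        constructor <;> linarith [q1.1, q1.2, q2.1, q2.2]
      have st := step hw1 hL ha1 (by linarith : a ≤ a + δ) hbU h1 h2 hdiff
      have hlogd : Real.log ((a + δ) / a) = Real.log (a + δ) - Real.log a :=
        Real.log_div (by linarith) (by linarith)
      rw [hlogd] at st
      have hadd : (∫ t in (1 : ℝ)..(a + δ), φ t / t) =
          (∫ t in (1 : ℝ)..a, φ t / t) + ∫ t in a..(a + δ), φ t / t := by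
        have hcont : ContinuousOn φ (Set.Icc 1 U) := by
          have : LipschitzOnWith (Real.toNNReal L) φ (Set.Icc 1 U) := by
            refine LipschitzOnWith.of_dist_le_mul fun x hx y hy => ?_
            rw [Real.dist_eq, Real.dist_eq, Real.coe_toNNReal L hL]
            exact h1 x hx y hy
          exact this.continuousOn
        have hc : ContinuousOn (fun t : ℝ => φ t / t) (Set.Icc 1 U) := by
          refine hcont.div continuousOn_id fun t ht => ?_
          have := ht.1
          intro h0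
          linarith
        rw [intervalIntegral.integral_add_adjacent_intervals]
        · refine (hc.mono ?_).intervalIntegrable
          rw [Set.uIcc_of_le ha1]
          exact Set.Icc_subset_Icc le_rfl (by linarith)
        · refine (hc.mono ?_).intervalIntegrable
          rw [Set.uIcc_of_le (by linarith)]
          exact Set.Icc_subset_Icc ha1 hbU
      rw [hadd]
      have hsimp : a + δ - a = δ := by ring
      rw [hsimp] at st
      have u1 := abs_le.mp ih'
      have u2 := abs_le.mp st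
      push_cast
      rw [abs_le]
      constructor
      · linarith [u1.1, u2.1]
      · linarith [u1.2, u2.2]
  have fin := main N le_rfl
  have hlast : 1 + (N : ℝ) * δ = U := by linarith
  rw [hlast] at fin
  refine fin.trans ?_
  have q := abs_le.mp (hm U hU1 hUM)
  have hlU : Real.log U ≤ Real.log M := Real.log_le_log (by linarith) hUM
  have hlU0 : 0 ≤ Real.log U := Real.log_nonneg hU1
  have hsum : (∑ p ∈ PB w (w ^ U), 1 / ((p : ℝ) - 1)) + Real.log U / 2 ≤ Real.log M + 1 := by
    linarith [q.2]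
  have hNe : 2 * (L * M * (Real.log M + 1)) ≤ ε * N := by
    rw [div_lt_iff₀ hε] at hN
    linarith
  have c1 : L * δ * ((∑ p ∈ PB w (w ^ U), 1 / ((p : ℝ) - 1)) + Real.log U / 2) ≤ ε / 2 := by
    calc L * δ * ((∑ p ∈ PB w (w ^ U), 1 / ((p : ℝ) - 1)) + Real.log U / 2)
        ≤ L * δ * (Real.log M + 1) := mul_le_mul_of_nonneg_left hsum (mul_nonneg hL hδ0)
      _ ≤ L * (M / N) * (Real.log M + 1) := by
          refine mul_le_mul_of_nonneg_right (mul_le_mul_of_nonneg_left hδM hL) (by linarith)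
      _ ≤ ε / 2 := by
          have : L * (M / N) * (Real.log M + 1) = (L * M * (Real.log M + 1)) / N := by ring
          rw [this, div_le_iff₀ hN0]
          linarith
  have c2 : L * (2 * e) * N ≤ ε / 2 := by
    have : L * (2 * e) * N = e * (4 * N * L) / 2 := by ring
    rw [this]
    linarith
  linarith [c1, c2]

end Pool.Agent.H95R2.TG
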