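import Mathlib
import Pool.Agent.H95R2.TG.Defs
import Pool.Agent.Helper923.PNT

set_option autoImplicit false

open Finset Filter

namespace Pool.Agent.H95R2.TG

open Pool.Agent.H95R2.TI (VM AP DD FS fS cA Lg hk VML ROU II1 II2 LIP TOPN)
open scoped Classical

theorem pntd : PNTD := by
  intro ε hε
  have h1 := Pool.Agent.Helper923.PNT.pi_tendsto
  have h2 : Tendsto (fun x : ℝ => x / 2) atTop atTop :=
    tendsto_id.atTop_div_const (by norm_num)
  have h3 := h1.comp h2
  have h4 : Tendsto (fun x : ℝ => 1 - Real.log 2 / Real.log x) atTop (nhds 1) := by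
    have h := (tendsto_const_nhds (x := Real.log 2) (f := (atTop : Filter ℝ))).div_atTop
      Real.tendsto_log_atTop
    have h' := h.const_sub 1
    rwa [sub_zero] at h'
  have h5 := h4.inv₀ one_ne_zero
  have h6 := h1.sub ((h3.mul h5).mul_const (1 / 2))
  have e : (1 : ℝ) - 1 * 1⁻¹ * (1 / 2) = 1 / 2 := by norm_num
  rw [e] at h6
  have h7 : Tendsto (fun x : ℝ => ((Nat.primeCounting ⌊x⌋₊ : ℝ) -
      (Nat.primeCounting ⌊x / 2⌋₊ : ℝ)) * Real.log x / x) atTop (nhds (1 / 2)) := by
    refine h6.congr' ?_
    filter_upwards [eventually_gt_atTop 2] with x hx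
    have hx0 : 0 < x := by linarith
    have hl : 0 < Real.log x := Real.log_pos (by linarith)
    have hl2 : 0 < Real.log x - Real.log 2 := by
      have := Real.log_lt_log (by norm_num : (0 : ℝ) < 2) hx
      linarith
    have e2 : Real.log (x / 2) = Real.log x - Real.log 2 :=
      Real.log_div hx0.ne' (by norm_num)
    have e3 : (1 - Real.log 2 / Real.log x)⁻¹ = Real.log x / (Real.log x - Real.log 2) := by
      rw [← inv_div]
      congr 1
      field_simp
    simp only [Function.comp_apply, e2, e3]
    field_simp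
  have h8 := h7.eventually_const_lt (show (1 - ε) / 2 < 1 / 2 by linarith)
  have h9 := h7.eventually_lt_const (show (1 / 2 : ℝ) < 1 by norm_num)
  filter_upwards [h8, h9, eventually_gt_atTop 1] with x hx hx' hx1
  have hx0 : 0 < x := by linarith
  have hl : 0 < Real.log x := Real.log_pos hx1
  constructor
  · rw [lt_div_iff₀ hx0] at hx
    rw [mul_div_assoc', div_le_iff₀ (by positivity)]
    nlinarith
  · rw [div_lt_one hx0] at hx'
    rw [le_div_iff₀ hl]
    exact hx'.le

end Pool.Agent.H95R2.TG
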