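import Mathlib
import Pool.Agent.H95R2.TG.Defs
import Pool.Agent.H20R2.EN.FLem

set_option autoImplicit false

open Finset Filter

namespace Pool.Agent.H95R2.TG

open scoped Classical

namespace BASE1_

/-- number of p in PX with k | n(p) -/
noncomputable def NN (D : Dat) (x : ℝ) (k : ℕ) : ℝ :=
  (((PX D x).filter (fun p : ℕ => k ∣ nn D p)).card : ℝ)

/-- the discrepancy -/
noncomputable def RR (D : Dat) (x : ℝ) (k : ℕ) : ℝ :=
  NN D x k - X0 D x / (Nat.totient k : ℝ)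

lemma tot_mul (d : ℕ) (U : Finset ℕ) (hU : ∀ p ∈ U, p.Prime ∧ ¬ p ∣ d) :
    (Nat.totient (d * ∏ p ∈ U, p) : ℝ) = Nat.totient d * ∏ p ∈ U, ((p : ℝ) - 1) := by
  induction U using Finset.induction_on with
  | empty => simp
  | insert q U hq ih =>
    rw [prod_insert hq, prod_insert hq]
    have hqp := hU q (mem_insert_self _ _)
    have h1 : Nat.Coprime q (d * ∏ p ∈ U, p) := by
      refine Nat.Coprime.mul_right ?_ ?_
      · exact (Nat.Prime.coprime_iff_not_dvd hqp.1).2 hqp.2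
      · refine Nat.Coprime.prod_right fun p hp => ?_
        refine (Nat.coprime_primes hqp.1 (hU p (mem_insert_of_mem hp)).1).2 ?_
        rintro rfl
        exact hq hp
    rw [show d * (q * ∏ p ∈ U, p) = q * (d * ∏ p ∈ U, p) by ring, Nat.totient_mul h1,
      Nat.totient_prime hqp.1, Nat.cast_mul, Nat.cast_sub hqp.1.one_le,
      ih (fun p hp => hU p (mem_insert_of_mem hp))]
    push_cast
    ring

lemma dvd_mul_iff' (d n : ℕ) (U : Finset ℕ) (hU : ∀ p ∈ U, p.Prime ∧ ¬ p ∣ d) :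
    d * ∏ p ∈ U, p ∣ n ↔ d ∣ n ∧ ∀ p ∈ U, p ∣ n := by
  constructor
  · intro h
    refine ⟨(Dvd.intro _ rfl).trans h, fun p hp => ?_⟩
    exact ((dvd_prod_of_mem _ hp).trans (Dvd.intro_left _ rfl)).trans h
  · rintro ⟨h1, h2⟩
    refine Nat.Coprime.mul_dvd_of_dvd_of_dvd ?_ h1 ?_
    · refine Nat.Coprime.prod_right fun p hp => ?_
      exact ((Nat.Prime.coprime_iff_not_dvd (hU p hp).1).2 (hU p hp).2).symm
    · exact Finset.prod_primes_dvd n (fun p hp => (hU p hp).1.prime) h2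

lemma prod_ind (S : Finset ℕ) (n : ℕ) :
    ∏ r ∈ S, (1 - (if r ∣ n then (1 : ℝ) else 0)) = if ∀ r ∈ S, ¬ r ∣ n then 1 else 0 := by
  split_ifs with h
  · refine prod_eq_one fun r hr => ?_
    simp [h r hr]
  · push Not at h
    obtain ⟨r, hr, hd⟩ := h
    refine prod_eq_zero hr ?_
    simp [hd]

lemma prod_ind2 (S : Finset ℕ) (n : ℕ) :
    ∏ r ∈ S, (if r ∣ n then (1 : ℝ) else 0) = if ∀ r ∈ S, r ∣ n then 1 else 0 := by
  rw [Finset.prod_ite_zero]
  simp

lemma prod_one_sub' (S : Finset ℕ) (f : ℕ → ℝ) :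
    ∏ r ∈ S, (1 - f r) = ∑ U ∈ S.powerset, (-1) ^ U.card * ∏ r ∈ U, f r := by
  have h := Finset.prod_one_add (f := fun r => - f r) S
  simp only [← sub_eq_add_neg] at h
  rw [h]
  refine sum_congr rfl fun U _ => ?_
  rw [prod_neg]

lemma count (D : Dat) (x : ℝ) (d : ℕ) (S0 T : Finset ℕ) (hd : ∀ p ∈ S0 ∪ T, p.Prime ∧ ¬ p ∣ d)
    (hdis : Disjoint S0 T) :
    ((((PX D x).filter (fun p : ℕ => d ∣ nn D p ∧
        ∀ r ∈ S0, ¬ r ∣ nn D p)).filter (fun p => ∀ r ∈ T, r ∣ nn D p)).card : ℝ) =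
      ∑ U ∈ S0.powerset, (-1) ^ U.card * NN D x (d * ((∏ p ∈ U, p) * ∏ p ∈ T, p)) := by
  have key : ∀ m : ℕ, ∑ U ∈ S0.powerset, (-1 : ℝ) ^ U.card *
      (if d * ((∏ p ∈ U, p) * ∏ p ∈ T, p) ∣ nn D m then (1 : ℝ) else 0) =
      if (d ∣ nn D m ∧ ∀ r ∈ S0, ¬ r ∣ nn D m) ∧ ∀ r ∈ T, r ∣ nn D m
        then 1 else 0 := by
    intro m
    have h1 : ∀ U ∈ S0.powerset, (-1 : ℝ) ^ U.card *
      (if d * ((∏ p ∈ U, p) * ∏ p ∈ T, p) ∣ nn D m then (1 : ℝ) else 0) =
      (if d ∣ nn D m ∧ ∀ r ∈ T, r ∣ nn D m then (1 : ℝ) else 0) *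
        ((-1 : ℝ) ^ U.card * ∏ r ∈ U, (if r ∣ nn D m then (1 : ℝ) else 0)) := by
      intro U hU
      rw [mem_powerset] at hU
      have hdisU : Disjoint U T := disjoint_of_subset_left hU hdis
      have hprod : (∏ p ∈ U, p) * ∏ p ∈ T, p = ∏ p ∈ U ∪ T, p := (prod_union hdisU).symm
      have hiff := dvd_mul_iff' d (nn D m) (U ∪ T)
        (fun p hp => hd p (union_subset_union hU (subset_refl T) hp))
      rw [prod_ind2, hprod]
      by_cases ha : d ∣ nn D m ∧ ∀ r ∈ T, r ∣ nn D m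
      · by_cases hb : ∀ r ∈ U, r ∣ nn D m
        · have hc : d * ∏ p ∈ U ∪ T, p ∣ nn D m := by
            refine hiff.2 ⟨ha.1, fun p hp => ?_⟩
            rcases mem_union.1 hp with h | h
            · exact hb p h
            · exact ha.2 p h
          rw [if_pos ha, if_pos hb, if_pos hc]
          ring
        · have hc : ¬ (d * ∏ p ∈ U ∪ T, p ∣ nn D m) := by
            intro h3
            exact hb fun r hr => (hiff.1 h3).2 r (mem_union_left _ hr)
          rw [if_pos ha, if_neg hb, if_neg hc]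
          ring
      · have hc : ¬ (d * ∏ p ∈ U ∪ T, p ∣ nn D m) := by
          intro h3
          exact ha ⟨(hiff.1 h3).1, fun r hr => (hiff.1 h3).2 r (mem_union_right _ hr)⟩
        rw [if_neg ha, if_neg hc]
        ring
    rw [sum_congr rfl h1, ← mul_sum, ← prod_one_sub', prod_ind]
    by_cases ha : d ∣ nn D m ∧ ∀ r ∈ T, r ∣ nn D m
    · by_cases hb : ∀ r ∈ S0, ¬ r ∣ nn D m
      · rw [if_pos ha, if_pos hb, if_pos ⟨⟨ha.1, hb⟩, ha.2⟩]
        ring
      · rw [if_pos ha, if_neg hb, if_neg (fun h => hb h.1.2)]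
        ring
    · have hneg : ¬ ((d ∣ nn D m ∧ ∀ r ∈ S0, ¬ r ∣ nn D m) ∧
          ∀ r ∈ T, r ∣ nn D m) := fun h => ha ⟨h.1.1, h.2⟩
      rw [if_neg ha, if_neg hneg]
      ring
  have h2 : ∀ k : ℕ, NN D x k = ∑ m ∈ PX D x,
      (if k ∣ nn D m then (1 : ℝ) else 0) := by
    intro k
    unfold NN
    rw [sum_boole]
  rw [filter_filter]
  rw [show (((PX D x).filter (fun m : ℕ => (d ∣ nn D m ∧
        ∀ r ∈ S0, ¬ r ∣ nn D m) ∧ ∀ r ∈ T, r ∣ nn D m)).card : ℝ) = ∑ m ∈ PX D x,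
        (if (d ∣ nn D m ∧ ∀ r ∈ S0, ¬ r ∣ nn D m) ∧ ∀ r ∈ T, r ∣ nn D m
        then (1 : ℝ) else 0) by
      rw [card_filter]
      push_cast
      refine sum_congr rfl fun m _ => ?_
      congr]
  simp_rw [h2, mul_sum]
  rw [sum_comm]
  exact sum_congr rfl fun m _ => (key m).symm

/-- the hypothesis of the fundamental lemma -/
lemma cond (D : Dat) (x : ℝ) (d : ℕ) (S0 T : Finset ℕ) (hd : ∀ p ∈ S0 ∪ T, p.Prime ∧ ¬ p ∣ d)
    (hdis : Disjoint S0 T) :
    |((((PX D x).filter (fun p : ℕ => d ∣ nn D p ∧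
        ∀ r ∈ S0, ¬ r ∣ nn D p)).filter (fun p => ∀ r ∈ T, r ∣ nn D p)).card : ℝ) -
      (X0 D x / (Nat.totient d : ℝ) *
        ∏ p ∈ S0, (1 - 1 / ((p : ℝ) - 1))) * ∏ p ∈ T, 1 / ((p : ℝ) - 1)| ≤
      ∑ U ∈ S0.powerset, |RR D x (d * ((∏ p ∈ U, p) * ∏ p ∈ T, p))| := by
  have h1 : (X0 D x / (Nat.totient d : ℝ) *
        ∏ p ∈ S0, (1 - 1 / ((p : ℝ) - 1))) * ∏ p ∈ T, 1 / ((p : ℝ) - 1) =
      ∑ U ∈ S0.powerset, (-1) ^ U.card * (X0 D x /
        (Nat.totient (d * ((∏ p ∈ U, p) * ∏ p ∈ T, p)) : ℝ)) := by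
    rw [prod_one_sub', mul_sum, sum_mul]
    refine sum_congr rfl fun U hU => ?_
    rw [mem_powerset] at hU
    have hdisU : Disjoint U T := disjoint_of_subset_left hU hdis
    have hprod : (∏ p ∈ U, p) * ∏ p ∈ T, p = ∏ p ∈ U ∪ T, p := (prod_union hdisU).symm
    rw [hprod, tot_mul d (U ∪ T) (fun p hp => hd p (union_subset_union hU (subset_refl T) hp)),
      prod_union hdisU]
    simp only [one_div, prod_inv_distrib]
    field_simp
  rw [h1, count D x d S0 T hd hdis, ← sum_sub_distrib]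
  refine (abs_sum_le_sum_abs _ _).trans (sum_le_sum fun U _ => ?_)
  rw [← mul_sub, abs_mul, abs_pow, abs_neg, abs_one, one_pow, one_mul]
  rfl

lemma two_pow_bd (w : ℝ) (hw : 5 ≤ w) : ∃ J : ℕ, w ≤ ((2 ^ 2 ^ J : ℕ) : ℝ) ∧
    ((2 ^ 2 ^ J : ℕ) : ℝ) ≤ w ^ 2 ∧ (J : ℝ) + 2 ≤ Real.log w + 4 := by
  have hex : ∃ J : ℕ, w ≤ ((2 ^ 2 ^ J : ℕ) : ℝ) := by
    obtain ⟨n, hn⟩ := exists_nat_ge w
    refine ⟨n, hn.trans ?_⟩
    have h1 : n ≤ 2 ^ 2 ^ n := (Nat.lt_two_pow_self.trans (Nat.lt_two_pow_self)).le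
    exact_mod_cast h1
  have hle : ((2 ^ 2 ^ Nat.find hex : ℕ) : ℝ) ≤ w ^ 2 := by
    rcases Nat.eq_zero_or_pos (Nat.find hex) with h0 | h0
    · rw [h0]
      norm_num
      nlinarith
    · obtain ⟨K, hK⟩ : ∃ K, Nat.find hex = K + 1 := ⟨_, (Nat.sub_add_cancel h0).symm⟩
      have h1 := Nat.find_min hex (m := K) (by omega)
      push Not at h1
      have h2 : ((2 ^ 2 ^ (K + 1) : ℕ) : ℝ) = ((2 ^ 2 ^ K : ℕ) : ℝ) ^ 2 := by
        push_cast
        rw [← pow_mul, pow_succ]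
      rw [hK, h2]
      exact pow_le_pow_left₀ (by positivity) h1.le 2
  refine ⟨Nat.find hex, Nat.find_spec hex, hle, ?_⟩
  set J := Nat.find hex
  have hlog : (2 : ℝ) ^ J * Real.log 2 ≤ 2 * Real.log w := by
    have h1 := Real.log_le_log (by positivity) hle
    rw [Real.log_pow] at h1
    push_cast at h1
    rw [Real.log_pow] at h1
    push_cast at h1
    exact h1
  have hl2 : (0.69 : ℝ) ≤ Real.log 2 := by
    have := Real.log_two_gt_d9
    linarith
  have hJ : (J : ℝ) ≤ 2 ^ J / 4 + 2 := by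
    have : ∀ n : ℕ, (n : ℝ) ≤ 2 ^ n / 4 + 2 := by
      intro n
      induction n with
      | zero => norm_num
      | succ n ih =>
        rcases Nat.lt_or_ge n 2 with h | h
        · interval_cases n <;> norm_num
        · have h4 : (4 : ℝ) ≤ 2 ^ n := by
            calc (4 : ℝ) = 2 ^ 2 := by norm_num
              _ ≤ 2 ^ n := pow_le_pow_right₀ (by norm_num) h
          push_cast
          rw [pow_succ]
          linarith
    exact this J
  have hp : (0 : ℝ) < 2 ^ J := by positivity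
  nlinarith

lemma sqf_prod (S : Finset ℕ) (hS : ∀ p ∈ S, p.Prime) : Squarefree (∏ p ∈ S, p) := by
  induction S using Finset.induction_on with
  | empty => simp
  | insert q U hq ih =>
    rw [prod_insert hq]
    have h1 : Nat.Coprime q (∏ p ∈ U, p) := by
      refine Nat.Coprime.prod_right fun p hp => ?_
      refine (Nat.coprime_primes (hS q (mem_insert_self _ _))
        (hS p (mem_insert_of_mem hp))).2 ?_
      rintro rfl
      exact hq hp
    exact (Nat.squarefree_mul h1).2 ⟨(hS q (mem_insert_self _ _)).prime.squarefree,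
      ih fun p hp => hS p (mem_insert_of_mem hp)⟩

/-- the product of the small primes and the sieving primes is V0 -/
lemma SQ_split (Q : ℕ) (z : ℕ) (w : ℝ) (hz : ((z : ℝ) + 1) ≤ w) :
    SQ Q w = (range (z + 1)).filter (fun p : ℕ => p.Prime ∧ ¬ p ∣ Q) ∪
      (range ⌈w⌉₊).filter (fun p : ℕ => p.Prime ∧ ¬ p ∣ Q ∧ z < p) := by
  ext p
  simp only [SQ, mem_filter, mem_union, mem_range]
  constructor
  · rintro ⟨h1, h2, h3⟩
    rcases Nat.lt_or_ge z p with h | h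
    · exact Or.inr ⟨h1, h2, h3, h⟩
    · exact Or.inl ⟨by omega, h2, h3⟩
  · rintro (⟨h1, h2, h3⟩ | ⟨h1, h2, h3, h4⟩)
    · refine ⟨?_, h2, h3⟩
      rw [Nat.lt_ceil]
      have : (p : ℝ) ≤ z := by exact_mod_cast Nat.lt_succ_iff.1 h1
      linarith
    · exact ⟨h1, h2, h3⟩

lemma five_le (Q : ℕ) (hQ : 12 ∣ Q) (r : ℕ) (hr : r.Prime) (hrQ : ¬ r ∣ Q) : 5 ≤ r := by
  by_contra hr5
  have hr2 := hr.two_le
  interval_cases r
  · exact hrQ (dvd_trans (by norm_num) hQ)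
  · exact hrQ (dvd_trans (by norm_num) hQ)
  · exact absurd hr (by norm_num)

end BASE1_

open BASE1_ in
theorem base1 : BASE1 := by
  intro D hD
  obtain ⟨ha, hb0, hg, hQ0, h12, hp0, hrQ, hDp⟩ := hD
  obtain ⟨C0, hC0, hF⟩ := Pool.Agent.H20R2.fLem 1
  set z : ℕ := max C0 5 with hz
  set S0 : Finset ℕ := (range (z + 1)).filter (fun p : ℕ => p.Prime ∧ ¬ p ∣ D.Q) with hS0
  set M0 : ℕ := ∏ p ∈ S0, p with hM0
  have hM0pos : 1 ≤ M0 := by
    rw [Nat.one_le_iff_ne_zero]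
    refine prod_ne_zero_iff.2 fun p hp => ?_
    have := (mem_filter.1 hp).2.1.pos
    omega
  refine ⟨M0 + 2 * C0 + 4, by omega, z + 5 + 2 * D.b.natAbs, ?_⟩
  intro b hb x w hw hwx d hd hd6 hdp
  have hz5 : 5 ≤ z := le_max_right _ _
  have hzC : C0 ≤ z := le_max_left _ _
  have hw5 : (5 : ℝ) ≤ w := by
    have : (0 : ℝ) ≤ z := Nat.cast_nonneg _
    have : (0 : ℝ) ≤ (D.b.natAbs : ℝ) := Nat.cast_nonneg _
    rw [Nat.cast_add, Nat.cast_add, Nat.cast_mul] at hw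
    push_cast at hw
    linarith
  have hw1 : (z : ℝ) + 1 ≤ w := by
    have : (0 : ℝ) ≤ (D.b.natAbs : ℝ) := Nat.cast_nonneg _
    rw [Nat.cast_add, Nat.cast_add, Nat.cast_mul] at hw
    push_cast at hw
    linarith
  have hwb : 2 * (D.b.natAbs : ℝ) < w := by
    have : (0 : ℝ) ≤ z := Nat.cast_nonneg _
    rw [Nat.cast_add, Nat.cast_add, Nat.cast_mul] at hw
    push_cast at hw
    linarith
  have hPXc : ∀ p ∈ PX D x, Nat.Coprime (nn D p) D.Q := by
    intro p hp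
    rw [PX, mem_filter] at hp
    refine (hDp p hp.2.2.2 ?_).2.1
    have h1 : (D.b.natAbs : ℝ) < (p : ℝ) := by
      have := hp.2.2.1
      linarith
    exact_mod_cast h1
  obtain ⟨J, hJ1, hJ2, hJ3⟩ := two_pow_bd w hw5
  set P : Finset ℕ := (range ⌈w⌉₊).filter (fun p : ℕ => p.Prime ∧ ¬ p ∣ D.Q ∧ z < p) with hP
  have hPmem : ∀ p ∈ P, p.Prime ∧ z < p ∧ (p : ℝ) < w ∧ ¬ p ∣ D.Q := by
    intro p hp
    rw [hP, mem_filter, mem_range, Nat.lt_ceil] at hp
    exact ⟨hp.2.1, hp.2.2.2, hp.1, hp.2.2.1⟩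
  have hSmem : ∀ p ∈ S0, p.Prime ∧ 5 ≤ p ∧ p ≤ z ∧ (p : ℝ) < w ∧ ¬ p ∣ D.Q := by
    intro p hp
    rw [hS0, mem_filter, mem_range] at hp
    have h1 : p ≤ z := by omega
    refine ⟨hp.2.1, five_le D.Q h12 p hp.2.1 hp.2.2, h1, ?_, hp.2.2⟩
    have : (p : ℝ) ≤ z := by exact_mod_cast h1
    linarith
  have hdis : Disjoint S0 P := by
    rw [Finset.disjoint_left]
    intro p h1 h2
    have h3 := (hSmem p h1).2.2.1
    have h4 := (hPmem p h2).2.1
    omega
  have hcop : ∀ p ∈ S0 ∪ P, p.Prime ∧ ¬ p ∣ d := by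
    intro p hp
    have h1 : p.Prime ∧ (p : ℝ) < w := by
      rcases mem_union.1 hp with h | h
      · exact ⟨(hSmem p h).1, (hSmem p h).2.2.2.1⟩
      · exact ⟨(hPmem p h).1, (hPmem p h).2.2.1⟩
    exact ⟨h1.1, fun h2 => absurd (hdp p h1.1 h2) (not_le.2 h1.2)⟩
  have hV0 : V0 D.Q w = (∏ p ∈ S0, (1 - 1 / ((p : ℝ) - 1))) * ∏ p ∈ P, (1 - 1 / ((p : ℝ) - 1)) := by
    unfold V0
    rw [SQ_split D.Q z w hw1, prod_union hdis]
  set Ω : Finset ℕ := (PX D x).filter (fun p : ℕ => d ∣ nn D p ∧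
        ∀ r ∈ S0, ¬ r ∣ nn D p) with hΩ
  set A : ℝ := X0 D x / (Nat.totient d : ℝ) *
        ∏ p ∈ S0, (1 - 1 / ((p : ℝ) - 1)) with hA
  have hX0 : 0 ≤ X0 D x := by
    unfold X0
    have h1 : Nat.primeCounting ⌊x / 2⌋₊ ≤ Nat.primeCounting ⌊x⌋₊ :=
      Nat.monotone_primeCounting (Nat.floor_le_floor (by linarith))
    have h2 : (Nat.primeCounting ⌊x / 2⌋₊ : ℝ) ≤ Nat.primeCounting ⌊x⌋₊ := by exact_mod_cast h1
    exact div_nonneg (by linarith) (Nat.cast_nonneg _)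
  have hApos : 0 ≤ A := by
    refine mul_nonneg (by positivity) (prod_nonneg fun p hp => ?_)
    have h1 : (5 : ℝ) ≤ p := by exact_mod_cast (hSmem p hp).2.1
    rw [sub_nonneg, div_le_one (by linarith)]
    linarith
  set err : Finset ℕ → ℝ := fun T =>
    ∑ U ∈ S0.powerset, |RR D x (d * ((∏ p ∈ U, p) * ∏ p ∈ T, p))| with herr
  have hmain := hF b J z P (fun r => 1 / ((r : ℝ) - 1)) (by omega) hzC
    (fun p hp => ⟨(hPmem p hp).1, (hPmem p hp).2.1, by
      have h1 := (hPmem p hp).2.2.1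
      have h2 : (p : ℝ) ≤ ((2 ^ 2 ^ J : ℕ) : ℝ) := by linarith
      exact_mod_cast h2⟩)
    (fun p hp => by
      have h1 : (5 : ℝ) < p := by
        have : 5 < p := by have := (hPmem p hp).2.1; omega
        exact_mod_cast this
      constructor
      · have : (0 : ℝ) < (p : ℝ) - 1 := by linarith
        positivity
      · simp)
    Ω (fun _ => 1) (fun r p => r ∣ nn D p) A err (fun _ _ => zero_le_one) hApos
    (fun T hT _ => by
      have h1 := cond D x d S0 T (fun p hp => hcop p (union_subset_union (subset_refl _) hT hp))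
        (disjoint_of_subset_right hT hdis)
      rw [sum_const, nsmul_eq_mul, mul_one]
      convert h1
      all_goals rfl)
  rw [sum_const, nsmul_eq_mul, mul_one] at hmain
  have hSS : SS D x w d w = ((Ω.filter (fun m => ∀ p ∈ P, ¬ p ∣ nn D m)).card : ℝ) := by
    unfold SS AA
    rw [filter_filter, hΩ, filter_filter]
    congr 2
    ext p
    simp only [mem_filter]
    constructor
    · rintro ⟨h1, h4, h5, h6⟩
      refine ⟨h1, ⟨h5, fun r hr hd => ?_⟩, fun r hr hd => ?_⟩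
      · exact absurd (h4 r (hSmem r hr).1 hd) (not_le.2 (hSmem r hr).2.2.2.1)
      · exact absurd (h4 r (hPmem r hr).1 hd) (not_le.2 (hPmem r hr).2.2.1)
    · rintro ⟨h1, ⟨h4, h5⟩, h6⟩
      refine ⟨h1, fun r hr hd => ?_, h4, fun q hq => ?_⟩
      · by_contra hlt
        push Not at hlt
        have hrQ' : ¬ r ∣ D.Q := by
          intro h
          have h7 := Nat.dvd_gcd hd h
          rw [hPXc p h1] at h7
          exact hr.one_lt.ne' (Nat.dvd_one.1 h7)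
        have hmem : r ∈ S0 ∪ P := by
          have : r ∈ SQ D.Q w := by
            rw [SQ, mem_filter, mem_range, Nat.lt_ceil]
            exact ⟨hlt, hr, hrQ'⟩
          rwa [SQ_split D.Q z w hw1] at this
        rcases mem_union.1 hmem with h | h
        · exact h5 r h hd
        · exact h6 r h hd
      · exfalso
        rw [PB, mem_filter, mem_range, Nat.lt_ceil] at hq
        linarith [hq.1, hq.2.2.2]
  have hmainterm : A * ∏ p ∈ P, (1 - 1 / ((p : ℝ) - 1)) =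
      X0 D x * V0 D.Q w / (Nat.totient d : ℝ) := by
    rw [hV0, hA]
    ring
  have hmain' : |SS D x w d w - A * ∏ p ∈ P, (1 - 1 / ((p : ℝ) - 1))| ≤
      (1 / 2 : ℝ) ^ b * (A * ∏ p ∈ P, (1 - 1 / ((p : ℝ) - 1))) +
        ((J : ℝ) + 2) * ∑ T ∈ P.powerset.filter
          (fun T : Finset ℕ => ∏ p ∈ T, p ≤ (2 ^ 2 ^ J) ^ (C0 * b)), err T := by
    rw [hSS]
    convert hmain
    rfl
  rw [hmainterm] at hmain'
  refine hmain'.trans ?_
  have hsum0 : ∀ s : Finset ℕ, 0 ≤ ∑ e ∈ s, |RR D x (d * e)| :=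
    fun s => sum_nonneg fun _ _ => abs_nonneg _
  set F : Finset ℕ := (Icc 1 ⌊((M0 + 2 * C0 + 4 : ℕ) : ℝ) *
      w ^ (((M0 + 2 * C0 + 4 : ℕ) : ℝ) * b : ℝ)⌋₊).filter
        (fun e : ℕ => Squarefree e ∧ ∀ p : ℕ, p.Prime → p ∣ e → ¬ p ∣ D.Q ∧ (p : ℝ) < w) with hFdef
  have hinj : ∑ T ∈ P.powerset.filter (fun T : Finset ℕ => ∏ p ∈ T, p ≤ (2 ^ 2 ^ J) ^ (C0 * b)),
      err T ≤ ∑ e ∈ F, |RR D x (d * e)| := by
    rw [herr]
    simp only
    rw [← sum_product']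
    have hinj0 : Set.InjOn (fun q : Finset ℕ × Finset ℕ => (∏ p ∈ q.2, p) * ∏ p ∈ q.1, p)
        (((P.powerset.filter (fun T : Finset ℕ => ∏ p ∈ T, p ≤ (2 ^ 2 ^ J) ^ (C0 * b))) ×ˢ
          S0.powerset : Finset (Finset ℕ × Finset ℕ)) : Set (Finset ℕ × Finset ℕ)) := by
      rintro ⟨T, U⟩ h1 ⟨T', U'⟩ h2 h12
      simp only [coe_product, Set.mem_prod, mem_coe, mem_filter, mem_powerset] at h1 h2 h12
      have hpf : ∀ (T U : Finset ℕ), T ⊆ P → U ⊆ S0 →
          ((∏ p ∈ U, p) * ∏ p ∈ T, p).primeFactors = U ∪ T := by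
        intro T U hT hU
        have hd1 : Disjoint U T := disjoint_of_subset_left hU (disjoint_of_subset_right hT hdis)
        rw [← prod_union hd1]
        refine Nat.primeFactors_prod fun p hp => ?_
        exact (hcop p (union_subset_union hU hT hp)).1
      have h3 := hpf T U h1.1.1 h1.2
      have h4 := hpf T' U' h2.1.1 h2.2
      rw [h12, h4] at h3
      have hU : ∀ (T U : Finset ℕ), T ⊆ P → U ⊆ S0 → (U ∪ T) ∩ S0 = U := by
        intro T U hT hU
        ext p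
        simp only [mem_inter, mem_union]
        constructor
        · rintro ⟨h | h, h'⟩
          · exact h
          · exact absurd (hT h) (Finset.disjoint_left.1 hdis h')
        · exact fun h => ⟨Or.inl h, hU h⟩
      have hT : ∀ (T U : Finset ℕ), T ⊆ P → U ⊆ S0 → (U ∪ T) ∩ P = T := by
        intro T U hT hU
        ext p
        simp only [mem_inter, mem_union]
        constructor
        · rintro ⟨h | h, h'⟩
          · exact absurd h' (Finset.disjoint_left.1 hdis (hU h))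
          · exact h
        · exact fun h => ⟨Or.inr h, hT h⟩
      have hUU : U' = U := by
        rw [← hU T' U' h2.1.1 h2.2, h3, hU T U h1.1.1 h1.2]
      have hTT : T' = T := by
        rw [← hT T' U' h2.1.1 h2.2, h3, hT T U h1.1.1 h1.2]
      rw [hUU, hTT]
    have himg : ∑ q ∈ (P.powerset.filter (fun T : Finset ℕ => ∏ p ∈ T, p ≤ (2 ^ 2 ^ J) ^ (C0 * b))) ×ˢ
          S0.powerset, |RR D x (d * ((∏ p ∈ q.2, p) * ∏ p ∈ q.1, p))| =
        ∑ e ∈ ((P.powerset.filter (fun T : Finset ℕ => ∏ p ∈ T, p ≤ (2 ^ 2 ^ J) ^ (C0 * b))) ×ˢ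
          S0.powerset).image (fun q : Finset ℕ × Finset ℕ => (∏ p ∈ q.2, p) * ∏ p ∈ q.1, p),
          |RR D x (d * e)| := (sum_image (f := fun e => |RR D x (d * e)|) hinj0).symm
    rw [himg]
    refine sum_le_sum_of_subset_of_nonneg ?_ (fun _ _ _ => abs_nonneg _)
    intro e he
    rw [mem_image] at he
    obtain ⟨⟨T, U⟩, hq, rfl⟩ := he
    simp only [mem_product, mem_filter, mem_powerset] at hq
    obtain ⟨⟨hT, hTle⟩, hU⟩ := hq
    have hd1 : Disjoint U T := disjoint_of_subset_left hU (disjoint_of_subset_right hT hdis)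
    have hpr : ∀ p ∈ U ∪ T, p.Prime := fun p hp => (hcop p (union_subset_union hU hT hp)).1
    have hpos : 1 ≤ (∏ p ∈ U, p) * ∏ p ∈ T, p := by
      rw [← prod_union hd1, Nat.one_le_iff_ne_zero]
      refine prod_ne_zero_iff.2 fun p hp => (hpr p hp).ne_zero
    simp only [hFdef, mem_filter, mem_Icc]
    refine ⟨⟨hpos, ?_⟩, ?_, ?_⟩
    · rw [Nat.le_floor_iff (by positivity)]
      have hUle : ∏ p ∈ U, p ≤ M0 := by
        refine Nat.le_of_dvd hM0pos (prod_dvd_prod_of_subset _ _ _ hU)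
      have h1 : (((∏ p ∈ U, p) * ∏ p ∈ T, p : ℕ) : ℝ) ≤ (M0 : ℝ) * ((2 ^ 2 ^ J) ^ (C0 * b) : ℕ) := by
        have := Nat.mul_le_mul hUle hTle
        exact_mod_cast this
      refine h1.trans ?_
      have h2 : (((2 ^ 2 ^ J) ^ (C0 * b) : ℕ) : ℝ) ≤ w ^ (2 * (C0 * b)) := by
        rw [Nat.cast_pow, pow_mul w 2]
        exact pow_le_pow_left₀ (Nat.cast_nonneg _) hJ2 _
      have h3 : w ^ (2 * (C0 * b)) ≤ w ^ (((M0 + 2 * C0 + 4 : ℕ) : ℝ) * b : ℝ) := by
        rw [← Real.rpow_natCast]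
        refine Real.rpow_le_rpow_of_exponent_le (by linarith) ?_
        push_cast
        have hb0 : (0 : ℝ) ≤ b := Nat.cast_nonneg _
        have hm0 : (0 : ℝ) ≤ M0 := Nat.cast_nonneg _
        nlinarith [mul_nonneg hm0 hb0]
      have h4 : (M0 : ℝ) ≤ ((M0 + 2 * C0 + 4 : ℕ) : ℝ) := by
        push_cast
        have : (0 : ℝ) ≤ C0 := Nat.cast_nonneg _
        linarith
      exact mul_le_mul h4 (h2.trans h3) (Nat.cast_nonneg _) (Nat.cast_nonneg _)
    · rw [← prod_union hd1]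
      exact sqf_prod (U ∪ T) hpr
    · intro p hp hpd
      rw [← prod_union hd1] at hpd
      obtain ⟨q, hq, hpq⟩ := (Prime.dvd_finsetProd_iff hp.prime _).1 hpd
      have hpq' : p = q := (Nat.prime_dvd_prime_iff_eq hp (hpr q hq)).1 hpq
      subst hpq'
      rcases mem_union.1 hq with h | h
      · exact ⟨(hSmem p (hU h)).2.2.2.2, (hSmem p (hU h)).2.2.2.1⟩
      · have := hPmem p (hT h)
        exact ⟨this.2.2.2, this.2.2.1⟩
  have hlog : (J : ℝ) + 2 ≤ Real.log x + ((M0 + 2 * C0 + 4 : ℕ) : ℝ) := by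
    have h1 : Real.log w ≤ Real.log x := Real.log_le_log (by linarith) hwx
    push_cast
    have h2 : (0 : ℝ) ≤ M0 := Nat.cast_nonneg _
    have h3 : (0 : ℝ) ≤ C0 := Nat.cast_nonneg _
    linarith
  have hfin : ((J : ℝ) + 2) * ∑ T ∈ P.powerset.filter
      (fun T : Finset ℕ => ∏ p ∈ T, p ≤ (2 ^ 2 ^ J) ^ (C0 * b)), err T ≤
      (Real.log x + ((M0 + 2 * C0 + 4 : ℕ) : ℝ)) * ∑ e ∈ F, |RR D x (d * e)| :=
    mul_le_mul hlog hinj (sum_nonneg fun T _ => sum_nonneg fun _ _ => abs_nonneg _)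
      ((by positivity : (0 : ℝ) ≤ (J : ℝ) + 2).trans hlog)
  have hgoal : ∑ e ∈ F, |RR D x (d * e)| = ∑ e ∈ F,
      |(((PX D x).filter (fun p : ℕ => d * e ∣ nn D p)).card : ℝ) -
          X0 D x / (Nat.totient (d * e) : ℝ)| := rfl
  rw [hgoal] at hfin
  linarith

end Pool.Agent.H95R2.TG

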