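import Mathlib
import Pool.Agent.H95R2.TG.Defs
import Pool.Agent.H442R2.KF.Bv
import Pool.Agent.Helper256.KM.E1

set_option autoImplicit false

open Finset Filter

namespace Pool.Agent.H95R2.TG

open Pool.Agent.H95R2.TI (VM AP DD FS fS cA Lg hk VML ROU II1 II2 LIP TOPN)
open scoped Classical

namespace B2

open Pool.Agent.H442R2.KF (piN piAP Er bv)

/-- the residue class -/
theorem cls (D : Dat) (hD : Good D) (q : ℕ) (hq0 : 0 < q) (hq : Nat.Coprime q D.Q) :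
    ∃ k : ℕ, Nat.Coprime k (q * D.Q) ∧ ∀ p : ℕ, D.b.natAbs < p →
      ((p ≡ D.p0 [MOD D.Q] ∧ q ∣ nn D p) ↔ p ≡ k [MOD (q * D.Q)]) := by
  obtain ⟨ha, hb, hg, hQ, h12, hp0, hdiv, hnn⟩ := hD
  -- q is coprime to a, g, b
  have hcop : ∀ z : ℤ, z ∣ (D.a : ℤ) * D.g * D.b → IsCoprime z (q : ℤ) := by
    intro z hz
    rw [Int.isCoprime_iff_gcd_eq_one]
    by_contra hne
    obtain ⟨r, hr, hrd⟩ := Nat.exists_prime_and_dvd hne
    have h1 : (r : ℤ) ∣ z := (Int.natCast_dvd_natCast.2 hrd).trans (Int.gcd_dvd_left _ _)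
    have h2 : (r : ℤ) ∣ (q : ℤ) := (Int.natCast_dvd_natCast.2 hrd).trans (Int.gcd_dvd_right _ _)
    have h3 : r ∣ D.Q := hdiv r hr (h1.trans hz)
    have h4 : r ∣ q := Int.natCast_dvd_natCast.1 h2
    exact hr.one_lt.ne' (Nat.dvd_one.1 (hq ▸ Nat.dvd_gcd h4 h3))
  have hca : IsCoprime (D.a : ℤ) (q : ℤ) := hcop _ ⟨D.g * D.b, by ring⟩
  have hcg : IsCoprime (D.g : ℤ) (q : ℤ) := hcop _ ⟨D.a * D.b, by ring⟩
  have hcb : IsCoprime D.b (q : ℤ) := hcop _ ⟨D.a * D.g, by ring⟩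
  obtain ⟨u, v, huv⟩ := hca
  -- t with a t + b = 0 mod q
  have hq0' : (q : ℤ) ≠ 0 := by exact_mod_cast hq0.ne'
  set t : ℕ := ((-D.b * u) % (q : ℤ)).toNat with ht
  have ht1 : (t : ℤ) = (-D.b * u) % (q : ℤ) := Int.toNat_of_nonneg (Int.emod_nonneg _ hq0')
  have ht2 : (q : ℤ) ∣ (D.a : ℤ) * t + D.b := by
    have e1 : (t : ℤ) = -D.b * u - q * ((-D.b * u) / q) := by
      rw [ht1]
      have := Int.emod_add_mul_ediv (-D.b * u) (q : ℤ)
      linarith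
    refine ⟨D.b * v - D.a * ((-D.b * u) / q), ?_⟩
    rw [e1]
    linear_combination (-D.b) * huv
  have htc : Nat.Coprime t q := by
    rw [← Nat.isCoprime_iff_coprime]
    have h1 : IsCoprime ((D.a : ℤ) * t) (q : ℤ) := by
      obtain ⟨s, hs⟩ := ht2
      have h2 : (D.a : ℤ) * t = -D.b + q * s := by linarith
      rw [h2]
      exact (IsCoprime.neg_left hcb).add_mul_left_left s
    exact (IsCoprime.mul_left_iff.1 h1).2
  obtain ⟨k, hk1, hk2⟩ := Nat.chineseRemainder hq t D.p0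
  refine ⟨k, ?_, ?_⟩
  · apply Nat.Coprime.mul_right
    · show Nat.gcd k q = 1
      rw [hk1.gcd_eq]; exact htc
    · show Nat.gcd k D.Q = 1
      rw [hk2.gcd_eq]; exact hp0
  · intro p hp
    rw [← Nat.modEq_and_modEq_iff_modEq_mul hq]
    constructor
    · rintro ⟨h1, h2⟩
      refine ⟨?_, h1.trans hk2.symm⟩
      have h3 := (hnn p h1 hp).1
      have h4 : (q : ℤ) ∣ (D.a : ℤ) * p + D.b := by
        rw [← h3]
        exact Dvd.dvd.mul_left (Int.natCast_dvd_natCast.2 h2) _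
      have h5 : (q : ℤ) ∣ (D.a : ℤ) * (p - t) := by
        have := dvd_sub h4 ht2
        have e : (D.a : ℤ) * p + D.b - ((D.a : ℤ) * t + D.b) = (D.a : ℤ) * (p - t) := by ring
        rwa [e] at this
      have h6 : (q : ℤ) ∣ ((p : ℤ) - t) := IsCoprime.dvd_of_dvd_mul_left (⟨v, u, by linarith⟩ : IsCoprime (q : ℤ) (D.a : ℤ)) h5
      have h7 : t ≡ p [MOD q] := (Nat.modEq_iff_dvd).2 h6
      exact h7.symm.trans hk1.symm
    · rintro ⟨h1, h2⟩
      have h3 : p ≡ D.p0 [MOD D.Q] := h2.trans hk2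
      refine ⟨h3, ?_⟩
      have h4 := (hnn p h3 hp).1
      have h5 : t ≡ p [MOD q] := (h1.trans hk1).symm
      have h6 : (q : ℤ) ∣ ((p : ℤ) - t) := (Nat.modEq_iff_dvd).1 h5
      have h7 : (q : ℤ) ∣ (D.g : ℤ) * (nn D p : ℤ) := by
        rw [h4]
        have e : (D.a : ℤ) * p + D.b = (D.a : ℤ) * (p - t) + ((D.a : ℤ) * t + D.b) := by ring
        rw [e]
        exact dvd_add (Dvd.dvd.mul_left h6 _) ht2
      exact Int.natCast_dvd_natCast.1 (IsCoprime.dvd_of_dvd_mul_left hcg.symm h7)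

theorem pc_eq (n : ℕ) : Nat.primeCounting n = piN n := by
  unfold piN
  rw [Nat.primeCounting, Nat.primeCounting', Nat.count_eq_card_filter_range]
  congr 1
  ext p
  simp only [mem_filter, mem_range, mem_Icc]
  constructor
  · rintro ⟨h1, h2⟩
    exact ⟨⟨h2.one_le, by omega⟩, h2⟩
  · rintro ⟨h1, h2⟩
    exact ⟨by omega, h2⟩

/-- the remainder in terms of Bombieri-Vinogradov -/
theorem rq_eq (D : Dat) (hD : Good D) (x : ℝ) (hx : (D.b.natAbs : ℝ) ≤ x / 2) (q : ℕ)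
    (hq : Nat.Coprime q D.Q) (k : ℕ)
    (hk : ∀ p : ℕ, D.b.natAbs < p → ((p ≡ D.p0 [MOD D.Q] ∧ q ∣ nn D p) ↔ p ≡ k [MOD (q * D.Q)])) :
    (((PX D x).filter (fun p : ℕ => q ∣ nn D p)).card : ℝ) - X0 D x / (Nat.totient q : ℝ) =
      Er ⌊x⌋₊ (q * D.Q) k - Er ⌊x / 2⌋₊ (q * D.Q) k := by
  have hx0 : 0 ≤ x / 2 := le_trans (Nat.cast_nonneg _) hx
  have h1 : piAP ⌊x⌋₊ (q * D.Q) k = piAP ⌊x / 2⌋₊ (q * D.Q) k +
      ((PX D x).filter (fun p : ℕ => q ∣ nn D p)).card := by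
    unfold piAP
    rw [← card_union_of_disjoint]
    · congr 1
      ext p
      simp only [mem_filter, mem_union, mem_Icc, PX]
      constructor
      · rintro ⟨⟨h1, h2⟩, h3, h4⟩
        rcases le_or_gt (p : ℝ) (x / 2) with h5 | h5
        · left
          exact ⟨⟨h1, Nat.le_floor h5⟩, h3, h4⟩
        · right
          have h6 : D.b.natAbs < p := by exact_mod_cast lt_of_le_of_lt hx h5
          have h7 := (hk p h6).2 h4
          exact ⟨⟨⟨h1, h2⟩, h3, h5, h7.1⟩, h7.2⟩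
      · rintro (⟨⟨h1, h2⟩, h3, h4⟩ | ⟨⟨⟨h1, h2⟩, h3, h5, h6⟩, h7⟩)
        · exact ⟨⟨h1, h2.trans (Nat.floor_le_floor (by linarith))⟩, h3, h4⟩
        · have h8 : D.b.natAbs < p := by exact_mod_cast lt_of_le_of_lt hx h5
          exact ⟨⟨h1, h2⟩, h3, (hk p h8).1 ⟨h6, h7⟩⟩
    · rw [disjoint_left]
      intro p hp hp'
      simp only [mem_filter, mem_Icc, PX] at hp hp'
      have h2 : (p : ℝ) ≤ x / 2 := (Nat.le_floor_iff hx0).1 hp.1.2
      linarith [hp'.1.2.2.1]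
  have h2 : (Nat.totient (q * D.Q) : ℝ) = (Nat.totient q : ℝ) * (Nat.totient D.Q : ℝ) := by
    rw [Nat.totient_mul hq]; push_cast; ring
  unfold Er X0
  rw [h1, h2, pc_eq, pc_eq, div_div]
  push_cast
  rw [mul_comm (Nat.totient D.Q : ℝ)]
  ring


/-- the double sum over `d`, `e` is at most the sum over `q = d e` -/
theorem dbl (f : ℕ → ℝ) (hf : ∀ n, 0 ≤ f n) (Q : ℕ) (w y z Y : ℝ) (hy : 0 ≤ y) (hz : 0 ≤ z)
    (hyz : y * z ≤ Y) (hwQ : ∀ p : ℕ, p.Prime → w ≤ (p : ℝ) → ¬ p ∣ Q) :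
    ∑ d ∈ DD w y, ∑ e ∈ (Icc 1 ⌊z⌋₊).filter
        (fun e : ℕ => Squarefree e ∧ ∀ p : ℕ, p.Prime → p ∣ e → ¬ p ∣ Q ∧ (p : ℝ) < w), f (d * e) ≤
      ∑ q ∈ (Icc 1 ⌊Y⌋₊).filter (fun q : ℕ => Nat.Coprime q Q), f q := by
  have hcop : ∀ d e : ℕ, (∀ p : ℕ, p.Prime → p ∣ d → w ≤ (p : ℝ)) →
      (∀ p : ℕ, p.Prime → p ∣ e → ¬ p ∣ Q ∧ (p : ℝ) < w) → Nat.Coprime d e := by
    intro d e h1 h2
    by_contra hne
    obtain ⟨r, hr, hrd⟩ := Nat.exists_prime_and_dvd hne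
    have h3 := h1 r hr (hrd.trans (Nat.gcd_dvd_left _ _))
    have h4 := (h2 r hr (hrd.trans (Nat.gcd_dvd_right _ _))).2
    linarith
  rw [← sum_product']
  have hinj : Set.InjOn (fun x : ℕ × ℕ => x.1 * x.2) (↑(DD w y ×ˢ (Icc 1 ⌊z⌋₊).filter
        (fun e : ℕ => Squarefree e ∧ ∀ p : ℕ, p.Prime → p ∣ e → ¬ p ∣ Q ∧ (p : ℝ) < w)) : Set (ℕ × ℕ)) := by
    rintro ⟨d, e⟩ h1 ⟨d', e'⟩ h2 h
    simp only [coe_product, Set.mem_prod, mem_coe, mem_filter, mem_Icc, DD] at h1 h2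
    obtain ⟨⟨⟨a1, a2⟩, a3, a4⟩, ⟨b1, b2⟩, b3, b4⟩ := h1
    obtain ⟨⟨⟨c1, c2⟩, c3, c4⟩, ⟨e1, e2⟩, e3, e4⟩ := h2
    have h : d * e = d' * e' := h
    have g1 : d ∣ d' := (hcop d e' a4 e4).dvd_of_dvd_mul_right (h ▸ Dvd.intro _ rfl)
    have g2 : d' ∣ d := (hcop d' e c4 b4).dvd_of_dvd_mul_right (h ▸ Dvd.intro _ rfl)
    have g3 : d = d' := Nat.dvd_antisymm g1 g2
    subst g3
    have g4 : e = e' := Nat.eq_of_mul_eq_mul_left (by omega) h
    rw [g4]
  rw [← sum_image (f := f) (g := fun x : ℕ × ℕ => x.1 * x.2) hinj]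
  apply sum_le_sum_of_subset_of_nonneg
  · intro q hq
    rw [mem_image] at hq
    obtain ⟨⟨d, e⟩, h1, rfl⟩ := hq
    simp only [mem_product, mem_filter, mem_Icc, DD] at h1
    obtain ⟨⟨⟨a1, a2⟩, a3, a4⟩, ⟨b1, b2⟩, b3, b4⟩ := h1
    simp only [mem_filter, mem_Icc]
    refine ⟨⟨Nat.mul_pos a1 b1, ?_⟩, ?_⟩
    · apply Nat.le_floor
      push_cast
      have g1 : (d : ℝ) ≤ y := (Nat.le_floor_iff hy).1 a2
      have g2 : (e : ℝ) ≤ z := (Nat.le_floor_iff hz).1 b2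
      exact (mul_le_mul g1 g2 (Nat.cast_nonneg _) hy).trans hyz
    · apply Nat.Coprime.mul_left
      · by_contra hne
        obtain ⟨r, hr, hrd⟩ := Nat.exists_prime_and_dvd hne
        exact hwQ r hr (a4 r hr (hrd.trans (Nat.gcd_dvd_left _ _))) (hrd.trans (Nat.gcd_dvd_right _ _))
      · by_contra hne
        obtain ⟨r, hr, hrd⟩ := Nat.exists_prime_and_dvd hne
        exact (b4 r hr (hrd.trans (Nat.gcd_dvd_left _ _))).1 (hrd.trans (Nat.gcd_dvd_right _ _))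
  · intro q _ _
    exact hf q

theorem modsum (h : ℕ → ℝ) (hh : ∀ n, 0 ≤ h n) (Q : ℕ) (hQ : 0 < Q) (Y Z : ℝ) (hY : 0 ≤ Y)
    (hYZ : Y * Q ≤ Z) :
    ∑ q ∈ (Icc 1 ⌊Y⌋₊).filter (fun q : ℕ => Nat.Coprime q Q), h (q * Q) ≤ ∑ m ∈ Icc 1 ⌊Z⌋₊, h m := by
  have hinj : Set.InjOn (fun q : ℕ => q * Q)
      (↑((Icc 1 ⌊Y⌋₊).filter (fun q : ℕ => Nat.Coprime q Q)) : Set ℕ) :=
    fun a _ b _ hab => Nat.eq_of_mul_eq_mul_right hQ hab
  rw [← sum_image (f := h) (g := fun q : ℕ => q * Q) hinj]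
  apply sum_le_sum_of_subset_of_nonneg
  · intro m hm
    rw [mem_image] at hm
    obtain ⟨q, hq, rfl⟩ := hm
    simp only [mem_filter, mem_Icc] at hq ⊢
    refine ⟨Nat.mul_pos hq.1.1 hQ, Nat.le_floor ?_⟩
    push_cast
    have g1 : (q : ℝ) ≤ Y := (Nat.le_floor_iff hY).1 hq.1.2
    exact (mul_le_mul_of_nonneg_right g1 (Nat.cast_nonneg _)).trans hYZ
  · intro m _ _
    exact hh m

theorem bnd (N : ℕ) (x : ℝ) (hx : 16 ≤ x) (h1 : x / 4 ≤ N) (h2 : (N : ℝ) ≤ x) :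
    (N : ℝ) / Real.log N ^ 6 ≤ 64 * (x / Real.log x ^ 6) := by
  have hlx : 0 < Real.log x := Real.log_pos (by linarith)
  have h3 : Real.log x / 2 ≤ Real.log N := by
    have e1 : Real.log (x / 4) ≤ Real.log N := Real.log_le_log (by linarith) h1
    rw [Real.log_div (by linarith) (by norm_num)] at e1
    have e2 : Real.log 16 ≤ Real.log x := Real.log_le_log (by norm_num) hx
    have e3 : Real.log 16 = 2 * Real.log 4 := by
      rw [show (16 : ℝ) = 4 ^ 2 by norm_num, Real.log_pow]; norm_num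
    linarith
  have h4 : 0 < Real.log x / 2 := by linarith
  have h5 : (Real.log x / 2) ^ 6 ≤ Real.log N ^ 6 := pow_le_pow_left₀ h4.le h3 6
  calc (N : ℝ) / Real.log N ^ 6 ≤ x / (Real.log x / 2) ^ 6 :=
        div_le_div₀ (by linarith) h2 (by positivity) h5
    _ = 64 * (x / Real.log x ^ 6) := by
        field_simp
        norm_num

theorem bvs (D : Dat) (hD : Good D) (C : ℕ) : ∃ K : ℝ, 0 < K ∧ ∀ᶠ x : ℝ in atTop,
    ∑ q ∈ (Icc 1 ⌊(C : ℝ) * x ^ (0.4985 : ℝ)⌋₊).filter (fun q : ℕ => Nat.Coprime q D.Q),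
     |(((PX D x).filter (fun p : ℕ => q ∣ nn D p)).card : ℝ) - X0 D x / (Nat.totient q : ℝ)| ≤
      K * (x / Real.log x ^ 6) := by
  have hQ : 0 < D.Q := hD.2.2.2.1
  have hcls := cls D hD
  choose! k hk1 hk2 using hcls
  set a : ℕ → ℕ := fun m => if 0 < m / D.Q ∧ Nat.Coprime (m / D.Q) D.Q ∧ m = (m / D.Q) * D.Q then
    k (m / D.Q) else 1 with ha
  have hac : ∀ m, 1 ≤ m → Nat.Coprime (a m) m := by
    intro m hm
    by_cases h : 0 < m / D.Q ∧ Nat.Coprime (m / D.Q) D.Q ∧ m = (m / D.Q) * D.Q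
    · have h1 := hk1 (m / D.Q) h.1 h.2.1
      rw [← h.2.2] at h1
      simp only [ha]
      rw [if_pos h]
      exact h1
    · simp only [ha]
      rw [if_neg h]
      exact Nat.coprime_one_left m
  have hak : ∀ q, 0 < q → Nat.Coprime q D.Q → a (q * D.Q) = k q := by
    intro q h1 h2
    have h3 : q * D.Q / D.Q = q := Nat.mul_div_cancel q hQ
    simp only [ha, h3]
    rw [if_pos ⟨h1, h2, trivial⟩]
  obtain ⟨Cb, hCb, hbv⟩ := bv 0.499 (by norm_num) 6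
  refine ⟨128 * Cb, by positivity, ?_⟩
  have ht : Tendsto (fun x : ℝ => x ^ (0.0005 : ℝ)) atTop atTop := tendsto_rpow_atTop (by norm_num)
  filter_upwards [ht.eventually_ge_atTop (4 * C * D.Q : ℝ), eventually_ge_atTop (16 : ℝ),
    eventually_ge_atTop (2 * (D.b.natAbs : ℝ))] with x hx1 hx2 hx3
  have hx0 : 0 < x := by linarith
  have hN1 : x / 4 ≤ (⌊x⌋₊ : ℕ) := by
    have := Nat.lt_floor_add_one x
    linarith
  have hN2 : ((⌊x⌋₊ : ℕ) : ℝ) ≤ x := Nat.floor_le hx0.le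
  have hM1 : x / 4 ≤ (⌊x / 2⌋₊ : ℕ) := by
    have := Nat.lt_floor_add_one (x / 2)
    linarith
  have hM2 : ((⌊x / 2⌋₊ : ℕ) : ℝ) ≤ x := (Nat.floor_le (by linarith)).trans (by linarith)
  have hY : 0 ≤ (C : ℝ) * x ^ (0.4985 : ℝ) := by positivity
  have hsz : ∀ N : ℕ, x / 4 ≤ N → (C : ℝ) * x ^ (0.4985 : ℝ) * D.Q ≤ (N : ℝ) ^ (0.499 : ℝ) := by
    intro N hN
    have e1 : (x / 4) ^ (0.499 : ℝ) ≤ (N : ℝ) ^ (0.499 : ℝ) :=
      Real.rpow_le_rpow (by positivity) hN (by norm_num)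
    refine le_trans ?_ e1
    rw [Real.div_rpow hx0.le (by norm_num)]
    have e2 : (4 : ℝ) ^ (0.499 : ℝ) ≤ 4 := by
      calc (4 : ℝ) ^ (0.499 : ℝ) ≤ (4 : ℝ) ^ (1 : ℝ) :=
            Real.rpow_le_rpow_of_exponent_le (by norm_num) (by norm_num)
        _ = 4 := Real.rpow_one 4
    have e3 : x ^ (0.499 : ℝ) = x ^ (0.4985 : ℝ) * x ^ (0.0005 : ℝ) := by
      rw [← Real.rpow_add hx0]; norm_num
    rw [le_div_iff₀ (by positivity), e3]
    have e4 : (C : ℝ) * x ^ (0.4985 : ℝ) * D.Q * (4 : ℝ) ^ (0.499 : ℝ) ≤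
        (C : ℝ) * x ^ (0.4985 : ℝ) * D.Q * 4 := mul_le_mul_of_nonneg_left e2 (by positivity)
    refine e4.trans ?_
    calc (C : ℝ) * x ^ (0.4985 : ℝ) * D.Q * 4 = x ^ (0.4985 : ℝ) * (4 * C * D.Q) := by ring
      _ ≤ x ^ (0.4985 : ℝ) * x ^ (0.0005 : ℝ) := mul_le_mul_of_nonneg_left hx1 (by positivity)
  have hN3 : 3 ≤ ⌊x⌋₊ := Nat.le_floor (by push_cast; linarith)
  have hM3 : 3 ≤ ⌊x / 2⌋₊ := Nat.le_floor (by push_cast; linarith)
  have g1 := hbv ⌊x⌋₊ hN3 a hac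
  have g2 := hbv ⌊x / 2⌋₊ hM3 a hac
  have f1 := modsum (fun m => |Er ⌊x⌋₊ m (a m)|) (fun _ => abs_nonneg _) D.Q hQ _ _ hY (hsz _ hN1)
  have f2 := modsum (fun m => |Er ⌊x / 2⌋₊ m (a m)|) (fun _ => abs_nonneg _) D.Q hQ _ _ hY (hsz _ hM1)
  have b1 := mul_le_mul_of_nonneg_left (bnd _ x hx2 hN1 hN2) hCb.le
  have b2 := mul_le_mul_of_nonneg_left (bnd _ x hx2 hM1 hM2) hCb.le
  have key : ∑ q ∈ (Icc 1 ⌊(C : ℝ) * x ^ (0.4985 : ℝ)⌋₊).filter (fun q : ℕ => Nat.Coprime q D.Q),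
     |(((PX D x).filter (fun p : ℕ => q ∣ nn D p)).card : ℝ) - X0 D x / (Nat.totient q : ℝ)| ≤
     ∑ q ∈ (Icc 1 ⌊(C : ℝ) * x ^ (0.4985 : ℝ)⌋₊).filter (fun q : ℕ => Nat.Coprime q D.Q),
       (|Er ⌊x⌋₊ (q * D.Q) (a (q * D.Q))| + |Er ⌊x / 2⌋₊ (q * D.Q) (a (q * D.Q))|) := by
    apply sum_le_sum
    intro q hq
    simp only [mem_filter, mem_Icc] at hq
    rw [rq_eq D hD x (by linarith) q hq.2 (k q) (hk2 q hq.1.1 hq.2), hak q hq.1.1 hq.2]
    exact abs_sub _ _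
  rw [sum_add_distrib] at key
  linarith


/-- the sum of `1/φ(d)` over `DD` -/
theorem sphi : ∃ K : ℝ, 0 < K ∧ ∀ w x y : ℝ, 4 ≤ w → w ≤ x → y ≤ x →
    ∑ d ∈ DD w y, (1 : ℝ) / (Nat.totient d : ℝ) ≤ K * (Real.log x / Real.log w) ^ 2 := by
  obtain ⟨C1, hC1, h1⟩ := Pool.Agent.Helper256.KM.mertens_upper
  obtain ⟨C2, hC2, h2⟩ := Pool.Agent.Helper256.KM.mertens_lower
  refine ⟨Real.exp (2 * (C1 + C2 + 1)), Real.exp_pos _, ?_⟩
  intro w x y hw hwx hyx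
  set P := (Icc 1 ⌊x⌋₊).filter (fun p : ℕ => p.Prime ∧ w ≤ (p : ℝ)) with hP
  have hlw : 0 < Real.log w := Real.log_pos (by linarith)
  have hlx : 0 < Real.log x := Real.log_pos (by linarith)
  have htot : ∀ d : ℕ, 0 < d → Squarefree d →
      (1 : ℝ) / (Nat.totient d : ℝ) = ∏ p ∈ d.primeFactors, (1 / ((p : ℝ) - 1)) := by
    intro d hd hsq
    have h3 := Nat.totient_mul_prod_primeFactors d
    rw [Nat.prod_primeFactors_of_squarefree hsq] at h3
    have h4 : Nat.totient d = ∏ p ∈ d.primeFactors, (p - 1) := by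
      apply Nat.eq_of_mul_eq_mul_right hd
      rw [h3, mul_comm]
    rw [h4, prod_div_distrib, prod_const_one]
    congr 1
    rw [Nat.cast_prod]
    apply prod_congr rfl
    intro p hp
    rw [Nat.cast_sub (Nat.prime_of_mem_primeFactors hp).one_le, Nat.cast_one]
  have hstep1 : ∑ d ∈ DD w y, (1 : ℝ) / (Nat.totient d : ℝ) ≤
      ∑ S ∈ P.powerset, ∏ p ∈ S, (1 / ((p : ℝ) - 1)) := by
    have hinj : Set.InjOn (fun d : ℕ => d.primeFactors) (↑(DD w y) : Set ℕ) := by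
      intro d hd d' hd' h
      simp only [mem_coe, DD, mem_filter, mem_Icc] at hd hd'
      have h : d.primeFactors = d'.primeFactors := h
      rw [← Nat.prod_primeFactors_of_squarefree hd.2.1,
        ← Nat.prod_primeFactors_of_squarefree hd'.2.1, h]
    have e1 : ∑ d ∈ DD w y, (1 : ℝ) / (Nat.totient d : ℝ) =
        ∑ d ∈ DD w y, ∏ p ∈ d.primeFactors, (1 / ((p : ℝ) - 1)) := by
      apply sum_congr rfl
      intro d hd
      simp only [DD, mem_filter, mem_Icc] at hd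
      exact htot d hd.1.1 hd.2.1
    rw [e1, ← sum_image (f := fun S : Finset ℕ => ∏ p ∈ S, (1 / ((p : ℝ) - 1)))
      (g := fun d : ℕ => d.primeFactors) hinj]
    apply sum_le_sum_of_subset_of_nonneg
    · intro S hS
      rw [mem_image] at hS
      obtain ⟨d, hd, rfl⟩ := hS
      simp only [DD, mem_filter, mem_Icc] at hd
      rw [mem_powerset]
      intro p hp
      have hpp := Nat.prime_of_mem_primeFactors hp
      have hpd := Nat.dvd_of_mem_primeFactors hp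
      rw [hP, mem_filter, mem_Icc]
      exact ⟨⟨hpp.one_le, (Nat.le_of_dvd hd.1.1 hpd).trans
        (hd.1.2.trans (Nat.floor_le_floor hyx))⟩, hpp, hd.2.2 p hpp hpd⟩
    · intro S hS _
      rw [mem_powerset] at hS
      apply prod_nonneg
      intro p hp
      have h4 := hS hp
      rw [hP, mem_filter] at h4
      have h5 : (2 : ℝ) ≤ p := by exact_mod_cast h4.2.1.two_le
      apply div_nonneg zero_le_one
      linarith
  rw [← prod_one_add] at hstep1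
  have hstep2 : ∏ p ∈ P, (1 + 1 / ((p : ℝ) - 1)) ≤ Real.exp (2 * ∑ p ∈ P, (1 / (p : ℝ))) := by
    rw [mul_sum, Real.exp_sum]
    apply Finset.prod_le_prod
    · intro p hp
      rw [hP, mem_filter] at hp
      have h5 : (2 : ℝ) ≤ p := by exact_mod_cast hp.2.1.two_le
      have h6 : 0 ≤ 1 / ((p : ℝ) - 1) := div_nonneg zero_le_one (by linarith)
      linarith
    · intro p hp
      rw [hP, mem_filter] at hp
      have h5 : (2 : ℝ) ≤ p := by exact_mod_cast hp.2.1.two_le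
      have h6 : 1 / ((p : ℝ) - 1) ≤ 2 * (1 / (p : ℝ)) := by
        rw [mul_one_div, div_le_div_iff₀ (by linarith) (by linarith)]
        linarith
      linarith [Real.add_one_le_exp (2 * (1 / (p : ℝ)))]
  have hstep3 : ∑ p ∈ P, (1 / (p : ℝ)) ≤
      Real.log (Real.log x) - Real.log (Real.log w) + (C1 + C2 + 1) := by
    have u1 := h1 x (by linarith)
    have u2 := h2 (w / 2) (by linarith)
    have u3 : ∑ p ∈ P, (1 / (p : ℝ)) + ∑ p ∈ (Icc 1 ⌊w / 2⌋₊).filter Nat.Prime, (1 : ℝ) / p ≤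
        ∑ p ∈ (Icc 1 ⌊x⌋₊).filter Nat.Prime, (1 : ℝ) / p := by
      rw [← sum_union]
      · apply sum_le_sum_of_subset_of_nonneg
        · intro p hp
          rw [mem_union, hP, mem_filter, mem_filter, mem_Icc, mem_Icc] at hp
          rw [mem_filter, mem_Icc]
          rcases hp with hp | hp
          · exact ⟨hp.1, hp.2.1⟩
          · exact ⟨⟨hp.1.1, hp.1.2.trans (Nat.floor_le_floor (by linarith))⟩, hp.2⟩
        · intro p _ _
          positivity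
      · rw [disjoint_left]
        intro p hp hp'
        rw [hP, mem_filter] at hp
        rw [mem_filter, mem_Icc] at hp'
        have := (Nat.le_floor_iff (by linarith : 0 ≤ w / 2)).1 hp'.1.2
        linarith [hp.2.2]
    have u4 : Real.log (Real.log w) - 1 ≤ Real.log (Real.log (w / 2)) := by
      have e1 : Real.log w / 2 ≤ Real.log (w / 2) := by
        rw [Real.log_div (by linarith) (by norm_num)]
        have e2 : Real.log 4 ≤ Real.log w := Real.log_le_log (by norm_num) hw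
        have e3 : Real.log 4 = 2 * Real.log 2 := by
          rw [show (4 : ℝ) = 2 ^ 2 by norm_num, Real.log_pow]; norm_num
        linarith
      have e4 := Real.log_le_log (by linarith) e1
      rw [Real.log_div hlw.ne' (by norm_num)] at e4
      have e5 := Real.log_two_lt_d9
      linarith
    linarith
  calc ∑ d ∈ DD w y, (1 : ℝ) / (Nat.totient d : ℝ) ≤ ∏ p ∈ P, (1 + 1 / ((p : ℝ) - 1)) := hstep1
    _ ≤ Real.exp (2 * ∑ p ∈ P, (1 / (p : ℝ))) := hstep2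
    _ ≤ Real.exp (2 * (Real.log (Real.log x) - Real.log (Real.log w) + (C1 + C2 + 1))) :=
        Real.exp_le_exp.2 (by linarith)
    _ = Real.exp (2 * (C1 + C2 + 1)) * (Real.log x / Real.log w) ^ 2 := by
        rw [mul_add, Real.exp_add, mul_comm]
        congr 1
        rw [← Real.log_div hlx.ne' hlw.ne', two_mul, Real.exp_add, Real.exp_log (by positivity), sq]

/-- lower bound for `V0` -/
theorem v0low : ∃ K : ℝ, 0 < K ∧ ∀ Q : ℕ, 12 ∣ Q → ∀ w : ℝ, 2 ≤ w →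
    K / Real.log w ^ 2 ≤ V0 Q w := by
  obtain ⟨C1, hC1, h1⟩ := Pool.Agent.Helper256.KM.mertens_upper
  refine ⟨Real.exp (-(2 * C1)), Real.exp_pos _, ?_⟩
  intro Q hQ w hw
  have hlw : 0 < Real.log w := Real.log_pos (by linarith)
  have h5 : ∀ p ∈ SQ Q w, p.Prime ∧ 5 ≤ p ∧ p ≤ ⌊w⌋₊ := by
    intro p hp
    rw [SQ, mem_filter, mem_range] at hp
    obtain ⟨a1, a2, a3⟩ := hp
    have a4 : p ≠ 2 := by
      rintro rfl
      exact a3 (dvd_trans (by norm_num) hQ)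
    have a5 : p ≠ 3 := by
      rintro rfl
      exact a3 (dvd_trans (by norm_num) hQ)
    have a6 : p ≠ 4 := by
      rintro rfl
      exact absurd a2 (by norm_num)
    have a7 := a2.two_le
    exact ⟨a2, by omega, Nat.le_floor (Nat.lt_ceil.1 a1).le⟩
  have hprod : Real.exp (-(2 * ∑ p ∈ SQ Q w, (1 / (p : ℝ)))) ≤ V0 Q w := by
    unfold V0
    rw [mul_sum, ← sum_neg_distrib, Real.exp_sum]
    apply Finset.prod_le_prod
    · intro p _
      exact (Real.exp_pos _).le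
    · intro p hp
      have a1 : (5 : ℝ) ≤ p := by exact_mod_cast (h5 p hp).2.1
      rw [Real.exp_neg]
      have a2 := Real.quadratic_le_exp_of_nonneg (x := 2 * (1 / (p : ℝ))) (by positivity)
      have a3 : (Real.exp (2 * (1 / (p : ℝ))))⁻¹ ≤
          (1 + 2 * (1 / (p : ℝ)) + (2 * (1 / (p : ℝ))) ^ 2 / 2)⁻¹ :=
        inv_anti₀ (by positivity) a2
      refine a3.trans ?_
      have a4 : (1 + 2 * (1 / (p : ℝ)) + (2 * (1 / (p : ℝ))) ^ 2 / 2)⁻¹ =
          (p : ℝ) ^ 2 / ((p : ℝ) ^ 2 + 2 * p + 2) := by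
        field_simp
      have a5 : 1 - 1 / ((p : ℝ) - 1) = ((p : ℝ) - 2) / ((p : ℝ) - 1) := by
        have : (p : ℝ) - 1 ≠ 0 := by linarith
        field_simp
        ring
      rw [a4, a5, div_le_div_iff₀ (by positivity) (by linarith)]
      nlinarith
  have hsum : ∑ p ∈ SQ Q w, (1 / (p : ℝ)) ≤ Real.log (Real.log w) + C1 := by
    refine le_trans ?_ (h1 w hw)
    apply sum_le_sum_of_subset_of_nonneg
    · intro p hp
      have := h5 p hp
      rw [mem_filter, mem_Icc]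
      exact ⟨⟨this.1.one_le, this.2.2⟩, this.1⟩
    · intro p _ _
      positivity
  refine le_trans ?_ hprod
  calc Real.exp (-(2 * C1)) / Real.log w ^ 2
      = Real.exp (-(2 * (Real.log (Real.log w) + C1))) := by
        rw [mul_add, neg_add, Real.exp_add, mul_comm]
        rw [Real.exp_neg (2 * Real.log (Real.log w)), two_mul (Real.log (Real.log w)), Real.exp_add,
          Real.exp_log hlw, ← sq]
        rw [div_eq_mul_inv]
        ring
    _ ≤ _ := Real.exp_le_exp.2 (by linarith)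


theorem bchoice (A : ℝ) (ε : ℝ) (hε : 0 < ε) :
    ∃ b0 : ℕ, ∀ b : ℕ, b0 ≤ b → A * (1 / 2 : ℝ) ^ b * ((b : ℝ) + 1) ^ 3 ≤ ε := by
  have h1 := tendsto_pow_const_mul_const_pow_of_abs_lt_one 3 (r := (1 / 2 : ℝ)) (by
    rw [abs_of_pos (by norm_num)]; norm_num)
  have h2 : Tendsto (fun n : ℕ => (((n + 1 : ℕ) : ℝ)) ^ 3 * (1 / 2 : ℝ) ^ (n + 1)) atTop (nhds 0) :=
    (tendsto_add_atTop_iff_nat 1).2 h1
  have h3 := h2.const_mul (2 * A)
  rw [mul_zero] at h3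
  have h4 := (h3.eventually (gt_mem_nhds hε)).exists_forall_of_atTop
  obtain ⟨b0, hb0⟩ := h4
  refine ⟨b0, fun b hb => ?_⟩
  have h5 := hb0 b hb
  refine le_trans (le_of_eq ?_) h5.le
  push_cast
  rw [pow_succ (1 / 2 : ℝ) b]
  ring

end B2

theorem base (h1 : BASE1) (h2 : PNTD) : BASE := by
  intro D hD ε hε
  have hQ0 : 0 < D.Q := hD.2.2.2.1
  have h12 : 12 ∣ D.Q := hD.2.2.2.2.1
  obtain ⟨C, hC1, z0, hC⟩ := h1 D hD
  obtain ⟨K1, hK1, hsphi⟩ := B2.sphi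
  obtain ⟨K2, hK2, hv0⟩ := B2.v0low
  obtain ⟨K3, hK3, hbvs⟩ := B2.bvs D hD C
  have hCr : (1 : ℝ) ≤ C := by exact_mod_cast hC1
  set κ : ℝ := 0.0005 / C with hκ
  have hκ0 : 0 < κ := by positivity
  have hκ1 : κ ≤ 0.0005 := div_le_self (by norm_num) hCr
  obtain ⟨b0, hb0⟩ := B2.bchoice (2 * K1) (ε * κ ^ 3) (by positivity)
  refine ⟨κ / (((max b0 C : ℕ) : ℝ) + 1), by positivity, ?_⟩
  intro c hc hc1
  have hcκ : c ≤ κ := by
    refine hc1.trans (div_le_self hκ0.le ?_)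
    have : (0 : ℝ) ≤ ((max b0 C : ℕ) : ℝ) := Nat.cast_nonneg _
    linarith
  set b : ℕ := ⌊κ / c⌋₊ with hb
  have hb1 : max b0 C + 1 ≤ b := by
    apply Nat.le_floor
    rw [le_div_iff₀ (by positivity)] at hc1
    rw [le_div_iff₀ hc]
    push_cast at hc1 ⊢
    linarith
  have hb2 : (b : ℝ) * c ≤ κ := by
    have := Nat.floor_le (div_nonneg hκ0.le hc.le : 0 ≤ κ / c)
    rw [le_div_iff₀ hc] at this
    exact this
  have hb3 : κ < ((b : ℝ) + 1) * c := by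
    have := Nat.lt_floor_add_one (κ / c)
    rw [div_lt_iff₀ hc] at this
    exact this
  have hb4 : K1 * (1 / 2 : ℝ) ^ b / c ^ 2 ≤ ε * c / 2 := by
    have e1 := hb0 b (by omega)
    have e2 : κ ^ 3 ≤ (((b : ℝ) + 1) * c) ^ 3 := pow_le_pow_left₀ hκ0.le hb3.le 3
    have e3 : 2 * K1 * (1 / 2 : ℝ) ^ b * ((b : ℝ) + 1) ^ 3 ≤ (ε * c ^ 3) * ((b : ℝ) + 1) ^ 3 := by
      refine e1.trans ?_
      calc ε * κ ^ 3 ≤ ε * (((b : ℝ) + 1) * c) ^ 3 := mul_le_mul_of_nonneg_left e2 hε.le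
        _ = _ := by ring
    have e4 := le_of_mul_le_mul_right e3 (by positivity)
    rw [div_le_iff₀ (by positivity)]
    nlinarith
  have htw : Tendsto (fun x : ℝ => x ^ c) atTop atTop := tendsto_rpow_atTop hc
  have htl := Real.tendsto_log_atTop
  filter_upwards [hbvs, h2 1 one_pos, htw.eventually_ge_atTop (z0 : ℝ), htw.eventually_ge_atTop 4,
    htw.eventually_gt_atTop (D.Q : ℝ), htl.eventually_ge_atTop (C : ℝ), htl.eventually_ge_atTop 1,
    htl.eventually_ge_atTop (4 * K3 / (ε * c * K2)), eventually_ge_atTop (16 : ℝ)] with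
    x a1 a2 a3 a4 a5 a6 a7 a8 a9
  have hx0 : 0 < x := by linarith
  have hx1 : 1 ≤ x := by linarith
  have hlx : 0 < Real.log x := by linarith
  set w : ℝ := x ^ c with hw
  have hwx : w ≤ x := by
    calc w ≤ x ^ (1 : ℝ) := Real.rpow_le_rpow_of_exponent_le hx1 (by linarith)
      _ = x := Real.rpow_one x
  have hlw : Real.log w = c * Real.log x := by rw [hw, Real.log_rpow hx0]
  have hlw0 : 0 < Real.log w := by rw [hlw]; positivity
  have hwQ : ∀ p : ℕ, p.Prime → w ≤ (p : ℝ) → ¬ p ∣ D.Q := by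
    intro p _ hwp hpQ
    have := Nat.le_of_dvd hQ0 hpQ
    have h3 : (p : ℝ) ≤ D.Q := by exact_mod_cast this
    linarith
  have hV := hv0 D.Q h12 w (by linarith)
  have hV0 : 0 < V0 D.Q w := lt_of_lt_of_le (by positivity) hV
  have hφQ : (1 : ℝ) ≤ (Nat.totient D.Q : ℝ) := by exact_mod_cast Nat.totient_pos.2 hQ0
  have hX : X0 D x ≤ x / Real.log x := by
    unfold X0
    have hpos : 0 ≤ x / Real.log x := by positivity
    exact (div_le_iff₀ (by linarith)).2 (a2.2.trans (le_mul_of_one_le_right hpos hφQ))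
  have hX0 : 0 ≤ X0 D x := by
    unfold X0
    apply div_nonneg _ (by linarith)
    have : Nat.primeCounting ⌊x / 2⌋₊ ≤ Nat.primeCounting ⌊x⌋₊ :=
      Nat.monotone_primeCounting (Nat.floor_le_floor (by linarith))
    have : (Nat.primeCounting ⌊x / 2⌋₊ : ℝ) ≤ Nat.primeCounting ⌊x⌋₊ := by exact_mod_cast this
    linarith
  have hone : ∀ d ∈ DD w (x ^ (0.498 : ℝ)),
      |SS D x w d w - X0 D x * V0 D.Q w / (Nat.totient d : ℝ)| ≤
      (1 / 2 : ℝ) ^ b * (X0 D x * V0 D.Q w) * (1 / (Nat.totient d : ℝ)) +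
      (Real.log x + C) * ∑ e ∈ (Icc 1 ⌊C * w ^ (C * b : ℝ)⌋₊).filter
        (fun e : ℕ => Squarefree e ∧ ∀ p : ℕ, p.Prime → p ∣ e → ¬ p ∣ D.Q ∧ (p : ℝ) < w),
        |(((PX D x).filter (fun p : ℕ => d * e ∣ nn D p)).card : ℝ) -
          X0 D x / (Nat.totient (d * e) : ℝ)| := by
    intro d hd
    simp only [DD, mem_filter, mem_Icc] at hd
    have hcd : Nat.Coprime d D.Q := by
      by_contra hne
      obtain ⟨r, hr, hrd⟩ := Nat.exists_prime_and_dvd hne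
      exact hwQ r hr (hd.2.2 r hr (hrd.trans (Nat.gcd_dvd_left _ _)))
        (hrd.trans (Nat.gcd_dvd_right _ _))
    refine (hC b (by omega) x w a3 hwx d hd.1.1 hcd hd.2.2).trans (le_of_eq ?_)
    ring
  have hyz : x ^ (0.498 : ℝ) * (C * w ^ (C * b : ℝ)) ≤ C * x ^ (0.4985 : ℝ) := by
    have e1 : w ^ (C * b : ℝ) ≤ x ^ (0.0005 : ℝ) := by
      rw [hw, ← Real.rpow_mul hx0.le]
      apply Real.rpow_le_rpow_of_exponent_le hx1
      have : (C : ℝ) * ((b : ℝ) * c) ≤ C * κ := mul_le_mul_of_nonneg_left hb2 (by linarith)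
      have e2 : (C : ℝ) * κ = 0.0005 := by
        rw [hκ]; field_simp
      linarith
    have e3 : x ^ (0.4985 : ℝ) = x ^ (0.498 : ℝ) * x ^ (0.0005 : ℝ) := by
      rw [← Real.rpow_add hx0]; norm_num
    rw [e3]
    calc x ^ (0.498 : ℝ) * (C * w ^ (C * b : ℝ)) = C * (x ^ (0.498 : ℝ) * w ^ (C * b : ℝ)) := by ring
      _ ≤ C * (x ^ (0.498 : ℝ) * x ^ (0.0005 : ℝ)) := by gcongr
  have hdbl := B2.dbl (fun q => |(((PX D x).filter (fun p : ℕ => q ∣ nn D p)).card : ℝ) -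
          X0 D x / (Nat.totient q : ℝ)|) (fun _ => abs_nonneg _) D.Q w (x ^ (0.498 : ℝ))
          (C * w ^ (C * b : ℝ)) (C * x ^ (0.4985 : ℝ)) (by positivity) (by positivity) hyz hwQ
  have hS : ∑ d ∈ DD w (x ^ (0.498 : ℝ)), (1 : ℝ) / (Nat.totient d : ℝ) ≤ K1 / c ^ 2 := by
    have e1 : x ^ (0.498 : ℝ) ≤ x := by
      calc x ^ (0.498 : ℝ) ≤ x ^ (1 : ℝ) := Real.rpow_le_rpow_of_exponent_le hx1 (by norm_num)
        _ = x := Real.rpow_one x
    refine (hsphi w x _ a4 hwx e1).trans (le_of_eq ?_)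
    rw [hlw]
    field_simp
  have hsum := sum_le_sum hone
  rw [sum_add_distrib, ← mul_sum, ← mul_sum] at hsum
  refine hsum.trans ?_
  have t1 : (1 / 2 : ℝ) ^ b * (X0 D x * V0 D.Q w) *
      ∑ d ∈ DD w (x ^ (0.498 : ℝ)), (1 : ℝ) / (Nat.totient d : ℝ) ≤
      ε * c / 2 * (x / Real.log x * V0 D.Q w) := by
    calc (1 / 2 : ℝ) ^ b * (X0 D x * V0 D.Q w) *
      ∑ d ∈ DD w (x ^ (0.498 : ℝ)), (1 : ℝ) / (Nat.totient d : ℝ) ≤
        (1 / 2 : ℝ) ^ b * (x / Real.log x * V0 D.Q w) * (K1 / c ^ 2) := by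
          gcongr
      _ = (K1 * (1 / 2 : ℝ) ^ b / c ^ 2) * (x / Real.log x * V0 D.Q w) := by ring
      _ ≤ ε * c / 2 * (x / Real.log x * V0 D.Q w) := by gcongr
  have t2 : (Real.log x + C) * (K3 * (x / Real.log x ^ 6)) ≤
      ε * c / 2 * (x / Real.log x * V0 D.Q w) := by
    have e1 : Real.log w ^ 2 ≤ Real.log x ^ 2 := by
      apply pow_le_pow_left₀ hlw0.le
      rw [hlw]
      nlinarith
    have e2 : K2 / Real.log x ^ 2 ≤ V0 D.Q w :=
      (div_le_div_of_nonneg_left hK2.le (by positivity) e1).trans hV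
    have e3 : (Real.log x + C) * (K3 * (x / Real.log x ^ 6)) ≤
        (2 * Real.log x) * (K3 * (x / Real.log x ^ 6)) :=
      mul_le_mul_of_nonneg_right (by linarith) (by positivity)
    refine e3.trans ?_
    have e4 : ε * c / 2 * (x / Real.log x * (K2 / Real.log x ^ 2)) ≤
        ε * c / 2 * (x / Real.log x * V0 D.Q w) := by gcongr
    refine le_trans ?_ e4
    have e5 : 4 * K3 ≤ Real.log x ^ 2 * (ε * c * K2) := by
      rw [div_le_iff₀ (by positivity)] at a8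
      have : Real.log x * (ε * c * K2) ≤ Real.log x ^ 2 * (ε * c * K2) := by
        apply mul_le_mul_of_nonneg_right _ (by positivity)
        nlinarith
      linarith
    have e6 : (2 * Real.log x) * (K3 * (x / Real.log x ^ 6)) =
        (4 * K3) * (x / (2 * Real.log x ^ 5)) := by
      field_simp
      ring
    have e7 : ε * c / 2 * (x / Real.log x * (K2 / Real.log x ^ 2)) =
        (Real.log x ^ 2 * (ε * c * K2)) * (x / (2 * Real.log x ^ 5)) := by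
      field_simp
    rw [e6, e7]
    exact mul_le_mul_of_nonneg_right e5 (by positivity)
  have t3 : (Real.log x + C) * ∑ d ∈ DD w (x ^ (0.498 : ℝ)),
      ∑ e ∈ (Icc 1 ⌊C * w ^ (C * b : ℝ)⌋₊).filter
        (fun e : ℕ => Squarefree e ∧ ∀ p : ℕ, p.Prime → p ∣ e → ¬ p ∣ D.Q ∧ (p : ℝ) < w),
        |(((PX D x).filter (fun p : ℕ => d * e ∣ nn D p)).card : ℝ) -
          X0 D x / (Nat.totient (d * e) : ℝ)| ≤ (Real.log x + C) * (K3 * (x / Real.log x ^ 6)) := by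
    apply mul_le_mul_of_nonneg_left _ (by linarith)
    exact hdbl.trans a1
  have t4 : ε * c * (x / Real.log x) * V0 D.Q w = ε * c / 2 * (x / Real.log x * V0 D.Q w) +
      ε * c / 2 * (x / Real.log x * V0 D.Q w) := by ring
  rw [t4]
  exact add_le_add t1 (t3.trans t2)

end Pool.Agent.H95R2.TG
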