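import Mathlib
import Pool.Agent.H95R2.TG.Defs

set_option autoImplicit false

open Finset Filter

namespace Pool.Agent.H95R2.TG

open Pool.Agent.H95R2.TI (VM AP DD FS fS cA Lg hk VML ROU II1 II2 LIP TOPN)
open scoped Classical

namespace B3

theorem mem_PB {a b : ℝ} {q : ℕ} :
    q ∈ PB a b ↔ q.Prime ∧ q % 4 = 3 ∧ a ≤ (q : ℝ) ∧ (q : ℝ) < b := by
  unfold PB
  rw [mem_filter, mem_range, Nat.lt_ceil]
  tauto

/-- the set counted by `SS` -/
noncomputable def FF (D : Dat) (x w : ℝ) (d : ℕ) (u : ℝ) : Finset ℕ :=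
  (AA D x w).filter (fun p : ℕ => d ∣ nn D p ∧ ∀ q ∈ PB w u, ¬ q ∣ nn D p)

theorem mem_FF {D : Dat} {x w : ℝ} {d : ℕ} {u : ℝ} {p : ℕ} :
    p ∈ FF D x w d u ↔ p ∈ AA D x w ∧ d ∣ nn D p ∧ ∀ q ∈ PB w u, ¬ q ∣ nn D p := by
  unfold FF
  rw [mem_filter]

end B3

open B3 in
theorem buch : BUCH := by
  intro D x w hw d u hd hwu hp
  have h1 : FF D x w d w = FF D x w d u ∪ (PB w u).biUnion (fun q : ℕ => FF D x w (d * q) q) := by
    ext n
    rw [mem_union, mem_biUnion, mem_FF, mem_FF]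
    constructor
    · rintro ⟨hA, hdn, -⟩
      by_cases h : ∀ q ∈ PB w u, ¬ q ∣ nn D n
      · exact Or.inl ⟨hA, hdn, h⟩
      · right
        push Not at h
        have hne : ((PB w u).filter (fun q : ℕ => q ∣ nn D n)).Nonempty := by
          obtain ⟨q, hq, hqn⟩ := h
          exact ⟨q, mem_filter.2 ⟨hq, hqn⟩⟩
        have hmin := Finset.min'_mem _ hne
        have hle := fun q hq => Finset.min'_le ((PB w u).filter (fun q : ℕ => q ∣ nn D n)) q hq
        set q := ((PB w u).filter (fun q : ℕ => q ∣ nn D n)).min' hne with hqdef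
        rw [mem_filter] at hmin
        obtain ⟨hq, hqn⟩ := hmin
        obtain ⟨hq1, hq2, hq3, hq4⟩ := mem_PB.1 hq
        refine ⟨q, hq, mem_FF.2 ⟨hA, ?_, ?_⟩⟩
        · have hco : Nat.Coprime d q := by
            rw [Nat.coprime_comm, Nat.Prime.coprime_iff_not_dvd hq1]
            intro hqd
            exact absurd hq4 (not_lt.2 (hp q hq1 hqd))
          exact hco.mul_dvd_of_dvd_of_dvd hdn hqn
        · intro q' hq' hq'n
          obtain ⟨h1, h2, h3, h4⟩ := mem_PB.1 hq'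
          have h5 := hle q' (mem_filter.2 ⟨mem_PB.2 ⟨h1, h2, h3, h4.trans hq4⟩, hq'n⟩)
          have h6 : q' < q := by exact_mod_cast h4
          omega
    · rintro (⟨hA, hdn, h⟩ | ⟨q, hq, hn⟩)
      · refine ⟨hA, hdn, fun q hq => ?_⟩
        obtain ⟨_, _, h3, h4⟩ := mem_PB.1 hq
        exact absurd h4 (not_lt.2 h3)
      · obtain ⟨hA, hdn, h⟩ := mem_FF.1 hn
        refine ⟨hA, (Dvd.intro _ rfl).trans hdn, fun q hq => ?_⟩
        obtain ⟨_, _, h3, h4⟩ := mem_PB.1 hq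
        exact absurd h4 (not_lt.2 h3)
  have h2 : Disjoint (FF D x w d u) ((PB w u).biUnion (fun q : ℕ => FF D x w (d * q) q)) := by
    rw [Finset.disjoint_left]
    intro n hn hn'
    rw [mem_biUnion] at hn'
    obtain ⟨q, hq, hnq⟩ := hn'
    exact (mem_FF.1 hn).2.2 q hq ((Dvd.intro_left _ rfl).trans (mem_FF.1 hnq).2.1)
  have h3 : ∀ q ∈ PB w u, ∀ q' ∈ PB w u, q ≠ q' →
      Disjoint (FF D x w (d * q) q) (FF D x w (d * q') q') := by
    intro q hq q' hq' hne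
    rw [Finset.disjoint_left]
    intro n hn hn'
    obtain ⟨a1, a2, a3, a4⟩ := mem_PB.1 hq
    obtain ⟨b1, b2, b3, b4⟩ := mem_PB.1 hq'
    rcases lt_or_gt_of_ne hne with h | h
    · exact (mem_FF.1 hn').2.2 q (mem_PB.2 ⟨a1, a2, a3, by exact_mod_cast h⟩)
        ((Dvd.intro_left _ rfl).trans (mem_FF.1 hn).2.1)
    · exact (mem_FF.1 hn).2.2 q' (mem_PB.2 ⟨b1, b2, b3, by exact_mod_cast h⟩)
        ((Dvd.intro_left _ rfl).trans (mem_FF.1 hn').2.1)
  have h4 : (FF D x w d w).card = (FF D x w d u).card +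
      ∑ q ∈ PB w u, (FF D x w (d * q) q).card := by
    rw [h1, Finset.card_union_of_disjoint h2, Finset.card_biUnion h3]
  have h5 : ((FF D x w d w).card : ℝ) = ((FF D x w d u).card : ℝ) +
      ∑ q ∈ PB w u, ((FF D x w (d * q) q).card : ℝ) := by
    rw [h4]
    push_cast
    rfl
  have h6 : ∀ (e : ℕ) (v : ℝ), SS D x w e v = ((FF D x w e v).card : ℝ) := fun e v => rfl
  rw [h6, h6, h5]
  simp only [h6]
  ring

end Pool.Agent.H95R2.TG
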