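import Mathlib
import Pool.Agent.H95R2.TG.Defs

set_option autoImplicit false

open Finset Filter

namespace Pool.Agent.H95R2.TG

open Pool.Agent.H95R2.TI (VM AP DD FS fS cA Lg hk VML ROU II1 II2 LIP TOPN)
open scoped Classical

namespace REC_

theorem mem_PB {w u : ℝ} {p : ℕ} (h : p ∈ PB w u) :
    p.Prime ∧ p % 4 = 3 ∧ w ≤ (p : ℝ) ∧ (p : ℝ) < u := by
  unfold PB at h
  rw [mem_filter, mem_range, Nat.lt_ceil] at h
  exact ⟨h.2.1, h.2.2.1, h.2.2.2, h.1⟩

theorem mem_QQ {w u y : ℝ} {e : ℕ} (h : e ∈ QQ w u y) :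
    1 ≤ e ∧ (e : ℝ) ≤ y ∧ Squarefree e ∧
      ∀ p : ℕ, p.Prime → p ∣ e → p % 4 = 3 ∧ w ≤ (p : ℝ) ∧ (p : ℝ) < u := by
  unfold QQ at h
  rw [mem_filter, mem_Icc] at h
  refine ⟨h.1.1, ?_, h.2.1, h.2.2⟩
  have h1 : 0 < e := h.1.1
  exact (Nat.le_floor_iff' h1.ne').1 h.1.2

theorem QQ_mem {w u y : ℝ} {e : ℕ} (h1 : 1 ≤ e) (h2 : (e : ℝ) ≤ y) (h3 : Squarefree e)
    (h4 : ∀ p : ℕ, p.Prime → p ∣ e → p % 4 = 3 ∧ w ≤ (p : ℝ) ∧ (p : ℝ) < u) : e ∈ QQ w u y := by
  unfold QQ
  rw [mem_filter, mem_Icc]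
  exact ⟨⟨h1, (Nat.le_floor_iff' (by omega)).2 h2⟩, h3, h4⟩

theorem one_mem {w u y : ℝ} (hy : 1 ≤ y) : 1 ∈ QQ w u y := by
  refine QQ_mem le_rfl (by exact_mod_cast hy) squarefree_one ?_
  intro p hp hp1
  exact absurd (Nat.dvd_one.mp hp1) hp.one_lt.ne'

/-- the errors add up -/
theorem err {w u y : ℝ} (hy : 1 ≤ y) (P' : Finset ℕ) (hP : P' ⊆ PB w u)
    (R : ℕ → ℝ) (hR : ∀ m, 0 ≤ R m) (d : ℕ) :
    R d + ∑ p ∈ P', ∑ e ∈ QQ w p (y / p), R (d * p * e) ≤ ∑ e ∈ QQ w u y, R (d * e) := by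
  rw [Finset.sum_sigma' P' (fun p => QQ w p (y / p)) (fun p e => R (d * p * e))]
  have hinj : Set.InjOn (fun x : (Σ _ : ℕ, ℕ) => x.1 * x.2)
      (P'.sigma (fun p : ℕ => QQ w p (y / p)) : Finset (Σ _ : ℕ, ℕ)) := by
    rintro ⟨p, e⟩ hx ⟨p', e'⟩ hx' heq
    rw [mem_coe, mem_sigma] at hx hx'
    simp only at hx hx' heq
    obtain ⟨hp, he⟩ := hx
    obtain ⟨hp', he'⟩ := hx'
    have hpp := mem_PB (hP hp)
    have hpp' := mem_PB (hP hp')
    have hee := mem_QQ he
    have hee' := mem_QQ he'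
    have hpe : p = p' := by
      by_contra hne
      have h1 : p ∣ p' * e' := by rw [← heq]; exact dvd_mul_right _ _
      have h2 : p' ∣ p * e := by rw [heq]; exact dvd_mul_right _ _
      have h3 : p ∣ e' := by
        rcases (Nat.Prime.dvd_mul hpp.1).1 h1 with h | h
        · exact absurd ((Nat.prime_dvd_prime_iff_eq hpp.1 hpp'.1).1 h) hne
        · exact h
      have h4 : p' ∣ e := by
        rcases (Nat.Prime.dvd_mul hpp'.1).1 h2 with h | h
        · exact absurd ((Nat.prime_dvd_prime_iff_eq hpp'.1 hpp.1).1 h).symm hne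
        · exact h
      have h5 := (hee'.2.2.2 p hpp.1 h3).2.2
      have h6 := (hee.2.2.2 p' hpp'.1 h4).2.2
      linarith
    subst hpe
    have h0 : 0 < p := hpp.1.pos
    have : e = e' := Nat.eq_of_mul_eq_mul_left h0 heq
    rw [this]
  have himg : ∑ x ∈ P'.sigma (fun p : ℕ => QQ w p (y / p)), R (d * x.1 * x.2) =
      ∑ m ∈ (P'.sigma (fun p : ℕ => QQ w p (y / p))).image
        (fun x : (Σ _ : ℕ, ℕ) => x.1 * x.2), R (d * m) := by
    rw [Finset.sum_image hinj]
    refine Finset.sum_congr rfl (fun x _ => ?_)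
    rw [mul_assoc]
  have hsub : (P'.sigma (fun p : ℕ => QQ w p (y / p))).image
      (fun x : (Σ _ : ℕ, ℕ) => x.1 * x.2) ⊆ (QQ w u y).erase 1 := by
    intro m hm
    rw [mem_image] at hm
    obtain ⟨⟨p, e⟩, hx, rfl⟩ := hm
    rw [mem_sigma] at hx
    simp only at hx ⊢
    obtain ⟨hp, he⟩ := hx
    have hpp := mem_PB (hP hp)
    have hee := mem_QQ he
    have hp0 : (0 : ℝ) < p := by exact_mod_cast hpp.1.pos
    rw [mem_erase]
    refine ⟨?_, QQ_mem ?_ ?_ ?_ ?_⟩
    · intro h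
      have := Nat.eq_one_of_mul_eq_one_right h
      exact hpp.1.one_lt.ne' this
    · exact Nat.mul_pos hpp.1.pos hee.1
    · have h1 := hee.2.1
      rw [le_div_iff₀ hp0] at h1
      push_cast
      linarith
    · have hcop : Nat.Coprime p e := by
        rw [Nat.Prime.coprime_iff_not_dvd hpp.1]
        intro h
        exact lt_irrefl _ (hee.2.2.2 p hpp.1 h).2.2
      rw [Nat.squarefree_mul hcop]
      exact ⟨hpp.1.prime.squarefree, hee.2.2.1⟩
    · intro q hq hqd
      rcases (Nat.Prime.dvd_mul hq).1 hqd with h | h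
      · have : q = p := (Nat.prime_dvd_prime_iff_eq hq hpp.1).1 h
        subst this
        exact hpp.2
      · have := hee.2.2.2 q hq h
        exact ⟨this.1, this.2.1, this.2.2.trans hpp.2.2.2⟩
  rw [himg]
  have h1 : ∑ m ∈ (P'.sigma (fun p : ℕ => QQ w p (y / p))).image
        (fun x : (Σ _ : ℕ, ℕ) => x.1 * x.2), R (d * m) ≤
      ∑ m ∈ (QQ w u y).erase 1, R (d * m) :=
    Finset.sum_le_sum_of_subset_of_nonneg hsub (fun m _ _ => hR _)
  have h2 := Finset.sum_erase_add (QQ w u y) (fun m => R (d * m)) (one_mem hy)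
  simp only [mul_one] at h2
  linarith

end REC_

open REC_ in
theorem rec_sieve : REC := by
  intro w S A0 hw hA0 hS hB n
  induction n with
  | zero =>
    intro d y u hd hdu hwu hy
    have h1 := hB d u hd hwu hdu
    have h2 : 0 ≤ ∑ p ∈ PB w u, S (d * p) p := Finset.sum_nonneg (fun p _ => hS _ _)
    have h3 : |S d w - A0 / (Nat.totient d : ℝ)| ≤
        ∑ e ∈ QQ w u y, |S (d * e) w - A0 / (Nat.totient (d * e) : ℝ)| := by
      have := Finset.single_le_sum (s := QQ w u y)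
        (f := fun e => |S (d * e) w - A0 / (Nat.totient (d * e) : ℝ)|)
        (fun e _ => abs_nonneg _) (one_mem (w := w) (u := u) hy)
      simpa only [mul_one] using this
    have h4 := (abs_le.mp (le_refl |S d w - A0 / (Nat.totient d : ℝ)|)).2
    have h5 := abs_nonneg (S d w - A0 / (Nat.totient d : ℝ))
    simp only [TT, mul_one, mul_zero]
    refine ⟨by linarith, fun _ => ?_⟩
    have := hS d u
    linarith
  | succ n ih =>
    intro d y u hd hdu hwu hy
    have hy0 : (0 : ℝ) < y := by linarith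
    have h1 := hB d u hd hwu hdu
    have habs := abs_le.mp (le_refl |S d w - A0 / (Nat.totient d : ℝ)|)
    have hphi : ∀ p ∈ PB w u, (Nat.totient (d * p) : ℝ) =
        (Nat.totient d : ℝ) * ((p : ℝ) - 1) := by
      intro p hp
      have hpp := mem_PB hp
      have hcop : Nat.Coprime d p := by
        rw [Nat.coprime_comm, Nat.Prime.coprime_iff_not_dvd hpp.1]
        intro h
        have := hdu p hpp.1 h
        linarith [hpp.2.2.2]
      rw [Nat.totient_mul hcop, Nat.totient_prime hpp.1]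
      push_cast
      rw [Nat.cast_sub hpp.1.one_lt.le]
      push_cast
      ring
    have hprimes : ∀ p ∈ PB w u, ∀ q : ℕ, q.Prime → q ∣ d * p → (p : ℝ) ≤ (q : ℝ) := by
      intro p hp q hq hqd
      have hpp := mem_PB hp
      rcases (Nat.Prime.dvd_mul hq).1 hqd with h | h
      · have := hdu q hq h
        linarith [hpp.2.2.2]
      · have : q = p := (Nat.prime_dvd_prime_iff_eq hq hpp.1).1 h
        rw [this]
    constructor
    · -- upper bound
      set P' := (PB w u).filter (fun p : ℕ => (p : ℝ) ^ (2.02 : ℝ) < y) with hP'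
      have hP'sub : P' ⊆ PB w u := Finset.filter_subset _ _
      have hsum : ∑ p ∈ P', S (d * p) p ≤ ∑ p ∈ PB w u, S (d * p) p :=
        Finset.sum_le_sum_of_subset_of_nonneg hP'sub (fun p _ _ => hS _ _)
      have hlow : ∑ p ∈ P', (A0 / (Nat.totient d : ℝ) * ((TT w n).2 (y / p) p / ((p : ℝ) - 1)) -
          ∑ e ∈ QQ w p (y / p), |S (d * p * e) w - A0 / (Nat.totient (d * p * e) : ℝ)|) ≤
          ∑ p ∈ P', S (d * p) p := by
        refine Finset.sum_le_sum (fun p hp => ?_)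
        have hp' := hP'sub hp
        have hpp := mem_PB hp'
        have hp0 : (0 : ℝ) < p := by exact_mod_cast hpp.1.pos
        have hp1 : (1 : ℝ) ≤ p := by exact_mod_cast hpp.1.one_lt.le
        have hpy : (p : ℝ) ^ (2.02 : ℝ) < y := by
          rw [hP', mem_filter] at hp; exact hp.2
        have e1 : (p : ℝ) ^ (2.02 : ℝ) = (p : ℝ) ^ (1.02 : ℝ) * p := by
          rw [show (2.02 : ℝ) = 1.02 + 1 by norm_num, Real.rpow_add hp0, Real.rpow_one]
        have e2 : (p : ℝ) ^ (1.02 : ℝ) ≤ y / p := by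
          rw [le_div_iff₀ hp0, ← e1]; exact hpy.le
        have e3 : (1 : ℝ) ≤ (p : ℝ) ^ (1.02 : ℝ) := Real.one_le_rpow hp1 (by norm_num)
        have h3 := (ih (d * p) (y / p) p (Nat.mul_pos hd hpp.1.pos) (hprimes p hp')
          hpp.2.2.1 (e3.trans e2)).2 e2
        rw [hphi p hp'] at h3
        have e4 : A0 / ((Nat.totient d : ℝ) * ((p : ℝ) - 1)) * (TT w n).2 (y / p) p =
            A0 / (Nat.totient d : ℝ) * ((TT w n).2 (y / p) p / ((p : ℝ) - 1)) := by
          rw [div_mul_eq_div_div, div_mul_eq_mul_div, mul_div_assoc]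
        rw [e4] at h3
        exact h3
      rw [Finset.sum_sub_distrib, ← Finset.mul_sum] at hlow
      have herr := err (w := w) (u := u) hy P' hP'sub
        (fun m => |S m w - A0 / (Nat.totient m : ℝ)|) (fun m => abs_nonneg _) d
      have hTT : (TT w (n + 1)).1 y u = 1 - ∑ p ∈ P', (TT w n).2 (y / p) p / ((p : ℝ) - 1) := rfl
      rw [hTT]
      have h5 := habs.2
      nlinarith
    · intro huy
      have hup : ∑ p ∈ PB w u, S (d * p) p ≤ ∑ p ∈ PB w u,
          (A0 / (Nat.totient d : ℝ) * ((TT w n).1 (y / p) p / ((p : ℝ) - 1)) +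
          ∑ e ∈ QQ w p (y / p), |S (d * p * e) w - A0 / (Nat.totient (d * p * e) : ℝ)|) := by
        refine Finset.sum_le_sum (fun p hp' => ?_)
        have hpp := mem_PB hp'
        have hp0 : (0 : ℝ) < p := by exact_mod_cast hpp.1.pos
        have hu1 : (1 : ℝ) ≤ u := by linarith
        have e2 : (1 : ℝ) ≤ y / p := by
          rw [le_div_iff₀ hp0, one_mul]
          have h6 : u ≤ u ^ (1.02 : ℝ) := by
            have := Real.rpow_le_rpow_of_exponent_le hu1 (show (1 : ℝ) ≤ 1.02 by norm_num)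
            rwa [Real.rpow_one] at this
          linarith [hpp.2.2.2]
        have h3 := (ih (d * p) (y / p) p (Nat.mul_pos hd hpp.1.pos) (hprimes p hp')
          hpp.2.2.1 e2).1
        rw [hphi p hp'] at h3
        have e4 : A0 / ((Nat.totient d : ℝ) * ((p : ℝ) - 1)) * (TT w n).1 (y / p) p =
            A0 / (Nat.totient d : ℝ) * ((TT w n).1 (y / p) p / ((p : ℝ) - 1)) := by
          rw [div_mul_eq_div_div, div_mul_eq_mul_div, mul_div_assoc]
        rw [e4] at h3
        exact h3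
      rw [Finset.sum_add_distrib, ← Finset.mul_sum] at hup
      have herr := err (w := w) (u := u) hy (PB w u) (Finset.Subset.refl _)
        (fun m => |S m w - A0 / (Nat.totient m : ℝ)|) (fun m => abs_nonneg _) d
      have hTT : (TT w (n + 1)).2 y u =
          1 - ∑ p ∈ PB w u, (TT w n).1 (y / p) p / ((p : ℝ) - 1) := rfl
      rw [hTT]
      have h5 := habs.1
      nlinarith

end Pool.Agent.H95R2.TG
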