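import Mathlib
import Pool.Agent.H95R2.TG.Defs

/-!
# Task C8 of project TG (adapted from the TI file of helper840): the analytic part of the sieve
-/

set_option autoImplicit false

open Finset Filter

namespace Pool.Agent.H95R2.TG

open Pool.Agent.H95R2.TI (VM AP DD FS fS cA Lg hk VML ROU II1 II2 LIP TOPN)
open scoped Classical

namespace ANA_

theorem mem_PB {w u : ℝ} {p : ℕ} :
    p ∈ PB w u ↔ (p:ℝ) < u ∧ p.Prime ∧ p % 4 = 3 ∧ w ≤ (p:ℝ) := by
  unfold PB
  rw [mem_filter, mem_range, Nat.lt_ceil]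

/-- logarithmic coordinate -/
noncomputable def tp (w : ℝ) (p : ℕ) : ℝ := Real.log p / Real.log w

theorem rpow_tp {w : ℝ} (hw : 1 < w) {p : ℝ} (hp : 0 < p) :
    w ^ (Real.log p / Real.log w) = p := by
  have h : 0 < Real.log w := Real.log_pos hw
  rw [Real.rpow_def_of_pos (by linarith)]
  have e : Real.log w * (Real.log p / Real.log w) = Real.log p := by field_simp
  rw [e]
  exact Real.exp_log hp

theorem facts {w : ℝ} (hw : 1 < w) {V Y : ℝ} {p : ℕ} (hp : p ∈ PB w (w ^ V)) :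
    1 ≤ tp w p ∧ tp w p < V ∧ w ^ (tp w p) = (p:ℝ) ∧ w ^ Y / (p:ℝ) = w ^ (Y - tp w p) ∧
      0 < (p:ℝ) - 1 := by
  rw [mem_PB] at hp
  obtain ⟨h1, h2, h3, h4⟩ := hp
  have hL : 0 < Real.log w := Real.log_pos hw
  have hp0 : (0:ℝ) < p := by linarith
  have e := rpow_tp hw hp0
  refine ⟨?_, ?_, e, ?_, by linarith⟩
  · unfold tp
    rw [le_div_iff₀ hL, one_mul]
    exact Real.log_le_log (by linarith) h4
  · unfold tp
    rw [div_lt_iff₀ hL, ← Real.log_rpow (by linarith)]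
    exact Real.log_lt_log hp0 h1
  · rw [Real.rpow_sub (by linarith)]
    unfold tp
    rw [e]

theorem FS_low {Y U : ℝ} (hY : 0 < Y) (hU : 0 < U) (h : Y / U ≤ 2.02) :
    (Real.sqrt U)⁻¹ * FS (Y / U) = cA / Real.sqrt Y := by
  unfold FS
  rw [if_pos h, Real.sqrt_div hY.le]
  have h1 : 0 < Real.sqrt U := Real.sqrt_pos.mpr hU
  have h2 : 0 < Real.sqrt Y := Real.sqrt_pos.mpr hY
  field_simp

theorem one_le_cA {Y : ℝ} (hY : 0 < Y) (h : Y ≤ 2.02) : 1 ≤ cA / Real.sqrt Y := by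
  have h2 : 0 < Real.sqrt Y := Real.sqrt_pos.mpr hY
  rw [le_div_iff₀ h2, one_mul]
  unfold cA
  have h3 : Real.sqrt Y ≤ Real.sqrt 2.02 := Real.sqrt_le_sqrt h
  have h4 : 0 ≤ Real.sqrt 2.02 := Real.sqrt_nonneg _
  nlinarith

/-- the statement in logarithmic coordinates -/
def PS (n : ℕ) (M ε w : ℝ) : Prop := ∀ Y U : ℝ, 1 ≤ U → U ≤ M → 0 < Y → Y ≤ (n:ℝ) + 1 →
  (TT w n).1 (w ^ Y) (w ^ U) ≤ (Real.sqrt U)⁻¹ * FS (Y / U) + ε ∧
  (1.02 * U ≤ Y → (Real.sqrt U)⁻¹ * fS (Y / U) - ε ≤ (TT w n).2 (w ^ Y) (w ^ U))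

theorem base (M ε w : ℝ) (hε : 0 < ε) : PS 0 M ε w := by
  intro Y U hU1 hUM hY0 hYn
  have hY1 : Y ≤ 1 := by simpa using hYn
  have hU0 : 0 < U := by linarith
  refine ⟨?_, ?_⟩
  · have h1 : Y / U ≤ 2.02 := by
      rw [div_le_iff₀ hU0]
      nlinarith
    rw [FS_low hY0 hU0 h1]
    have h2 := one_le_cA hY0 (by linarith)
    have h3 : (TT w 0).1 (w ^ Y) (w ^ U) = 1 := rfl
    rw [h3]
    linarith
  · intro h
    exfalso
    linarith

theorem step (h1 : MERT) (h2 : EQD) (h3 : LIP) (h4 : II1) (h5 : II2) (n : ℕ)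
    (ih : ∀ M ε : ℝ, 1 ≤ M → 0 < ε → ∀ᶠ w : ℝ in atTop, PS n M ε w) :
    ∀ M ε : ℝ, 1 ≤ M → 0 < ε → ∀ᶠ w : ℝ in atTop, PS (n + 1) M ε w := by
  intro M ε hM hε
  obtain ⟨B, hBdef⟩ : ∃ B : ℝ, B = Real.log M / 2 + 1 := ⟨_, rfl⟩
  have hlogM : 0 ≤ Real.log M := Real.log_nonneg hM
  have hB : 1 ≤ B := by rw [hBdef]; linarith
  have hB0 : 0 < B := by linarith
  obtain ⟨L, hL0, hL⟩ := h3 ((n:ℝ) + 2) (by have := Nat.cast_nonneg (α := ℝ) n; linarith)
  filter_upwards [ih M (ε / (2 * B)) hM (by positivity), h1 M hM 1 one_pos,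
    h2 M L (ε / 2) hM hL0 (by positivity), eventually_gt_atTop 1] with w ihw h1w h2w hw
  intro Y U hU1 hUM hY0 hYn
  have hYn' : Y ≤ (n:ℝ) + 2 := by push_cast at hYn; linarith
  have hw0 : 0 < w := by linarith
  have hsum : ∀ V : ℝ, 1 ≤ V → V ≤ M → ∑ p ∈ PB w (w ^ V), 1 / ((p : ℝ) - 1) ≤ B := by
    intro V hV1 hVM
    have a1 := (abs_le.mp (h1w V hV1 hVM).1).2
    have a2 : Real.log V ≤ Real.log M := Real.log_le_log (by linarith) hVM
    linarith
  have herr : ∀ V : ℝ, 1 ≤ V → V ≤ M →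
      ε / (2 * B) * ∑ p ∈ PB w (w ^ V), 1 / ((p : ℝ) - 1) ≤ ε / 2 := by
    intro V hV1 hVM
    calc ε / (2 * B) * ∑ p ∈ PB w (w ^ V), 1 / ((p : ℝ) - 1) ≤ ε / (2 * B) * B :=
          mul_le_mul_of_nonneg_left (hsum V hV1 hVM) (by positivity)
      _ = ε / 2 := by field_simp
  refine ⟨?_, ?_⟩
  · -- upper bound
    have hTT : (TT w (n + 1)).1 (w ^ Y) (w ^ U) =
        1 - ∑ p ∈ (PB w (w ^ U)).filter (fun p : ℕ => (p : ℝ) ^ (2.02 : ℝ) < w ^ Y),
        (TT w n).2 (w ^ Y / p) p / ((p : ℝ) - 1) := rfl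
    rw [hTT]
    have hiff : ∀ p ∈ PB w (w ^ U), ((p : ℝ) ^ (2.02 : ℝ) < w ^ Y ↔ tp w p * 2.02 < Y) := by
      intro p hp
      obtain ⟨a1, a2, a3, a4, a5⟩ := facts (Y := Y) hw hp
      rw [← a3, ← Real.rpow_mul hw0.le, Real.rpow_lt_rpow_left_iff hw]
    rcases lt_or_ge Y 2.02 with hY2 | hY2
    · have hempty : (PB w (w ^ U)).filter (fun p : ℕ => (p : ℝ) ^ (2.02 : ℝ) < w ^ Y) = ∅ := by
        rw [Finset.filter_eq_empty_iff]
        intro p hp
        rw [hiff p hp]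
        obtain ⟨a1, a2, a3, a4, a5⟩ := facts (Y := Y) hw hp
        intro h
        nlinarith
      rw [hempty, Finset.sum_empty, sub_zero]
      have hU0 : 0 < U := by linarith
      have hYU : Y / U ≤ 2.02 := by
        rw [div_le_iff₀ hU0]
        nlinarith
      rw [FS_low hY0 hU0 hYU]
      have := one_le_cA hY0 hY2.le
      linarith
    · obtain ⟨V, hVdef⟩ : ∃ V : ℝ, V = min U (Y / 2.02) := ⟨_, rfl⟩
      have hV1 : 1 ≤ V := by
        rw [hVdef]
        refine le_min hU1 ?_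
        rw [le_div_iff₀ (by norm_num)]
        linarith
      have hVU : V ≤ U := by rw [hVdef]; exact min_le_left _ _
      have hVM : V ≤ M := hVU.trans hUM
      have hVY : 2.02 * V ≤ Y := by
        have a : V ≤ Y / 2.02 := by rw [hVdef]; exact min_le_right _ _
        rw [le_div_iff₀ (by norm_num)] at a
        linarith
      have hfil : (PB w (w ^ U)).filter (fun p : ℕ => (p : ℝ) ^ (2.02 : ℝ) < w ^ Y) =
          PB w (w ^ V) := by
        ext p
        rw [mem_filter]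
        constructor
        · rintro ⟨hp, hlt⟩
          rw [hiff p hp] at hlt
          obtain ⟨a1, a2, a3, a4, a5⟩ := facts (Y := Y) hw hp
          rw [mem_PB] at hp ⊢
          refine ⟨?_, hp.2⟩
          rw [← a3, Real.rpow_lt_rpow_left_iff hw, hVdef]
          refine lt_min a2 ?_
          rw [lt_div_iff₀ (by norm_num)]
          exact hlt
        · intro hp
          obtain ⟨a1, a2, a3, a4, a5⟩ := facts (Y := Y) hw hp
          have hp' : p ∈ PB w (w ^ U) := by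
            rw [mem_PB] at hp ⊢
            exact ⟨hp.1.trans_le (Real.rpow_le_rpow_of_exponent_le hw.le hVU), hp.2⟩
          refine ⟨hp', ?_⟩
          rw [hiff p hp']
          linarith
      rw [hfil]
      obtain ⟨hLip, hLb⟩ := (hL Y V hV1 hYn').2 hVY
      have heq := h2w V hV1 hVM (fun t => (Real.sqrt t)⁻¹ * fS ((Y - t) / t)) hLip hLb
      have hII := h5 Y V hV1 hVY
      have hle : ∑ p ∈ PB w (w ^ V),
          (Real.sqrt (tp w p))⁻¹ * fS ((Y - tp w p) / tp w p) / ((p : ℝ) - 1) -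
          ε / (2 * B) * ∑ p ∈ PB w (w ^ V), 1 / ((p : ℝ) - 1) ≤
          ∑ p ∈ PB w (w ^ V), (TT w n).2 (w ^ Y / p) p / ((p : ℝ) - 1) := by
        rw [Finset.mul_sum, ← Finset.sum_sub_distrib]
        refine Finset.sum_le_sum fun p hp => ?_
        obtain ⟨a1, a2, a3, a4, a5⟩ := facts (Y := Y) hw hp
        have b := (ihw (Y - tp w p) (tp w p) a1 (by linarith) (by linarith) (by linarith)).2
          (by linarith)
        rw [← a4, a3] at b
        rw [mul_one_div, ← sub_div]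
        exact div_le_div_of_nonneg_right b a5.le
      have heq1 := (abs_le.mp heq).1
      have he := herr V hV1 hVM
      have hmain : (Real.sqrt V)⁻¹ * FS (Y / V) = (Real.sqrt U)⁻¹ * FS (Y / U) := by
        rcases le_total U (Y / 2.02) with hc | hc
        · rw [hVdef, min_eq_left hc]
        · have hV' : V = Y / 2.02 := by rw [hVdef, min_eq_right hc]
          have e1 : Y / V ≤ 2.02 := by
            rw [hV', div_div_cancel₀ hY0.ne']
          have e2 : Y / U ≤ 2.02 := by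
            rw [div_le_iff₀ (by linarith)]
            rw [div_le_iff₀ (by norm_num)] at hc
            linarith
          rw [FS_low hY0 (by linarith) e1, FS_low hY0 (by linarith) e2]
      rw [← hmain]
      have hle' := hle
      have heq2 : (∫ t in (1 : ℝ)..V, (Real.sqrt t)⁻¹ * fS ((Y - t) / t) / t) / 2 - ε / 2 ≤
          ∑ p ∈ PB w (w ^ V),
          (Real.sqrt (tp w p))⁻¹ * fS ((Y - tp w p) / tp w p) / ((p : ℝ) - 1) := by
        have : ∑ p ∈ PB w (w ^ V), (fun t => (Real.sqrt t)⁻¹ * fS ((Y - t) / t))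
            (Real.log p / Real.log w) / ((p : ℝ) - 1) = ∑ p ∈ PB w (w ^ V),
          (Real.sqrt (tp w p))⁻¹ * fS ((Y - tp w p) / tp w p) / ((p : ℝ) - 1) := rfl
        rw [this] at heq1
        linarith
      linarith
  · -- lower bound
    intro hYU
    have hTT : (TT w (n + 1)).2 (w ^ Y) (w ^ U) =
        1 - ∑ p ∈ PB w (w ^ U), (TT w n).1 (w ^ Y / p) p / ((p : ℝ) - 1) := rfl
    rw [hTT]
    obtain ⟨hLip, hLb⟩ := (hL Y U hU1 hYn').1 hYU
    have heq := h2w U hU1 hUM (fun t => (Real.sqrt t)⁻¹ * FS ((Y - t) / t)) hLip hLb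
    have hII := h4 Y U hU1 hYU
    have hle : ∑ p ∈ PB w (w ^ U), (TT w n).1 (w ^ Y / p) p / ((p : ℝ) - 1) ≤
        ∑ p ∈ PB w (w ^ U),
          (Real.sqrt (tp w p))⁻¹ * FS ((Y - tp w p) / tp w p) / ((p : ℝ) - 1) +
          ε / (2 * B) * ∑ p ∈ PB w (w ^ U), 1 / ((p : ℝ) - 1) := by
      rw [Finset.mul_sum, ← Finset.sum_add_distrib]
      refine Finset.sum_le_sum fun p hp => ?_
      obtain ⟨a1, a2, a3, a4, a5⟩ := facts (Y := Y) hw hp
      have b := (ihw (Y - tp w p) (tp w p) a1 (by linarith) (by linarith) (by linarith)).1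
      rw [← a4, a3] at b
      rw [mul_one_div, ← add_div]
      exact div_le_div_of_nonneg_right b a5.le
    have heq1 := (abs_le.mp heq).2
    have he := herr U hU1 hUM
    have heq2 : ∑ p ∈ PB w (w ^ U),
          (Real.sqrt (tp w p))⁻¹ * FS ((Y - tp w p) / tp w p) / ((p : ℝ) - 1) ≤
        (∫ t in (1 : ℝ)..U, (Real.sqrt t)⁻¹ * FS ((Y - t) / t) / t) / 2 + ε / 2 := by
      have : ∑ p ∈ PB w (w ^ U), (fun t => (Real.sqrt t)⁻¹ * FS ((Y - t) / t))
            (Real.log p / Real.log w) / ((p : ℝ) - 1) = ∑ p ∈ PB w (w ^ U),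
          (Real.sqrt (tp w p))⁻¹ * FS ((Y - tp w p) / tp w p) / ((p : ℝ) - 1) := rfl
      rw [this] at heq1
      linarith
    linarith

theorem all (h1 : MERT) (h2 : EQD) (h3 : LIP) (h4 : II1) (h5 : II2) (n : ℕ) :
    ∀ M ε : ℝ, 1 ≤ M → 0 < ε → ∀ᶠ w : ℝ in atTop, PS n M ε w := by
  induction n with
  | zero => exact fun M ε _ hε => Eventually.of_forall fun w => base M ε w hε
  | succ n ih => exact step h1 h2 h3 h4 h5 n ih

end ANA_

open ANA_ in
theorem ana (h1 : MERT) (h2 : EQD) (h3 : LIP) (h4 : II1) (h5 : II2) : ANA := by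
  intro M n ε hM hε
  filter_upwards [ANA_.all h1 h2 h3 h4 h5 n M ε hM hε, eventually_gt_atTop 1] with w hPS hw
  intro y u hwu huM hy hyn
  have hw0 : 0 < w := by linarith
  have hLw : 0 < Real.log w := Real.log_pos hw
  have hu0 : 0 < u := by linarith
  have hy0 : 0 < y := by linarith
  have hLu : 0 < Real.log u := Real.log_pos (by linarith)
  have hLy : 0 < Real.log y := Real.log_pos hy
  have eu : w ^ (Real.log u / Real.log w) = u := rpow_tp hw hu0
  have ey : w ^ (Real.log y / Real.log w) = y := rpow_tp hw hy0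
  have hU1 : 1 ≤ Real.log u / Real.log w := by
    rw [le_div_iff₀ hLw, one_mul]
    exact Real.log_le_log hw0 hwu
  have hUM : Real.log u / Real.log w ≤ M := by
    rw [div_le_iff₀ hLw, ← Real.log_rpow hw0]
    exact Real.log_le_log hu0 huM
  have hY0 : 0 < Real.log y / Real.log w := by positivity
  have hYn : Real.log y / Real.log w ≤ (n:ℝ) + 1 := by
    rw [div_le_iff₀ hLw, ← Real.log_rpow hw0]
    exact Real.log_le_log hy0 hyn
  have e1 : Real.log y / Real.log w / (Real.log u / Real.log w) = Real.log y / Real.log u := by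
    field_simp
  have e2 : (Real.sqrt (Real.log u / Real.log w))⁻¹ = Real.sqrt (Real.log w / Real.log u) := by
    rw [← Real.sqrt_inv, inv_div]
  obtain ⟨p1, p2⟩ := hPS _ _ hU1 hUM hY0 hYn
  rw [eu, ey, e1, e2] at p1 p2
  refine ⟨p1, fun h => p2 ?_⟩
  have h' : Real.log (u ^ (1.02:ℝ)) ≤ Real.log y := Real.log_le_log (by positivity) h
  rw [Real.log_rpow hu0] at h'
  rw [← mul_div_assoc]
  exact div_le_div_of_nonneg_right h' hLw.le

end Pool.Agent.H95R2.TG
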