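import Mathlib
import Pool.Agent.H95R2.TG.Defs

set_option autoImplicit false

open Finset Filter

namespace Pool.Agent.H95R2.TG

open Pool.Agent.H95R2.TI (VM AP DD FS fS cA Lg hk VML ROU II1 II2 LIP TOPN)
open scoped Classical

namespace D1_

theorem SQ_ge {Q : ℕ} (hQ : 12 ∣ Q) {w : ℝ} {p : ℕ} (hp : p ∈ SQ Q w) : (5 : ℝ) ≤ (p : ℝ) := by
  obtain ⟨-, h1, h2⟩ := Finset.mem_filter.1 hp
  have h5 : 5 ≤ p := by
    by_contra h
    push Not at h
    have := h1.two_le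
    interval_cases p
    · exact h2 ((by norm_num : 2 ∣ 12).trans hQ)
    · exact h2 ((by norm_num : 3 ∣ 12).trans hQ)
    · exact absurd h1 (by norm_num)
  exact_mod_cast h5

theorem SG_pos {Q : ℕ} (hQ : 12 ∣ Q) (w : ℝ) : 0 < SG Q w := by
  refine Finset.prod_pos fun p hp => ?_
  have := SQ_ge hQ hp
  have h1 : 0 < (p : ℝ) := by linarith
  have h2 : 0 < (p : ℝ) - 2 := by linarith
  have h3 : 0 < (p : ℝ) - 1 := by linarith
  positivity

theorem V0_pos {Q : ℕ} (hQ : 12 ∣ Q) (w : ℝ) : 0 < V0 Q w := by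
  refine Finset.prod_pos fun p hp => ?_
  have := SQ_ge hQ hp
  have h3 : 1 < (p : ℝ) - 1 := by linarith
  have h4 : 1 / ((p : ℝ) - 1) < 1 := by
    rw [div_lt_one (by linarith)]
    exact h3
  linarith

theorem AP_eq {Q : ℕ} (hQ0 : 0 < Q) (w : ℝ) (hw : (Q : ℝ) < w) :
    AP w = Q.primeFactors ∪ SQ Q w := by
  ext p
  simp only [AP, SQ, Finset.mem_filter, Finset.mem_range, Finset.mem_union, Nat.mem_primeFactors,
    Nat.lt_ceil]
  constructor
  · rintro ⟨h1, h2⟩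
    by_cases h5 : p ∣ Q
    · exact Or.inl ⟨h2, h5, hQ0.ne'⟩
    · exact Or.inr ⟨h1, h2, h5⟩
  · rintro (⟨h1, h2, _⟩ | ⟨h1, h2, _⟩)
    · refine ⟨?_, h1⟩
      have : (p : ℝ) ≤ Q := by exact_mod_cast Nat.le_of_dvd hQ0 h2
      linarith
    · exact ⟨h1, h2⟩

theorem tot_eq (Q : ℕ) :
    (Nat.totient Q : ℝ) = Q * ∏ p ∈ Q.primeFactors, (1 - 1 / (p : ℝ)) := by
  have h := congrArg (fun q : ℚ => (q : ℝ)) (Nat.totient_eq_mul_prod_factors Q)
  simp only [one_div]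
  push_cast at h
  exact h

theorem V0_eq {Q : ℕ} (hQ0 : 0 < Q) (hQ : 12 ∣ Q) (w : ℝ) (hw : (Q : ℝ) < w) :
    V0 Q w = (Q : ℝ) / (Nat.totient Q : ℝ) * SG Q w * VM w := by
  have hdis : Disjoint Q.primeFactors (SQ Q w) := by
    rw [Finset.disjoint_left]
    intro p hp hp'
    have h1 := (Finset.mem_filter.1 hp').2.2
    exact h1 (Nat.dvd_of_mem_primeFactors hp)
  have hφ : (0 : ℝ) < (Nat.totient Q : ℝ) := by exact_mod_cast Nat.totient_pos.2 hQ0
  have hQr : (0 : ℝ) < (Q : ℝ) := by exact_mod_cast hQ0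
  unfold VM
  rw [AP_eq hQ0 w hw, Finset.prod_union hdis]
  have h : V0 Q w = SG Q w * ∏ p ∈ SQ Q w, (1 - 1 / (p : ℝ)) := by
    unfold V0 SG
    rw [← Finset.prod_mul_distrib]
    refine Finset.prod_congr rfl fun p hp => ?_
    have := SQ_ge hQ hp
    have h1 : (p : ℝ) ≠ 0 := by linarith
    have h3 : (p : ℝ) - 1 ≠ 0 := by linarith
    field_simp
    ring
  have h2 : ∏ p ∈ Q.primeFactors, (1 - 1 / (p : ℝ)) = (Nat.totient Q : ℝ) / Q := by
    rw [tot_eq Q, mul_div_cancel_left₀ _ hQr.ne']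
  rw [h, h2]
  field_simp

theorem QQ_sub (w u y : ℝ) : QQ w u y ⊆ DD w y := by
  intro e he
  simp only [QQ, DD, Finset.mem_filter] at he ⊢
  exact ⟨he.1, he.2.1, fun p h1 h2 => (he.2.2 p h1 h2).2.1⟩

theorem num (c ε1 ε : ℝ) (hc : 0 < c) (hc1 : c ≤ 1 / 10) (h1 : 0 < ε1) (h2 : ε1 ≤ 1 / 100)
    (h3 : ε1 ≤ ε / 100) :
    0 ≤ Real.sqrt (c / 0.48) * 0.174 - ε1 * c ∧
    0 ≤ (1 - ε1) / 2 * (Real.sqrt (c / 0.48) * 0.174 - ε1 * c) - ε1 * c ∧
    (0.0644 - ε) / Real.sqrt c ≤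
      0.513 / c * ((1 - ε1) / 2 * (Real.sqrt (c / 0.48) * 0.174 - ε1 * c) - ε1 * c) := by
  set s := Real.sqrt c with hs
  have hs0 : 0 < s := Real.sqrt_pos.2 hc
  have hss : s ^ 2 = c := Real.sq_sqrt hc.le
  have hs1 : s ≤ 1 / 3 := by
    by_contra h
    push Not at h
    nlinarith
  have hk : (0.25114 : ℝ) * s ≤ Real.sqrt (c / 0.48) * 0.174 := by
    have h4 : (0.25114 : ℝ) / 0.174 * s ≤ Real.sqrt (c / 0.48) := by
      apply Real.le_sqrt_of_sq_le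
      rw [mul_pow, hss, div_eq_mul_one_div c, mul_comm]
      apply mul_le_mul_of_nonneg_left _ hc.le
      norm_num
    have h5 : (0.25114 : ℝ) * s = 0.25114 / 0.174 * s * 0.174 := by ring
    rw [h5]
    apply mul_le_mul_of_nonneg_right h4 (by norm_num)
  set k := Real.sqrt (c / 0.48) * 0.174 with hkk
  have hcs : c ≤ s := by nlinarith
  have e1 : ε1 * c ≤ 1 / 100 * s := by
    calc ε1 * c ≤ 1 / 100 * c := mul_le_mul_of_nonneg_right h2 hc.le
      _ ≤ 1 / 100 * s := by linarith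
  have e2 : 0 ≤ k - ε1 * c := by linarith
  have e3 : (1 - ε1) / 2 * (0.25114 * s - ε1 * c) ≤ (1 - ε1) / 2 * (k - ε1 * c) := by
    apply mul_le_mul_of_nonneg_left (by linarith) (by linarith)
  have e4 : 0 ≤ (1 - ε1) / 2 * (0.25114 * s - ε1 * c) - ε1 * c := by
    have : (99 / 200 : ℝ) * (0.25114 * s - ε1 * c) ≤ (1 - ε1) / 2 * (0.25114 * s - ε1 * c) := by
      apply mul_le_mul_of_nonneg_right (by linarith) (by linarith)
    linarith
  refine ⟨e2, by linarith, ?_⟩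
  have e5 : (0.0644 - ε) / s ≤
      0.513 / c * ((1 - ε1) / 2 * (0.25114 * s - ε1 * c) - ε1 * c) := by
    rw [div_mul_eq_mul_div, div_le_div_iff₀ hs0 hc, ← hss]
    have e6 : (1 - ε1) / 2 * (0.25114 * s - ε1 * s ^ 2) - ε1 * s ^ 2 =
        s * ((1 - ε1) / 2 * (0.25114 - ε1 * s) - ε1 * s) := by ring
    rw [e6]
    have e7 : 0.0644 - ε ≤ 0.513 * ((1 - ε1) / 2 * (0.25114 - ε1 * s) - ε1 * s) := by
      have e8 : ε1 * s ≤ ε1 := by nlinarith
      have e9 : (1 - ε1) / 2 * (0.25114 - ε1) ≤ (1 - ε1) / 2 * (0.25114 - ε1 * s) := by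
        apply mul_le_mul_of_nonneg_left (by linarith) (by linarith)
      nlinarith
    calc (0.0644 - ε) * s ^ 2 ≤
        0.513 * ((1 - ε1) / 2 * (0.25114 - ε1 * s) - ε1 * s) * s ^ 2 :=
          mul_le_mul_of_nonneg_right e7 (by positivity)
      _ = 0.513 * (s * ((1 - ε1) / 2 * (0.25114 - ε1 * s) - ε1 * s)) * s := by ring
  refine e5.trans ?_
  apply mul_le_mul_of_nonneg_left (by linarith)
  positivity

end D1_

theorem low (h1 : BASE) (h2 : BUCH) (h3 : REC) (h4 : ANA) (h5 : TOPN) (h6 : PNTD) (h7 : VML) :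
    LOW := by
  intro D hD ε hε
  have hQ0 : 0 < D.Q := hD.2.2.2.1
  have hQ12 : 12 ∣ D.Q := hD.2.2.2.2.1
  have hφ : (0 : ℝ) < (Nat.totient D.Q : ℝ) := by exact_mod_cast Nat.totient_pos.2 hQ0
  have hQr : (0 : ℝ) < (D.Q : ℝ) := by exact_mod_cast hQ0
  set φ : ℝ := (Nat.totient D.Q : ℝ) with hφdef
  set ε1 : ℝ := min (1 / 100) (ε / 100) with hε1
  have hε10 : 0 < ε1 := lt_min (by norm_num) (by positivity)
  have hε1a : ε1 ≤ 1 / 100 := min_le_left _ _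
  have hε1b : ε1 ≤ ε / 100 := min_le_right _ _
  obtain ⟨c1, hc1, hB⟩ := h1 D hD (ε1 / φ) (div_pos hε10 hφ)
  refine ⟨min c1 (1 / 10), lt_min hc1 (by norm_num), fun c hc hcc => ?_⟩
  have hcc1 : c ≤ c1 := hcc.trans (min_le_left _ _)
  have hcc2 : c ≤ 1 / 10 := hcc.trans (min_le_right _ _)
  have htw : Tendsto (fun x : ℝ => x ^ c) atTop atTop := tendsto_rpow_atTop hc
  set n : ℕ := ⌈0.498 / c⌉₊ with hn
  have hM : (1 : ℝ) ≤ 0.48 / c := by
    rw [le_div_iff₀ hc]; linarith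
  have hA := htw.eventually (h4 (0.48 / c) n (ε1 * c) hM (by positivity))
  have hV := htw.eventually h7
  have hP := h6 ε1 hε10
  have hw5 := htw.eventually (eventually_gt_atTop (5 : ℝ))
  have hwQ := htw.eventually (eventually_gt_atTop (D.Q : ℝ))
  filter_upwards [hB c hc hcc1, hA, hV, hP, hw5, hwQ, eventually_gt_atTop (1 : ℝ)] with
    x kB kA kV kP kw kwQ hx
  set w := x ^ c with hw
  have hx0 : 0 < x := by linarith
  have hlx : 0 < Real.log x := Real.log_pos hx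
  have hlw : Real.log w = c * Real.log x := Real.log_rpow hx0 c
  have hlu : Real.log (x ^ (0.48 : ℝ)) = 0.48 * Real.log x := Real.log_rpow hx0 _
  have hly : Real.log (x ^ (0.498 : ℝ)) = 0.498 * Real.log x := Real.log_rpow hx0 _
  have g1 : w ≤ x ^ (0.48 : ℝ) := Real.rpow_le_rpow_of_exponent_le hx.le (by linarith)
  have g2 : x ^ (0.48 : ℝ) ≤ w ^ (0.48 / c) := by
    rw [hw, ← Real.rpow_mul hx0.le, mul_div_cancel₀ _ hc.ne']
  have g3 : 1 < x ^ (0.498 : ℝ) := Real.one_lt_rpow hx (by norm_num)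
  have g4 : x ^ (0.498 : ℝ) ≤ w ^ ((n : ℝ) + 1) := by
    rw [hw, ← Real.rpow_mul hx0.le]
    apply Real.rpow_le_rpow_of_exponent_le hx.le
    have : 0.498 / c ≤ (n : ℝ) := Nat.le_ceil _
    rw [div_le_iff₀ hc] at this
    nlinarith
  have g5 : (x ^ (0.48 : ℝ)) ^ (1.02 : ℝ) ≤ x ^ (0.498 : ℝ) := by
    rw [← Real.rpow_mul hx0.le]
    apply Real.rpow_le_rpow_of_exponent_le hx.le
    norm_num
  have kA' := (kA (x ^ (0.498 : ℝ)) (x ^ (0.48 : ℝ)) g1 g2 g3 g4).2 g5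
  have q1 : Real.log w / Real.log (x ^ (0.48 : ℝ)) = c / 0.48 := by
    rw [hlw, hlu]
    field_simp
  have q2 : Real.log (x ^ (0.498 : ℝ)) / Real.log (x ^ (0.48 : ℝ)) = 0.498 / 0.48 := by
    rw [hly, hlu]
    field_simp
  rw [q1, q2] at kA'
  have kA2 : Real.sqrt (c / 0.48) * 0.174 - ε1 * c ≤
      (TT w n).2 (x ^ (0.498 : ℝ)) (x ^ (0.48 : ℝ)) := by
    have := mul_le_mul_of_nonneg_left h5 (Real.sqrt_nonneg (c / 0.48))
    linarith
  -- the sieve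
  have hV0 : 0 < V0 D.Q w := D1_.V0_pos hQ12 w
  have hX0 : (1 - ε1) * (x / (2 * Real.log x)) / φ ≤ X0 D x := by
    unfold X0
    exact div_le_div_of_nonneg_right kP.1 hφ.le
  have hX00 : 0 ≤ X0 D x := by
    refine le_trans ?_ hX0
    have : 0 ≤ 1 - ε1 := by linarith
    positivity
  set A0 : ℝ := X0 D x * V0 D.Q w with hA0
  have hA00 : 0 ≤ A0 := mul_nonneg hX00 hV0.le
  have hrec := (h3 w (fun d u => SS D x w d u) A0 kw hA00 (fun d u => Nat.cast_nonneg _)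
    (fun d u hd hu hp => h2 D x w kw d u hd hu hp) n 1 (x ^ (0.498 : ℝ)) (x ^ (0.48 : ℝ))
    one_pos (fun p hp h => absurd (Nat.dvd_one.1 h) hp.one_lt.ne') g1 g3.le).2 g5
  simp only [Nat.totient_one, Nat.cast_one, div_one, one_mul] at hrec
  have hsum : ∑ e ∈ QQ w (x ^ (0.48 : ℝ)) (x ^ (0.498 : ℝ)),
      |SS D x w e w - A0 / (Nat.totient e : ℝ)| ≤ ε1 / φ * c * (x / Real.log x) * V0 D.Q w :=
    (Finset.sum_le_sum_of_subset_of_nonneg (D1_.QQ_sub _ _ _)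
      (fun _ _ _ => abs_nonneg _)).trans kB
  obtain ⟨n1, n2, n3⟩ := D1_.num c ε1 ε hc hcc2 hε10 hε1a hε1b
  set F := Real.sqrt (c / 0.48) * 0.174 - ε1 * c with hF
  have hxl : 0 < x / Real.log x := by positivity
  have hA01 : (1 - ε1) * (x / (2 * Real.log x)) / φ * V0 D.Q w ≤ A0 := by
    rw [hA0]
    exact mul_le_mul_of_nonneg_right hX0 hV0.le
  have hlow : (x / Real.log x) / φ * V0 D.Q w * ((1 - ε1) / 2 * F - ε1 * c) ≤
      SS D x w 1 (x ^ (0.48 : ℝ)) := by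
    have r1 : A0 * F ≤ A0 * (TT w n).2 (x ^ (0.498 : ℝ)) (x ^ (0.48 : ℝ)) :=
      mul_le_mul_of_nonneg_left kA2 hA00
    have r2 : (1 - ε1) * (x / (2 * Real.log x)) / φ * V0 D.Q w * F ≤ A0 * F :=
      mul_le_mul_of_nonneg_right hA01 n1
    have r3 : (x / Real.log x) / φ * V0 D.Q w * ((1 - ε1) / 2 * F - ε1 * c) =
      (1 - ε1) * (x / (2 * Real.log x)) / φ * V0 D.Q w * F -
        ε1 / φ * c * (x / Real.log x) * V0 D.Q w := by
      field_simp
    rw [r3]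
    linarith
  refine le_trans ?_ hlow
  have hSG := D1_.SG_pos hQ12 w
  have hVM : 0.513 / (c * Real.log x) ≤ VM w := by
    rw [div_le_iff₀ (by positivity), ← hlw]
    exact kV
  have hV1 : (D.Q : ℝ) / φ * SG D.Q w * (0.513 / (c * Real.log x)) ≤ V0 D.Q w := by
    rw [D1_.V0_eq hQ0 hQ12 w kwQ]
    exact mul_le_mul_of_nonneg_left hVM (by positivity)
  have hqf : qf D.Q = (D.Q : ℝ) / φ ^ 2 := rfl
  have hqf0 : 0 < qf D.Q := by
    rw [hqf]
    positivity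
  calc qf D.Q * SG D.Q w * (x / Real.log x ^ 2) * ((0.0644 - ε) / Real.sqrt c)
      ≤ qf D.Q * SG D.Q w * (x / Real.log x ^ 2) *
          (0.513 / c * ((1 - ε1) / 2 * F - ε1 * c)) :=
        mul_le_mul_of_nonneg_left n3 (by positivity)
    _ = (x / Real.log x) / φ * ((D.Q : ℝ) / φ * SG D.Q w * (0.513 / (c * Real.log x))) *
        ((1 - ε1) / 2 * F - ε1 * c) := by
        rw [hqf]
        field_simp
    _ ≤ (x / Real.log x) / φ * V0 D.Q w * ((1 - ε1) / 2 * F - ε1 * c) := by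
        apply mul_le_mul_of_nonneg_right _ n2
        exact mul_le_mul_of_nonneg_left hV1 (by positivity)

end Pool.Agent.H95R2.TG
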