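import Mathlib
import Pool.Agent.H95R2.TG.Defs
import Pool.Agent.Helper256.KM.Mertens

set_option autoImplicit false

open Finset Filter

namespace Pool.Agent.H95R2.TG

open Pool.Agent.H95R2.TI (VM AP DD FS fS cA Lg hk VML ROU II1 II2 LIP TOPN)
open scoped Classical

namespace RNK_

/-- the multiplicative function -/
noncomputable def h (p : ℕ) : ℝ := 2 / ((p : ℝ) - 2)

theorem mem_SP {Q : ℕ} (hQ : 12 ∣ Q) {w : ℝ} {p : ℕ} (hp : p ∈ SQ Q w) :
    p < ⌈w⌉₊ ∧ p.Prime ∧ 5 ≤ p := by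
  rw [SQ, Finset.mem_filter, Finset.mem_range] at hp
  obtain ⟨h1, h2, h3⟩ := hp
  refine ⟨h1, h2, ?_⟩
  by_contra h4
  have h5 := h2.two_le
  have h6 : p = 2 ∨ p = 3 ∨ p = 4 := by omega
  rcases h6 with rfl | rfl | rfl
  · exact h3 (dvd_trans (by norm_num) hQ)
  · exact h3 (dvd_trans (by norm_num) hQ)
  · exact absurd h2 (by norm_num)

theorem h_pos {p : ℕ} (hp : 5 ≤ p) : 0 < h p := by
  have : (5 : ℝ) ≤ p := by exact_mod_cast hp
  unfold h
  apply div_pos
  · norm_num
  · linarith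

theorem h_le {p : ℕ} (hp : 5 ≤ p) : h p ≤ 4 / p := by
  have : (5 : ℝ) ≤ p := by exact_mod_cast hp
  unfold h
  rw [div_le_div_iff₀ (by linarith) (by linarith)]
  linarith

/-- the sum over the powerset is dominated by the sum over divisors -/
theorem sum_pow_le {Q : ℕ} (hQ : 12 ∣ Q) (w B : ℝ) :
    ∑ T ∈ (SQ Q w).powerset.filter (fun T => ((∏ p ∈ T, p : ℕ) : ℝ) ≤ B), ∏ p ∈ T, h p ≤
      ∑ l ∈ (∏ p ∈ SQ Q w, p).divisors.filter (fun l : ℕ => (l : ℝ) ≤ B),
        ∏ p ∈ l.primeFactors, (2 / ((p : ℝ) - 2)) := by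
  have hpf : ∀ T ∈ (SQ Q w).powerset, (∏ p ∈ T, p).primeFactors = T := by
    intro T hT
    rw [Finset.mem_powerset] at hT
    exact Nat.primeFactors_prod (fun p hp => (mem_SP hQ (hT hp)).2.1)
  have hinj : Set.InjOn (fun T : Finset ℕ => ∏ p ∈ T, p)
      ((SQ Q w).powerset.filter (fun T => ((∏ p ∈ T, p : ℕ) : ℝ) ≤ B)) := by
    intro T hT T' hT' he
    have h1 := hpf T (Finset.mem_filter.1 (Finset.mem_coe.1 hT)).1
    have h2 := hpf T' (Finset.mem_filter.1 (Finset.mem_coe.1 hT')).1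
    simp only at he
    rw [← h1, ← h2, he]
  calc ∑ T ∈ (SQ Q w).powerset.filter (fun T => ((∏ p ∈ T, p : ℕ) : ℝ) ≤ B), ∏ p ∈ T, h p
      = ∑ T ∈ (SQ Q w).powerset.filter (fun T => ((∏ p ∈ T, p : ℕ) : ℝ) ≤ B),
          ∏ p ∈ (∏ p ∈ T, p).primeFactors, (2 / ((p : ℝ) - 2)) := by
        refine Finset.sum_congr rfl fun T hT => ?_
        rw [hpf T (Finset.mem_filter.1 hT).1]
        rfl
    _ = ∑ l ∈ ((SQ Q w).powerset.filter (fun T => ((∏ p ∈ T, p : ℕ) : ℝ) ≤ B)).image
          (fun T : Finset ℕ => ∏ p ∈ T, p), ∏ p ∈ l.primeFactors, (2 / ((p : ℝ) - 2)) := by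
        rw [Finset.sum_image hinj]
    _ ≤ _ := by
        refine Finset.sum_le_sum_of_subset_of_nonneg ?_ ?_
        · intro l hl
          rw [Finset.mem_image] at hl
          obtain ⟨T, hT, rfl⟩ := hl
          rw [Finset.mem_filter, Finset.mem_powerset] at hT
          rw [Finset.mem_filter, Nat.mem_divisors]
          refine ⟨⟨Finset.prod_dvd_prod_of_subset _ _ _ hT.1, ?_⟩, hT.2⟩
          exact Finset.prod_ne_zero_iff.2 fun p hp => (mem_SP hQ hp).2.1.ne_zero
        · intro l hl _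
          rw [Finset.mem_filter, Nat.mem_divisors] at hl
          refine Finset.prod_nonneg fun p hp => ?_
          have hpp := Nat.prime_of_mem_primeFactors hp
          have hpd : p ∣ ∏ p ∈ SQ Q w, p := (Nat.dvd_of_mem_primeFactors hp).trans hl.1.1
          obtain ⟨q, hq, hpq⟩ := (Prime.dvd_finsetProd_iff hpp.prime _).1 hpd
          have hq' := mem_SP hQ hq
          have : p = q := (Nat.prime_dvd_prime_iff_eq hpp hq'.2.1).1 hpq
          rw [this]
          exact (h_pos hq'.2.2).le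

theorem exp_sub_one_le {x : ℝ} (h0 : 0 ≤ x) (h1 : x ≤ 1) : Real.exp x - 1 ≤ 2 * x := by
  have h2 := Real.abs_exp_sub_one_le (x := x) (by rw [abs_of_nonneg h0]; exact h1)
  rw [abs_of_nonneg h0] at h2
  exact (le_abs_self _).trans h2

/-- Mertens bound -/
theorem sum_log_le {Q : ℕ} (hQ : 12 ∣ Q) : ∃ C : ℝ, 0 ≤ C ∧ ∀ w : ℝ, 1 ≤ w →
    ∑ p ∈ SQ Q w, Real.log p / p ≤ Real.log w + C := by
  obtain ⟨C, hC⟩ := Pool.Agent.Helper256.KM.mertens_log
  refine ⟨|C| + 1, by positivity, ?_⟩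
  intro w hw
  have hN : 1 ≤ ⌈w⌉₊ := Nat.one_le_iff_ne_zero.2 (by
    have : 0 < ⌈w⌉₊ := Nat.ceil_pos.2 (by linarith)
    omega)
  have h1 := (abs_le.1 (hC ⌈w⌉₊ hN)).2
  have h2 : ∑ p ∈ SQ Q w, Real.log p / p ≤
      ∑ p ∈ (Finset.Icc 1 ⌈w⌉₊).filter Nat.Prime, Real.log p / p := by
    refine Finset.sum_le_sum_of_subset_of_nonneg ?_ ?_
    · intro p hp
      have := mem_SP hQ hp
      rw [Finset.mem_filter, Finset.mem_Icc]
      exact ⟨⟨this.2.1.one_lt.le, this.1.le⟩, this.2.1⟩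
    · intro p _ _
      exact div_nonneg (Real.log_natCast_nonneg p) (Nat.cast_nonneg p)
  have h3 : (⌈w⌉₊ : ℝ) ≤ 2 * w := by
    have := Nat.ceil_lt_add_one (show 0 ≤ w by linarith)
    linarith
  have h4 : Real.log (⌈w⌉₊ : ℝ) ≤ Real.log w + 1 := by
    calc Real.log (⌈w⌉₊ : ℝ) ≤ Real.log (2 * w) :=
          Real.log_le_log (by exact_mod_cast hN) h3
      _ = Real.log 2 + Real.log w := Real.log_mul (by norm_num) (by linarith)
      _ ≤ Real.log w + 1 := by linarith [Real.log_two_lt_d9]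
  have h5 := le_abs_self C
  linarith

theorem key_factor {x y : ℝ} (hx : 0 ≤ x) (hy : 1 ≤ y) :
    1 + x * y ≤ (1 + x) * Real.exp (x * (y - 1)) := by
  have h1 : x * (y - 1) + 1 ≤ Real.exp (x * (y - 1)) := Real.add_one_le_exp _
  have h2 : 0 ≤ x * (y - 1) := mul_nonneg hx (by linarith)
  calc 1 + x * y ≤ (1 + x) * (x * (y - 1) + 1) := by nlinarith [mul_nonneg hx h2]
    _ ≤ _ := by gcongr

end RNK_

open RNK_ in
theorem rnk : RNK := by
  intro Q _ hQ ε hε
  obtain ⟨C, hC0, hC⟩ := sum_log_le hQ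
  set K : ℝ := 8 * (1 + C) with hK
  refine ⟨K + |Real.log ε| + 1, by positivity, ?_⟩
  set S : ℝ := K + |Real.log ε| + 1 with hS
  filter_upwards [eventually_ge_atTop (Real.exp 1)] with w hw
  have hw1 : 1 ≤ w := le_trans (by
    have := Real.add_one_le_exp (1 : ℝ)
    linarith) hw
  have hw0 : 0 < w := by linarith
  have hlog : 1 ≤ Real.log w := by
    rw [Real.le_log_iff_exp_le hw0]
    exact hw
  have hlog0 : 0 < Real.log w := by linarith
  set a : ℝ := 1 / Real.log w with ha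
  have ha0 : 0 < a := by positivity
  have hpP : ∀ p ∈ SQ Q w, 5 ≤ p ∧ (p : ℝ) < w := by
    intro p hp
    have := mem_SP hQ hp
    exact ⟨this.2.2, Nat.lt_ceil.1 this.1⟩
  have hal : ∀ p ∈ SQ Q w, 0 ≤ a * Real.log p ∧ a * Real.log p ≤ 1 := by
    intro p hp
    obtain ⟨h5, hlt⟩ := hpP p hp
    refine ⟨mul_nonneg ha0.le (Real.log_natCast_nonneg p), ?_⟩
    have h6 : Real.log p ≤ Real.log w := by
      apply Real.log_le_log
      · have : (5 : ℝ) ≤ p := by exact_mod_cast h5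
        linarith
      · exact hlt.le
    rw [ha, one_div, inv_mul_le_iff₀ hlog0]
    linarith
  have hpa : ∀ p ∈ SQ Q w, (p : ℝ) ^ a = Real.exp (a * Real.log p) := by
    intro p hp
    have h5 : (5 : ℝ) ≤ p := by exact_mod_cast (hpP p hp).1
    rw [Real.rpow_def_of_pos (by linarith), mul_comm]
  have hpa1 : ∀ p ∈ SQ Q w, 1 ≤ (p : ℝ) ^ a := by
    intro p hp
    rw [hpa p hp]
    exact Real.one_le_exp (hal p hp).1
  -- the product with the weights
  have hprod : ∏ p ∈ SQ Q w, (1 + h p * (p : ℝ) ^ a) ≤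
      Real.exp K * ∏ p ∈ SQ Q w, (1 + h p) := by
    calc ∏ p ∈ SQ Q w, (1 + h p * (p : ℝ) ^ a)
        ≤ ∏ p ∈ SQ Q w, ((1 + h p) * Real.exp (h p * ((p : ℝ) ^ a - 1))) := by
          refine Finset.prod_le_prod ?_ ?_
          · intro p hp
            have := (h_pos (hpP p hp).1).le
            have h1 : 0 ≤ (p : ℝ) ^ a := by positivity
            positivity
          · intro p hp
            exact key_factor (h_pos (hpP p hp).1).le (hpa1 p hp)
      _ = (∏ p ∈ SQ Q w, (1 + h p)) * Real.exp (∑ p ∈ SQ Q w, h p * ((p : ℝ) ^ a - 1)) := by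
          rw [Finset.prod_mul_distrib, Real.exp_sum]
      _ ≤ (∏ p ∈ SQ Q w, (1 + h p)) * Real.exp K := by
          have h0 : 0 ≤ ∏ p ∈ SQ Q w, (1 + h p) := Finset.prod_nonneg fun p hp => by
            have := (h_pos (hpP p hp).1).le
            positivity
          refine mul_le_mul_of_nonneg_left ?_ h0
          apply Real.exp_le_exp.2
          calc ∑ p ∈ SQ Q w, h p * ((p : ℝ) ^ a - 1)
              ≤ ∑ p ∈ SQ Q w, 8 * a * (Real.log p / p) := by
                refine Finset.sum_le_sum fun p hp => ?_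
                have h5 : (5 : ℝ) ≤ p := by exact_mod_cast (hpP p hp).1
                have e1 : (p : ℝ) ^ a - 1 ≤ 2 * (a * Real.log p) := by
                  rw [hpa p hp]
                  exact exp_sub_one_le (hal p hp).1 (hal p hp).2
                have e2 : 0 ≤ (p : ℝ) ^ a - 1 := by linarith [hpa1 p hp]
                calc h p * ((p : ℝ) ^ a - 1) ≤ (4 / p) * (2 * (a * Real.log p)) :=
                      mul_le_mul (h_le (hpP p hp).1) e1 e2 (by positivity)
                  _ = 8 * a * (Real.log p / p) := by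
                      field_simp
                      ring
            _ = 8 * a * ∑ p ∈ SQ Q w, Real.log p / p := by rw [Finset.mul_sum]
            _ ≤ 8 * a * (Real.log w + C) := by
                have := hC w hw1
                gcongr
            _ ≤ K := by
                have e1 : a * Real.log w = 1 := by
                  rw [ha]
                  field_simp
                have e2 : a ≤ 1 := by
                  rw [ha, div_le_one hlog0]
                  exact hlog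
                have e3 : a * C ≤ 1 * C := by gcongr
                rw [hK]
                nlinarith
      _ = Real.exp K * ∏ p ∈ SQ Q w, (1 + h p) := mul_comm _ _
  -- split the powerset
  have hfull : ∏ p ∈ SQ Q w, (1 + h p) = ∑ T ∈ (SQ Q w).powerset, ∏ p ∈ T, h p :=
    Finset.prod_one_add _
  have hfulla : ∏ p ∈ SQ Q w, (1 + h p * (p : ℝ) ^ a) =
      ∑ T ∈ (SQ Q w).powerset, ∏ p ∈ T, (h p * (p : ℝ) ^ a) :=
    Finset.prod_one_add _
  have hbad : ∑ T ∈ (SQ Q w).powerset.filter (fun T => ¬ ((∏ p ∈ T, p : ℕ) : ℝ) ≤ w ^ S),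
      ∏ p ∈ T, h p ≤ Real.exp (-S) * ∏ p ∈ SQ Q w, (1 + h p * (p : ℝ) ^ a) := by
    rw [hfulla, Finset.mul_sum]
    calc ∑ T ∈ (SQ Q w).powerset.filter (fun T => ¬ ((∏ p ∈ T, p : ℕ) : ℝ) ≤ w ^ S), ∏ p ∈ T, h p
        ≤ ∑ T ∈ (SQ Q w).powerset.filter (fun T => ¬ ((∏ p ∈ T, p : ℕ) : ℝ) ≤ w ^ S),
          Real.exp (-S) * ∏ p ∈ T, (h p * (p : ℝ) ^ a) := by
          refine Finset.sum_le_sum fun T hT => ?_
          rw [Finset.mem_filter, Finset.mem_powerset, not_le] at hT
          obtain ⟨hT, hlt⟩ := hT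
          have hh : 0 ≤ ∏ p ∈ T, h p :=
            Finset.prod_nonneg fun p hp => (h_pos (hpP p (hT hp)).1).le
          have e1 : ∏ p ∈ T, (p : ℝ) ^ a = ((∏ p ∈ T, p : ℕ) : ℝ) ^ a := by
            rw [Nat.cast_prod, Real.finsetProd_rpow T (fun p : ℕ => (p : ℝ))
              (fun p _ => Nat.cast_nonneg p)]
          have e2 : Real.exp S ≤ ((∏ p ∈ T, p : ℕ) : ℝ) ^ a := by
            have : (w ^ S) ^ a = Real.exp S := by
              rw [← Real.rpow_mul hw0.le, Real.rpow_def_of_pos hw0]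
              congr 1
              rw [ha]
              field_simp
            rw [← this]
            exact Real.rpow_le_rpow (by positivity) hlt.le ha0.le
          rw [Finset.prod_mul_distrib, e1]
          calc ∏ p ∈ T, h p = Real.exp (-S) * ((∏ p ∈ T, h p) * Real.exp S) := by
                rw [mul_left_comm, ← Real.exp_add]
                simp
            _ ≤ Real.exp (-S) * ((∏ p ∈ T, h p) * ((∏ p ∈ T, p : ℕ) : ℝ) ^ a) := by
                gcongr
      _ ≤ ∑ T ∈ (SQ Q w).powerset, Real.exp (-S) * ∏ p ∈ T, (h p * (p : ℝ) ^ a) := by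
          refine Finset.sum_le_sum_of_subset_of_nonneg (Finset.filter_subset _ _) ?_
          intro T hT _
          rw [Finset.mem_powerset] at hT
          refine mul_nonneg (Real.exp_pos _).le (Finset.prod_nonneg fun p hp => ?_)
          have := (h_pos (hpP p (hT hp)).1).le
          positivity
  have hposF : 0 ≤ ∏ p ∈ SQ Q w, (1 + h p) := Finset.prod_nonneg fun p hp => by
    have := (h_pos (hpP p hp).1).le
    positivity
  have hεb : Real.exp (-S) * Real.exp K ≤ ε := by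
    rw [← Real.exp_add]
    calc Real.exp (-S + K) ≤ Real.exp (Real.log ε) := by
          apply Real.exp_le_exp.2
          rw [hS]
          have := neg_abs_le (Real.log ε)
          linarith
      _ = ε := Real.exp_log hε
  have hbad2 : ∑ T ∈ (SQ Q w).powerset.filter (fun T => ¬ ((∏ p ∈ T, p : ℕ) : ℝ) ≤ w ^ S),
      ∏ p ∈ T, h p ≤ ε * ∏ p ∈ SQ Q w, (1 + h p) := by
    refine hbad.trans ?_
    calc Real.exp (-S) * ∏ p ∈ SQ Q w, (1 + h p * (p : ℝ) ^ a)
        ≤ Real.exp (-S) * (Real.exp K * ∏ p ∈ SQ Q w, (1 + h p)) := by gcongr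
      _ = (Real.exp (-S) * Real.exp K) * ∏ p ∈ SQ Q w, (1 + h p) := by ring
      _ ≤ ε * ∏ p ∈ SQ Q w, (1 + h p) := by gcongr
  have hsplit := Finset.sum_filter_add_sum_filter_not (SQ Q w).powerset
    (fun T => ((∏ p ∈ T, p : ℕ) : ℝ) ≤ w ^ S) (fun T => ∏ p ∈ T, h p)
  have hfin := sum_pow_le hQ w (w ^ S)
  have hgoal : (1 - ε) * ∏ p ∈ SQ Q w, (1 + h p) ≤
      ∑ T ∈ (SQ Q w).powerset.filter (fun T => ((∏ p ∈ T, p : ℕ) : ℝ) ≤ w ^ S), ∏ p ∈ T, h p := by
    rw [← hfull] at hsplit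
    linarith
  exact hgoal.trans hfin

end Pool.Agent.H95R2.TG
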