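import Mathlib
import Pool.Agent.H95R2.TG.Defs

/-! Task E3 (JLOW), project TG, helper305: adaptation of the file of project TI by helper663. -/

set_option autoImplicit false

open Finset Filter

namespace Pool.Agent.H95R2.TG

open Pool.Agent.H95R2.TI (VM AP DD FS fS cA Lg hk VML ROU II1 II2 LIP TOPN)
open scoped Classical

namespace JLOW_

/-- rough numbers -/
noncomputable def RS (w T : ℝ) : Finset ℕ :=
  (Icc 1 ⌊T⌋₊).filter (fun l : ℕ => ∀ p ∈ AP w, ¬ p ∣ l)

/-- the sum over rough numbers -/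
noncomputable def BB (w T : ℝ) : ℝ := ∑ l ∈ RS w T, (l.divisors.card : ℝ) / l

theorem mem_AP {w : ℝ} {p : ℕ} : p ∈ AP w ↔ p.Prime ∧ (p : ℝ) < w := by
  unfold AP
  rw [mem_filter, mem_range, Nat.lt_ceil]
  tauto

theorem mem_SQ {N : ℕ} {w : ℝ} {p : ℕ} : p ∈ SQ N w ↔ p.Prime ∧ ¬ p ∣ N ∧ (p : ℝ) < w := by
  unfold SQ
  rw [mem_filter, mem_range, Nat.lt_ceil]
  tauto

theorem five_le {N p : ℕ} (hN : 12 ∣ N) (hp : p.Prime) (h : ¬ p ∣ N) : 5 ≤ p := by
  by_contra hcon
  have h2 := hp.two_le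
  have h12 : ¬ p ∣ 12 := fun h' => h (h'.trans hN)
  interval_cases p
  · exact h12 (by norm_num)
  · exact h12 (by norm_num)
  · exact absurd hp (by norm_num)

theorem rough_prime {w T : ℝ} {l : ℕ} (hl : l ∈ RS w T) {p : ℕ} (hp : p.Prime) (hpl : p ∣ l) :
    w ≤ (p : ℝ) := by
  by_contra h
  exact (mem_filter.1 hl).2 p (mem_AP.2 ⟨hp, not_le.1 h⟩) hpl

theorem BB_nonneg (w T : ℝ) : 0 ≤ BB w T :=
  sum_nonneg fun _ _ => by positivity

theorem card_mul (d m : ℕ) : ((d * m).divisors.card : ℝ) ≤ d.divisors.card * m.divisors.card := by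
  rw [Nat.divisors_mul]
  exact_mod_cast Finset.card_mul_le

theorem sum_dvd_le (w T : ℝ) {d : ℕ} (hd : 0 < d) :
    ∑ l ∈ (RS w T).filter (fun l => d ∣ l), (l.divisors.card : ℝ) / l ≤
      (d.divisors.card : ℝ) / d * BB w T := by
  have hd' : (0 : ℝ) < d := by exact_mod_cast hd
  calc ∑ l ∈ (RS w T).filter (fun l => d ∣ l), (l.divisors.card : ℝ) / l
      ≤ ∑ l ∈ (RS w T).filter (fun l => d ∣ l),
          (d.divisors.card : ℝ) / d * (((l / d).divisors.card : ℝ) / ((l / d : ℕ) : ℝ)) := by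
        apply sum_le_sum
        intro l hl
        obtain ⟨m, rfl⟩ := (mem_filter.1 hl).2
        have hl1 := (mem_Icc.1 (mem_filter.1 (mem_filter.1 hl).1).1).1
        have hm : 0 < m := Nat.pos_of_ne_zero (by rintro rfl; simp at hl1)
        have hm' : (0 : ℝ) < m := by exact_mod_cast hm
        rw [Nat.mul_div_cancel_left m hd, div_mul_div_comm, Nat.cast_mul]
        exact div_le_div_of_nonneg_right (card_mul d m) (by positivity)
    _ = ∑ m ∈ ((RS w T).filter (fun l => d ∣ l)).image (fun l => l / d),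
          (d.divisors.card : ℝ) / d * ((m.divisors.card : ℝ) / (m : ℝ)) := by
        rw [sum_image]
        intro a ha b hb hab
        have h1 := Nat.div_mul_cancel (mem_filter.1 ha).2
        have h2 := Nat.div_mul_cancel (mem_filter.1 hb).2
        simp only at hab
        rw [← h1, ← h2, hab]
    _ ≤ ∑ m ∈ RS w T, (d.divisors.card : ℝ) / d * ((m.divisors.card : ℝ) / (m : ℝ)) := by
        apply sum_le_sum_of_subset_of_nonneg
        · intro m hm
          obtain ⟨l, hl, rfl⟩ := mem_image.1 hm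
          obtain ⟨m, rfl⟩ := (mem_filter.1 hl).2
          have hl0 := (mem_filter.1 hl).1
          have hl1 := mem_Icc.1 (mem_filter.1 hl0).1
          have hm : 0 < m := Nat.pos_of_ne_zero (by rintro rfl; simp at hl1)
          simp only [Nat.mul_div_cancel_left m hd]
          refine mem_filter.2 ⟨mem_Icc.2 ⟨hm, le_trans (Nat.le_mul_of_pos_left m hd) hl1.2⟩, ?_⟩
          intro p hp hpm
          exact (mem_filter.1 hl0).2 p hp (hpm.mul_left d)
        · intros; positivity
    _ = _ := by rw [BB, mul_sum]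

theorem sum_union_le (w T : ℝ) (P : Finset ℕ) (Q : ℕ → Prop) [DecidablePred Q] (e : ℕ → ℕ) (he : ∀ p ∈ P, 0 < e p)
    (hQ : ∀ l ∈ RS w T, Q l → ∃ p ∈ P, e p ∣ l) :
    ∑ l ∈ (RS w T).filter Q, (l.divisors.card : ℝ) / l ≤
      (∑ p ∈ P, ((e p).divisors.card : ℝ) / (e p : ℕ)) * BB w T := by
  calc ∑ l ∈ (RS w T).filter Q, (l.divisors.card : ℝ) / l
      ≤ ∑ l ∈ RS w T, ∑ p ∈ P, (if e p ∣ l then (l.divisors.card : ℝ) / l else 0) := by
        rw [sum_filter]
        apply sum_le_sum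
        intro l hl
        split_ifs with h
        · obtain ⟨p, hp, hpl⟩ := hQ l hl h
          refine le_trans ?_ (single_le_sum (f := fun p => if e p ∣ l then
            (l.divisors.card : ℝ) / l else 0) (fun q _ => by split_ifs <;> positivity) hp)
          simp [hpl]
        · exact sum_nonneg fun q _ => by split_ifs <;> positivity
    _ = ∑ p ∈ P, ∑ l ∈ (RS w T).filter (fun l => e p ∣ l), (l.divisors.card : ℝ) / l := by
        rw [sum_comm]
        simp only [sum_filter]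
    _ ≤ ∑ p ∈ P, ((e p).divisors.card : ℝ) / (e p : ℕ) * BB w T :=
        sum_le_sum fun p hp => sum_dvd_le w T (he p hp)
    _ = _ := by rw [sum_mul]

theorem nonsq (w T : ℝ) (hw : 1 ≤ w) :
    ∑ l ∈ (RS w T).filter (fun l => ¬ Squarefree l), (l.divisors.card : ℝ) / l ≤
      6 / w * BB w T := by
  set k : ℕ := ⌈w⌉₊ - 1 with hk
  have hc1 : 1 ≤ ⌈w⌉₊ := Nat.one_le_ceil_iff.2 (by linarith)
  have hk1 : ((k + 1 : ℕ) : ℝ) = ⌈w⌉₊ := by
    rw [hk]; congr 1; omega
  have hwk : w ≤ (k : ℝ) + 1 := by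
    have := Nat.le_ceil w
    push_cast at hk1
    rw [hk1]; exact this
  refine le_trans (sum_union_le w T ((Ioo k (⌊T⌋₊ + 1)).filter Nat.Prime) _ (fun p => p ^ 2)
    (fun p hp => pow_pos (mem_filter.1 hp).2.pos 2) ?_) ?_
  · intro l hl hs
    rw [Nat.squarefree_iff_prime_squarefree] at hs
    push Not at hs
    obtain ⟨p, hp, hpl⟩ := hs
    have hpl' : p ∣ l := dvd_trans (dvd_mul_right p p) hpl
    have h1 := rough_prime hl hp hpl'
    have h2 := mem_Icc.1 (mem_filter.1 hl).1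
    refine ⟨p, mem_filter.2 ⟨mem_Ioo.2 ⟨?_, ?_⟩, hp⟩, by rw [pow_two]; exact hpl⟩
    · have : ⌈w⌉₊ ≤ p := Nat.ceil_le.2 h1
      omega
    · have := Nat.le_of_dvd h2.1 hpl'
      omega
  · apply mul_le_mul_of_nonneg_right _ (BB_nonneg w T)
    calc ∑ p ∈ (Ioo k (⌊T⌋₊ + 1)).filter Nat.Prime, (((p ^ 2).divisors.card : ℝ)) / ((p ^ 2 : ℕ) : ℝ)
        = ∑ p ∈ (Ioo k (⌊T⌋₊ + 1)).filter Nat.Prime, 3 * (((p : ℝ) ^ 2)⁻¹) := by
          apply sum_congr rfl
          intro p hp
          rw [Nat.divisors_prime_pow (mem_filter.1 hp).2, card_map, card_range]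
          push_cast
          ring
      _ ≤ ∑ p ∈ Ioo k (⌊T⌋₊ + 1), 3 * (((p : ℝ) ^ 2)⁻¹) :=
          sum_le_sum_of_subset_of_nonneg (filter_subset _ _) fun _ _ _ => by positivity
      _ = 3 * ∑ p ∈ Ioo k (⌊T⌋₊ + 1), (((p : ℝ) ^ 2)⁻¹) := by rw [mul_sum]
      _ ≤ 3 * (2 / ((k : ℝ) + 1)) := by
          apply mul_le_mul_of_nonneg_left (sum_Ioo_inv_sq_le k (⌊T⌋₊ + 1)) (by norm_num)
      _ ≤ 6 / w := by
          have : 2 / ((k : ℝ) + 1) ≤ 2 / w :=
            div_le_div_of_nonneg_left (by norm_num) (by linarith) hwk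
          calc 3 * (2 / ((k : ℝ) + 1)) ≤ 3 * (2 / w) := by linarith
            _ = 6 / w := by ring

theorem noncop (w T : ℝ) (hw : 1 ≤ w) {k : ℕ} (hk : 0 < k)
    (hkw : ∀ p : ℕ, p.Prime → p ∣ k → w ≤ (p : ℝ)) :
    ∑ l ∈ (RS w T).filter (fun l => ¬ Nat.Coprime l k), (l.divisors.card : ℝ) / l ≤
      (k.primeFactors.card * (2 / w)) * BB w T := by
  refine le_trans (sum_union_le w T k.primeFactors _ (fun p => p)
    (fun p hp => (Nat.prime_of_mem_primeFactors hp).pos) ?_) ?_
  · intro l hl hs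
    obtain ⟨p, hp, h1, h2⟩ := Nat.Prime.not_coprime_iff_dvd.1 hs
    exact ⟨p, Nat.mem_primeFactors.2 ⟨hp, h2, hk.ne'⟩, h1⟩
  · apply mul_le_mul_of_nonneg_right _ (BB_nonneg w T)
    rw [← nsmul_eq_mul]
    apply sum_le_card_nsmul
    intro p hp
    have hp' := Nat.mem_primeFactors.1 hp
    rw [hp'.1.divisors, card_pair hp'.1.one_lt.ne]
    push_cast
    exact div_le_div_of_nonneg_left (by norm_num) (by linarith) (hkw p hp'.1 hp'.2.1)

/-- squarefree rough numbers coprime to `k` -/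
noncomputable def L2 (w T : ℝ) (k : ℕ) : Finset ℕ :=
  (RS w T).filter (fun l => Squarefree l ∧ Nat.Coprime l k)

theorem L2_sum (w T : ℝ) (hw : 1 ≤ w) {k : ℕ} (hk : 0 < k)
    (hkw : ∀ p : ℕ, p.Prime → p ∣ k → w ≤ (p : ℝ)) :
    (1 - (6 / w + k.primeFactors.card * (2 / w))) * BB w T ≤
      ∑ l ∈ L2 w T k, (l.divisors.card : ℝ) / l := by
  have h1 := nonsq w T hw
  have h2 := noncop w T hw hk hkw
  have h3 : BB w T ≤ ∑ l ∈ L2 w T k, (l.divisors.card : ℝ) / l +
      ∑ l ∈ (RS w T).filter (fun l => ¬ Squarefree l), (l.divisors.card : ℝ) / l +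
      ∑ l ∈ (RS w T).filter (fun l => ¬ Nat.Coprime l k), (l.divisors.card : ℝ) / l := by
    unfold BB L2
    rw [sum_filter, sum_filter, sum_filter, ← sum_add_distrib, ← sum_add_distrib]
    apply sum_le_sum
    intro l _
    have h0 : 0 ≤ (l.divisors.card : ℝ) / l := by positivity
    by_cases ha : Squarefree l <;> by_cases hb : l.gcd k = 1 <;>
      simp [ha, hb, h0, Nat.coprime_iff_gcd_eq_one]
  nlinarith

theorem JJ_ge {N : ℕ} (hN0 : 0 < N) (hN : 12 ∣ N) {w R T W : ℝ} (hwN : (N : ℝ) < w) (hw : 3 < w)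
    {k : ℕ} (_k0 : 0 < k)
    (hkw : ∀ p : ℕ, p.Prime → p ∣ k → w ≤ (p : ℝ)) (hT : 0 ≤ T) (hW : 0 ≤ W) (hTW : W * T ≤ R) :
    (∑ l ∈ (∏ p ∈ SQ N w, p).divisors.filter (fun l : ℕ => (l : ℝ) ≤ W),
      ∏ p ∈ l.primeFactors, (2 / ((p : ℝ) - 2))) * ∑ l ∈ L2 w T k, (l.divisors.card : ℝ) / l ≤
      JJ N k R := by
  set P : ℕ := ∏ p ∈ SQ N w, p with hP
  have hP0 : P ≠ 0 := prod_ne_zero_iff.2 fun p hp => (mem_SQ.1 hp).1.ne_zero
  have hPp' : ∀ p : ℕ, p.Prime → p ∣ P → ¬ p ∣ N ∧ (p : ℝ) < w := by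
    intro p hp hpP
    obtain ⟨q, hq, hpq⟩ := (hp.prime.dvd_finsetProd_iff _).1 hpP
    have hq' := mem_SQ.1 hq
    have := (Nat.prime_dvd_prime_iff_eq hp hq'.1).1 hpq
    subst this
    exact hq'.2
  have hPp : ∀ p : ℕ, p.Prime → p ∣ P → 5 ≤ p ∧ (p : ℝ) < w := fun p hp hpP =>
    ⟨five_le hN hp (hPp' p hp hpP).1, (hPp' p hp hpP).2⟩
  have hPs : Squarefree P := by
    rw [hP]
    apply Finset.squarefree_prod_of_pairwise_isCoprime
    · intro p hp q hq hpq
      exact Nat.coprime_iff_isRelPrime.1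
        ((Nat.coprime_primes (mem_SQ.1 hp).1 (mem_SQ.1 hq).1).2 hpq)
    · intro p hp
      exact (mem_SQ.1 hp).1.prime.squarefree
  have hcopP : ∀ l ∈ L2 w T k, Nat.Coprime l P := by
    intro l hl
    rw [Nat.coprime_iff_gcd_eq_one]
    by_contra h
    obtain ⟨p, hp, hpd⟩ := Nat.exists_prime_and_dvd h
    have h1 := rough_prime (mem_filter.1 hl).1 hp (hpd.trans (Nat.gcd_dvd_left _ _))
    have h2 := (hPp p hp (hpd.trans (Nat.gcd_dvd_right _ _))).2
    linarith
  have h2le : ∀ l ∈ L2 w T k, (l.divisors.card : ℝ) / l ≤ ∏ p ∈ l.primeFactors, hk k p := by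
    intro l hl
    have hl' := (mem_filter.1 hl).2
    have hl0 : l ≠ 0 := hl'.1.ne_zero
    have e1 : (l.divisors.card : ℝ) = ∏ p ∈ l.primeFactors, (2 : ℝ) := by
      rw [Nat.card_divisors hl0]
      push_cast
      apply prod_congr rfl
      intro p hp
      have hp' := Nat.mem_primeFactors.1 hp
      have : l.factorization p = 1 := by
        have h1 := (Nat.squarefree_iff_factorization_le_one hl0).1 hl'.1 p
        have h2 := (hp'.1.dvd_iff_one_le_factorization hl0).1 hp'.2.1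
        omega
      rw [this]; norm_num
    have e2 : (l : ℝ) = ∏ p ∈ l.primeFactors, (p : ℝ) := by
      rw [← Nat.cast_prod, Nat.prod_primeFactors_of_squarefree hl'.1]
    rw [e1, e2, ← prod_div_distrib]
    apply Finset.prod_le_prod
    · intro p _; positivity
    · intro p hp
      have hp' := Nat.mem_primeFactors.1 hp
      have h3 := rough_prime (mem_filter.1 hl).1 hp'.1 hp'.2.1
      have h4 : ¬ p ∣ k := fun h => by
        have := Nat.dvd_gcd hp'.2.1 h
        rw [Nat.coprime_iff_gcd_eq_one.1 hl'.2] at this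
        exact hp'.1.one_lt.ne' (Nat.dvd_one.1 this)
      unfold TI.hk
      rw [if_neg h4]
      exact div_le_div_of_nonneg_left (by norm_num) (by linarith) (by linarith)
  have h1eq : ∀ l ∈ P.divisors.filter (fun l : ℕ => (l : ℝ) ≤ W),
      ∏ p ∈ l.primeFactors, (2 / ((p : ℝ) - 2)) = ∏ p ∈ l.primeFactors, hk k p := by
    intro l hl
    apply prod_congr rfl
    intro p hp
    have hp' := Nat.mem_primeFactors.1 hp
    have hpP := hPp p hp'.1 (hp'.2.1.trans (Nat.mem_divisors.1 (mem_filter.1 hl).1).1)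
    have h4 : ¬ p ∣ k := fun h => by
      have := hkw p hp'.1 h
      linarith [hpP.2]
    unfold TI.hk
    rw [if_neg h4]
  have hk_nonneg : ∀ l : ℕ, (∀ p ∈ l.primeFactors, 3 ≤ p) → 0 ≤ ∏ p ∈ l.primeFactors, hk k p := by
    intro l hl
    apply prod_nonneg
    intro p hp
    have : (3 : ℝ) ≤ p := by exact_mod_cast hl p hp
    unfold TI.hk
    split_ifs
    · exact div_nonneg (by norm_num) (by linarith)
    · exact div_nonneg (by norm_num) (by linarith)
  rw [sum_congr rfl h1eq]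
  calc (∑ l ∈ P.divisors.filter (fun l : ℕ => (l : ℝ) ≤ W), ∏ p ∈ l.primeFactors, hk k p) *
        ∑ l ∈ L2 w T k, (l.divisors.card : ℝ) / l
      ≤ (∑ l ∈ P.divisors.filter (fun l : ℕ => (l : ℝ) ≤ W), ∏ p ∈ l.primeFactors, hk k p) *
        ∑ l ∈ L2 w T k, ∏ p ∈ l.primeFactors, hk k p := by
        apply mul_le_mul_of_nonneg_left (sum_le_sum h2le)
        apply sum_nonneg
        intro l hl
        apply hk_nonneg
        intro p hp
        have hp' := Nat.mem_primeFactors.1 hp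
        have := (hPp p hp'.1 (hp'.2.1.trans (Nat.mem_divisors.1 (mem_filter.1 hl).1).1)).1
        omega
    _ = ∑ z ∈ (P.divisors.filter (fun l : ℕ => (l : ℝ) ≤ W)) ×ˢ L2 w T k,
          ∏ p ∈ (z.1 * z.2).primeFactors, hk k p := by
        rw [sum_mul_sum, ← sum_product']
        apply sum_congr rfl
        intro z hz
        have hz' := mem_product.1 hz
        have hc : Nat.Coprime z.1 z.2 :=
          ((hcopP z.2 hz'.2).coprime_dvd_right
            (Nat.mem_divisors.1 (mem_filter.1 hz'.1).1).1).symm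
        rw [hc.primeFactors_mul, prod_union hc.disjoint_primeFactors]
    _ = ∑ l ∈ ((P.divisors.filter (fun l : ℕ => (l : ℝ) ≤ W)) ×ˢ L2 w T k).image
          (fun z => z.1 * z.2), ∏ p ∈ l.primeFactors, hk k p := by
        rw [sum_image]
        intro a ha b hb hab
        have ha' := mem_product.1 ha
        have hb' := mem_product.1 hb
        have ga : Nat.gcd (a.1 * a.2) P = a.1 := by
          rw [Nat.Coprime.gcd_mul_right_cancel a.1 (hcopP a.2 ha'.2)]
          exact Nat.gcd_eq_left (Nat.mem_divisors.1 (mem_filter.1 ha'.1).1).1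
        have gb : Nat.gcd (b.1 * b.2) P = b.1 := by
          rw [Nat.Coprime.gcd_mul_right_cancel b.1 (hcopP b.2 hb'.2)]
          exact Nat.gcd_eq_left (Nat.mem_divisors.1 (mem_filter.1 hb'.1).1).1
        simp only at hab
        have h1 : a.1 = b.1 := by rw [← ga, ← gb, hab]
        have hpos : 0 < b.1 := Nat.pos_of_dvd_of_pos
          (Nat.mem_divisors.1 (mem_filter.1 hb'.1).1).1 (Nat.pos_of_ne_zero hP0)
        have h2 : a.2 = b.2 := by
          rw [h1] at hab
          exact Nat.eq_of_mul_eq_mul_left hpos hab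
        exact Prod.ext h1 h2
    _ ≤ JJ N k R := by
        unfold JJ
        apply sum_le_sum_of_subset_of_nonneg
        · intro l hl
          obtain ⟨z, hz, rfl⟩ := mem_image.1 hl
          have hz' := mem_product.1 hz
          have hz1 := mem_filter.1 hz'.1
          have hz2 := mem_filter.1 hz'.2
          have hd1 := (Nat.mem_divisors.1 hz1.1).1
          have hc : Nat.Coprime z.1 z.2 := ((hcopP z.2 hz'.2).coprime_dvd_right hd1).symm
          have h1pos : 0 < z.1 := Nat.pos_of_dvd_of_pos hd1 (Nat.pos_of_ne_zero hP0)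
          have hI := mem_Icc.1 (mem_filter.1 hz2.1).1
          refine mem_filter.2 ⟨mem_Icc.2 ⟨Nat.mul_pos h1pos hI.1, ?_⟩, ?_, ?_⟩
          · apply Nat.le_floor
            push_cast
            have hT2 : (z.2 : ℝ) ≤ T := le_trans (by exact_mod_cast hI.2) (Nat.floor_le hT)
            exact le_trans (mul_le_mul hz1.2 hT2 (by positivity) hW) hTW
          · exact (Nat.squarefree_mul hc).2 ⟨hPs.squarefree_of_dvd hd1, hz2.2.1⟩
          · apply Nat.Coprime.mul_left
            · rw [Nat.coprime_iff_gcd_eq_one]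
              by_contra h
              obtain ⟨p, hp, hpd⟩ := Nat.exists_prime_and_dvd h
              exact (hPp' p hp ((hpd.trans (Nat.gcd_dvd_left _ _)).trans hd1)).1
                (hpd.trans (Nat.gcd_dvd_right _ _))
            · rw [Nat.coprime_iff_gcd_eq_one]
              by_contra h
              obtain ⟨p, hp, hpd⟩ := Nat.exists_prime_and_dvd h
              have h5 := rough_prime hz2.1 hp (hpd.trans (Nat.gcd_dvd_left _ _))
              have h6 := hpd.trans (Nat.gcd_dvd_right _ _)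
              have h7 := Nat.le_of_dvd hN0 h6
              have h8 : (p : ℝ) ≤ N := by exact_mod_cast h7
              linarith
        · intro l hl _
          apply hk_nonneg
          intro p hp
          have hp' := Nat.mem_primeFactors.1 hp
          have h2 := (mem_filter.1 hl).2.2
          by_contra h
          have h3 : p = 2 := by have := hp'.1.two_le; omega
          subst h3
          have := Nat.dvd_gcd hp'.2.1 ((by norm_num : 2 ∣ 12).trans hN)
          rw [Nat.coprime_iff_gcd_eq_one.1 h2] at this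
          omega

theorem card_le {x c : ℝ} (hx : 1 < x) (hc : 0 < c) {k : ℕ} (hk : 0 < k) (hkx : (k : ℝ) ≤ x)
    (hkw : ∀ p : ℕ, p.Prime → p ∣ k → x ^ c ≤ (p : ℝ)) : (k.primeFactors.card : ℝ) ≤ 1 / c := by
  have h1 : (x ^ c) ^ k.primeFactors.card ≤ x := by
    calc (x ^ c) ^ k.primeFactors.card = ∏ _p ∈ k.primeFactors, (x ^ c) := by
          rw [prod_const]
      _ ≤ ∏ p ∈ k.primeFactors, (p : ℝ) :=
          Finset.prod_le_prod (fun _ _ => by positivity) fun p hp =>
            hkw p (Nat.prime_of_mem_primeFactors hp) (Nat.dvd_of_mem_primeFactors hp)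
      _ ≤ k := by
          rw [← Nat.cast_prod]
          exact_mod_cast Nat.le_of_dvd hk (Nat.prod_primeFactors_dvd k)
      _ ≤ x := hkx
  rw [← Real.rpow_natCast, ← Real.rpow_mul (by linarith)] at h1
  have h2 : c * (k.primeFactors.card : ℝ) ≤ 1 := by
    by_contra h
    push Not at h
    have := Real.rpow_lt_rpow_of_exponent_lt hx h
    rw [Real.rpow_one] at this
    linarith
  rw [le_div_iff₀ hc]
  linarith

end JLOW_

open JLOW_ in
theorem jlow (h1 : ROU) (h2 : RNK) : JLOW := by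
  intro N hN0 hN ε0 hε0
  set ε : ℝ := min ε0 (1 / 2) with hε
  have hεpos : 0 < ε := lt_min hε0 (by norm_num)
  have hε1 : ε ≤ 1 / 2 := min_le_right _ _
  have hεε : ε ≤ ε0 := min_le_left _ _
  set δ : ℝ := ε / 4 with hδ
  have hδpos : 0 < δ := by positivity
  have hδ1 : δ ≤ 1 / 8 := by linarith
  obtain ⟨S, hS, hSw⟩ := h2 N hN0 hN δ hδpos
  refine ⟨δ / (5 * S), by positivity, fun c hc hcS => ?_⟩
  have hcS' : c * S ≤ δ / 5 := by
    rw [le_div_iff₀ (by positivity)] at hcS
    linarith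
  have ht := tendsto_rpow_atTop hc
  filter_upwards [ht.eventually hSw, ht.eventually (eventually_gt_atTop (max 3 (N : ℝ))),
    ht.eventually (eventually_ge_atTop ((6 + 2 / c) / δ)), eventually_gt_atTop (1 : ℝ)]
    with x hx1 hx2' hx3 hx4 k R hk hkx hkw hR1 hR2
  have hx2 : 3 < x ^ c := lt_of_le_of_lt (le_max_left _ _) hx2'
  have hxN : (N : ℝ) < x ^ c := lt_of_le_of_lt (le_max_right _ _) hx2'
  set w : ℝ := x ^ c with hw
  have hwpos : 0 < w := by linarith
  have hRpos : 0 < R := lt_of_lt_of_le (by positivity) hR1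
  have hwS : 0 < w ^ S := by positivity
  set T : ℝ := R / w ^ S with hT
  have hlogx : 0 < Real.log x := Real.log_pos hx4
  have hlogR : 0.2 * Real.log x ≤ Real.log R := by
    rw [← Real.log_rpow (by linarith)]
    exact Real.log_le_log (by positivity) hR1
  have hlogT : Real.log T = Real.log R - c * S * Real.log x := by
    rw [hT, Real.log_div hRpos.ne' hwS.ne', Real.log_rpow hwpos, hw, Real.log_rpow (by linarith)]
    ring
  have hlogT2 : (1 - δ) * Real.log R ≤ Real.log T := by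
    rw [hlogT]
    have : c * S * Real.log x ≤ δ / 5 * Real.log x :=
      mul_le_mul_of_nonneg_right hcS' hlogx.le
    nlinarith
  have hlogRpos : 0 < Real.log R := by nlinarith
  have hTpos : 0 < T := by positivity
  have hT1 : 1 ≤ T := by
    by_contra h
    push Not at h
    have := Real.log_neg hTpos h
    nlinarith
  have hA := h1 T w hT1 (by linarith)
  have hBB : BB w T = ∑ l ∈ (Icc 1 ⌊T⌋₊).filter (fun l : ℕ => ∀ p ∈ AP w, ¬ p ∣ l),
      (l.divisors.card : ℝ) / l := rfl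
  rw [← hBB] at hA
  have hL := L2_sum w T (by linarith) hk hkw
  have hcard := card_le hx4 hc hk hkx hkw
  have herr : 6 / w + k.primeFactors.card * (2 / w) ≤ δ := by
    have e1 : 6 / w + k.primeFactors.card * (2 / w) ≤ (6 + 2 / c) / w := by
      have : (k.primeFactors.card : ℝ) * (2 / w) ≤ 1 / c * (2 / w) :=
        mul_le_mul_of_nonneg_right hcard (by positivity)
      calc 6 / w + k.primeFactors.card * (2 / w) ≤ 6 / w + 1 / c * (2 / w) := by linarith
        _ = (6 + 2 / c) / w := by field_simp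
    refine le_trans e1 ?_
    rw [div_le_iff₀ hwpos]
    rw [div_le_iff₀ hδpos] at hx3
    linarith
  have hJ := JJ_ge hN0 hN hxN hx2 hk hkw hTpos.le hwS.le (R := R) (by rw [hT]; field_simp; rfl)
  refine le_trans ?_ hJ
  set G : ℝ := ∏ p ∈ SQ N w, (1 + 2 / ((p : ℝ) - 2)) with hG
  have hG0 : 0 ≤ G := by
    apply prod_nonneg
    intro p hp
    have : (5 : ℝ) ≤ p := by exact_mod_cast five_le hN (mem_SQ.1 hp).1 (mem_SQ.1 hp).2.1
    have h3 : (0 : ℝ) ≤ 2 / ((p : ℝ) - 2) := div_nonneg (by norm_num) (by linarith)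
    linarith
  have hLow : (1 - δ) * ((1 - δ) ^ 2 * (Real.log R ^ 2 / 2 * VM w ^ 2)) ≤
      ∑ l ∈ L2 w T k, (l.divisors.card : ℝ) / l := by
    have hb0 := BB_nonneg w T
    have e1 : (1 - δ) ^ 2 * (Real.log R ^ 2 / 2 * VM w ^ 2) ≤ BB w T := by
      refine le_trans ?_ hA
      have h3 : ((1 - δ) * Real.log R) ^ 2 ≤ Real.log T ^ 2 :=
        pow_le_pow_left₀ (mul_nonneg (by linarith) hlogRpos.le) hlogT2 2
      have h4 : 0 ≤ VM w ^ 2 := by positivity
      nlinarith
    calc (1 - δ) * ((1 - δ) ^ 2 * (Real.log R ^ 2 / 2 * VM w ^ 2)) ≤ (1 - δ) * BB w T :=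
          mul_le_mul_of_nonneg_left e1 (by linarith)
      _ ≤ (1 - (6 / w + k.primeFactors.card * (2 / w))) * BB w T :=
          mul_le_mul_of_nonneg_right (by linarith) hb0
      _ ≤ _ := hL
  set X : ℝ := Real.log R ^ 2 / 2 * VM w ^ 2 with hX
  have hX0 : 0 ≤ X := by positivity
  have hd4 : 1 - ε0 ≤ (1 - δ) * ((1 - δ) * (1 - δ) ^ 2) := by
    have : 1 - ε ≤ (1 - δ) * ((1 - δ) * (1 - δ) ^ 2) := by
      have e : ε = 4 * δ := by rw [hδ]; ring
      rw [e]
      nlinarith [sq_nonneg δ, sq_nonneg (δ - 1), mul_nonneg hδpos.le hδpos.le,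
        sq_nonneg (δ * (δ - 2)), mul_pos hδpos hδpos]
    linarith
  calc (1 - ε0) * G * (Real.log R ^ 2 / 2) * VM w ^ 2 = (1 - ε0) * (G * X) := by rw [hX]; ring
    _ ≤ ((1 - δ) * ((1 - δ) * (1 - δ) ^ 2)) * (G * X) :=
        mul_le_mul_of_nonneg_right hd4 (mul_nonneg hG0 hX0)
    _ = ((1 - δ) * G) * ((1 - δ) * ((1 - δ) ^ 2 * X)) := by ring
    _ ≤ _ := by
        apply mul_le_mul hx1 hLow
        · exact mul_nonneg (by linarith) (mul_nonneg (by positivity) hX0)
        · exact le_trans (mul_nonneg (by linarith) hG0) hx1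

end Pool.Agent.H95R2.TG
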