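import Mathlib
import Pool.Agent.H95R2.TG.Defs
import Pool.Agent.Helper112.PairSieve

set_option autoImplicit false

open Finset Filter

namespace Pool.Agent.H95R2.TG

open Pool.Agent.H95R2.TI (VM AP DD FS fS cA Lg hk VML ROU II1 II2 LIP TOPN)
open scoped Classical

namespace E4

open Pool.Agent.Helper112.E456 (SieveAux.PR SieveAux.PR_squarefree SieveAux.prime_dvd_PR
  SieveAux.coprime_of_dvd_PR SieveAux.dvd_PR SieveAux.factor_count SieveAux.selberg_bound
  SieveAux.exists_class_one SieveAux.P_ne SieveAux.JJ_pos)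
open ArithmeticFunction BoundingSieve
open scoped ArithmeticFunction.zeta

/-! ### the density -/

noncomputable def If (k : ℕ) : ArithmeticFunction ℝ :=
  ⟨fun n => if n ≠ 0 ∧ Nat.Coprime n k then 1 else 0, by simp⟩

theorem If_apply (k n : ℕ) : If k n = if n ≠ 0 ∧ Nat.Coprime n k then 1 else 0 := rfl

theorem If_nonneg (k n : ℕ) : 0 ≤ If k n := by
  rw [If_apply]; split_ifs <;> norm_num

theorem If_le (k n : ℕ) : If k n ≤ 1 := by
  rw [If_apply]; split_ifs <;> norm_num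

theorem If_mult (k : ℕ) : (If k).IsMultiplicative := by
  constructor
  · simp [If_apply]
  · intro m n _
    rw [If_apply, If_apply, If_apply]
    have h0 : (m * n ≠ 0 ∧ Nat.Coprime (m * n) k) ↔
        (m ≠ 0 ∧ Nat.Coprime m k) ∧ (n ≠ 0 ∧ Nat.Coprime n k) := by
      rw [Nat.coprime_mul_iff_left, mul_ne_zero_iff]; tauto
    by_cases h1 : m ≠ 0 ∧ Nat.Coprime m k
    · by_cases h2 : n ≠ 0 ∧ Nat.Coprime n k
      · rw [if_pos h1, if_pos h2, if_pos (h0.2 ⟨h1, h2⟩)]; norm_num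
      · rw [if_pos h1, if_neg h2, if_neg (fun h => h2 (h0.1 h).2)]; norm_num
    · rw [if_neg h1, if_neg (fun h => h1 (h0.1 h).1)]; norm_num

noncomputable def iv : ArithmeticFunction ℝ := ⟨fun n => (n : ℝ)⁻¹, by simp⟩

theorem iv_apply (n : ℕ) : iv n = (n : ℝ)⁻¹ := rfl

theorem iv_mult : iv.IsMultiplicative := by
  constructor
  · simp [iv_apply]
  · intro m n _
    rw [iv_apply, iv_apply, iv_apply]
    push_cast
    rw [mul_inv]

noncomputable def nuk (k : ℕ) : ArithmeticFunction ℝ :=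
  (If k * (ζ : ArithmeticFunction ℝ)).pmul iv

theorem nuk_mult (k : ℕ) : (nuk k).IsMultiplicative :=
  ((If_mult k).mul isMultiplicative_zeta.natCast).pmul iv_mult

theorem nuk_apply (k n : ℕ) : nuk k n = (∑ e ∈ Nat.divisors n, If k e) * (n : ℝ)⁻¹ := by
  unfold nuk
  rw [pmul_apply, coe_mul_zeta_apply, iv_apply]

theorem nuk_prime (k : ℕ) {p : ℕ} (hp : p.Prime) :
    nuk k p = if p ∣ k then 1 / (p : ℝ) else 2 / (p : ℝ) := by
  rw [nuk_apply, hp.sum_divisors, If_apply, If_apply]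
  have h1 : (1 : ℕ) ≠ 0 ∧ Nat.Coprime 1 k := ⟨one_ne_zero, Nat.coprime_one_left k⟩
  rw [if_pos h1]
  by_cases h : p ∣ k
  · have h2 : ¬ (p ≠ 0 ∧ Nat.Coprime p k) := by
      rintro ⟨_, h3⟩
      exact (Nat.Prime.coprime_iff_not_dvd hp).1 h3 h
    rw [if_neg h2, if_pos h]; ring
  · rw [if_pos ⟨hp.ne_zero, (Nat.Prime.coprime_iff_not_dvd hp).2 h⟩, if_neg h]; ring

theorem five_le {R Q p : ℕ} (hQ : 12 ∣ Q) (hp : p.Prime) (h : p ∣ SieveAux.PR R Q) : 5 ≤ p := by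
  have h1 := ((SieveAux.prime_dvd_PR hp).1 h).2
  by_contra h2
  have h3 : p ≤ 4 := by omega
  have h4 := hp.two_le
  apply h1
  interval_cases p
  · exact Dvd.dvd.trans (by norm_num) hQ
  · exact Dvd.dvd.trans (by norm_num) hQ
  · exact absurd hp (by norm_num)

/-! ### the sieve -/

noncomputable def TT' (D : Dat) (x : ℝ) (k : ℕ) : Finset ℕ :=
  (Icc 1 ⌊x⌋₊).filter (fun p : ℕ => (x / 2 < (p : ℝ) ∧ p ≡ D.p0 [MOD D.Q]) ∧ k ∣ nn D p)

def ff (D : Dat) (k p : ℕ) : ℕ := p * (nn D p / k)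

noncomputable def sv (D : Dat) (x : ℝ) (k R : ℕ) (hQ : 12 ∣ D.Q) (hx : 0 ≤ x) : BoundingSieve where
  support := (TT' D x k).image (ff D k)
  prodPrimes := SieveAux.PR R D.Q
  prodPrimes_squarefree := SieveAux.PR_squarefree R D.Q
  weights := fun m => (((TT' D x k).filter (fun p => ff D k p = m)).card : ℝ)
  weights_nonneg := fun _ => Nat.cast_nonneg _
  totalMass := x / (2 * D.Q * k)
  nu := nuk k
  nu_mult := nuk_mult k
  nu_pos_of_prime := by
    intro p hp _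
    rw [nuk_prime k hp]
    have : (0 : ℝ) < p := by exact_mod_cast hp.pos
    split_ifs <;> positivity
  nu_lt_one_of_prime := by
    intro p hp hd
    rw [nuk_prime k hp]
    have h3 := five_le hQ hp hd
    have h3' : (5 : ℝ) ≤ p := by exact_mod_cast h3
    split_ifs
    · rw [div_lt_one (by linarith)]
      linarith
    · rw [div_lt_one (by linarith)]
      linarith

theorem fiber (T : Finset ℕ) (f : ℕ → ℕ) (P : ℕ → Prop) [DecidablePred P] :
    ∑ m ∈ T.image f, (if P m then ((T.filter (fun p => f p = m)).card : ℝ) else 0) =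
      ((T.filter (fun p => P (f p))).card : ℝ) := by
  rw [Finset.card_filter]
  push_cast
  rw [← Finset.sum_fiberwise_of_maps_to (s := T) (t := T.image f) (g := f)
    (fun i hi => Finset.mem_image_of_mem f hi)]
  refine Finset.sum_congr rfl fun m _ => ?_
  rw [Finset.card_eq_sum_ones]
  push_cast
  split_ifs with h
  · refine Finset.sum_congr rfl fun p hp => ?_
    rw [(Finset.mem_filter.1 hp).2, if_pos h]
  · symm
    refine Finset.sum_eq_zero fun p hp => ?_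
    rw [(Finset.mem_filter.1 hp).2, if_neg h]

/-! ### counting -/

theorem count_class (A B d c : ℕ) (hAB : A ≤ B) (hd : 0 < d) :
    |(((Ioc A B).filter (fun n => n ≡ c [MOD d])).card : ℝ) - ((B : ℝ) - A) / d| ≤ 1 := by
  have h1 := Nat.Ioc_filter_modEq_card A B hd c
  have hdq : (0 : ℚ) < d := by exact_mod_cast hd
  have hle : (⌊((A : ℚ) - (c : ℚ)) / (d : ℚ)⌋ : ℤ) ≤ ⌊((B : ℚ) - (c : ℚ)) / (d : ℚ)⌋ := by
    apply Int.floor_le_floor
    gcongr
  rw [max_eq_left (by linarith)] at h1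
  have h3 := Int.floor_le (((B : ℚ) - (c : ℚ)) / (d : ℚ))
  have h4 := Int.lt_floor_add_one (((B : ℚ) - (c : ℚ)) / (d : ℚ))
  have h5 := Int.floor_le (((A : ℚ) - (c : ℚ)) / (d : ℚ))
  have h6 := Int.lt_floor_add_one (((A : ℚ) - (c : ℚ)) / (d : ℚ))
  have h7 : ((B : ℚ) - (c : ℚ)) / (d : ℚ) - (((A : ℚ) - (c : ℚ)) / (d : ℚ)) = ((B : ℚ) - A) / d := by
    ring
  set x := ⌊((B : ℚ) - (c : ℚ)) / (d : ℚ)⌋
  set y := ⌊((A : ℚ) - (c : ℚ)) / (d : ℚ)⌋
  have h8 : (((((Ioc A B).filter (fun n => n ≡ c [MOD d])).card : ℤ) : ℚ)) = x - y := by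
    rw [h1]; push_cast; rfl
  have h9 : |(((((Ioc A B).filter (fun n => n ≡ c [MOD d])).card : ℤ) : ℚ)) - ((B : ℚ) - A) / d| ≤ 1 := by
    rw [h8, abs_le]
    constructor <;> linarith
  have h10 : ((|(((((Ioc A B).filter (fun n => n ≡ c [MOD d])).card : ℤ) : ℚ)) - ((B : ℚ) - A) / d| : ℚ) : ℝ) ≤ ((1 : ℚ) : ℝ) := by
    exact_mod_cast h9
  push_cast at h10
  exact h10

theorem count_x (x : ℝ) (hx : 0 ≤ x) (d c : ℕ) (hd : 0 < d) :
    |(((Ioc ⌊x / 2⌋₊ ⌊x⌋₊).filter (fun n => n ≡ c [MOD d])).card : ℝ) - x / (2 * d)| ≤ 2 := by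
  have hAB : ⌊x / 2⌋₊ ≤ ⌊x⌋₊ := Nat.floor_le_floor (by linarith)
  have h1 := count_class ⌊x / 2⌋₊ ⌊x⌋₊ d c hAB hd
  have hd1 : (1 : ℝ) ≤ d := by exact_mod_cast hd
  have h2 : |((⌊x⌋₊ : ℝ) - ⌊x / 2⌋₊) / d - x / (2 * d)| ≤ 1 := by
    have e : ((⌊x⌋₊ : ℝ) - ⌊x / 2⌋₊) / d - x / (2 * d) = (((⌊x⌋₊ : ℝ) - ⌊x / 2⌋₊) - x / 2) / d := by
      field_simp
    rw [e, abs_div, abs_of_pos (by linarith : (0 : ℝ) < d), div_le_one (by linarith)]
    have a1 := Nat.floor_le hx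
    have a2 := Nat.lt_floor_add_one x
    have a3 := Nat.floor_le (by linarith : 0 ≤ x / 2)
    have a4 := Nat.lt_floor_add_one (x / 2)
    rw [abs_le]
    constructor <;> linarith
  have h3 := abs_add_le ((((Ioc ⌊x / 2⌋₊ ⌊x⌋₊).filter (fun n => n ≡ c [MOD d])).card : ℝ)
    - ((⌊x⌋₊ : ℝ) - ⌊x / 2⌋₊) / d) (((⌊x⌋₊ : ℝ) - ⌊x / 2⌋₊) / d - x / (2 * d))
  rw [sub_add_sub_cancel] at h3
  linarith

theorem class_int {a N : ℕ} (b : ℤ) (hN : 0 < N) (ha : Nat.Coprime a N) :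
    ∃ c : ℕ, ∀ n : ℕ, (N : ℤ) ∣ (a : ℤ) * n + b ↔ n ≡ c [MOD N] := by
  obtain ⟨c, hc⟩ := SieveAux.exists_class_one (b := (b % N).toNat) hN ha
  refine ⟨c, fun n => ?_⟩
  rw [← hc n]
  have hN' : (N : ℤ) ≠ 0 := by exact_mod_cast hN.ne'
  have h1 : (((b % N).toNat : ℕ) : ℤ) = b % N := Int.toNat_of_nonneg (Int.emod_nonneg b hN')
  have h2 : (N ∣ a * n + (b % N).toNat) ↔ (N : ℤ) ∣ (a : ℤ) * n + b % N := by
    rw [← h1]; norm_cast
  rw [h2]
  have h3 : (N : ℤ) ∣ b - b % N := Int.dvd_self_sub_emod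
  constructor
  · intro h
    have := dvd_sub h h3
    have e : (a : ℤ) * n + b - (b - b % N) = (a : ℤ) * n + b % N := by ring
    rwa [e] at this
  · intro h
    have := dvd_add h h3
    have e : (a : ℤ) * n + b % N + (b - b % N) = (a : ℤ) * n + b := by ring
    rwa [e] at this

theorem coprime_of_primes {m n : ℕ} (h : ∀ r : ℕ, r.Prime → r ∣ m → ¬ r ∣ n) : Nat.Coprime m n := by
  rw [Nat.coprime_iff_gcd_eq_one]
  by_contra h0
  obtain ⟨p, hp, hpd⟩ := Nat.exists_prime_and_dvd h0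
  exact h p hp (hpd.trans (Nat.gcd_dvd_left _ _)) (hpd.trans (Nat.gcd_dvd_right _ _))

theorem not_dvd_of_coprime {m n r : ℕ} (h : Nat.Coprime m n) (hr : r.Prime) (h1 : r ∣ m) : ¬ r ∣ n := by
  intro h2
  have := Nat.dvd_gcd h1 h2
  rw [h] at this
  exact hr.one_lt.ne' (Nat.dvd_one.1 this)

/-- a prime not dividing `Q` cannot divide both `p` and `n(p)` -/
theorem excl {D : Dat} (hD : Good D) {p r : ℕ} (hp : p ≡ D.p0 [MOD D.Q]) (hb : D.b.natAbs < p)
    (hr : r.Prime) (hrQ : ¬ r ∣ D.Q) (h1 : r ∣ p) : ¬ r ∣ nn D p := by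
  intro h2
  obtain ⟨_, _, _, _, _, _, h7, h8⟩ := hD
  have h3 := (h8 p hp hb).1
  have h4 : (r : ℤ) ∣ D.b := by
    have e : D.b = (D.g : ℤ) * (nn D p : ℤ) - (D.a : ℤ) * p := by linarith
    rw [e]
    exact dvd_sub (Dvd.dvd.mul_left (by exact_mod_cast h2) _) (Dvd.dvd.mul_left (by exact_mod_cast h1) _)
  exact hrQ (h7 r hr (Dvd.dvd.mul_left h4 _))

/-- a finite set of residue classes -/
theorem one_class {D : Dat} (hD : Good D) (x : ℝ) (hx0 : 0 ≤ x) (hx : 2 * (D.b.natAbs : ℝ) ≤ x) {k : ℕ}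
    (hk : 0 < k) (hkQ : Nat.Coprime k D.Q) {e1 e2 : ℕ} (h12 : Nat.Coprime e1 e2) (he1 : 0 < e1)
    (he2 : 0 < e2) (h1Q : Nat.Coprime e1 D.Q) (h2Q : Nat.Coprime e2 D.Q) (h1k : Nat.Coprime e1 k) :
    |(((TT' D x k).filter (fun p => e1 ∣ p ∧ e2 ∣ nn D p / k)).card : ℝ) -
      x / (2 * (D.Q * k * (e1 * e2) : ℕ))| ≤ 2 := by
  have hD' := hD
  obtain ⟨_, _, _, hQ0, _, _, h7, h8⟩ := hD'
  have hN : 0 < k * e2 := Nat.mul_pos hk he2
  have hNQ : Nat.Coprime (k * e2) D.Q := Nat.Coprime.mul_left hkQ h2Q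
  have haN : Nat.Coprime D.a (k * e2) := by
    apply coprime_of_primes
    intro r hr h1 h2
    refine not_dvd_of_coprime hNQ hr h2 (h7 r hr ?_)
    rw [mul_assoc]
    exact Dvd.dvd.mul_right (by exact_mod_cast h1) _
  have hgN : Nat.Coprime (k * e2) D.g := by
    apply coprime_of_primes
    intro r hr h1 h2
    refine not_dvd_of_coprime hNQ hr h1 (h7 r hr ?_)
    exact Dvd.dvd.mul_right (Dvd.dvd.mul_left (by exact_mod_cast h2) _) _
  obtain ⟨c2, hc2⟩ := class_int D.b hN haN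
  have hQe1 : Nat.Coprime D.Q e1 := h1Q.symm
  obtain ⟨c1, hc1a, hc1b⟩ := Nat.chineseRemainder hQe1 D.p0 0
  have hcop : Nat.Coprime (D.Q * e1) (k * e2) :=
    Nat.Coprime.mul_left hNQ.symm (Nat.Coprime.mul_right h1k h12)
  obtain ⟨c, hca, hcb⟩ := Nat.chineseRemainder hcop c1 c2
  have hset : (TT' D x k).filter (fun p => e1 ∣ p ∧ e2 ∣ nn D p / k) =
      (Ioc ⌊x / 2⌋₊ ⌊x⌋₊).filter (fun n => n ≡ c [MOD (D.Q * e1) * (k * e2)]) := by
    ext p
    unfold TT'
    rw [mem_filter, mem_filter, mem_filter, mem_Icc, mem_Ioc, Nat.floor_lt (by linarith),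
      ← Nat.modEq_and_modEq_iff_modEq_mul hcop]
    have key : x / 2 < (p : ℝ) → p ≡ D.p0 [MOD D.Q] → (k * e2 ∣ nn D p ↔ p ≡ c2 [MOD (k * e2)]) := by
      intro hxp hpQ
      have hbp : D.b.natAbs < p := by
        have : (D.b.natAbs : ℝ) < p := by linarith
        exact_mod_cast this
      rw [← hc2 p, ← (h8 p hpQ hbp).1]
      constructor
      · intro h
        exact Dvd.dvd.mul_left (by exact_mod_cast h) _
      · intro h
        have h' : (k * e2) ∣ D.g * nn D p := by exact_mod_cast h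
        exact hgN.dvd_of_dvd_mul_left h'
    constructor
    · rintro ⟨⟨⟨_, h2⟩, ⟨h3, h4⟩, h5⟩, h6, h9⟩
      refine ⟨⟨h3, h2⟩, ?_, ?_⟩
      · refine Nat.ModEq.trans ?_ hca.symm
        rw [← Nat.modEq_and_modEq_iff_modEq_mul hQe1]
        exact ⟨h4.trans hc1a.symm, ((Nat.modEq_zero_iff_dvd).2 h6).trans hc1b.symm⟩
      · refine Nat.ModEq.trans ?_ hcb.symm
        rw [← key h3 h4]
        exact (Nat.dvd_div_iff_mul_dvd h5).1 h9
    · rintro ⟨⟨h3, h2⟩, h4, h5⟩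
      have h6 := h4.trans hca
      rw [← Nat.modEq_and_modEq_iff_modEq_mul hQe1] at h6
      have h7 : p ≡ D.p0 [MOD D.Q] := h6.1.trans hc1a
      have h8' := (key h3 h7).2 (h5.trans hcb)
      have hkd : k ∣ nn D p := (dvd_mul_right k e2).trans h8'
      refine ⟨⟨⟨?_, h2⟩, ⟨h3, h7⟩, hkd⟩, (Nat.modEq_zero_iff_dvd).1 (h6.2.trans hc1b),
        (Nat.dvd_div_iff_mul_dvd hkd).2 h8'⟩
      have : (0 : ℝ) < p := by linarith
      exact_mod_cast this
  rw [hset]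
  have hM : 0 < (D.Q * e1) * (k * e2) := Nat.mul_pos (Nat.mul_pos hQ0 he1) hN
  have e : (D.Q * k * (e1 * e2) : ℕ) = (D.Q * e1) * (k * e2) := by ring
  rw [e]
  exact count_x x hx0 _ c hM

theorem count_ff {D : Dat} (hD : Good D) (x : ℝ) (hx0 : 0 ≤ x) (hx : 2 * (D.b.natAbs : ℝ) ≤ x) {k : ℕ}
    (hk : 0 < k) (hkQ : Nat.Coprime k D.Q) {d : ℕ} (hd : Squarefree d) (hdQ : Nat.Coprime d D.Q) :
    |(((TT' D x k).filter (fun p => d ∣ ff D k p)).card : ℝ) - nuk k d * (x / (2 * D.Q * k))| ≤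
      2 * (Nat.divisors d).card := by
  have hd0 : 0 < d := Nat.pos_of_ne_zero hd.ne_zero
  have hT : ∀ p ∈ TT' D x k, p ≡ D.p0 [MOD D.Q] ∧ D.b.natAbs < p ∧ k ∣ nn D p := by
    intro p hp
    unfold TT' at hp
    rw [mem_filter] at hp
    refine ⟨hp.2.1.2, ?_, hp.2.2⟩
    have h1 := hp.2.1.1
    have : (D.b.natAbs : ℝ) < p := by linarith
    exact_mod_cast this
  have h1 : (((TT' D x k).filter (fun p => d ∣ ff D k p)).card : ℝ)
      = ∑ e ∈ Nat.divisorsAntidiagonal d,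
        (((TT' D x k).filter (fun p => e.1 ∣ p ∧ e.2 ∣ nn D p / k)).card : ℝ) := by
    have h2 : ∀ (q : ℕ → Prop) [DecidablePred q], (((TT' D x k).filter q).card : ℝ)
        = ∑ n ∈ TT' D x k, if q n then (1 : ℝ) else 0 := by
      intro q _
      rw [Finset.card_filter]; push_cast; rfl
    rw [h2]
    simp_rw [h2]
    rw [Finset.sum_comm]
    apply Finset.sum_congr rfl
    intro p hp
    have h3 := SieveAux.factor_count (x := p) (y := nn D p / k) hd (by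
      intro r hr hrd h4 h5
      obtain ⟨a1, a2, a3⟩ := hT p hp
      refine excl hD a1 a2 hr (not_dvd_of_coprime hdQ hr hrd) h4 ?_
      exact h5.trans (Nat.div_dvd_of_dvd a3))
    rw [h3]
    rfl
  have h2 : nuk k d * (x / (2 * D.Q * k)) = ∑ e ∈ Nat.divisorsAntidiagonal d,
      If k e.1 * (x / (2 * (D.Q * k * d : ℕ))) := by
    rw [← Finset.sum_mul, Nat.sum_divisorsAntidiagonal (f := fun i _ => If k i), nuk_apply]
    have hdR : (d : ℝ) ≠ 0 := by exact_mod_cast hd0.ne'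
    push_cast
    rw [mul_assoc]
    congr 1
    rw [inv_mul_eq_div, div_div]
    congr 1
    ring
  rw [h1, h2, ← Finset.sum_sub_distrib]
  refine (Finset.abs_sum_le_sum_abs _ _).trans ?_
  have h3 : ∀ e ∈ Nat.divisorsAntidiagonal d,
      |(((TT' D x k).filter (fun p => e.1 ∣ p ∧ e.2 ∣ nn D p / k)).card : ℝ) -
        If k e.1 * (x / (2 * (D.Q * k * d : ℕ)))| ≤ 2 := by
    rintro ⟨e1, e2⟩ he
    rw [Nat.mem_divisorsAntidiagonal] at he
    simp only at he ⊢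
    have he1 : e1 ∣ d := he.1 ▸ dvd_mul_right _ _
    have he2 : e2 ∣ d := he.1 ▸ dvd_mul_left _ _
    have h12 : Nat.Coprime e1 e2 := by
      apply Nat.coprime_of_squarefree_mul
      rw [he.1]; exact hd
    have h10 := Nat.pos_of_dvd_of_pos he1 hd0
    have h20 := Nat.pos_of_dvd_of_pos he2 hd0
    by_cases hc : Nat.Coprime e1 k
    · rw [If_apply, if_pos ⟨h10.ne', hc⟩, one_mul, ← he.1]
      exact one_class hD x hx0 hx hk hkQ h12 h10 h20 (Nat.Coprime.coprime_dvd_left he1 hdQ)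
        (Nat.Coprime.coprime_dvd_left he2 hdQ) hc
    · rw [If_apply, if_neg (by tauto), zero_mul, sub_zero]
      have h0 : (TT' D x k).filter (fun p => e1 ∣ p ∧ e2 ∣ nn D p / k) = ∅ := by
        rw [Finset.filter_eq_empty_iff]
        rintro p hp ⟨h4, _⟩
        apply hc
        apply coprime_of_primes
        intro r hr hr1 hrk
        obtain ⟨a1, a2, a3⟩ := hT p hp
        exact excl hD a1 a2 hr (not_dvd_of_coprime hkQ hr hrk) (hr1.trans h4) (hrk.trans a3)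
      rw [h0]
      norm_num
  refine (Finset.sum_le_sum h3).trans ?_
  rw [Finset.sum_const, nsmul_eq_mul]
  have : (Nat.divisorsAntidiagonal d).card = (Nat.divisors d).card := by
    rw [← Nat.map_div_right_divisors, Finset.card_map]
  rw [this, mul_comm]

/-! ### the divisor bound -/

theorem tau_bound (δ : ℝ) (hδ : 0 < δ) : ∃ C : ℝ, 1 ≤ C ∧ ∀ d : ℕ, Squarefree d →
    (2 : ℝ) ^ d.primeFactors.card ≤ C * (d : ℝ) ^ δ := by
  obtain ⟨K, hK⟩ := exists_nat_ge ((2 : ℝ) ^ (1 / δ))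
  refine ⟨2 ^ K, one_le_pow₀ (by norm_num), fun d hd => ?_⟩
  have h1 : (d : ℝ) ^ δ = ∏ p ∈ d.primeFactors, (p : ℝ) ^ δ := by
    conv_lhs => rw [← Nat.prod_primeFactors_of_squarefree hd]
    push_cast
    rw [Real.finsetProd_rpow _ _ fun i _ => Nat.cast_nonneg i]
  have h2 : (2 : ℝ) ^ d.primeFactors.card ≤
      ∏ p ∈ d.primeFactors, ((if p < K then (2 : ℝ) else 1) * (p : ℝ) ^ δ) := by
    rw [← Finset.prod_const]
    refine Finset.prod_le_prod (fun _ _ => by norm_num) fun p hp => ?_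
    have hpp := Nat.prime_of_mem_primeFactors hp
    have hp1 : (1 : ℝ) ≤ p := by exact_mod_cast hpp.one_le
    split_ifs with h
    · have := Real.one_le_rpow hp1 hδ.le
      linarith
    · have h3 : (2 : ℝ) ^ (1 / δ) ≤ p := hK.trans (by exact_mod_cast (not_lt.1 h))
      have h4 := Real.rpow_le_rpow (by positivity) h3 hδ.le
      rw [← Real.rpow_mul (by norm_num), one_div, inv_mul_cancel₀ hδ.ne', Real.rpow_one] at h4
      linarith
  refine h2.trans ?_
  rw [Finset.prod_mul_distrib, ← h1]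
  refine mul_le_mul_of_nonneg_right ?_ (by positivity)
  rw [Finset.prod_ite, Finset.prod_const, Finset.prod_const_one, mul_one]
  refine pow_le_pow_right₀ (by norm_num) ?_
  calc (d.primeFactors.filter (fun p => p < K)).card ≤ (Finset.range K).card := by
        apply Finset.card_le_card
        intro p hp
        rw [mem_filter] at hp
        exact Finset.mem_range.2 hp.2
    _ = K := Finset.card_range K

theorem card_div (d : ℕ) (hd : Squarefree d) : (Nat.divisors d).card = 2 ^ d.primeFactors.card := by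
  have h2 := ArithmeticFunction.isMultiplicative_sigma (k := 0)
  have h3 := h2.map_prod_of_prime d.primeFactors (fun p hp => Nat.prime_of_mem_primeFactors hp)
  rw [Nat.prod_primeFactors_of_squarefree hd, sigma_zero_apply] at h3
  rw [h3, ← Finset.prod_const]
  refine Finset.prod_congr rfl fun p hp => ?_
  have hpp := Nat.prime_of_mem_primeFactors hp
  rw [sigma_zero_apply, hpp.divisors, Finset.card_pair hpp.one_lt.ne]

/-! ### the parameters of the sieve -/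

theorem rem_le {D : Dat} (hD : Good D) (x : ℝ) (hx0 : 0 ≤ x) (hx : 2 * (D.b.natAbs : ℝ) ≤ x) {k : ℕ}
    (hk : 0 < k) (hkQ : Nat.Coprime k D.Q) (R : ℕ) (hQ : 12 ∣ D.Q) {d : ℕ}
    (hd : d ∣ SieveAux.PR R D.Q) :
    |(sv D x k R hQ hx0).rem d| ≤ 2 * 2 ^ d.primeFactors.card := by
  have hsq : Squarefree d := (SieveAux.PR_squarefree R D.Q).squarefree_of_dvd hd
  have hcop : Nat.Coprime d D.Q := SieveAux.coprime_of_dvd_PR hd
  have h1 := count_ff hD x hx0 hx hk hkQ hsq hcop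
  have h2 : (sv D x k R hQ hx0).multSum d =
      (((TT' D x k).filter (fun p => d ∣ ff D k p)).card : ℝ) := by
    unfold multSum
    have h3 := fiber (TT' D x k) (ff D k) (fun m => d ∣ m)
    rw [← h3]
    rfl
  have h3 : (sv D x k R hQ hx0).rem d
      = (((TT' D x k).filter (fun p => d ∣ ff D k p)).card : ℝ) - nuk k d * (x / (2 * D.Q * k)) := by
    unfold BoundingSieve.rem
    rw [h2]; rfl
  rw [h3]
  refine h1.trans ?_
  rw [card_div d hsq]
  push_cast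
  exact le_rfl

theorem g_div_nu_le (D : Dat) (x : ℝ) (hx0 : 0 ≤ x) (k R : ℕ) (hQ : 12 ∣ D.Q) {d : ℕ}
    (hd : d ∣ SieveAux.PR R D.Q) :
    (sv D x k R hQ hx0).selbergTerms d / (sv D x k R hQ hx0).nu d ≤ 2 ^ d.primeFactors.card := by
  have hnu : (sv D x k R hQ hx0).nu d ≠ 0 := nu_ne_zero (s := sv D x k R hQ hx0) hd
  rw [selbergTerms_apply, mul_comm, mul_div_assoc, div_self hnu, mul_one, ← Finset.prod_const]
  apply Finset.prod_le_prod
  · intro p hp
    have hpp := Nat.prime_of_mem_primeFactors hp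
    have h2 := (sv D x k R hQ hx0).nu_lt_one_of_prime p hpp
      ((Nat.dvd_of_mem_primeFactors hp).trans hd)
    rw [inv_nonneg]; linarith
  · intro p hp
    have hpp := Nat.prime_of_mem_primeFactors hp
    have h3 := five_le hQ hpp ((Nat.dvd_of_mem_primeFactors hp).trans hd)
    have h3' : (5 : ℝ) ≤ p := by exact_mod_cast h3
    show (1 - nuk k p)⁻¹ ≤ 2
    have h4 : nuk k p ≤ 1 / 2 := by
      rw [nuk_prime k hpp]
      split_ifs
      · rw [div_le_div_iff₀ (by linarith) (by norm_num)]; linarith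
      · rw [div_le_div_iff₀ (by linarith) (by norm_num)]; linarith
    rw [inv_le_comm₀ (by linarith) (by norm_num)]
    linarith

theorem JJ_eq (D : Dat) (x : ℝ) (hx0 : 0 ≤ x) (k : ℕ) (R : ℝ) (hQ : 12 ∣ D.Q) :
    Pool.Agent.Helper112.E456.SieveAux.JJ (sv D x k ⌊R⌋₊ hQ hx0) ⌊R⌋₊ = JJ D.Q k R := by
  unfold Pool.Agent.Helper112.E456.SieveAux.JJ JJ
  have hset : (Nat.divisors (sv D x k ⌊R⌋₊ hQ hx0).prodPrimes).filter (· ≤ ⌊R⌋₊) =
      (Icc 1 ⌊R⌋₊).filter (fun l : ℕ => Squarefree l ∧ Nat.Coprime l D.Q) := by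
    ext l
    rw [mem_filter, mem_filter, Nat.mem_divisors, mem_Icc]
    constructor
    · rintro ⟨⟨h1, h2⟩, h3⟩
      have h1' : l ∣ SieveAux.PR ⌊R⌋₊ D.Q := h1
      exact ⟨⟨Nat.pos_of_dvd_of_pos h1 (Nat.pos_of_ne_zero h2), h3⟩,
        (SieveAux.PR_squarefree _ _).squarefree_of_dvd h1', SieveAux.coprime_of_dvd_PR h1'⟩
    · rintro ⟨⟨h1, h2⟩, h3, h4⟩
      exact ⟨⟨SieveAux.dvd_PR h2 h3 h4, SieveAux.P_ne _⟩, h2⟩
  rw [hset]
  refine Finset.sum_congr rfl fun l hl => ?_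
  rw [mem_filter, mem_Icc] at hl
  rw [selbergTerms_apply]
  show nuk k l * ∏ p ∈ l.primeFactors, (1 - nuk k p)⁻¹ = _
  have h1 : nuk k l = ∏ p ∈ l.primeFactors, nuk k p := by
    conv_lhs => rw [← Nat.prod_primeFactors_of_squarefree hl.2.1]
    exact (nuk_mult k).map_prod_of_prime _ fun p hp => Nat.prime_of_mem_primeFactors hp
  rw [h1, ← Finset.prod_mul_distrib]
  refine Finset.prod_congr rfl fun p hp => ?_
  have hpp := Nat.prime_of_mem_primeFactors hp
  have hpd := Nat.dvd_of_mem_primeFactors hp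
  have h5 := five_le hQ hpp (hpd.trans (SieveAux.dvd_PR hl.1.2 hl.2.1 hl.2.2))
  have h5' : (5 : ℝ) ≤ p := by exact_mod_cast h5
  rw [nuk_prime k hpp]
  unfold hk
  have e0 : (p : ℝ) ≠ 0 := by linarith
  have e1 : (p : ℝ) - 1 ≠ 0 := by linarith
  have e2 : (p : ℝ) - 2 ≠ 0 := by linarith
  split_ifs
  · rw [show 1 - 1 / (p : ℝ) = (p - 1) / p by field_simp, inv_div]
    field_simp
  · rw [show 1 - 2 / (p : ℝ) = (p - 2) / p by field_simp, inv_div]
    field_simp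

theorem PC_le {D : Dat} (hD : Good D) (x : ℝ) (hx0 : 0 ≤ x) (hx : 2 * (D.b.natAbs : ℝ) ≤ x) {k : ℕ}
    (hk : 0 < k) (R : ℕ) (hQ : 12 ∣ D.Q) :
    PC D x k ≤ 2 * R + (sv D x k R hQ hx0).siftedSum := by
  have hD' := hD
  obtain ⟨ha, _, _, hQ0, _, _, h7, h8⟩ := hD'
  have hss : (sv D x k R hQ hx0).siftedSum =
      (((TT' D x k).filter (fun p => Nat.Coprime (SieveAux.PR R D.Q) (ff D k p))).card : ℝ) := by
    unfold siftedSum
    have h3 := fiber (TT' D x k) (ff D k) (fun m => Nat.Coprime (SieveAux.PR R D.Q) m)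
    rw [← h3]
    rfl
  rw [hss]
  unfold PC
  set S := (PX D x).filter (fun p : ℕ => k ∣ nn D p ∧ (nn D p / k).Prime) with hS
  have hSm : ∀ p ∈ S, p.Prime ∧ x / 2 < (p : ℝ) ∧ p ≡ D.p0 [MOD D.Q] ∧ 1 ≤ p ∧ p ≤ ⌊x⌋₊ ∧
      k ∣ nn D p ∧ (nn D p / k).Prime ∧ D.b.natAbs < p := by
    intro p hp
    rw [hS, mem_filter] at hp
    unfold PX at hp
    rw [mem_filter, mem_Icc] at hp
    refine ⟨hp.1.2.1, hp.1.2.2.1, hp.1.2.2.2, hp.1.1.1, hp.1.1.2, hp.2.1, hp.2.2, ?_⟩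
    have h1 := hp.1.2.2.1
    have : (D.b.natAbs : ℝ) < p := by linarith
    exact_mod_cast this
  have h1 : S ⊆ (Icc 1 R ∪ S.filter (fun p => nn D p / k ≤ R)) ∪
      (TT' D x k).filter (fun p => Nat.Coprime (SieveAux.PR R D.Q) (ff D k p)) := by
    intro p hp
    obtain ⟨b1, b2, b3, b4, b5, b6, b7, b8⟩ := hSm p hp
    by_cases hpR : p ≤ R
    · exact mem_union_left _ (mem_union_left _ (mem_Icc.2 ⟨b4, hpR⟩))
    · by_cases hqR : nn D p / k ≤ R
      · exact mem_union_left _ (mem_union_right _ (mem_filter.2 ⟨hp, hqR⟩))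
      · refine mem_union_right _ (mem_filter.2 ⟨?_, ?_⟩)
        · unfold TT'
          rw [mem_filter, mem_Icc]
          exact ⟨⟨b4, b5⟩, ⟨b2, b3⟩, b6⟩
        · apply coprime_of_primes
          intro r hr hr1 hr2
          have hrR := ((SieveAux.prime_dvd_PR hr).1 hr1).1
          unfold ff at hr2
          rcases (Nat.Prime.dvd_mul hr).1 hr2 with h4 | h4
          · have h5 := (Nat.prime_dvd_prime_iff_eq hr b1).1 h4
            omega
          · have h5 := (Nat.prime_dvd_prime_iff_eq hr b7).1 h4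
            omega
  have h2 : (S.filter (fun p => nn D p / k ≤ R)).card ≤ R := by
    have h3 : (S.filter (fun p => nn D p / k ≤ R)).card ≤ (Icc 1 R).card := by
      apply Finset.card_le_card_of_injOn (fun p => nn D p / k)
      · intro p hp
        have hp' := Finset.mem_filter.1 (Finset.mem_coe.1 hp)
        exact Finset.mem_coe.2 (mem_Icc.2 ⟨(hSm p hp'.1).2.2.2.2.2.2.1.one_le, hp'.2⟩)
      · intro p hp p' hp' he
        have h4 := Finset.mem_filter.1 (Finset.mem_coe.1 hp)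
        have h4' := Finset.mem_filter.1 (Finset.mem_coe.1 hp')
        obtain ⟨b1, b2, b3, b4, b5, b6, b7, b8⟩ := hSm p h4.1
        obtain ⟨b1', b2', b3', b4', b5', b6', b7', b8'⟩ := hSm p' h4'.1
        have h5 : nn D p = nn D p' := by
          have e1 := Nat.div_mul_cancel b6
          have e2 := Nat.div_mul_cancel b6'
          simp only at he
          rw [← e1, ← e2, he]
        have h6 := (h8 p b3 b8).1
        have h6' := (h8 p' b3' b8').1
        rw [h5] at h6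
        have h9 : (D.a : ℤ) * p = (D.a : ℤ) * p' := by linarith
        have ha' : (D.a : ℤ) ≠ 0 := by exact_mod_cast ha.ne'
        exact_mod_cast mul_left_cancel₀ ha' h9
    rwa [Nat.card_Icc, Nat.add_sub_cancel] at h3
  have h3 := (Finset.card_le_card h1).trans (Finset.card_union_le _ _)
  have h4 := Finset.card_union_le (Icc 1 R) (S.filter (fun p => nn D p / k ≤ R))
  rw [Nat.card_Icc, Nat.add_sub_cancel] at h4
  have h5 : S.card ≤ 2 * R +
      ((TT' D x k).filter (fun p => Nat.Coprime (SieveAux.PR R D.Q) (ff D k p))).card := by omega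
  exact_mod_cast h5

end E4

open E4 in
theorem selb : SELB := by
  intro D hD η hη
  have hQ : 12 ∣ D.Q := hD.2.2.2.2.1
  have hQ0 : 0 < D.Q := hD.2.2.2.1
  obtain ⟨C0, hC0, hτ⟩ := tau_bound (η / 4) (by linarith)
  refine ⟨2 + 2 * (D.b.natAbs : ℝ) + 2 * C0 ^ 3, by positivity, ?_⟩
  intro k x R hk hkQ hR hCx _
  have hb0 : (0 : ℝ) ≤ D.b.natAbs := Nat.cast_nonneg _
  have hC3 : 0 < C0 ^ 3 := by positivity
  have hx0 : 0 ≤ x := by linarith
  have hx : 2 * (D.b.natAbs : ℝ) ≤ x := by linarith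
  set R0 := ⌊R⌋₊ with hR0
  have hR1 : 1 ≤ R0 := by
    rw [hR0]; exact Nat.le_floor (by exact_mod_cast hR)
  have hR0R : (R0 : ℝ) ≤ R := Nat.floor_le (by linarith)
  have hR0' : (1 : ℝ) ≤ R0 := by exact_mod_cast hR1
  have h1 := PC_le hD x hx0 hx hk R0 hQ
  have h2 := Pool.Agent.Helper112.E456.SieveAux.selberg_bound (s := sv D x k R0 hQ hx0) R0 hR1
    (A := C0 * (R0 : ℝ) ^ (η / 4)) (B := 2 * (C0 * ((R0 : ℝ) ^ 2) ^ (η / 4)))
    (by positivity) (by positivity)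
    (by
      intro d hd hdR
      have hd' := Nat.dvd_of_mem_divisors hd
      have hsq : Squarefree d :=
        (Pool.Agent.Helper112.E456.SieveAux.PR_squarefree R0 D.Q).squarefree_of_dvd hd'
      refine (g_div_nu_le D x hx0 k R0 hQ hd').trans ((hτ d hsq).trans ?_)
      have : (d : ℝ) ≤ R0 := by exact_mod_cast hdR
      gcongr)
    (by
      intro d hd hdR
      have hd' := Nat.dvd_of_mem_divisors hd
      have hsq : Squarefree d :=
        (Pool.Agent.Helper112.E456.SieveAux.PR_squarefree R0 D.Q).squarefree_of_dvd hd'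
      refine (rem_le hD x hx0 hx hk hkQ R0 hQ hd').trans ?_
      have h3 := hτ d hsq
      have : (d : ℝ) ≤ (R0 : ℝ) ^ 2 := by exact_mod_cast hdR
      have h4 : (d : ℝ) ^ (η / 4) ≤ ((R0 : ℝ) ^ 2) ^ (η / 4) := by gcongr
      have h5 : C0 * (d : ℝ) ^ (η / 4) ≤ C0 * ((R0 : ℝ) ^ 2) ^ (η / 4) := by gcongr
      linarith)
  rw [JJ_eq] at h2
  have hJ : 0 < JJ D.Q k R := by
    rw [← JJ_eq D x hx0 k R hQ]
    exact Pool.Agent.Helper112.E456.SieveAux.JJ_pos _ hR1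
  have h3 : 2 * (C0 * ((R0 : ℝ) ^ 2) ^ (η / 4)) * (R0 * (C0 * (R0 : ℝ) ^ (η / 4))) ^ 2 =
      2 * C0 ^ 3 * (R0 : ℝ) ^ (2 + η) := by
    have hp : (0 : ℝ) < R0 := by linarith
    have e1 : ((R0 : ℝ) ^ 2) ^ (η / 4) = (R0 : ℝ) ^ (η / 2) := by
      rw [← Real.rpow_natCast, ← Real.rpow_mul hp.le]
      congr 1; push_cast; ring
    have e2 : (R0 * (C0 * (R0 : ℝ) ^ (η / 4))) ^ 2 = C0 ^ 2 * ((R0 : ℝ) ^ 2 * (R0 : ℝ) ^ (η / 2)) := by
      have e3 : ((R0 : ℝ) ^ (η / 4)) ^ 2 = (R0 : ℝ) ^ (η / 2) := by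
        rw [← Real.rpow_natCast, ← Real.rpow_mul hp.le]
        congr 1; push_cast; ring
      rw [← e3]; ring
    have e4 : (R0 : ℝ) ^ (2 + η) = (R0 : ℝ) ^ 2 * ((R0 : ℝ) ^ (η / 2) * (R0 : ℝ) ^ (η / 2)) := by
      rw [← Real.rpow_natCast, ← Real.rpow_add hp, ← Real.rpow_add hp]
      congr 1; push_cast; ring
    rw [e1, e2, e4]; ring
  rw [h3] at h2
  have h4 : (R0 : ℝ) ^ (2 + η) ≤ R ^ (2 + η) := by gcongr
  have h5 : 0 ≤ R ^ (2 + η) := by positivity
  have hX : (sv D x k R0 hQ hx0).totalMass = x / (2 * D.Q * k) := rfl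
  rw [hX] at h2
  have h6 : x / (2 * D.Q * k) / JJ D.Q k R ≤
      (x / (2 * D.Q * k) + (2 + 2 * (D.b.natAbs : ℝ) + 2 * C0 ^ 3)) / JJ D.Q k R := by
    gcongr
    linarith
  have h7 : 2 * C0 ^ 3 * (R0 : ℝ) ^ (2 + η) ≤
      (2 + 2 * (D.b.natAbs : ℝ) + 2 * C0 ^ 3) * R ^ (2 + η) := by
    calc 2 * C0 ^ 3 * (R0 : ℝ) ^ (2 + η) ≤ 2 * C0 ^ 3 * R ^ (2 + η) := by gcongr
      _ ≤ _ := by
        apply mul_le_mul_of_nonneg_right _ h5
        linarith
  have h8 : 2 * (R0 : ℝ) ≤ (2 + 2 * (D.b.natAbs : ℝ) + 2 * C0 ^ 3) * R := by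
    nlinarith
  linarith

end Pool.Agent.H95R2.TG
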