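import Mathlib
import Pool.Agent.H95R2.TG.Defs

set_option autoImplicit false

open Finset Filter

namespace Pool.Agent.H95R2.TG

open Pool.Agent.H95R2.TI (VM AP DD FS fS cA Lg hk VML ROU II1 II2 LIP TOPN)
open scoped Classical

namespace E5_

theorem sg_aux (N : ℕ) (hN : 5 ≤ N) : 3 / 4 * (((N : ℝ) - 1) / ((N : ℝ) - 2)) ≤
    ∏ p ∈ (range N).filter (fun p : ℕ => p.Prime ∧ 5 ≤ p), ((p : ℝ) * (p - 2) / (p - 1) ^ 2) := by
  induction N, hN using Nat.le_induction with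
  | base =>
    have : (range 5).filter (fun p : ℕ => p.Prime ∧ 5 ≤ p) = ∅ := by
      ext p; simp; intro h _; omega
    rw [this, Finset.prod_empty]
    norm_num
  | succ N hN ih =>
    have hN' : (5 : ℝ) ≤ N := by exact_mod_cast hN
    have h2 : (0 : ℝ) < (N : ℝ) - 2 := by linarith
    have h1 : (0 : ℝ) < (N : ℝ) - 1 := by linarith
    have hcast : ((N + 1 : ℕ) : ℝ) = (N : ℝ) + 1 := by push_cast; ring
    rw [hcast, Finset.range_add_one, Finset.filter_insert]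
    have e1 : (N : ℝ) + 1 - 1 = N := by ring
    have e2 : (N : ℝ) + 1 - 2 = (N : ℝ) - 1 := by ring
    rw [e1, e2]
    split_ifs with h
    · rw [Finset.prod_insert (by simp)]
      have h3 : (0 : ℝ) ≤ (N : ℝ) * (N - 2) / (N - 1) ^ 2 := by positivity
      calc 3 / 4 * ((N : ℝ) / ((N : ℝ) - 1))
          = ((N : ℝ) * (N - 2) / (N - 1) ^ 2) * (3 / 4 * (((N : ℝ) - 1) / ((N : ℝ) - 2))) := by
            field_simp
        _ ≤ _ := mul_le_mul_of_nonneg_left ih h3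
    · refine le_trans ?_ ih
      have : (N : ℝ) / ((N : ℝ) - 1) ≤ ((N : ℝ) - 1) / ((N : ℝ) - 2) := by
        rw [div_le_div_iff₀ h1 h2]
        nlinarith
      linarith

theorem mem_SQ5 {Q : ℕ} (hQ : 12 ∣ Q) {w : ℝ} {p : ℕ} (hp : p ∈ SQ Q w) : 5 ≤ p := by
  unfold SQ at hp
  obtain ⟨-, hp1, hp2⟩ := Finset.mem_filter.1 hp
  by_contra h
  have h2 := hp1.two_le
  have h3 : p = 2 ∨ p = 3 ∨ p = 4 := by omega
  rcases h3 with h3 | h3 | h3
  · subst h3; exact hp2 (dvd_trans (by norm_num) hQ)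
  · subst h3; exact hp2 (dvd_trans (by norm_num) hQ)
  · subst h3; exact absurd hp1 (by norm_num)

theorem sg_lower {Q : ℕ} (hQ : 12 ∣ Q) (w : ℝ) : 3 / 4 ≤ SG Q w := by
  have hfac : ∀ p : ℕ, 5 ≤ p → (0 : ℝ) ≤ ((p : ℝ) * (p - 2) / (p - 1) ^ 2) ∧
      ((p : ℝ) * (p - 2) / (p - 1) ^ 2) ≤ 1 := by
    intro p hp
    have h5 : (5 : ℝ) ≤ (p : ℝ) := by exact_mod_cast hp
    have h1 : (0 : ℝ) < (p : ℝ) - 1 := by linarith
    have h2 : (0 : ℝ) < (p : ℝ) - 2 := by linarith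
    refine ⟨by positivity, ?_⟩
    rw [div_le_one (by positivity)]
    nlinarith
  have hsub : SQ Q w ⊆ (range ⌈w⌉₊).filter (fun p : ℕ => p.Prime ∧ 5 ≤ p) := by
    intro p hp
    have h1 := mem_SQ5 hQ hp
    unfold SQ at hp
    obtain ⟨hp0, hp1, hp2⟩ := Finset.mem_filter.1 hp
    exact Finset.mem_filter.2 ⟨hp0, hp1, h1⟩
  have hle : ∏ p ∈ (range ⌈w⌉₊).filter (fun p : ℕ => p.Prime ∧ 5 ≤ p),
      ((p : ℝ) * (p - 2) / (p - 1) ^ 2) ≤ SG Q w := by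
    unfold SG
    rw [← Finset.prod_sdiff hsub]
    have h1 : ∏ p ∈ (range ⌈w⌉₊).filter (fun p : ℕ => p.Prime ∧ 5 ≤ p) \ SQ Q w,
        ((p : ℝ) * (p - 2) / (p - 1) ^ 2) ≤ 1 := by
      refine Finset.prod_le_one (fun p hp => ?_) (fun p hp => ?_)
      · exact (hfac p (Finset.mem_filter.1 (Finset.mem_sdiff.1 hp).1).2.2).1
      · exact (hfac p (Finset.mem_filter.1 (Finset.mem_sdiff.1 hp).1).2.2).2
    have h2 : 0 ≤ ∏ p ∈ SQ Q w, ((p : ℝ) * (p - 2) / (p - 1) ^ 2) :=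
      Finset.prod_nonneg fun p hp => (hfac p (mem_SQ5 hQ hp)).1
    nlinarith
  refine le_trans ?_ hle
  by_cases h : 5 ≤ ⌈w⌉₊
  · refine le_trans ?_ (sg_aux _ h)
    have h5 : (5 : ℝ) ≤ (⌈w⌉₊ : ℝ) := by exact_mod_cast h
    have : (1 : ℝ) ≤ ((⌈w⌉₊ : ℝ) - 1) / ((⌈w⌉₊ : ℝ) - 2) := by
      rw [le_div_iff₀ (by linarith)]; linarith
    linarith
  · have : (range ⌈w⌉₊).filter (fun p : ℕ => p.Prime ∧ 5 ≤ p) = ∅ := by
      ext p; simp; intro hp _; omega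
    rw [this, Finset.prod_empty]
    norm_num

theorem vm_eq {Q : ℕ} (hQ0 : 0 < Q) {w : ℝ} (hw : (Q : ℝ) < w) :
    VM w = (Nat.totient Q : ℝ) / Q * ∏ p ∈ SQ Q w, (1 - 1 / (p : ℝ)) := by
  have hAP : AP w = Q.primeFactors ∪ SQ Q w := by
    unfold AP SQ
    ext p
    simp only [mem_filter, mem_range, mem_union, Nat.mem_primeFactors]
    constructor
    · rintro ⟨h1, h2⟩
      by_cases h5 : p ∣ Q
      · exact Or.inl ⟨h2, h5, hQ0.ne'⟩
      · exact Or.inr ⟨h1, h2, h5⟩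
    · rintro (⟨h1, h2, h3⟩ | ⟨h1, h2, h3⟩)
      · refine ⟨?_, h1⟩
        rw [Nat.lt_ceil]
        have h4 : (p : ℝ) ≤ Q := by exact_mod_cast Nat.le_of_dvd hQ0 h2
        linarith
      · exact ⟨h1, h2⟩
  have hdisj : Disjoint Q.primeFactors (SQ Q w) := by
    rw [Finset.disjoint_left]
    intro p hp hp2
    unfold SQ at hp2
    exact (Finset.mem_filter.1 hp2).2.2 (Nat.mem_primeFactors.1 hp).2.1
  have htot : (Nat.totient Q : ℝ) = Q * ∏ p ∈ Q.primeFactors, (1 - 1 / (p : ℝ)) := by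
    have h1 := Nat.totient_eq_mul_prod_factors Q
    have h2 : ((Nat.totient Q : ℚ) : ℝ) = ((Q * ∏ p ∈ Q.primeFactors, (1 - (p : ℚ)⁻¹) : ℚ) : ℝ) := by
      rw [h1]
    push_cast at h2
    rw [h2]
    congr 1
    refine Finset.prod_congr rfl fun p _ => ?_
    rw [one_div]
  unfold VM
  rw [hAP, Finset.prod_union hdisj, htot]
  have hQr : (Q : ℝ) ≠ 0 := by exact_mod_cast hQ0.ne'
  field_simp

theorem prod_eq {Q : ℕ} (hQ0 : 0 < Q) (hQ : 12 ∣ Q) {w : ℝ} (hw : (Q : ℝ) < w) :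
    (∏ p ∈ SQ Q w, (1 + 2 / ((p : ℝ) - 2))) * VM w ^ 2 * SG Q w =
      ((Nat.totient Q : ℝ) / Q) ^ 2 := by
  rw [vm_eq hQ0 hw, mul_pow, ← Finset.prod_pow]
  unfold SG
  have : (∏ p ∈ SQ Q w, (1 + 2 / ((p : ℝ) - 2))) * ((∏ p ∈ SQ Q w, (1 - 1 / (p : ℝ)) ^ 2) *
      ∏ p ∈ SQ Q w, ((p : ℝ) * (p - 2) / (p - 1) ^ 2)) = 1 := by
    rw [← Finset.prod_mul_distrib, ← Finset.prod_mul_distrib]
    refine Finset.prod_eq_one fun p hp => ?_
    have h5 : (5 : ℝ) ≤ (p : ℝ) := by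
      have := mem_SQ5 hQ hp
      exact_mod_cast this
    have h0 : (p : ℝ) ≠ 0 := by linarith
    have h1 : (p : ℝ) - 1 ≠ 0 := by linarith
    have h2 : (p : ℝ) - 2 ≠ 0 := by linarith
    field_simp
    ring
  linear_combination ((Nat.totient Q : ℝ) / Q) ^ 2 * this

end E5_

open E5_ in
theorem pair (h1 : JLOW) (h2 : SELB) : PAIR := by
  intro D hD ε hε
  obtain ⟨_, _, _, hQ0, hQ12, _, _, _⟩ := id hD
  set Q : ℕ := D.Q with hQdef
  have hQR : (0 : ℝ) < Q := by exact_mod_cast hQ0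
  have hφ0 : (0 : ℝ) < (Nat.totient Q : ℝ) := by exact_mod_cast Nat.totient_pos.2 hQ0
  set q : ℝ := qf Q with hq
  have hqe : q = (Q : ℝ) / (Nat.totient Q : ℝ) ^ 2 := rfl
  have hq0 : 0 < q := by rw [hqe]; positivity
  -- parameters
  obtain ⟨δ, hδ0, hδ1, hδ2⟩ : ∃ δ : ℝ, 0 < δ ∧ δ ≤ 1 / 100 ∧ δ ≤ ε / 480 :=
    ⟨min (1 / 100) (ε / 480), by positivity, min_le_left _ _, min_le_right _ _⟩
  set θ : ℝ := 1 / 2 - δ with hθ
  have hθ0 : 0 < θ := by rw [hθ]; linarith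
  set κ : ℝ := (1 - δ) * θ ^ 2 with hκ
  have hκ0 : 0 < κ := by rw [hκ]; have : 0 < 1 - δ := by linarith
                         positivity
  have hκ3 : 1 ≤ (4 + ε / 4) * κ := by
    have e1 : κ = (1 - δ) * (1 - 2 * δ) ^ 2 / 4 := by rw [hκ, hθ]; ring
    have e2 : 1 - 5 * δ ≤ (1 - δ) * (1 - 2 * δ) ^ 2 := by nlinarith [sq_nonneg δ]
    rw [e1]
    have e3 : (4 + ε / 4) * ((1 - 5 * δ) / 4) ≤ (4 + ε / 4) * ((1 - δ) * (1 - 2 * δ) ^ 2 / 4) := by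
      refine mul_le_mul_of_nonneg_left ?_ (by positivity)
      linarith
    refine le_trans ?_ e3
    nlinarith [mul_pos hε hδ0]
  set η : ℝ := 2 * δ with hη
  have hηθ : (2 + η) * θ ≤ 1 - δ := by rw [hη, hθ]; nlinarith
  obtain ⟨C, hC, hS⟩ := h2 D hD η (by rw [hη]; linarith)
  obtain ⟨c1, hc1, hJ⟩ := h1 Q hQ0 hQ12 δ hδ0
  refine ⟨c1, hc1, fun c hc0 hc => ?_⟩
  have hJc := hJ c hc0 hc
  set K0 : ℝ := 4 * (2 * C) * (16 / δ ^ 2) / (ε * q) with hK0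
  have t1 : Tendsto (fun x : ℝ => x ^ (0.47 * (δ / 2) : ℝ)) atTop atTop :=
    tendsto_rpow_atTop (by positivity)
  have t2 : Tendsto (fun x : ℝ => x ^ (0.47 : ℝ)) atTop atTop :=
    tendsto_rpow_atTop (by norm_num)
  have t3 : Tendsto (fun x : ℝ => x ^ c) atTop atTop := tendsto_rpow_atTop hc0
  filter_upwards [hJc, t1.eventually_ge_atTop K0,
    t2.eventually_ge_atTop (2 * Q * C / (ε / 4 * κ)),
    t2.eventually_gt_atTop 1, t3.eventually_gt_atTop (Q : ℝ), eventually_gt_atTop (1 : ℝ),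
    eventually_ge_atTop C]
    with x hx1 hx2 hx3 hx4 hx5 hx6 hx7
  intro k hk0 hkx hkp
  have hkR : (0 : ℝ) < k := by exact_mod_cast hk0
  have hk1 : (1 : ℝ) ≤ k := by exact_mod_cast hk0
  have hx0 : (0 : ℝ) < x := by linarith
  have hcop : Nat.Coprime k D.Q := by
    rw [Nat.coprime_iff_gcd_eq_one]
    by_contra hne
    obtain ⟨p, hp, hpd⟩ := Nat.exists_prime_and_dvd hne
    have h3 := hkp p hp (hpd.trans (Nat.gcd_dvd_left _ _))
    have h4 : (p : ℝ) ≤ Q := by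
      exact_mod_cast Nat.le_of_dvd hQ0 (hpd.trans (Nat.gcd_dvd_right _ _))
    linarith
  set Y : ℝ := x / k with hY
  have hYx : x ^ (0.47 : ℝ) ≤ Y := by
    rw [hY, le_div_iff₀ hkR]
    calc x ^ (0.47 : ℝ) * k ≤ x ^ (0.47 : ℝ) * x ^ (0.53 : ℝ) :=
          mul_le_mul_of_nonneg_left hkx (by positivity)
      _ = x := by rw [← Real.rpow_add hx0]; norm_num
  have hY1 : 1 < Y := lt_of_lt_of_le hx4 hYx
  have hY0 : 0 < Y := by linarith
  have hYle : Y ≤ x := by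
    rw [hY]; exact div_le_self hx0.le hk1
  set l : ℝ := Real.log Y with hl
  have hl0 : 0 < l := Real.log_pos hY1
  set R : ℝ := Y ^ θ with hR
  have hR1 : 1 ≤ R := Real.one_le_rpow hY1.le hθ0.le
  have hRx : R ≤ x := by
    calc R ≤ Y ^ (1 : ℝ) := Real.rpow_le_rpow_of_exponent_le hY1.le (by rw [hθ]; linarith)
      _ = Y := Real.rpow_one Y
      _ ≤ x := hYle
  have hRlow : x ^ (0.2 : ℝ) ≤ R := by
    calc x ^ (0.2 : ℝ) ≤ x ^ (0.47 * θ : ℝ) := by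
          apply Real.rpow_le_rpow_of_exponent_le hx6.le
          rw [hθ]; norm_num at hδ1 ⊢; linarith
      _ = (x ^ (0.47 : ℝ)) ^ θ := Real.rpow_mul hx0.le _ _
      _ ≤ Y ^ θ := Real.rpow_le_rpow (by positivity) hYx hθ0.le
  have hkx' : (k : ℝ) ≤ x := by
    calc (k : ℝ) ≤ x ^ (0.53 : ℝ) := hkx
      _ ≤ x ^ (1 : ℝ) := Real.rpow_le_rpow_of_exponent_le hx6.le (by norm_num)
      _ = x := Real.rpow_one x
  have hJJ := hx1 k R hk0 hkx' hkp hRlow hRx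
  set S : ℝ := SG Q (x ^ c) with hSdef
  have hS34 : 3 / 4 ≤ S := sg_lower hQ12 _
  have hS0 : 0 < S := by linarith
  have hprod := prod_eq hQ0 hQ12 hx5
  rw [← hSdef] at hprod
  set P : ℝ := ∏ p ∈ SQ Q (x ^ c), (1 + 2 / ((p : ℝ) - 2)) with hP
  have hlogR : Real.log R = θ * l := by rw [hR, hl, Real.log_rpow hY0]
  have hJ0 : κ * l ^ 2 / (2 * Q * q * S) ≤ JJ Q k R := by
    refine le_trans (le_of_eq ?_) hJJ
    rw [hlogR, hκ]
    have h3 : P * VM (x ^ c) ^ 2 = ((Nat.totient Q : ℝ) / Q) ^ 2 / S := by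
      rw [eq_div_iff hS0.ne']; exact hprod
    have h4 : ((Nat.totient Q : ℝ) / Q) ^ 2 = 1 / (Q * q) := by
      rw [hqe]
      field_simp
    calc (1 - δ) * θ ^ 2 * l ^ 2 / (2 * Q * q * S)
        = (1 - δ) * θ ^ 2 * l ^ 2 / 2 * (1 / (Q * q) / S) := by
          field_simp
      _ = (1 - δ) * θ ^ 2 * l ^ 2 / 2 * (P * VM (x ^ c) ^ 2) := by rw [h3, h4]
      _ = _ := by ring
  have hJ0pos : 0 < κ * l ^ 2 / (2 * Q * q * S) := by positivity
  have hmain := hS k x R hk0 hcop hR1 hx7 hkx'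
  -- the three error terms
  have e1 : (x / (2 * D.Q * k) + C) / JJ D.Q k R ≤ (4 + ε / 2) * q * S * Y / l ^ 2 := by
    have hxY : x / (2 * (D.Q : ℝ) * k) = Y / (2 * Q) := by
      rw [hY, ← hQdef]
      field_simp
    rw [hxY]
    calc (Y / (2 * Q) + C) / JJ Q k R ≤ (Y / (2 * Q) + C) / (κ * l ^ 2 / (2 * Q * q * S)) :=
          div_le_div_of_nonneg_left (by positivity) hJ0pos hJ0
      _ = ((Y + 2 * Q * C) / κ) * (q * S) / l ^ 2 := by field_simp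
      _ ≤ ((4 + ε / 2) * Y) * (q * S) / l ^ 2 := by
          gcongr
          rw [div_le_iff₀ hκ0]
          have h96 : 2 * Q * C ≤ ε / 4 * Y * κ := by
            have := hx3.trans hYx
            rw [div_le_iff₀ (by positivity)] at this
            linarith
          have h97 : 1 * Y ≤ (4 + ε / 4) * κ * Y := mul_le_mul_of_nonneg_right hκ3 hY0.le
          linarith
      _ = _ := by ring
  have e2 : C * R + C * R ^ (2 + η) ≤ (2 * C) * Y ^ (1 - δ) := by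
    have a1 : R ≤ Y ^ (1 - δ) := Real.rpow_le_rpow_of_exponent_le hY1.le (by rw [hθ]; linarith)
    have a3 : R ^ (2 + η) ≤ Y ^ (1 - δ) := by
      rw [hR, ← Real.rpow_mul hY0.le]
      exact Real.rpow_le_rpow_of_exponent_le hY1.le (by linarith)
    have a4 : C * R ^ (2 + η) ≤ C * Y ^ (1 - δ) := mul_le_mul_of_nonneg_left a3 hC.le
    have a5 : C * R ≤ C * Y ^ (1 - δ) := mul_le_mul_of_nonneg_left a1 hC.le
    linarith
  have e3 : (2 * C) * Y ^ (1 - δ) ≤ ε * q / 4 * Y / l ^ 2 := by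
    rw [le_div_iff₀ (by positivity)]
    have b1 : l ≤ Y ^ (δ / 4) / (δ / 4) := Real.log_le_rpow_div hY0.le (by positivity)
    have b2 : l ^ 2 ≤ 16 / δ ^ 2 * Y ^ (δ / 2) := by
      calc l ^ 2 ≤ (Y ^ (δ / 4) / (δ / 4)) ^ 2 := by gcongr
        _ = 16 / δ ^ 2 * (Y ^ (δ / 4)) ^ 2 := by field_simp; ring
        _ = _ := by
          have b0 : (Y ^ (δ / 4)) ^ 2 = Y ^ (δ / 2) := by
            rw [← Real.rpow_natCast (Y ^ (δ / 4)) 2, ← Real.rpow_mul hY0.le]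
            congr 1
            push_cast; ring
          rw [b0]
    have b3 : K0 ≤ Y ^ (δ / 2) := by
      calc K0 ≤ x ^ (0.47 * (δ / 2) : ℝ) := hx2
        _ = (x ^ (0.47 : ℝ)) ^ (δ / 2) := Real.rpow_mul hx0.le _ _
        _ ≤ _ := Real.rpow_le_rpow (by positivity) hYx (by positivity)
    have b4 : 4 * (2 * C) * (16 / δ ^ 2) ≤ Y ^ (δ / 2) * (ε * q) := by
      rw [hK0, div_le_iff₀ (by positivity)] at b3
      exact b3
    have b5 : Y ^ (1 - δ) * Y ^ (δ / 2) * Y ^ (δ / 2) = Y := by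
      rw [← Real.rpow_add hY0, ← Real.rpow_add hY0]
      have : 1 - δ + δ / 2 + δ / 2 = 1 := by ring
      rw [this, Real.rpow_one]
    have b6 : 0 < Y ^ (1 - δ) * Y ^ (δ / 2) := by positivity
    calc (2 * C) * Y ^ (1 - δ) * l ^ 2
        ≤ (2 * C) * Y ^ (1 - δ) * (16 / δ ^ 2 * Y ^ (δ / 2)) :=
          mul_le_mul_of_nonneg_left b2 (by positivity)
      _ = 1 / 4 * ((4 * (2 * C) * (16 / δ ^ 2)) * (Y ^ (1 - δ) * Y ^ (δ / 2))) := by ring
      _ ≤ 1 / 4 * ((Y ^ (δ / 2) * (ε * q)) * (Y ^ (1 - δ) * Y ^ (δ / 2))) := by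
          have := mul_le_mul_of_nonneg_right b4 b6.le
          linarith
      _ = ε * q / 4 * (Y ^ (1 - δ) * Y ^ (δ / 2) * Y ^ (δ / 2)) := by ring
      _ = ε * q / 4 * Y := by rw [b5]
  have e4 : ε * q / 4 * Y / l ^ 2 ≤ ε / 2 * q * S * Y / l ^ 2 := by
    gcongr
    nlinarith [mul_pos hε hq0]
  have e5 : (4 + ε / 2) * q * S * Y / l ^ 2 + ε / 2 * q * S * Y / l ^ 2 =
      (4 + ε) * q * S * Y / l ^ 2 := by
    ring
  linarith

end Pool.Agent.H95R2.TG
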