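import Mathlib
import Pool.Agent.H95R2.TG.Defs

set_option autoImplicit false

open Finset Filter

namespace Pool.Agent.H95R2.TG

open Pool.Agent.H95R2.TI (VM AP DD FS fS cA Lg hk VML ROU II1 II2 LIP TOPN)
open scoped Classical

theorem wbd (h : MERT) : WBD := by
  intro ε hε c hc0 hc1
  have hM : (1 : ℝ) ≤ 1 / c := by
    rw [le_div_iff₀ hc0]
    linarith
  have hlog : 0 < Real.log (1 + ε) := Real.log_pos (by linarith)
  have h1 := h (1 / c) hM (Real.log (1 + ε)) hlog
  have h2 : Tendsto (fun x : ℝ => x ^ c) atTop atTop := tendsto_rpow_atTop hc0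
  filter_upwards [h2.eventually h1, eventually_gt_atTop 1] with x hx hx1 t ht0 ht1
  have hx0 : 0 < x := by linarith
  have hU1 : 1 ≤ t / c := by
    rw [le_div_iff₀ hc0]
    linarith
  have hU2 : t / c ≤ 1 / c := div_le_div_of_nonneg_right ht1 hc0.le
  obtain ⟨-, h3⟩ := hx (t / c) hU1 hU2
  have e : (x ^ c) ^ (t / c) = x ^ t := by
    rw [← Real.rpow_mul hx0.le, mul_div_cancel₀ _ hc0.ne']
  rw [e] at h3
  have h4 : ∑ p ∈ PG (x ^ c) (x ^ t), 1 / ((p : ℝ) - 1) ≤ Real.log (1 + ε) + Real.log (t / c) / 2 := by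
    have := (abs_le.1 h3).2
    linarith
  calc ∏ p ∈ PG (x ^ c) (x ^ t), (1 - 1 / (p : ℝ))⁻¹
      ≤ ∏ p ∈ PG (x ^ c) (x ^ t), Real.exp (1 / ((p : ℝ) - 1)) := by
        refine Finset.prod_le_prod (fun p hp => ?_) (fun p hp => ?_)
        · have hp2 : (2 : ℝ) ≤ p := by
            exact_mod_cast ((Finset.mem_filter.1 hp).2.1).two_le
          have : 0 < 1 - 1 / (p : ℝ) := by
            rw [sub_pos, div_lt_one (by linarith)]
            linarith
          positivity
        · have hp2 : (2 : ℝ) ≤ p := by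
            exact_mod_cast ((Finset.mem_filter.1 hp).2.1).two_le
          have hp0 : (p : ℝ) ≠ 0 := by linarith
          have hp1 : (p : ℝ) - 1 ≠ 0 := by linarith
          have e2 : (1 - 1 / (p : ℝ))⁻¹ = 1 / ((p : ℝ) - 1) + 1 := by
            have : (1 - 1 / (p : ℝ)) = ((p : ℝ) - 1) / p := by
              field_simp
            rw [this, inv_div]
            field_simp
            ring
          rw [e2]
          exact Real.add_one_le_exp _
    _ = Real.exp (∑ p ∈ PG (x ^ c) (x ^ t), 1 / ((p : ℝ) - 1)) := (Real.exp_sum _ _).symm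
    _ ≤ Real.exp (Real.log (1 + ε) + Real.log (t / c) / 2) := Real.exp_le_exp.2 h4
    _ = (1 + ε) * Real.sqrt (t / c) := by
        rw [Real.exp_add, Real.exp_log (by linarith)]
        congr 1
        rw [Real.exp_half, Real.exp_log (by positivity)]

end Pool.Agent.H95R2.TG
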