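import Mathlib
import Pool.Agent.H95R2.TG.Defs
set_option autoImplicit false
open Finset Filter
namespace Pool.Agent.H95R2.TG
open scoped Classical

namespace KSUM_

/-- bins -/
theorem bins (b T : ℕ → ℝ) (N : ℕ) (hb : ∀ j, j < N → b (j+1) ≤ b j) (D s : ℝ) (h0 : s ≤ b 0)
    (h1 : ∀ j, j < N → T j ≤ D → s ≤ b (j+1)) (n : ℕ) (hn : n ≤ N) :
    s ≤ b n + ∑ j ∈ range n, (b j - b (j+1)) * (if D < T j then 1 else 0) := by
  induction n with
  | zero => simpa using h0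
  | succ n ih =>
    have h := ih (by omega)
    rw [sum_range_succ]
    by_cases hD : D < T n
    · rw [if_pos hD]; linarith
    · rw [if_neg hD]
      have h2 := h1 n (by omega) (not_lt.mp hD)
      have h3 : 0 ≤ ∑ j ∈ range n, (b j - b (j+1)) * (if D < T j then (1:ℝ) else 0) := by
        apply sum_nonneg
        intro j hj
        have h4 := hb j (by have := mem_range.mp hj; omega)
        have h5 : (0:ℝ) ≤ (if D < T j then (1:ℝ) else 0) := by split_ifs <;> norm_num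
        exact mul_nonneg (by linarith) h5
      linarith

/-- Euler product -/
theorem euler (w v : ℝ) (F : Finset ℕ)
    (hF : ∀ D ∈ F, 0 < D ∧ (D:ℝ) < v ∧ ∀ r : ℕ, r.Prime → r ∣ D → r % 4 = 1 ∧ w ≤ (r:ℝ)) :
    ∑ D ∈ F, (1:ℝ)/D ≤ ∏ p ∈ PG w v, (1 - 1/(p:ℝ))⁻¹ := by
  let f : ℕ →* ℝ :=
    { toFun := fun n => ((n:ℝ))⁻¹
      map_one' := by simp
      map_mul' := by intro m n; push_cast; rw [mul_inv] }
  have hf : ∀ n : ℕ, f n = ((n:ℝ))⁻¹ := fun n => rfl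
  have hlt : ∀ {p : ℕ}, p.Prime → ‖f p‖ < 1 := by
    intro p hp
    rw [hf, Real.norm_eq_abs, abs_of_nonneg (by positivity)]
    exact inv_lt_one_of_one_lt₀ (by exact_mod_cast hp.one_lt)
  obtain ⟨-, h2⟩ := EulerProduct.summable_and_hasSum_factoredNumbers_prod_filter_prime_geometric
    hlt (PG w v)
  have e1 : ∏ p ∈ PG w v with p.Prime, (1 - f p)⁻¹ = ∏ p ∈ PG w v, (1 - 1/(p:ℝ))⁻¹ := by
    rw [filter_true_of_mem]
    · apply prod_congr rfl
      intro p _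
      rw [hf, one_div]
    · intro p hp
      exact (mem_filter.mp hp).2.1
  rw [e1] at h2
  have hmem : ∀ D ∈ F, D ∈ Nat.factoredNumbers (PG w v) := by
    intro D hD
    obtain ⟨h3, h4, h5⟩ := hF D hD
    rw [Nat.mem_factoredNumbers]
    refine ⟨h3.ne', ?_⟩
    intro p hp
    have hp1 := Nat.prime_of_mem_primeFactorsList hp
    have hp2 := Nat.dvd_of_mem_primeFactorsList hp
    obtain ⟨h6, h7⟩ := h5 p hp1 hp2
    have hle : p ≤ D := Nat.le_of_dvd h3 hp2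
    refine mem_filter.mpr ⟨mem_range.mpr (Nat.lt_ceil.mpr ?_), hp1, h6, h7⟩
    have : (p:ℝ) ≤ D := by exact_mod_cast hle
    linarith
  have h8 := sum_le_hasSum (Finset.subtype (fun D => D ∈ Nat.factoredNumbers (PG w v)) F)
    (fun i _ => by rw [hf]; positivity) h2
  have h9 : ∑ m ∈ Finset.subtype (fun D => D ∈ Nat.factoredNumbers (PG w v)) F,
      (fun m : Nat.factoredNumbers (PG w v) => f m) m = ∑ D ∈ F, (1:ℝ)/D := by
    rw [Finset.sum_subtype_of_mem (fun n : ℕ => f n) hmem]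
    apply sum_congr rfl
    intro D _
    rw [hf, one_div]
  rw [h9] at h8
  exact h8

/-- possible q -/
noncomputable def QD (C x : ℝ) (D : ℕ) : Finset ℕ :=
  (Icc 1 ⌊C * x⌋₊).filter
    (fun q : ℕ => q.Prime ∧ q % 4 = 3 ∧ x ^ (0.48 : ℝ) ≤ (q : ℝ) ∧ (q : ℝ) ^ 2 * D ≤ C * x)

/-- possible D -/
noncomputable def SD (C x w : ℝ) : Finset ℕ :=
  (Icc 1 ⌊C * x⌋₊).filter
    (fun D : ℕ => (∀ r : ℕ, r.Prime → r ∣ D → r % 4 = 1 ∧ w ≤ (r : ℝ)) ∧
      x ^ (0.96 : ℝ) * D ≤ C * x)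

noncomputable def bb (j : ℕ) : ℝ := Real.log ((1.0001 - 0.005 * j) / 0.96) / 2 + 0.0001

theorem inner (C x : ℝ) (hx : 1 ≤ x) (hx2 : C * x < x ^ (1.0001 : ℝ))
    (hM : ∀ U : ℝ, 1 ≤ U → U ≤ 2 →
      ∑ p ∈ PB (x ^ (0.48:ℝ)) ((x ^ (0.48:ℝ)) ^ U), 1 / ((p : ℝ) - 1) ≤ Real.log U / 2 + 0.0001)
    (δ : ℝ) (h0 : 0 ≤ δ) (h1 : δ ≤ 0.04) (D : ℕ) (hD : x ^ δ ≤ (D : ℝ)) :
    ∑ q ∈ QD C x D, (1:ℝ) / q ≤ Real.log ((1.0001 - δ) / 0.96) / 2 + 0.0001 := by
  have hx0 : 0 < x := by linarith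
  refine le_trans ?_ (hM ((1.0001 - δ) / 0.96) ?_ ?_)
  · have hsub : QD C x D ⊆ PB (x ^ (0.48:ℝ)) ((x ^ (0.48:ℝ)) ^ ((1.0001 - δ) / 0.96)) := by
      intro q hq
      obtain ⟨h3, h4, h5, h6, h7⟩ := mem_filter.mp hq
      refine mem_filter.mpr ⟨mem_range.mpr (Nat.lt_ceil.mpr ?_), h4, h5, h6⟩
      rw [← Real.rpow_mul hx0.le]
      have e1 : (0.48:ℝ) * ((1.0001 - δ) / 0.96) = (1.0001 - δ) / 2 := by ring
      rw [e1]
      have h8 : (q:ℝ) ^ 2 * x ^ δ < x ^ (1.0001:ℝ) := by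
        have : (q:ℝ) ^ 2 * x ^ δ ≤ (q:ℝ) ^ 2 * D :=
          mul_le_mul_of_nonneg_left hD (by positivity)
        linarith
      have h9 : x ^ (1.0001:ℝ) = (x ^ ((1.0001 - δ) / 2)) ^ 2 * x ^ δ := by
        rw [← Real.rpow_natCast (x ^ ((1.0001 - δ) / 2)) 2, ← Real.rpow_mul hx0.le,
          ← Real.rpow_add hx0]
        congr 1
        push_cast
        ring
      rw [h9] at h8
      have h10 : (q:ℝ) ^ 2 < (x ^ ((1.0001 - δ) / 2)) ^ 2 :=
        lt_of_mul_lt_mul_right h8 (by positivity)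
      exact lt_of_pow_lt_pow_left₀ 2 (by positivity) h10
    refine le_trans (sum_le_sum (f := fun q : ℕ => (1:ℝ)/q) (g := fun q : ℕ => 1/((q:ℝ) - 1)) ?_)
      (sum_le_sum_of_subset_of_nonneg hsub ?_)
    · intro q hq
      obtain ⟨h3, h4, h5, h6, h7⟩ := mem_filter.mp hq
      have : (2:ℝ) ≤ q := by exact_mod_cast h4.two_le
      show (1:ℝ)/q ≤ 1/((q:ℝ) - 1)
      apply one_div_le_one_div_of_le <;> linarith
    · intro q hq _
      have h4 := (mem_filter.mp hq).2.1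
      have : (2:ℝ) ≤ q := by exact_mod_cast h4.two_le
      have : (0:ℝ) < (q:ℝ) - 1 := by linarith
      positivity
  · rw [le_div_iff₀ (by norm_num)]; linarith
  · rw [div_le_iff₀ (by norm_num)]; linarith

theorem split (C x w : ℝ) (hC : 1 ≤ C) (hx : 1 ≤ x) :
    ∑ k ∈ KK C x w, (1:ℝ) / k ≤ ∑ D ∈ SD C x w, (1:ℝ)/D * ∑ q ∈ QD C x D, (1:ℝ) / q := by
  have hsub : KK C x w ⊆ ((SD C x w).sigma (fun D => QD C x D)).image
      (fun a : (Σ _ : ℕ, ℕ) => a.2 * a.1) := by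
    intro k hk
    obtain ⟨h1, q, D, h2, h3, h4, h5, h6, h7, h8⟩ := mem_filter.mp hk
    rw [mem_image]
    have hq1 : 1 ≤ q := h3.one_lt.le
    have hx2 : (0:ℝ) ≤ C * x := by positivity
    rw [mem_Icc] at h1
    have hk2 : ((q * k : ℕ) : ℝ) = (q:ℝ)^2 * D := by rw [h2]; push_cast; ring
    rw [hk2] at h6
    have hD1 : (1:ℝ) ≤ D := by exact_mod_cast h7
    have hqr : (1:ℝ) ≤ q := by exact_mod_cast hq1
    refine ⟨⟨D, q⟩, mem_sigma.mpr ⟨mem_filter.mpr ⟨mem_Icc.mpr ⟨h7, Nat.le_floor ?_⟩, h8, ?_⟩,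
      mem_filter.mpr ⟨mem_Icc.mpr ⟨hq1, Nat.le_floor ?_⟩, h3, h4, h5, h6⟩⟩, h2.symm⟩
    · show (D:ℝ) ≤ C * x
      have h20 : (1:ℝ) ≤ (q:ℝ)^2 := one_le_pow₀ hqr
      have h21 : (D:ℝ) ≤ (q:ℝ)^2 * D := le_mul_of_one_le_left (by linarith) h20
      linarith
    · have h9 : x ^ (0.96:ℝ) = (x ^ (0.48:ℝ)) ^ 2 := by
        rw [← Real.rpow_natCast (x ^ (0.48:ℝ)) 2, ← Real.rpow_mul (by linarith)]
        norm_num
      rw [h9]
      have h10 : (x ^ (0.48:ℝ)) ^ 2 ≤ (q:ℝ) ^ 2 :=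
        pow_le_pow_left₀ (by positivity) h5 2
      have h11 : (x ^ (0.48:ℝ)) ^ 2 * D ≤ (q:ℝ) ^ 2 * D :=
        mul_le_mul_of_nonneg_right h10 (by positivity)
      exact le_trans h11 h6
    · show (q:ℝ) ≤ C * x
      have h20 : (q:ℝ) ≤ (q:ℝ)^2 := by nlinarith
      have h21 : (q:ℝ)^2 ≤ (q:ℝ)^2 * D := le_mul_of_one_le_right (by positivity) hD1
      linarith
  refine le_trans (sum_le_sum_of_subset_of_nonneg hsub (fun k _ _ => by positivity)) ?_
  refine le_trans (sum_image_le_of_nonneg (s := (SD C x w).sigma (fun D => QD C x D))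
    (g := fun a : (Σ _ : ℕ, ℕ) => a.2 * a.1) (f := fun k : ℕ => (1:ℝ)/k)
    (fun k _ => by positivity)) ?_
  rw [sum_sigma]
  apply le_of_eq
  apply sum_congr rfl
  intro D _
  rw [mul_sum]
  apply sum_congr rfl
  intro q _
  push_cast
  rw [one_div, mul_inv, one_div, one_div, mul_comm]

theorem bb_anti (j : ℕ) (hj : j < 8) : bb (j+1) ≤ bb j ∧ bb j - bb (j+1) ≤ 0.002605 := by
  have hj1 : (j:ℝ) + 1 ≤ 8 := by exact_mod_cast hj
  have hj0 : (0:ℝ) ≤ j := by positivity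
  unfold bb
  push_cast
  have ha : (0:ℝ) < (1.0001 - 0.005 * ((j:ℝ)+1)) / 0.96 := by
    apply div_pos _ (by norm_num); linarith
  have hb : (0:ℝ) < (1.0001 - 0.005 * (j:ℝ)) / 0.96 := by
    apply div_pos _ (by norm_num); linarith
  constructor
  · have : Real.log ((1.0001 - 0.005 * ((j:ℝ)+1)) / 0.96) ≤
        Real.log ((1.0001 - 0.005 * (j:ℝ)) / 0.96) := by
      apply Real.log_le_log ha
      apply div_le_div_of_nonneg_right _ (by norm_num)
      linarith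
    linarith
  · have h1 : Real.log ((1.0001 - 0.005 * (j:ℝ)) / 0.96) -
        Real.log ((1.0001 - 0.005 * ((j:ℝ)+1)) / 0.96) ≤
        ((1.0001 - 0.005 * (j:ℝ)) / 0.96) / ((1.0001 - 0.005 * ((j:ℝ)+1)) / 0.96) - 1 := by
      rw [← Real.log_div hb.ne' ha.ne']
      exact Real.log_le_sub_one_of_pos (div_pos hb ha)
    have h2 : ((1.0001 - 0.005 * (j:ℝ)) / 0.96) / ((1.0001 - 0.005 * ((j:ℝ)+1)) / 0.96) - 1 ≤
        0.00521 := by
      rw [div_div_div_cancel_right₀ (by norm_num), sub_le_iff_le_add, div_le_iff₀ (by linarith)]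
      linarith
    linarith

theorem bb8 : bb 8 ≤ 0.000153 := by
  unfold bb
  have h : Real.log ((1.0001 - 0.005 * ((8:ℕ):ℝ)) / 0.96) ≤ 0.000105 := by
    have := Real.log_le_sub_one_of_pos (x := (1.0001 - 0.005 * ((8:ℕ):ℝ)) / 0.96) (by norm_num)
    refine le_trans this ?_
    norm_num
  linarith

theorem bb8n : 0 ≤ bb 8 := by
  unfold bb
  have h : 0 ≤ Real.log ((1.0001 - 0.005 * ((8:ℕ):ℝ)) / 0.96) := by
    apply Real.log_nonneg
    norm_num
  linarith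

noncomputable def sqj (j : ℕ) : ℝ := Real.sqrt (0.005 * ((j:ℝ) + 1))

theorem sqs : ∑ j ∈ range 8, sqj j ≤ 1.1532 ∧ sqj 8 ≤ 0.2122 := by
  have h : ∀ (j : ℕ) (a : ℝ), 0 ≤ a → 0.005 * ((j:ℝ) + 1) ≤ a ^ 2 → sqj j ≤ a := by
    intro j a ha h1
    unfold sqj
    exact Real.sqrt_le_iff.mpr ⟨ha, h1⟩
  have h0 := h 0 0.07072 (by norm_num) (by norm_num)
  have h1 := h 1 0.1 (by norm_num) (by norm_num)
  have h2 := h 2 0.12248 (by norm_num) (by norm_num)
  have h3 := h 3 0.14143 (by norm_num) (by norm_num)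
  have h4 := h 4 0.15812 (by norm_num) (by norm_num)
  have h5 := h 5 0.17321 (by norm_num) (by norm_num)
  have h6 := h 6 0.18709 (by norm_num) (by norm_num)
  have h7 := h 7 0.2 (by norm_num) (by norm_num)
  have h8 := h 8 0.21214 (by norm_num) (by norm_num)
  constructor
  · simp only [sum_range_succ, sum_range_zero]
    linarith
  · linarith

theorem growth (C : ℝ) : ∀ᶠ x : ℝ in atTop, C * x < x ^ (1.0001 : ℝ) := by
  have h1 : Tendsto (fun x : ℝ => x ^ (0.0001:ℝ)) atTop atTop := tendsto_rpow_atTop (by norm_num)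
  filter_upwards [h1.eventually_gt_atTop C, eventually_ge_atTop 2] with x hx hx2
  have h2 : x ^ (1.0001:ℝ) = x * x ^ (0.0001:ℝ) := by
    have : (1.0001:ℝ) = 1 + 0.0001 := by norm_num
    rw [this, Real.rpow_add (by linarith), Real.rpow_one]
  rw [h2, mul_comm C x]
  exact mul_lt_mul_of_pos_left hx (by linarith)

end KSUM_

open KSUM_ in
theorem ksum (h1 : MERT) (h2 : WBD) : KSUM := by
  intro C hC
  refine ⟨0.005, by norm_num, ?_⟩
  intro c hc0 hc1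
  have hz : Tendsto (fun x : ℝ => x ^ (0.48:ℝ)) atTop atTop := tendsto_rpow_atTop (by norm_num)
  have hM := hz.eventually (h1 2 (by norm_num) 0.0001 (by norm_num))
  have hW := h2 0.01 (by norm_num) c hc0 (by linarith)
  filter_upwards [hM, hW, growth C, eventually_ge_atTop 2] with x hM hW hx2 hx
  have hx0 : 0 < x := by linarith
  have hM' : ∀ U : ℝ, 1 ≤ U → U ≤ 2 →
      ∑ p ∈ PB (x ^ (0.48:ℝ)) ((x ^ (0.48:ℝ)) ^ U), 1 / ((p : ℝ) - 1) ≤
        Real.log U / 2 + 0.0001 := by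
    intro U hU1 hU2
    have := (abs_le.mp (hM U hU1 hU2).1).2
    linarith
  have hin := inner C x (by linarith) hx2 hM'
  refine le_trans (split C x (x ^ c) hC (by linarith)) ?_
  let T : ℕ → ℝ := fun j => x ^ (0.005 * ((j:ℝ) + 1))
  -- inner bound
  have hb : ∀ D ∈ SD C x (x ^ c), ∑ q ∈ QD C x D, (1:ℝ) / q ≤
      bb 8 + ∑ j ∈ range 8, (bb j - bb (j+1)) * (if (D:ℝ) < T j then 1 else 0) := by
    intro D hD
    obtain ⟨h3, h4, h5⟩ := mem_filter.mp hD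
    have hD1 : (1:ℝ) ≤ D := by exact_mod_cast (mem_Icc.mp h3).1
    apply bins bb T 8 (fun j hj => (bb_anti j hj).1) _ _ _ _ 8 le_rfl
    · have := hin 0 le_rfl (by norm_num) D (by rw [Real.rpow_zero]; exact hD1)
      unfold bb
      simpa using this
    · intro j hj hT
      have hj1 : (j:ℝ) + 1 ≤ 8 := by exact_mod_cast hj
      have hj0 : (0:ℝ) ≤ j := by positivity
      have := hin (0.005 * ((j:ℝ) + 1)) (by positivity) (by linarith) D hT
      unfold bb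
      push_cast
      exact this
  have hsum : ∑ D ∈ SD C x (x ^ c), (1:ℝ)/D * ∑ q ∈ QD C x D, (1:ℝ) / q ≤
      bb 8 * ∑ D ∈ SD C x (x ^ c), (1:ℝ)/D +
      ∑ j ∈ range 8, (bb j - bb (j+1)) *
        ∑ D ∈ (SD C x (x ^ c)).filter (fun D : ℕ => (D:ℝ) < T j), (1:ℝ)/D := by
    refine le_trans (sum_le_sum (fun D hD => mul_le_mul_of_nonneg_left (hb D hD)
      (by positivity))) ?_
    apply le_of_eq
    have e : ∀ j, (bb j - bb (j+1)) *
        ∑ D ∈ (SD C x (x ^ c)).filter (fun D : ℕ => (D:ℝ) < T j), (1:ℝ)/D =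
        ∑ D ∈ SD C x (x ^ c), (1:ℝ)/D * ((bb j - bb (j+1)) * (if (D:ℝ) < T j then 1 else 0)) := by
      intro j
      rw [sum_filter, mul_sum]
      apply sum_congr rfl
      intro D _
      split_ifs <;> ring
    simp_rw [e]
    rw [sum_comm, mul_sum, ← sum_add_distrib]
    apply sum_congr rfl
    intro D _
    rw [mul_add, mul_sum]
    ring
  refine le_trans hsum ?_
  -- Euler products
  have hE : ∀ j : ℕ, j ≤ 8 → ∀ F : Finset ℕ, F ⊆ SD C x (x ^ c) → (∀ D ∈ F, (D:ℝ) < T j) →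
      ∑ D ∈ F, (1:ℝ)/D ≤ 1.01 * (sqj j / Real.sqrt c) := by
    intro j hj F hF hFT
    have hj1 : (j:ℝ) ≤ 8 := by exact_mod_cast hj
    have hj0 : (0:ℝ) ≤ j := by positivity
    have h10 := euler (x ^ c) (T j) F (by
      intro D hD
      obtain ⟨h3, h4, h5⟩ := mem_filter.mp (hF hD)
      exact ⟨(mem_Icc.mp h3).1, hFT D hD, h4⟩)
    have h11 := hW (0.005 * ((j:ℝ) + 1)) (by linarith) (by linarith)
    refine le_trans h10 (le_trans h11 ?_)
    rw [Real.sqrt_div (by positivity)]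
    unfold sqj
    norm_num
  have hall : ∀ D ∈ SD C x (x ^ c), (D:ℝ) < T 8 := by
    intro D hD
    obtain ⟨h3, h4, h5⟩ := mem_filter.mp hD
    have h6 : x ^ (0.96:ℝ) * D < x ^ (0.96:ℝ) * T 8 := by
      refine lt_of_le_of_lt h5 (lt_of_lt_of_le hx2 ?_)
      show x ^ (1.0001:ℝ) ≤ x ^ (0.96:ℝ) * x ^ (0.005 * (((8:ℕ):ℝ) + 1))
      rw [← Real.rpow_add hx0]
      apply Real.rpow_le_rpow_of_exponent_le (by linarith)
      norm_num
    exact lt_of_mul_lt_mul_left h6 (by positivity)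
  have hs : 0 < Real.sqrt c := Real.sqrt_pos.mpr hc0
  have h20 := hE 8 le_rfl _ (Finset.Subset.refl _) hall
  have h21 : ∀ j ∈ range 8, (bb j - bb (j+1)) *
        ∑ D ∈ (SD C x (x ^ c)).filter (fun D : ℕ => (D:ℝ) < T j), (1:ℝ)/D ≤
        0.002605 * (1.01 * (sqj j / Real.sqrt c)) := by
    intro j hj
    have hj8 := mem_range.mp hj
    have h22 := hE j hj8.le ((SD C x (x ^ c)).filter (fun D : ℕ => (D:ℝ) < T j))
      (filter_subset _ _) (fun D hD => (mem_filter.mp hD).2)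
    have h23 : (0:ℝ) ≤ ∑ D ∈ (SD C x (x ^ c)).filter (fun D : ℕ => (D:ℝ) < T j), (1:ℝ)/D :=
      sum_nonneg (fun D _ => by positivity)
    exact mul_le_mul (bb_anti j hj8).2 h22 h23 (by norm_num)
  have h24 : bb 8 * ∑ D ∈ SD C x (x ^ c), (1:ℝ)/D ≤ 0.000153 * (1.01 * (sqj 8 / Real.sqrt c)) :=
    mul_le_mul bb8 h20 (sum_nonneg (fun D _ => by positivity)) (by norm_num)
  refine le_trans (add_le_add h24 (sum_le_sum h21)) ?_
  rw [← mul_sum, ← mul_sum, ← sum_div, le_div_iff₀ hs]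
  have h25 : (0.000153 * (1.01 * (sqj 8 / Real.sqrt c)) +
      0.002605 * (1.01 * ((∑ j ∈ range 8, sqj j) / Real.sqrt c))) * Real.sqrt c =
      0.000153 * (1.01 * sqj 8) + 0.002605 * (1.01 * (∑ j ∈ range 8, sqj j)) := by
    field_simp
  rw [h25]
  obtain ⟨h26, h27⟩ := sqs
  nlinarith

end Pool.Agent.H95R2.TG
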