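import Mathlib
import Pool.Agent.H95R2.TG.Defs

set_option autoImplicit false

open Finset Filter

namespace Pool.Agent.H95R2.TG

open Pool.Agent.H95R2.TI (VM AP DD FS fS cA Lg hk VML ROU II1 II2 LIP TOPN)
open scoped Classical

namespace F3

theorem mod_one : ∀ m : ℕ, 0 < m → (∀ r : ℕ, r.Prime → r ∣ m → r % 4 = 1) → m % 4 = 1 := by
  intro m
  induction m using Nat.strong_induction_on with
  | _ m ih =>
    intro hm h
    rcases eq_or_ne m 1 with h1 | h1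
    · rw [h1]
    · have hp := Nat.minFac_prime h1
      obtain ⟨c, hc⟩ := Nat.minFac_dvd m
      have hc0 : 0 < c := by
        rcases Nat.eq_zero_or_pos c with h0 | h0
        · rw [h0] at hc
          omega
        · exact h0
      have hcm : c < m := by
        have h2 := hp.two_le
        calc c < 2 * c := by omega
          _ ≤ m.minFac * c := Nat.mul_le_mul_right _ h2
          _ = m := hc.symm
      have h3 := ih c hcm hc0 (fun r hr hrc => h r hr (hc ▸ hrc.mul_left _))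
      have h4 := h _ hp (Nat.minFac_dvd m)
      rw [hc, Nat.mul_mod, h3, h4]

theorem mod_three {r : ℕ} (hr : r.Prime) (h5 : 5 < (r : ℝ)) (h : r % 4 ≠ 1) : r % 4 = 3 := by
  have h5' : 5 < r := by exact_mod_cast h5
  have h2 : ¬ 2 ∣ r := by
    intro hd
    rcases (Nat.dvd_prime hr).1 hd with h | h <;> omega
  omega

theorem numeric {x C1 : ℝ} (hC : 1 ≤ C1) (hx : C1 ^ 3 < x) :
    C1 * x < x ^ (0.48 : ℝ) * x ^ (0.48 : ℝ) * x ^ (0.48 : ℝ) := by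
  have hC3 : 0 < C1 ^ 3 := by positivity
  have h0 : 0 < x := hC3.trans hx
  have h1 : x ^ (0.48 : ℝ) * x ^ (0.48 : ℝ) * x ^ (0.48 : ℝ) = x * x ^ (0.44 : ℝ) := by
    rw [← Real.rpow_add h0, ← Real.rpow_add h0]
    nth_rewrite 2 [← Real.rpow_one x]
    rw [← Real.rpow_add h0]
    norm_num
  have h2 : C1 < x ^ (0.44 : ℝ) := by
    calc C1 = C1 ^ (1 : ℝ) := (Real.rpow_one _).symm
      _ ≤ C1 ^ ((3 : ℝ) * 0.44) := Real.rpow_le_rpow_of_exponent_le hC (by norm_num)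
      _ = (C1 ^ 3) ^ (0.44 : ℝ) := by
          rw [Real.rpow_mul (by linarith)]
          norm_num
      _ < x ^ (0.44 : ℝ) := Real.rpow_lt_rpow hC3.le hx (by norm_num)
  rw [h1]
  nlinarith

theorem main {C x w : ℝ} {n r r' E : ℕ}
    (hnx : (n : ℝ) ≤ C * x) (hn : n = r * r' * E) (hr : r.Prime) (hr' : r'.Prime)
    (hr5 : r % 4 = 3) (hle : r ≤ r') (hrx : x ^ (0.48 : ℝ) ≤ (r : ℝ))
    (hrx' : x ^ (0.48 : ℝ) ≤ (r' : ℝ))
    (hE : 0 < E) (hE1 : ∀ s : ℕ, s.Prime → s ∣ E → s % 4 = 1 ∧ w ≤ (s : ℝ))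
    (hall : ∀ s : ℕ, s.Prime → s ∣ n → w ≤ (s : ℝ)) :
    ∃ k ∈ KK C x w, (∀ r : ℕ, r.Prime → r ∣ k → w ≤ (r : ℝ)) ∧ k ∣ n ∧ (n / k).Prime ∧
      x ^ (0.48 : ℝ) ≤ ((n / k : ℕ) : ℝ) := by
  have hk : r * E * r' = n := by rw [hn]; ring
  have hkpos : 0 < r * E := Nat.mul_pos hr.pos hE
  have hdiv : n / (r * E) = r' := by
    rw [← hk]
    exact Nat.mul_div_cancel_left _ hkpos
  refine ⟨r * E, ?_, ?_, ⟨r', hk.symm⟩, ?_, ?_⟩
  · unfold KK
    rw [mem_filter, mem_Icc]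
    refine ⟨⟨hkpos, Nat.le_floor ?_⟩, r, E, rfl, hr, hr5, hrx, ?_, hE, hE1⟩
    · have h1 : r * E ≤ n := by
        rw [← hk]
        exact Nat.le_mul_of_pos_right _ hr'.pos
      calc ((r * E : ℕ) : ℝ) ≤ (n : ℝ) := by exact_mod_cast h1
        _ ≤ C * x := hnx
    · have h1 : r * (r * E) ≤ n := by
        rw [← hk, mul_comm]
        exact Nat.mul_le_mul_left _ hle
      calc ((r * (r * E) : ℕ) : ℝ) ≤ (n : ℝ) := by exact_mod_cast h1
        _ ≤ C * x := hnx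
  · intro s hs hsk
    exact hall s hs (hk ▸ hsk.mul_right _)
  · rw [hdiv]; exact hr'
  · rw [hdiv]; exact hrx'

end F3

open F3 in
theorem par : PAR := by
  intro D hD
  obtain ⟨ha, hb, hg, hQ, h12, hcop, hpr, hgood⟩ := hD
  have ha1 : (1 : ℝ) ≤ (D.a : ℝ) := by exact_mod_cast ha
  have hb0 : (0 : ℝ) ≤ (D.b.natAbs : ℝ) := Nat.cast_nonneg _
  set C1 : ℝ := (D.a : ℝ) + (D.b.natAbs : ℝ) + 1 with hC1
  have hC1' : 1 ≤ C1 := by rw [hC1]; linarith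
  have hC3 : C1 ≤ C1 ^ 3 := by
    have : 1 ≤ C1 ^ 2 := one_le_pow₀ hC1'
    nlinarith
  refine ⟨C1 ^ 3 + 2 * (D.b.natAbs : ℝ) + 8, by linarith, ?_⟩
  intro x w hx hw hwx p hp hq
  have hx3 : C1 ^ 3 < x := by linarith
  have hx1 : 1 ≤ x := by linarith
  unfold AA PX at hp
  rw [mem_filter, mem_filter, mem_Icc] at hp
  obtain ⟨⟨⟨hp1, hpx⟩, hpp, hpx2, hpm⟩, hall⟩ := hp
  have hpx' : (p : ℝ) ≤ x := (Nat.le_floor_iff (by linarith)).1 hpx
  have hbp : D.b.natAbs < p := by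
    have : (D.b.natAbs : ℝ) < (p : ℝ) := by linarith
    exact_mod_cast this
  obtain ⟨hgn, -, hn4⟩ := hgood p hpm hbp
  obtain ⟨n, hndef⟩ : ∃ n, n = nn D p := ⟨_, rfl⟩
  rw [← hndef] at hgn hn4 hall hq ⊢
  have hnx1 : (n : ℝ) ≤ C1 * x := by
    have h1 : (D.g : ℝ) * (n : ℝ) = (D.a : ℝ) * (p : ℝ) + (D.b : ℝ) := by exact_mod_cast hgn
    have h2 : (n : ℝ) ≤ (D.g : ℝ) * (n : ℝ) := by
      have hg1 : (1 : ℝ) ≤ (D.g : ℝ) := by exact_mod_cast hg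
      have hn0 : (0 : ℝ) ≤ (n : ℝ) := Nat.cast_nonneg _
      nlinarith
    have h3 : (D.b : ℝ) ≤ (D.b.natAbs : ℝ) := by
      rw [Nat.cast_natAbs]
      exact_mod_cast le_abs_self D.b
    have h4 : (D.a : ℝ) * (p : ℝ) ≤ (D.a : ℝ) * x := mul_le_mul_of_nonneg_left hpx' (by linarith)
    have h5 : (D.b.natAbs : ℝ) ≤ (D.b.natAbs : ℝ) * x := le_mul_of_one_le_right hb0 hx1
    rw [hC1]
    nlinarith
  have hnx : (n : ℝ) ≤ (C1 ^ 3 + 2 * (D.b.natAbs : ℝ) + 8) * x := by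
    refine hnx1.trans (mul_le_mul_of_nonneg_right ?_ (by linarith))
    linarith
  by_cases h : ∀ r : ℕ, r.Prime → r ∣ n → r % 4 = 1
  · exact Or.inl h
  right
  have key : ∀ s : ℕ, s.Prime → s ∣ n → s % 4 ≠ 1 → s % 4 = 3 ∧ x ^ (0.48 : ℝ) ≤ (s : ℝ) := by
    intro s hs hsn hs1
    have h1 := hall s hs hsn
    have h2 := mod_three hs (lt_of_lt_of_le hw h1) hs1
    refine ⟨h2, ?_⟩
    by_contra hlt
    refine hq s ?_ hsn
    unfold PB
    rw [mem_filter, mem_range, Nat.lt_ceil]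
    exact ⟨not_le.1 hlt, hs, h2, h1⟩
  push Not at h
  obtain ⟨r, hr, ⟨m, hm⟩, hr1⟩ := h
  obtain ⟨hr5, hrx⟩ := key r hr ⟨m, hm⟩ hr1
  have hm5 : m % 4 = 3 := by
    have h1 : n % 4 = 1 := hn4
    rw [hm, Nat.mul_mod, hr5] at h1
    have h2 : m % 4 < 4 := Nat.mod_lt _ (by norm_num)
    interval_cases m % 4 <;> simp_all
  have h2 : ∃ r' : ℕ, r'.Prime ∧ r' ∣ m ∧ r' % 4 ≠ 1 := by
    by_contra hcon
    push Not at hcon
    have := mod_one m (by omega) hcon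
    omega
  obtain ⟨r', hr', ⟨E, hE⟩, hr1'⟩ := h2
  have hn : n = r * r' * E := by rw [hm, hE]; ring
  obtain ⟨hr5', hrx'⟩ := key r' hr' ⟨r * E, by rw [hn]; ring⟩ hr1'
  have hE0 : 0 < E := by
    rcases Nat.eq_zero_or_pos E with h0 | h0
    · rw [h0] at hn
      omega
    · exact h0
  have hEs : ∀ s : ℕ, s.Prime → s ∣ E → s % 4 = 1 ∧ w ≤ (s : ℝ) := by
    intro s hs hsE
    have hsn : s ∣ n := hn ▸ hsE.mul_left _
    refine ⟨?_, hall s hs hsn⟩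
    by_contra hs1
    obtain ⟨_, hsx⟩ := key s hs hsn hs1
    obtain ⟨F, hF⟩ := hsE
    have hF0 : 1 ≤ F := by
      rcases Nat.eq_zero_or_pos F with h0 | h0
      · rw [h0] at hF
        omega
      · exact h0
    have h3 : r * r' * s ≤ n := by
      rw [hn, hF]
      exact Nat.mul_le_mul_left _ (Nat.le_mul_of_pos_right _ hF0)
    have h4 : (r : ℝ) * r' * s ≤ C1 * x := by
      calc (r : ℝ) * r' * s = ((r * r' * s : ℕ) : ℝ) := by push_cast; ring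
        _ ≤ (n : ℝ) := by exact_mod_cast h3
        _ ≤ C1 * x := hnx1
    have h5 := numeric hC1' hx3
    have h6 : 0 < x ^ (0.48 : ℝ) := Real.rpow_pos_of_pos (by linarith) _
    have h7 : x ^ (0.48 : ℝ) * x ^ (0.48 : ℝ) * x ^ (0.48 : ℝ) ≤ (r : ℝ) * r' * s := by
      gcongr
    linarith
  rcases le_total r r' with hle | hle
  · exact main hnx hn hr hr' hr5 hle hrx hrx' hE0 hEs hall
  · exact main hnx (by rw [hn]; ring) hr' hr hr5' hle hrx' hrx hE0 hEs hall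

end Pool.Agent.H95R2.TG
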