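import Mathlib
import Pool.Agent.H95R2.TG.Defs

set_option autoImplicit false

open Finset Filter

namespace Pool.Agent.H95R2.TG

open Pool.Agent.H95R2.TI (VM AP DD FS fS cA Lg hk VML ROU II1 II2 LIP TOPN)
open scoped Classical

namespace BAD_

theorem SG_nonneg (Q : ℕ) (w : ℝ) : 0 ≤ SG Q w := by
  unfold SG
  refine Finset.prod_nonneg fun p hp => ?_
  have h2 : 2 ≤ p := ((Finset.mem_filter.1 hp).2.1).two_le
  have h2' : (2 : ℝ) ≤ p := by exact_mod_cast h2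
  have : 0 ≤ (p : ℝ) * (p - 2) := mul_nonneg (by linarith) (by linarith)
  exact div_nonneg this (sq_nonneg _)

theorem qf_nonneg (Q : ℕ) : 0 ≤ qf Q := by
  unfold qf
  positivity

/-- the index set of `k` -/
noncomputable def K1 (C x w : ℝ) : Finset ℕ :=
  (KK C x w).filter (fun k : ℕ => ∀ r : ℕ, r.Prime → r ∣ k → w ≤ (r : ℝ))

theorem count (D : Dat) (C : ℝ) (h3 : ∀ x w : ℝ, C ≤ x → 5 < w →
    w ≤ x ^ (0.48 : ℝ) → ∀ p : ℕ, p ∈ AA D x w →
    (∀ q ∈ PB w (x ^ (0.48 : ℝ)), ¬ q ∣ nn D p) →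
    (∀ r : ℕ, r.Prime → r ∣ nn D p → r % 4 = 1) ∨
    ∃ k ∈ KK C x w, (∀ r : ℕ, r.Prime → r ∣ k → w ≤ (r : ℝ)) ∧ k ∣ nn D p ∧
      (nn D p / k).Prime ∧ x ^ (0.48 : ℝ) ≤ ((nn D p / k : ℕ) : ℝ))
    (x c : ℝ) (hx : C ≤ x) (hw : 5 < x ^ c) (hwu : x ^ c ≤ x ^ (0.48 : ℝ)) :
    SS D x (x ^ c) 1 (x ^ (0.48 : ℝ)) ≤ ((GP D x c).card : ℝ) +
      ∑ k ∈ K1 C x (x ^ c), PC D x k := by
  have hsub : (AA D x (x ^ c)).filter (fun p : ℕ => 1 ∣ nn D p ∧
      ∀ q ∈ PB (x ^ c) (x ^ (0.48 : ℝ)), ¬ q ∣ nn D p) ⊆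
      GP D x c ∪ (K1 C x (x ^ c)).biUnion (fun k =>
        (PX D x).filter (fun p : ℕ => k ∣ nn D p ∧ (nn D p / k).Prime)) := by
    intro p hp
    rw [Finset.mem_filter] at hp
    obtain ⟨hpA, -, hpq⟩ := hp
    have hpA' := hpA
    unfold AA at hpA
    rw [Finset.mem_filter] at hpA
    obtain ⟨hpX, hpr⟩ := hpA
    rw [Finset.mem_union]
    rcases h3 x (x ^ c) hx hw hwu p hpA' hpq with h | ⟨k, hk, hkr, hkd, hkp, -⟩
    · left
      unfold GP
      rw [Finset.mem_filter]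
      refine ⟨hpX, fun r hr => ?_⟩
      have hr' := Nat.prime_of_mem_primeFactors hr
      have hr'' := Nat.dvd_of_mem_primeFactors hr
      exact ⟨h r hr' hr'', hpr r hr' hr''⟩
    · right
      rw [Finset.mem_biUnion]
      refine ⟨k, ?_, ?_⟩
      · unfold K1
        rw [Finset.mem_filter]
        exact ⟨hk, hkr⟩
      · rw [Finset.mem_filter]
        exact ⟨hpX, hkd, hkp⟩
  have hcard := Finset.card_le_card hsub
  have hcard2 := hcard.trans ((Finset.card_union_le _ _).trans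
    (Nat.add_le_add_left Finset.card_biUnion_le _))
  unfold SS
  have hcard3 : (((AA D x (x ^ c)).filter (fun p : ℕ => 1 ∣ nn D p ∧
      ∀ q ∈ PB (x ^ c) (x ^ (0.48 : ℝ)), ¬ q ∣ nn D p)).card : ℝ) ≤
      ((GP D x c).card + ∑ k ∈ K1 C x (x ^ c),
        ((PX D x).filter (fun p : ℕ => k ∣ nn D p ∧ (nn D p / k).Prime)).card : ℕ) := by
    exact_mod_cast hcard2
  refine hcard3.trans ?_
  push_cast
  unfold PC
  exact le_rfl

end BAD_

theorem bad (h1 : PAIR) (h2 : KSUM) (h3 : PAR) : BAD := by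
  intro D hD ε hε
  obtain ⟨C, hC1, H3⟩ := h3 D hD
  obtain ⟨c1, hc1, H1⟩ := h1 D hD (1 / 200) (by norm_num)
  obtain ⟨c2, hc2, H2⟩ := h2 C hC1
  refine ⟨min (min c1 c2) 0.48, by positivity, fun c hc0 hc => ?_⟩
  have hcc1 : c ≤ c1 := hc.trans ((min_le_left _ _).trans (min_le_left _ _))
  have hcc2 : c ≤ c2 := hc.trans ((min_le_left _ _).trans (min_le_right _ _))
  have hcc3 : c ≤ 0.48 := hc.trans (min_le_right _ _)
  have ev1 := H1 c hc0 hcc1
  have ev2 := H2 c hc0 hcc2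
  have ev3 : ∀ᶠ x : ℝ in atTop, 5 < x ^ c :=
    (tendsto_rpow_atTop hc0).eventually_gt_atTop 5
  have ev4 : ∀ᶠ x : ℝ in atTop, C ≤ x ^ (0.01 : ℝ) :=
    (tendsto_rpow_atTop (by norm_num)).eventually_ge_atTop C
  have ev5 : ∀ᶠ x : ℝ in atTop, max 1 (Real.log C / 0.00002) ≤ Real.log x :=
    Real.tendsto_log_atTop.eventually_ge_atTop _
  filter_upwards [ev1, ev2, ev3, ev4, ev5, eventually_ge_atTop (max C 100000 : ℝ)] with
    x e1 e2 e3 e4 e5' hx'
  have hxC : C ≤ x := (le_max_left _ _).trans hx'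
  have hx : (100000 : ℝ) ≤ x := (le_max_right _ _).trans hx'
  have e5 : (1 : ℝ) ≤ Real.log x := (le_max_left _ _).trans e5'
  have e6 : Real.log C / 0.00002 ≤ Real.log x := (le_max_right _ _).trans e5'
  have hx0 : 0 < x := by linarith
  have hC0 : 0 < C := by linarith
  have hwu : x ^ c ≤ x ^ (0.48 : ℝ) := Real.rpow_le_rpow_of_exponent_le (by linarith) hcc3
  have hcnt := BAD_.count D C H3 x c hxC e3 hwu
  refine hcnt.trans ?_
  gcongr
  set G := qf D.Q * SG D.Q (x ^ c) with hG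
  have hG0 : 0 ≤ G := mul_nonneg (BAD_.qf_nonneg _) (BAD_.SG_nonneg _ _)
  set L := Real.log x with hL
  have hsc : 0 < Real.sqrt c := Real.sqrt_pos.2 hc0
  -- one term
  have hterm : ∀ k ∈ BAD_.K1 C x (x ^ c), PC D x k ≤
      (4.005 / (0.23035)) * (G * (x / L ^ 2)) * (1 / k) := by
    intro k hk
    unfold BAD_.K1 at hk
    rw [Finset.mem_filter] at hk
    obtain ⟨hkK, hkr⟩ := hk
    unfold KK at hkK
    rw [Finset.mem_filter, Finset.mem_Icc] at hkK
    obtain ⟨⟨hk1, -⟩, q, E, hkqD, hq, hq6, hqx, hqk, hE, -⟩ := hkK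
    have hk0' : 0 < k := hk1
    have hk0 : (0 : ℝ) < k := by exact_mod_cast hk0'
    have hxu : 0 < x ^ (0.48 : ℝ) := Real.rpow_pos_of_pos hx0 _
    have hkx : x ^ (0.48 : ℝ) * k ≤ C * x := by
      push_cast at hqk
      nlinarith
    have hk53 : (k : ℝ) ≤ x ^ (0.53 : ℝ) := by
      have h101 : x ^ (0.48 : ℝ) * x ^ (0.53 : ℝ) = x * x ^ (0.01 : ℝ) := by
        rw [← Real.rpow_add hx0]
        have : x * x ^ (0.01 : ℝ) = x ^ (1 : ℝ) * x ^ (0.01 : ℝ) := by rw [Real.rpow_one]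
        rw [this, ← Real.rpow_add hx0]
        norm_num
      have h2x : C * x ≤ x ^ (0.48 : ℝ) * x ^ (0.53 : ℝ) := by
        rw [h101]; nlinarith
      have : x ^ (0.48 : ℝ) * k ≤ x ^ (0.48 : ℝ) * x ^ (0.53 : ℝ) := by linarith
      exact le_of_mul_le_mul_left this hxu
    have hP := e1 k hk0' hk53 hkr
    have hxk0 : 0 < x / k := by positivity
    -- lower bound of the logarithm
    have hlog : 0.48 * L - Real.log C ≤ Real.log (x / k) := by
      have ha : x ^ (0.48 : ℝ) / C ≤ x / k := by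
        rw [div_le_div_iff₀ hC0 hk0]
        linarith
      have hb : Real.log (x ^ (0.48 : ℝ) / C) ≤ Real.log (x / k) :=
        Real.log_le_log (by positivity) ha
      rw [Real.log_div hxu.ne' hC0.ne', Real.log_rpow hx0] at hb
      exact hb
    have hlog2 : 0.47998 * L ≤ Real.log (x / k) := by
      rw [div_le_iff₀ (by norm_num)] at e6
      linarith
    have hlogsq : 0.23035 * L ^ 2 ≤ Real.log (x / k) ^ 2 := by
      have h0 : 0 ≤ 0.47998 * L := by positivity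
      have := pow_le_pow_left₀ h0 hlog2 2
      nlinarith
    have hL0 : 0 < L := by linarith
    calc PC D x k ≤ (4 + 1 / 200) * qf D.Q * SG D.Q (x ^ c) * (x / k) / Real.log (x / k) ^ 2 := hP
      _ = (4 + 1 / 200) * G * (x / k) / Real.log (x / k) ^ 2 := by rw [hG]; ring
      _ ≤ (4 + 1 / 200) * G * (x / k) / (0.23035 * L ^ 2) := by
          gcongr
      _ = (4.005 / (0.23035)) * (G * (x / L ^ 2)) * (1 / k) := by
          rw [show (4 : ℝ) + 1 / 200 = 4.005 by norm_num]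
          field_simp
  have hL0 : 0 < L := by linarith
  have hA0 : 0 ≤ (4.005 / (0.23035)) * (G * (x / L ^ 2)) := by positivity
  have hsum : ∑ k ∈ BAD_.K1 C x (x ^ c), (1 : ℝ) / k ≤ 0.0031 / Real.sqrt c := by
    refine le_trans ?_ e2
    apply Finset.sum_le_sum_of_subset_of_nonneg
    · exact Finset.filter_subset _ _
    · intro i _ _
      positivity
  calc ∑ k ∈ BAD_.K1 C x (x ^ c), PC D x k ≤
      ∑ k ∈ BAD_.K1 C x (x ^ c), (4.005 / (0.23035)) * (G * (x / L ^ 2)) * (1 / k) :=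
        Finset.sum_le_sum hterm
    _ = (4.005 / (0.23035)) * (G * (x / L ^ 2)) * ∑ k ∈ BAD_.K1 C x (x ^ c), (1 : ℝ) / k := by
        rw [Finset.mul_sum]
    _ ≤ (4.005 / (0.23035)) * (G * (x / L ^ 2)) * (0.0031 / Real.sqrt c) :=
        mul_le_mul_of_nonneg_left hsum hA0
    _ = G * (x / L ^ 2) * ((4.005 / 0.23035 * 0.0031) / Real.sqrt c) := by ring
    _ ≤ G * (x / L ^ 2) * ((0.0539 + ε) / Real.sqrt c) := by
        have : (4.005 / 0.23035 * 0.0031 : ℝ) ≤ 0.0539 + ε := by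
          have : (4.005 / 0.23035 * 0.0031 : ℝ) ≤ 0.0539 := by norm_num
          linarith
        gcongr

end Pool.Agent.H95R2.TG
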