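import Mathlib
import Pool.Agent.H95R2.TG.Defs

set_option autoImplicit false

open Finset Filter

namespace Pool.Agent.H95R2.TG

open Pool.Agent.H95R2.TI (VM AP DD FS fS cA Lg hk VML ROU II1 II2 LIP TOPN)
open scoped Classical

namespace G1_

/-- the singular series is at least `3/4` -/
theorem prod_lower (N : ℕ) :
    3 / 4 * (((N : ℝ) + 4) / ((N : ℝ) + 3)) ≤
      ∏ p ∈ (range (N + 5)).filter (fun p : ℕ => p.Prime ∧ 5 ≤ p),
        ((p : ℝ) * (p - 2) / (p - 1) ^ 2) := by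
  induction N with
  | zero =>
    have h : (range (0 + 5)).filter (fun p : ℕ => p.Prime ∧ 5 ≤ p) = ∅ := by
      rw [Finset.filter_eq_empty_iff]
      intro p hp h
      rw [Finset.mem_range] at hp
      omega
    rw [h, Finset.prod_empty]
    norm_num
  | succ N ih =>
    have hr : range (N + 1 + 5) = insert (N + 5) (range (N + 5)) := by
      rw [show N + 1 + 5 = (N + 5) + 1 by ring, Finset.range_add_one]
    have hN : (0 : ℝ) ≤ (N : ℝ) := Nat.cast_nonneg N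
    have hkey : 3 / 4 * (((N : ℝ) + 4) / ((N : ℝ) + 3)) *
        (((N : ℝ) + 5) * ((N : ℝ) + 5 - 2) / ((N : ℝ) + 5 - 1) ^ 2) =
        3 / 4 * ((((N : ℝ) + 1) + 4) / (((N : ℝ) + 1) + 3)) := by
      have h3 : (N : ℝ) + 3 ≠ 0 := by positivity
      have h4 : (N : ℝ) + 4 ≠ 0 := by positivity
      have e1 : (N : ℝ) + 5 - 2 = N + 3 := by ring
      have e2 : (N : ℝ) + 5 - 1 = N + 4 := by ring
      have e3 : (N : ℝ) + 1 + 3 = N + 4 := by ring
      have e4 : (N : ℝ) + 1 + 4 = N + 5 := by ring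
      rw [e1, e2, e3, e4]
      field_simp
    have hpos : 0 ≤ 3 / 4 * (((N : ℝ) + 4) / ((N : ℝ) + 3)) := by positivity
    rw [hr, Finset.filter_insert]
    split_ifs with hp
    · rw [Finset.prod_insert (by simp)]
      push_cast
      rw [← hkey, mul_comm]
      have h0 : 0 ≤ ((N : ℝ) + 5) * ((N : ℝ) + 5 - 2) / ((N : ℝ) + 5 - 1) ^ 2 := by
        have : 0 ≤ (N : ℝ) + 5 - 2 := by linarith
        positivity
      exact mul_le_mul_of_nonneg_left ih h0
    · refine le_trans ?_ ih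
      push_cast
      rw [← hkey]
      have h1 : ((N : ℝ) + 5) * ((N : ℝ) + 5 - 2) / ((N : ℝ) + 5 - 1) ^ 2 ≤ 1 := by
        rw [div_le_one (by
          have : 0 < (N : ℝ) + 5 - 1 := by linarith
          positivity)]
        nlinarith
      exact mul_le_of_le_one_right hpos h1

theorem prod5_lower (n : ℕ) :
    1 / 2 ≤ ∏ p ∈ (range n).filter (fun p : ℕ => p.Prime ∧ 5 ≤ p),
        ((p : ℝ) * (p - 2) / (p - 1) ^ 2) := by
  rcases lt_or_ge n 5 with h | h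
  · have he : (range n).filter (fun p : ℕ => p.Prime ∧ 5 ≤ p) = ∅ := by
      rw [Finset.filter_eq_empty_iff]
      intro p hp h'
      rw [Finset.mem_range] at hp
      omega
    rw [he, Finset.prod_empty]
    norm_num
  · obtain ⟨N, hN⟩ := Nat.exists_eq_add_of_le h
    rw [hN, add_comm 5 N]
    refine le_trans ?_ (prod_lower N)
    have hN0 : (0 : ℝ) ≤ (N : ℝ) := Nat.cast_nonneg N
    have : 1 ≤ ((N : ℝ) + 4) / ((N : ℝ) + 3) := by
      rw [one_le_div (by linarith)]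
      linarith
    linarith

theorem SG_lower (Q : ℕ) (hQ : 12 ∣ Q) (w : ℝ) : 1 / 2 ≤ SG Q w := by
  unfold SG
  have hsub : SQ Q w ⊆ (range ⌈w⌉₊).filter (fun p : ℕ => p.Prime ∧ 5 ≤ p) := by
    intro p hp
    unfold SQ at hp
    rw [Finset.mem_filter] at hp ⊢
    obtain ⟨h1, h2, h3⟩ := hp
    refine ⟨h1, h2, ?_⟩
    by_contra h5
    push Not at h5
    have h2' := h2.two_le
    have h4 : p = 2 ∨ p = 3 ∨ p = 4 := by omega
    rcases h4 with rfl | rfl | rfl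
    · exact h3 ((by norm_num : 2 ∣ 12).trans hQ)
    · exact h3 ((by norm_num : 3 ∣ 12).trans hQ)
    · exact absurd h2 (by norm_num)
  have hf0 : ∀ p ∈ (range ⌈w⌉₊).filter (fun p : ℕ => p.Prime ∧ 5 ≤ p),
      0 ≤ ((p : ℝ) * (p - 2) / (p - 1) ^ 2) := by
    intro p hp
    have h5 := (Finset.mem_filter.1 hp).2.2
    have h5' : (5 : ℝ) ≤ p := by exact_mod_cast h5
    have : 0 ≤ (p : ℝ) - 2 := by linarith
    positivity
  have hf1 : ∀ p ∈ (range ⌈w⌉₊).filter (fun p : ℕ => p.Prime ∧ 5 ≤ p),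
      ((p : ℝ) * (p - 2) / (p - 1) ^ 2) ≤ 1 := by
    intro p hp
    have h5 := (Finset.mem_filter.1 hp).2.2
    have h5' : (5 : ℝ) ≤ p := by exact_mod_cast h5
    have h6 : 0 < (p : ℝ) - 1 := by linarith
    rw [div_le_one (by positivity)]
    nlinarith
  have h1 := Finset.prod_sdiff (f := fun p : ℕ => ((p : ℝ) * (p - 2) / (p - 1) ^ 2)) hsub
  have h2 : ∏ p ∈ (range ⌈w⌉₊).filter (fun p : ℕ => p.Prime ∧ 5 ≤ p) \ SQ Q w,
      ((p : ℝ) * (p - 2) / (p - 1) ^ 2) ≤ 1 :=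
    Finset.prod_le_one (fun p hp => hf0 p (Finset.mem_sdiff.1 hp).1)
      (fun p hp => hf1 p (Finset.mem_sdiff.1 hp).1)
  have h3 : 0 ≤ ∏ p ∈ SQ Q w, ((p : ℝ) * (p - 2) / (p - 1) ^ 2) :=
    Finset.prod_nonneg (fun p hp => hf0 p (hsub hp))
  have h4 := prod5_lower ⌈w⌉₊
  rw [← h1] at h4
  calc (1 / 2 : ℝ) ≤ _ := h4
    _ ≤ 1 * ∏ p ∈ SQ Q w, ((p : ℝ) * (p - 2) / (p - 1) ^ 2) :=
        mul_le_mul_of_nonneg_right h2 h3
    _ = _ := one_mul _

end G1_

theorem main_tg (h1 : LOW) (h2 : BAD) : MAIN := by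
  intro D hD
  obtain ⟨c1, hc1, H1⟩ := h1 D hD 0.003 (by norm_num)
  obtain ⟨c2, hc2, H2⟩ := h2 D hD 0.003 (by norm_num)
  obtain ⟨hDa, hDb, hDg, hDQ, hD12, _, _, _⟩ := hD
  set c0 := min c1 c2 with hc0
  have hc0pos : 0 < c0 := lt_min hc1 hc2
  have H1' := H1 c0 hc0pos (min_le_left _ _)
  have H2' := H2 c0 hc0pos (min_le_right _ _)
  have hs : 0 < Real.sqrt c0 := Real.sqrt_pos.2 hc0pos
  have hq : 0 < qf D.Q := by
    unfold qf
    have h3 : (0 : ℝ) < D.Q := by exact_mod_cast hDQ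
    have h4 : (0 : ℝ) < Nat.totient D.Q := by exact_mod_cast Nat.totient_pos.2 hDQ
    positivity
  set e : ℝ := qf D.Q * (1 / 2) * (0.0045 / Real.sqrt c0) with he
  have hepos : 0 < e := by positivity
  refine ⟨min c0 e, lt_min hc0pos hepos, ?_⟩
  filter_upwards [H1', H2', eventually_ge_atTop (1 : ℝ)] with x hx1 hx2 hx
  have hX : 0 ≤ x / Real.log x ^ 2 := by positivity
  have hsub : ((GP D x c0).card : ℝ) ≤ ((GP D x (min c0 e)).card : ℝ) := by
    have hle : x ^ (min c0 e) ≤ x ^ c0 :=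
      Real.rpow_le_rpow_of_exponent_le hx (min_le_left _ _)
    refine Nat.cast_le.2 (Finset.card_le_card ?_)
    intro p hp
    unfold GP at hp ⊢
    rw [Finset.mem_filter] at hp ⊢
    refine ⟨hp.1, fun r hr => ?_⟩
    exact ⟨(hp.2 r hr).1, hle.trans (hp.2 r hr).2⟩
  refine le_trans ?_ hsub
  have hSG := G1_.SG_lower D.Q hD12 (x ^ c0)
  have hSGX : qf D.Q * (1 / 2) * (x / Real.log x ^ 2) ≤
      qf D.Q * SG D.Q (x ^ c0) * (x / Real.log x ^ 2) :=
    mul_le_mul_of_nonneg_right (mul_le_mul_of_nonneg_left hSG hq.le) hX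
  have hmin : min c0 e ≤ e := min_le_right _ _
  have hA : min c0 e * (x / Real.log x ^ 2) ≤ e * (x / Real.log x ^ 2) :=
    mul_le_mul_of_nonneg_right hmin hX
  have hB : e * (x / Real.log x ^ 2) =
      (qf D.Q * (1 / 2) * (x / Real.log x ^ 2)) * (0.0045 / Real.sqrt c0) := by rw [he]; ring
  have hC : (qf D.Q * (1 / 2) * (x / Real.log x ^ 2)) * (0.0045 / Real.sqrt c0) ≤
      (qf D.Q * SG D.Q (x ^ c0) * (x / Real.log x ^ 2)) * (0.0045 / Real.sqrt c0) :=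
    mul_le_mul_of_nonneg_right hSGX (by positivity)
  have hDD : (qf D.Q * SG D.Q (x ^ c0) * (x / Real.log x ^ 2)) * (0.0045 / Real.sqrt c0) =
      qf D.Q * SG D.Q (x ^ c0) * (x / Real.log x ^ 2) * ((0.0644 - 0.003) / Real.sqrt c0) -
      qf D.Q * SG D.Q (x ^ c0) * (x / Real.log x ^ 2) * ((0.0539 + 0.003) / Real.sqrt c0) := by ring
  linarith

end Pool.Agent.H95R2.TG
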