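import Mathlib
import Pool.Agent.H95R2.TG.Defs
import Pool.Agent.H95R2.TI.A3
import Pool.Agent.H95R2.TI.C1
import Pool.Agent.H95R2.TI.C2
import Pool.Agent.H95R2.TI.C3
import Pool.Agent.H95R2.TI.C4
import Pool.Agent.H95R2.TI.C5
import Pool.Agent.H95R2.TI.C6
import Pool.Agent.H95R2.TI.C7
import Pool.Agent.H95R2.TI.E1
import Pool.Agent.H95R2.TG.A1
import Pool.Agent.H95R2.TG.A2
import Pool.Agent.H95R2.TG.A4
import Pool.Agent.H95R2.TG.B1
import Pool.Agent.H95R2.TG.B2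
import Pool.Agent.H95R2.TG.B3
import Pool.Agent.H95R2.TG.B4
import Pool.Agent.H95R2.TG.C8
import Pool.Agent.H95R2.TG.D1
import Pool.Agent.H95R2.TG.E2
import Pool.Agent.H95R2.TG.E3
import Pool.Agent.H95R2.TG.E4
import Pool.Agent.H95R2.TG.E5
import Pool.Agent.H95R2.TG.F1
import Pool.Agent.H95R2.TG.F2K
import Pool.Agent.H95R2.TG.F3
import Pool.Agent.H95R2.TG.F4
import Pool.Agent.H95R2.TG.G1

set_option autoImplicit false

namespace Pool.Agent.H95R2.TG

theorem main_holds : MAIN := by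
  have hM : MERT := mert
  have hI1 : Pool.Agent.H95R2.TI.II1 := Pool.Agent.H95R2.TI.ii1 Pool.Agent.H95R2.TI.nu1
  have hI2 : Pool.Agent.H95R2.TI.II2 :=
    Pool.Agent.H95R2.TI.ii2 Pool.Agent.H95R2.TI.nu2 Pool.Agent.H95R2.TI.nu3
  have hA : ANA := ana hM (eqd hM) Pool.Agent.H95R2.TI.lip hI1 hI2
  have hB : BASE := base base1 pntd
  have hL : LOW := low hB buch rec_sieve hA Pool.Agent.H95R2.TI.topn pntd Pool.Agent.H95R2.TI.vml
  have hP : PAIR := pair (jlow Pool.Agent.H95R2.TI.rou rnk) selb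
  have hbad : BAD := bad hP (ksum hM (wbd hM)) par
  exact main_tg hL hbad

end Pool.Agent.H95R2.TG
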