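import Mathlib
import Pool.Agent.H95R2.TG.Defs

/-! Task H1: (p+1)/2 for the primes p in [N,2N]. -/

set_option autoImplicit false

open Finset Filter

namespace Pool.Agent.H95R2.TG

open Pool.Agent.H95R2.TI (VM AP DD FS fS cA Lg hk VML ROU II1 II2 LIP TOPN)
open scoped Classical

namespace H1

/-- the data for (p+1)/2 -/
def D1 : Dat := ⟨1, 1, 2, 24, 1⟩

theorem nn_D1 (p : ℕ) : nn D1 p = (p + 1) / 2 := by
  unfold nn D1
  simp only [Nat.cast_one, one_mul, Nat.cast_ofNat]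
  omega

theorem good_D1 : Good D1 := by
  refine ⟨by decide, by decide, by decide, by decide, by decide, by decide, ?_, ?_⟩
  · intro r hr h
    have h2 : (r : ℤ) ∣ 2 := by
      have h3 : ((D1.a : ℤ) * D1.g * D1.b) = 2 := by decide
      rwa [h3] at h
    have h3 : r ∣ 2 := by exact_mod_cast h2
    exact h3.trans (by decide)
  · intro p hp _
    have h1 : p % 24 = 1 := hp
    have h2 : nn D1 p = (p + 1) / 2 := nn_D1 p
    rw [h2]
    refine ⟨?_, ?_, by omega⟩
    · show ((2 : ℕ) : ℤ) * (((p + 1) / 2 : ℕ) : ℤ) = ((1 : ℕ) : ℤ) * p + 1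
      push_cast
      omega
    · show Nat.Coprime ((p + 1) / 2) 24
      have e : (24 : ℕ) = 2 ^ 3 * 3 := by norm_num
      rw [e]
      refine Nat.Coprime.mul_right (Nat.Coprime.pow_right 3 ?_) ?_
      · exact ((Nat.Prime.coprime_iff_not_dvd Nat.prime_two).2 (by omega)).symm
      · exact ((Nat.Prime.coprime_iff_not_dvd Nat.prime_three).2 (by omega)).symm

end H1

theorem half (h : MAIN) : HALF := by
  obtain ⟨c, hc, hev⟩ := h H1.D1 H1.good_D1
  obtain ⟨X1, hX1⟩ := eventually_atTop.1 hev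
  refine ⟨c / 2, by linarith, max 2 ⌈X1⌉₊, fun N hN => ?_⟩
  have hN2 : 2 ≤ N := le_trans (le_max_left _ _) hN
  have hNX : X1 ≤ (N : ℝ) :=
    (Nat.le_ceil X1).trans (by exact_mod_cast le_trans (le_max_right _ _) hN)
  have hN2' : (2 : ℝ) ≤ (N : ℝ) := by exact_mod_cast hN2
  have h1 := hX1 (2 * (N : ℝ)) (by linarith)
  have hlog : 0 < Real.log N := Real.log_pos (by linarith)
  have hlog2 : Real.log (2 * (N : ℝ)) ≤ 2 * Real.log N := by
    have h2 : 2 * Real.log N = Real.log ((N : ℝ) * N) := by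
      rw [Real.log_mul (by positivity) (by positivity)]
      ring
    rw [h2]
    exact Real.log_le_log (by positivity) (by nlinarith)
  have hlog3 : 0 < Real.log (2 * (N : ℝ)) := Real.log_pos (by linarith)
  have hsq : Real.log (2 * (N : ℝ)) ^ 2 ≤ 4 * Real.log N ^ 2 := by nlinarith
  have h3 : c / 2 * ((N : ℝ) / Real.log N ^ 2) ≤ c * (2 * (N : ℝ) / Real.log (2 * (N : ℝ)) ^ 2) := by
    have h4 : (2 * (N : ℝ)) / (4 * Real.log N ^ 2) ≤ 2 * (N : ℝ) / Real.log (2 * (N : ℝ)) ^ 2 :=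
      div_le_div_of_nonneg_left (by positivity) (by positivity) hsq
    have h5 : c / 2 * ((N : ℝ) / Real.log N ^ 2) = c * ((2 * (N : ℝ)) / (4 * Real.log N ^ 2)) := by
      field_simp
      ring
    rw [h5]
    exact mul_le_mul_of_nonneg_left h4 hc.le
  refine h3.trans (h1.trans ?_)
  have hsub : GP H1.D1 (2 * (N : ℝ)) c ⊆ (Icc N (2 * N)).filter (fun p : ℕ => p.Prime ∧
      ∀ r ∈ ((p + 1) / 2).primeFactors, r % 4 = 1 ∧ (N : ℝ) ^ (c / 2) ≤ (r : ℝ)) := by
    intro p hp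
    unfold GP PX at hp
    rw [mem_filter, mem_filter, mem_Icc] at hp
    obtain ⟨⟨⟨-, hp1⟩, hpp, hp2, -⟩, hp3⟩ := hp
    simp only [Finset.mem_filter, Finset.mem_Icc]
    refine ⟨⟨?_, ?_⟩, hpp, ?_⟩
    · have h6 : (N : ℝ) < p := by linarith
      exact le_of_lt (by exact_mod_cast h6)
    · have h6 : (⌊2 * (N : ℝ)⌋₊ : ℝ) ≤ 2 * (N : ℝ) := Nat.floor_le (by positivity)
      have h7 : (p : ℝ) ≤ 2 * (N : ℝ) := le_trans (by exact_mod_cast hp1) h6
      exact_mod_cast h7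
    · intro r hr
      rw [H1.nn_D1] at hp3
      obtain ⟨h6, h7⟩ := hp3 r hr
      refine ⟨h6, le_trans ?_ h7⟩
      calc (N : ℝ) ^ (c / 2) ≤ (N : ℝ) ^ c :=
            Real.rpow_le_rpow_of_exponent_le (by linarith) (by linarith)
        _ ≤ (2 * (N : ℝ)) ^ c := Real.rpow_le_rpow (by positivity) (by linarith) hc.le
  exact_mod_cast card_le_card hsub

end Pool.Agent.H95R2.TG
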