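import Mathlib
import Pool.Agent.H95R2.TG.Defs

set_option autoImplicit false

open Finset Filter

namespace Pool.Agent.H95R2.TG

open Pool.Agent.H95R2.TI (VM AP DD FS fS cA Lg hk VML ROU II1 II2 LIP TOPN)
open scoped Classical

namespace H2_

/-- the data of `2p - 1` -/
def dat : Dat := { a := 2, b := -1, g := 1, Q := 12, p0 := 1 }

theorem nn_dat {p : ℕ} (hp : 1 ≤ p) : nn dat p = 2 * p - 1 := by
  have h1 : nn dat p = ((((2 : ℕ) : ℤ) * p + (-1)) / ((1 : ℕ) : ℤ)).toNat := rfl
  rw [h1]
  omega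

theorem good : Good dat := by
  refine ⟨by norm_num [dat], by norm_num [dat], by norm_num [dat], by norm_num [dat],
    by norm_num [dat], by norm_num [dat], ?_, ?_⟩
  · intro r hr h
    have h1 : (r : ℤ) ∣ 2 := by
      have : ((dat.a : ℤ) * dat.g * dat.b) = -2 := by norm_num [dat]
      rw [this] at h
      exact (dvd_neg.mp h)
    have h2 : r ∣ 2 := by exact_mod_cast h1
    exact h2.trans (show 2 ∣ 12 by norm_num)
  · intro p hp hb
    have h1 : 1 < p := by
      have : dat.b.natAbs = 1 := by norm_num [dat]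
      rwa [this] at hb
    have hp1 : p % 12 = 1 := hp
    rw [nn_dat h1.le]
    refine ⟨?_, ?_, by omega⟩
    · have e1 : (dat.g : ℤ) = 1 := rfl
      have e2 : (dat.a : ℤ) = 2 := rfl
      have e3 : dat.b = -1 := rfl
      rw [e1, e2, e3]
      push_cast [Nat.cast_sub (show 1 ≤ 2 * p by omega)]
      ring
    · show Nat.Coprime (2 * p - 1) 12
      have h2 : (2 * p - 1) % 12 = 1 := by omega
      rw [Nat.coprime_iff_gcd_eq_one, Nat.gcd_comm, Nat.gcd_rec, h2]
      norm_num

theorem mem_filter' {α : Type*} {P : α → Prop} {inst : DecidablePred P} {s : Finset α} {a : α}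
    (h1 : a ∈ s) (h2 : P a) : a ∈ @Finset.filter α P inst s := Finset.mem_filter.mpr ⟨h1, h2⟩

end H2_

open H2_ in
theorem doub (h : MAIN) : DOUB := by
  obtain ⟨c, hc, hm⟩ := h dat good
  refine ⟨c, hc, ?_⟩
  have ht : Tendsto (fun N : ℕ => 2 * (N : ℝ)) atTop atTop :=
    tendsto_natCast_atTop_atTop.const_mul_atTop (by norm_num)
  have h1 := ht.eventually hm
  rw [Filter.eventually_atTop] at h1
  obtain ⟨N0, hN0⟩ := h1
  refine ⟨max N0 6, fun N hN => ?_⟩
  have h2 := hN0 N (le_trans (le_max_left _ _) hN)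
  have h6 : 6 ≤ N := le_trans (le_max_right _ _) hN
  have hN1 : (6 : ℝ) ≤ N := by exact_mod_cast h6
  have hlog : 0 < Real.log N := Real.log_pos (by linarith)
  have hlog2 : Real.log (2 * N) ≤ 1.4 * Real.log N := by
    rw [Real.log_mul (by norm_num) (by linarith)]
    have e1 : Real.log 2 < 0.6931471808 := Real.log_two_lt_d9
    have e2 : 2.5 * Real.log 2 ≤ Real.log N := by
      have e3 : Real.log 6 ≤ Real.log N := Real.log_le_log (by norm_num) hN1
      have e4 : 2.5 * Real.log 2 ≤ Real.log 6 := by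
        have e5 : Real.log 6 = Real.log 2 + Real.log 3 := by
          rw [← Real.log_mul (by norm_num) (by norm_num)]
          norm_num
        have e6 : (3 : ℝ) * Real.log 2 ≤ 2 * Real.log 3 := by
          have e7 : (3 : ℝ) * Real.log 2 = Real.log (2 ^ 3) := by
            rw [Real.log_pow]; norm_num
          have e8 : (2 : ℝ) * Real.log 3 = Real.log (3 ^ 2) := by
            rw [Real.log_pow]; norm_num
          rw [e7, e8]
          exact Real.log_le_log (by norm_num) (by norm_num)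
        linarith
      linarith
    linarith
  have hlog20 : 0 < Real.log (2 * N) := Real.log_pos (by linarith)
  have h3 : (N : ℝ) / Real.log N ^ 2 ≤ 2 * N / Real.log (2 * N) ^ 2 := by
    rw [div_le_div_iff₀ (by positivity) (by positivity)]
    have e1 : Real.log (2 * N) ^ 2 ≤ 2 * Real.log N ^ 2 := by
      have : Real.log (2 * N) ^ 2 ≤ (1.4 * Real.log N) ^ 2 := by gcongr
      nlinarith [sq_nonneg (Real.log N)]
    nlinarith
  have h4 : (GP dat (2 * N) c).card ≤ ((Icc N (2 * N)).filter (fun p : ℕ => p.Prime ∧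
      ∀ r ∈ (2 * p - 1).primeFactors, r % 4 = 1 ∧ (N : ℝ) ^ c ≤ (r : ℝ))).card := by
    refine Finset.card_le_card ?_
    intro p hp
    unfold GP PX at hp
    rw [Finset.mem_filter, Finset.mem_filter, Finset.mem_Icc] at hp
    obtain ⟨⟨⟨hp1, hp2⟩, hp3, hp4, -⟩, hp5⟩ := hp
    rw [nn_dat hp1] at hp5
    refine mem_filter' (Finset.mem_Icc.mpr ⟨?_, ?_⟩)
      ⟨hp3, fun r hr => ⟨(hp5 r hr).1, le_trans ?_ (hp5 r hr).2⟩⟩
    · have : (N : ℝ) < p := by linarith
      exact_mod_cast this.le
    · have e1 : ⌊(2 * (N : ℝ))⌋₊ = 2 * N := by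
        have : (2 * (N : ℝ)) = ((2 * N : ℕ) : ℝ) := by push_cast; ring
        rw [this, Nat.floor_natCast]
      rwa [e1] at hp2
    · exact Real.rpow_le_rpow (by positivity) (by linarith) hc.le
  calc c * (N / Real.log N ^ 2) ≤ c * (2 * N / Real.log (2 * N) ^ 2) :=
        mul_le_mul_of_nonneg_left h3 hc.le
    _ ≤ ((GP dat (2 * N) c).card : ℝ) := h2
    _ ≤ _ := by exact_mod_cast h4

end Pool.Agent.H95R2.TG
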