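import Mathlib
import Pool.Agent.H95R2.TG.Defs

set_option autoImplicit false

open Finset Filter

namespace Pool.Agent.H95R2.TG

open Pool.Agent.H95R2.TI (VM AP DD FS fS cA Lg hk VML ROU II1 II2 LIP TOPN)
open scoped Classical

namespace H3

theorem exists_c (k : ℕ) (hk2 : 2 ∣ k) :
    ∃ c : ℕ, (c + k) % 4 = 1 ∧ c % 3 ≠ 0 ∧ (c + k) % 3 ≠ 0 := by
  have h : k % 12 = 0 ∨ k % 12 = 2 ∨ k % 12 = 4 ∨ k % 12 = 6 ∨ k % 12 = 8 ∨ k % 12 = 10 := by
    omega
  rcases h with h | h | h | h | h | h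
  · exact ⟨1, by omega, by omega, by omega⟩
  · exact ⟨11, by omega, by omega, by omega⟩
  · exact ⟨1, by omega, by omega, by omega⟩
  · exact ⟨7, by omega, by omega, by omega⟩
  · exact ⟨5, by omega, by omega, by omega⟩
  · exact ⟨7, by omega, by omega, by omega⟩

theorem exists_p0 (k : ℕ) (hk : 0 < k) (hk2 : 2 ∣ k) : ∃ p0 : ℕ, ∀ q : ℕ,
    q ≡ p0 [MOD 12 * k] → Nat.Coprime q (12 * k) ∧ Nat.Coprime (q + k) (12 * k) ∧
      (q + k) % 4 = 1 := by
  obtain ⟨c, hc1, hc2, hc3⟩ := exists_c k hk2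
  let m : ℕ := ∏ r ∈ k.primeFactors.filter (fun r => r ≠ 2 ∧ r ≠ 3), r
  have hco : Nat.Coprime 12 m := by
    apply Nat.Coprime.prod_right
    intro r hr
    rw [Finset.mem_filter, Nat.mem_primeFactors] at hr
    obtain ⟨⟨hr1, -, -⟩, hr2, hr3⟩ := hr
    have e1 : Nat.Coprime 2 r := (Nat.coprime_primes Nat.prime_two hr1).2 (Ne.symm hr2)
    have e2 : Nat.Coprime 3 r := (Nat.coprime_primes Nat.prime_three hr1).2 (Ne.symm hr3)
    have e3 : (12 : ℕ) = 2 * 2 * 3 := by norm_num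
    rw [e3]
    exact (e1.mul_left e1).mul_left e2
  obtain ⟨p0, hp1, hp2⟩ := Nat.chineseRemainder hco c 1
  refine ⟨p0, fun q hq => ?_⟩
  have hq12 : q % 12 = c % 12 := by
    have e1 : q ≡ p0 [MOD 12] := hq.of_mul_right k
    exact e1.trans hp1
  have hqr : ∀ r : ℕ, r.Prime → r ∣ k → r ≠ 2 → r ≠ 3 → ¬ r ∣ q := by
    intro r hr hrk hr2 hr3 hrq
    have hrm : r ∣ m := Finset.dvd_prod_of_mem _ (by
      rw [Finset.mem_filter, Nat.mem_primeFactors]
      exact ⟨⟨hr, hrk, hk.ne'⟩, hr2, hr3⟩)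
    have e1 : q ≡ p0 [MOD r] := hq.of_dvd (hrk.mul_left 12)
    have e2 : p0 ≡ 1 [MOD r] := Nat.ModEq.of_dvd hrm hp2
    have e3 : q ≡ 1 [MOD r] := e1.trans e2
    have e4 : r ∣ 1 := (Nat.ModEq.dvd_iff e3 dvd_rfl).1 hrq
    exact hr.one_lt.ne' (Nat.dvd_one.1 e4)
  have hdiv : ∀ r : ℕ, r.Prime → r ∣ 12 * k → r ≠ 2 → r ≠ 3 → r ∣ k := by
    intro r hr hrk hr2 hr3
    rcases (Nat.Prime.dvd_mul hr).1 hrk with h12 | h
    · exfalso
      have e3 : (12 : ℕ) = 2 * (2 * 3) := by norm_num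
      rw [e3, Nat.Prime.dvd_mul hr, Nat.Prime.dvd_mul hr] at h12
      rcases h12 with h | h | h
      · exact hr2 ((Nat.prime_dvd_prime_iff_eq hr Nat.prime_two).1 h)
      · exact hr2 ((Nat.prime_dvd_prime_iff_eq hr Nat.prime_two).1 h)
      · exact hr3 ((Nat.prime_dvd_prime_iff_eq hr Nat.prime_three).1 h)
    · exact h
  refine ⟨?_, ?_, by omega⟩
  · apply Nat.coprime_of_dvd
    intro r hr hrq hrk
    by_cases hr2 : r = 2
    · subst hr2; omega
    by_cases hr3 : r = 3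
    · subst hr3; omega
    exact hqr r hr (hdiv r hr hrk hr2 hr3) hr2 hr3 hrq
  · apply Nat.coprime_of_dvd
    intro r hr hrq hrk
    by_cases hr2 : r = 2
    · subst hr2; omega
    by_cases hr3 : r = 3
    · subst hr3; omega
    have hrk' := hdiv r hr hrk hr2 hr3
    exact hqr r hr hrk' hr2 hr3 ((Nat.dvd_add_left hrk').1 hrq)

end H3

open H3 in
theorem shft (h : MAIN) : SHFT := by
  intro k hk hk2
  obtain ⟨p0, hp0⟩ := exists_p0 k hk hk2
  let D : Dat := ⟨1, (k : ℤ), 1, 12 * k, p0⟩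
  have hnn : ∀ p, nn D p = p + k := by
    intro p
    have e1 : nn D p = ((((1 : ℕ) : ℤ) * p + (k : ℤ)) / ((1 : ℕ) : ℤ)).toNat := rfl
    rw [e1]
    simp only [Nat.cast_one, one_mul, Int.ediv_one]
    omega
  have hG : Good D := by
    refine ⟨Nat.one_pos, ?_, Nat.one_pos, ?_, ?_, ?_, ?_, ?_⟩
    · change (k : ℤ) ≠ 0
      omega
    · change 0 < 12 * k
      omega
    · exact Dvd.intro k rfl
    · exact (hp0 p0 rfl).1
    · intro r hr hrd
      have e1 : ((D.a : ℤ) * D.g * D.b) = (k : ℤ) := by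
        change ((1 : ℕ) : ℤ) * ((1 : ℕ) : ℤ) * (k : ℤ) = k
        simp
      rw [e1] at hrd
      exact (Int.natCast_dvd_natCast.1 hrd).mul_left 12
    · intro p hp hpb
      obtain ⟨h1, h2, h3⟩ := hp0 p hp
      refine ⟨?_, ?_, ?_⟩
      · rw [hnn]
        change ((1 : ℕ) : ℤ) * ((p + k : ℕ) : ℤ) = ((1 : ℕ) : ℤ) * p + (k : ℤ)
        push_cast
        ring
      · rw [hnn]
        exact h2
      · rw [hnn]
        exact h3
  obtain ⟨c, hc, hev⟩ := h D hG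
  obtain ⟨x0, hx0⟩ := eventually_atTop.1 hev
  refine ⟨c / 2, by positivity, max 2 ⌈x0⌉₊, fun N hN => ?_⟩
  have hN2 : 2 ≤ N := le_trans (le_max_left _ _) hN
  have hNx : x0 ≤ 2 * (N : ℝ) := by
    have e1 : (⌈x0⌉₊ : ℝ) ≤ N := by exact_mod_cast le_trans (le_max_right _ _) hN
    have e2 := Nat.le_ceil x0
    have e3 : (0 : ℝ) ≤ N := Nat.cast_nonneg N
    linarith
  have hmain := hx0 (2 * (N : ℝ)) hNx
  have hN2' : (2 : ℝ) ≤ N := by exact_mod_cast hN2
  have hlog : 0 < Real.log N := Real.log_pos (by linarith)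
  have hlog2 : Real.log (2 * N) ≤ 2 * Real.log N := by
    rw [Real.log_mul (by norm_num) (by linarith)]
    have : Real.log 2 ≤ Real.log N := Real.log_le_log (by norm_num) hN2'
    linarith
  have hlog3 : 0 < Real.log (2 * N) := Real.log_pos (by linarith)
  have h1 : c / 2 * ((N : ℝ) / Real.log N ^ 2) ≤ c * (2 * N / Real.log (2 * N) ^ 2) := by
    have e1 : Real.log (2 * N) ^ 2 ≤ (2 * Real.log N) ^ 2 :=
      pow_le_pow_left₀ hlog3.le hlog2 2
    have e2 : (2 * (N : ℝ)) / (2 * Real.log N) ^ 2 ≤ 2 * N / Real.log (2 * N) ^ 2 :=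
      div_le_div_of_nonneg_left (by linarith) (by positivity) e1
    calc c / 2 * ((N : ℝ) / Real.log N ^ 2) = c * ((2 * (N : ℝ)) / (2 * Real.log N) ^ 2) := by
          field_simp
      _ ≤ _ := mul_le_mul_of_nonneg_left e2 hc.le
  refine h1.trans (hmain.trans ?_)
  have hsub : GP D (2 * (N : ℝ)) c ⊆ (Icc N (2 * N)).filter (fun p : ℕ => p.Prime ∧
      ∀ r ∈ (p + k).primeFactors, r % 4 = 1 ∧ (N : ℝ) ^ (c / 2) ≤ (r : ℝ)) := by
    intro p hp
    unfold GP PX at hp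
    rw [Finset.mem_filter, Finset.mem_filter, Finset.mem_Icc] at hp
    obtain ⟨⟨⟨hp1, hp2⟩, hp3, hp4, hp5⟩, hp6⟩ := hp
    rw [Finset.mem_filter, Finset.mem_Icc]
    have e1 : (p : ℝ) ≤ 2 * N := by
      have := (Nat.le_floor_iff (by linarith : (0 : ℝ) ≤ 2 * N)).1 hp2
      exact this
    have e2 : (N : ℝ) < p := by linarith
    refine ⟨⟨?_, ?_⟩, hp3, fun r hr => ?_⟩
    · exact_mod_cast e2.le
    · exact_mod_cast e1
    · rw [hnn] at hp6
      obtain ⟨h2, h3⟩ := hp6 r hr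
      refine ⟨h2, le_trans ?_ h3⟩
      calc (N : ℝ) ^ (c / 2) ≤ (N : ℝ) ^ c :=
            Real.rpow_le_rpow_of_exponent_le (by linarith) (by linarith)
        _ ≤ (2 * (N : ℝ)) ^ c := Real.rpow_le_rpow (by linarith) (by linarith) hc.le
  exact_mod_cast Finset.card_le_card hsub

end Pool.Agent.H95R2.TG
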