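import Mathlib
import Pool.Agent.H95R2.TG.Defs

set_option autoImplicit false

open Finset Filter

namespace Pool.Agent.H95R2.TG

open Pool.Agent.H95R2.TI (VM AP DD FS fS cA Lg hk VML ROU II1 II2 LIP TOPN)
open scoped Classical

namespace H5_

/-- the data of `(p - 1) / 2^k` -/
def dat (k : ℕ) : Dat := { a := 1, b := -1, g := 2 ^ k, Q := 2 ^ k * 12, p0 := 1 + 10 ^ k }

theorem five (k : ℕ) : 5 ^ k % 12 = 1 ∨ 5 ^ k % 12 = 5 := by
  induction k with
  | zero => simp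
  | succ k ih => rw [pow_succ]; omega

theorem key (k p : ℕ) (hp : p ≡ 1 + 10 ^ k [MOD 2 ^ k * 12]) (h1 : 1 ≤ p) :
    ∃ n : ℕ, p = 2 ^ k * n + 1 ∧ n ≡ 5 ^ k [MOD 12] := by
  obtain ⟨m, rfl⟩ : ∃ m, p = 1 + m := ⟨p - 1, by omega⟩
  have h2 : m ≡ 10 ^ k [MOD 2 ^ k * 12] := Nat.ModEq.add_left_cancel' 1 hp
  have h3 : (10 : ℕ) ^ k = 2 ^ k * 5 ^ k := by rw [← mul_pow]; norm_num
  rw [h3] at h2
  have h4 : 2 ^ k ∣ m := (Nat.ModEq.dvd_iff h2 (Dvd.intro _ rfl)).2 (Dvd.intro _ rfl)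
  obtain ⟨n, rfl⟩ := h4
  refine ⟨n, by ring, ?_⟩
  exact Nat.ModEq.mul_left_cancel' (by positivity) h2

theorem nn_dat (k n : ℕ) : nn (dat k) (2 ^ k * n + 1) = n := by
  have h1 : nn (dat k) (2 ^ k * n + 1) =
    ((((1 : ℕ) : ℤ) * ((2 ^ k * n + 1 : ℕ) : ℤ) + (-1)) / ((2 ^ k : ℕ) : ℤ)).toNat := rfl
  rw [h1]
  have h2 : (((1 : ℕ) : ℤ) * ((2 ^ k * n + 1 : ℕ) : ℤ) + (-1)) = ((2 ^ k : ℕ) : ℤ) * (n : ℤ) := by
    push_cast; ring
  rw [h2, Int.mul_ediv_cancel_left _ (by positivity)]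
  exact Int.toNat_natCast n

theorem cop (k n : ℕ) (h : n % 12 = 1 ∨ n % 12 = 5) : Nat.Coprime n (2 ^ k * 12) := by
  have e2 : Nat.Coprime n 2 := ((Nat.Prime.coprime_iff_not_dvd Nat.prime_two).2 (by omega)).symm
  have e3 : Nat.Coprime n 3 := ((Nat.Prime.coprime_iff_not_dvd Nat.prime_three).2 (by omega)).symm
  have e12 : (12 : ℕ) = 2 * 2 * 3 := by norm_num
  rw [e12]
  exact (Nat.Coprime.pow_right k e2).mul_right ((e2.mul_right e2).mul_right e3)

theorem good (k : ℕ) (hk : 1 ≤ k) : Good (dat k) := by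
  have e10 : (10 : ℕ) ^ k % 6 = 4 := by
    obtain ⟨j, rfl⟩ : ∃ j, k = j + 1 := ⟨k - 1, by omega⟩
    clear hk
    induction j with
    | zero => norm_num
    | succ j ih => rw [pow_succ]; omega
  refine ⟨Nat.one_pos, by show (-1 : ℤ) ≠ 0; norm_num, by show 0 < 2 ^ k; positivity,
    by show 0 < 2 ^ k * 12; positivity, Dvd.intro_left _ rfl, ?_, ?_, ?_⟩
  · show Nat.Coprime (1 + 10 ^ k) (2 ^ k * 12)
    have e2 : Nat.Coprime (1 + 10 ^ k) 2 :=
      ((Nat.Prime.coprime_iff_not_dvd Nat.prime_two).2 (by omega)).symm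
    have e3 : Nat.Coprime (1 + 10 ^ k) 3 :=
      ((Nat.Prime.coprime_iff_not_dvd Nat.prime_three).2 (by omega)).symm
    have e12 : (12 : ℕ) = 2 * 2 * 3 := by norm_num
    rw [e12]
    exact (Nat.Coprime.pow_right k e2).mul_right ((e2.mul_right e2).mul_right e3)
  · intro r hr h
    have h1 : (r : ℤ) ∣ ((2 ^ k : ℕ) : ℤ) := by
      have : (((dat k).a : ℤ) * (dat k).g * (dat k).b) = -((2 ^ k : ℕ) : ℤ) := by
        show ((1 : ℕ) : ℤ) * ((2 ^ k : ℕ) : ℤ) * (-1) = _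
        push_cast; ring
      rw [this] at h
      exact (Int.dvd_neg).1 h
    have h2 : r ∣ 2 ^ k := by exact_mod_cast h1
    exact h2.trans (Dvd.intro _ rfl)
  · intro p hp hb
    have hb' : 1 < p := hb
    obtain ⟨n, hn, hn5⟩ := key k p hp (by omega)
    subst hn
    rw [nn_dat]
    have h5 : n % 12 = 1 ∨ n % 12 = 5 := by
      have h6 : n % 12 = 5 ^ k % 12 := hn5
      rw [h6]; exact five k
    refine ⟨?_, cop k n h5, by omega⟩
    show ((2 ^ k : ℕ) : ℤ) * (n : ℤ) = ((1 : ℕ) : ℤ) * ((2 ^ k * n + 1 : ℕ) : ℤ) + (-1)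
    push_cast; ring

theorem mem_filter' {α : Type*} {P : α → Prop} {inst : DecidablePred P} {s : Finset α} {a : α}
    (h1 : a ∈ s) (h2 : P a) : a ∈ @Finset.filter α P inst s := Finset.mem_filter.mpr ⟨h1, h2⟩

end H5_

open H5_ in
theorem powk (h : MAIN) (k : ℕ) (hk : 1 ≤ k) : ∃ c : ℝ, 0 < c ∧ ∃ N0 : ℕ, ∀ N : ℕ, N0 ≤ N →
    c * (N / Real.log N ^ 2) ≤
      (((Icc N (2 * N)).filter (fun p : ℕ => p.Prime ∧ ∃ n : ℕ, p = 2 ^ k * n + 1 ∧
        ∀ r : ℕ, r.Prime → r ∣ n → r % 4 = 1 ∧ (N : ℝ) ^ c ≤ (r : ℝ))).card : ℝ) := by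
  obtain ⟨c, hc, hm⟩ := h (dat k) (good k hk)
  refine ⟨c, hc, ?_⟩
  have ht : Tendsto (fun N : ℕ => 2 * (N : ℝ)) atTop atTop :=
    tendsto_natCast_atTop_atTop.const_mul_atTop (by norm_num)
  have h1 := ht.eventually hm
  rw [Filter.eventually_atTop] at h1
  obtain ⟨N0, hN0⟩ := h1
  refine ⟨max N0 6, fun N hN => ?_⟩
  have h2 := hN0 N (le_trans (le_max_left _ _) hN)
  have h6 : 6 ≤ N := le_trans (le_max_right _ _) hN
  have hN1 : (6 : ℝ) ≤ N := by exact_mod_cast h6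
  have hlog : 0 < Real.log N := Real.log_pos (by linarith)
  have hlog2 : Real.log (2 * N) ≤ 1.4 * Real.log N := by
    rw [Real.log_mul (by norm_num) (by linarith)]
    have e1 : Real.log 2 < 0.6931471808 := Real.log_two_lt_d9
    have e2 : 2.5 * Real.log 2 ≤ Real.log N := by
      have e3 : Real.log 6 ≤ Real.log N := Real.log_le_log (by norm_num) hN1
      have e4 : 2.5 * Real.log 2 ≤ Real.log 6 := by
        have e5 : Real.log 6 = Real.log 2 + Real.log 3 := by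
          rw [← Real.log_mul (by norm_num) (by norm_num)]
          norm_num
        have e6 : (3 : ℝ) * Real.log 2 ≤ 2 * Real.log 3 := by
          have e7 : (3 : ℝ) * Real.log 2 = Real.log (2 ^ 3) := by
            rw [Real.log_pow]; norm_num
          have e8 : (2 : ℝ) * Real.log 3 = Real.log (3 ^ 2) := by
            rw [Real.log_pow]; norm_num
          rw [e7, e8]
          exact Real.log_le_log (by norm_num) (by norm_num)
        linarith
      linarith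
    linarith
  have hlog20 : 0 < Real.log (2 * N) := Real.log_pos (by linarith)
  have h3 : (N : ℝ) / Real.log N ^ 2 ≤ 2 * N / Real.log (2 * N) ^ 2 := by
    rw [div_le_div_iff₀ (by positivity) (by positivity)]
    have e1 : Real.log (2 * N) ^ 2 ≤ 2 * Real.log N ^ 2 := by
      have : Real.log (2 * N) ^ 2 ≤ (1.4 * Real.log N) ^ 2 := by gcongr
      nlinarith [sq_nonneg (Real.log N)]
    nlinarith
  have h4 : (GP (dat k) (2 * N) c).card ≤ ((Icc N (2 * N)).filter (fun p : ℕ => p.Prime ∧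
      ∃ n : ℕ, p = 2 ^ k * n + 1 ∧
        ∀ r : ℕ, r.Prime → r ∣ n → r % 4 = 1 ∧ (N : ℝ) ^ c ≤ (r : ℝ))).card := by
    refine Finset.card_le_card ?_
    intro p hp
    unfold GP PX at hp
    rw [Finset.mem_filter, Finset.mem_filter, Finset.mem_Icc] at hp
    obtain ⟨⟨⟨hp1, hp2⟩, hp3, hp4, hp6⟩, hp5⟩ := hp
    obtain ⟨n, hn, hn5⟩ := key k p hp6 hp1
    have hn0 : n ≠ 0 := by
      rintro rfl
      rw [hn] at hp3
      simp at hp3
      exact Nat.not_prime_one hp3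
    have hp7 : ∀ r : ℕ, r.Prime → r ∣ n → r % 4 = 1 ∧ (2 * (N : ℝ)) ^ c ≤ (r : ℝ) := by
      intro r hr hrn
      have := hp5 r (by rw [hn, nn_dat]; exact Nat.mem_primeFactors.2 ⟨hr, hrn, hn0⟩)
      exact this
    refine mem_filter' (Finset.mem_Icc.mpr ⟨?_, ?_⟩)
      ⟨hp3, n, hn, fun r hr hrn => ⟨(hp7 r hr hrn).1, le_trans ?_ (hp7 r hr hrn).2⟩⟩
    · have : (N : ℝ) < p := by linarith
      exact_mod_cast this.le
    · have e1 : ⌊(2 * (N : ℝ))⌋₊ = 2 * N := by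
        have : (2 * (N : ℝ)) = ((2 * N : ℕ) : ℝ) := by push_cast; ring
        rw [this, Nat.floor_natCast]
      rwa [e1] at hp2
    · exact Real.rpow_le_rpow (by positivity) (by linarith) hc.le
  calc c * (N / Real.log N ^ 2) ≤ c * (2 * N / Real.log (2 * N) ^ 2) :=
        mul_le_mul_of_nonneg_left h3 hc.le
    _ ≤ ((GP (dat k) (2 * N) c).card : ℝ) := h2
    _ ≤ _ := by exact_mod_cast h4

end Pool.Agent.H95R2.TG
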